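import Pool.Agent.RLB.Basic

/-! numerical facts about the parameters -/

namespace RLB

noncomputable section

open Finset Classical

namespace AP

variable {n : ℕ} (a : AP n)

include a

theorem E_ge_nat : 10 ^ 36 ≤ a.E := by
  have h1 := a.hN
  have h2 := a.hE1
  have h3 : (4 ^ 30) ^ 2 ≤ a.N0 ^ 2 := Nat.pow_le_pow_left h1 2
  have h4 : (10 : ℕ) ^ 36 ≤ (4 ^ 30) ^ 2 := by norm_num
  exact h4.trans (h3.trans h2)

theorem E_ge : (10 : ℝ) ^ 36 ≤ a.E := by exact_mod_cast a.E_ge_nat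

theorem E_pos : (0 : ℝ) < a.E := lt_of_lt_of_le (by positivity) a.E_ge

theorem n_ge : (a.E : ℝ) ^ 10 ≤ n := by exact_mod_cast a.hE2

theorem n_pos : (0 : ℝ) < n := lt_of_lt_of_le (pow_pos a.E_pos 10) a.n_ge

theorem n_big : 10 ^ 6 ≤ n := by
  have h1 := a.E_ge_nat
  have h2 := a.hE2
  have h3 : (10 ^ 36) ^ 10 ≤ a.E ^ 10 := Nat.pow_le_pow_left h1 10
  have h4 : (10 : ℕ) ^ 6 ≤ (10 ^ 36) ^ 10 := by norm_num
  exact h4.trans (h3.trans h2)

/-- `u = 1/E` -/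
theorem inv_E_pos : (0 : ℝ) < 1 / a.E := by have := a.E_pos; positivity

theorem inv_E_le : 1 / (a.E : ℝ) ≤ 1 / 10 ^ 36 :=
  one_div_le_one_div_of_le (by positivity) a.E_ge

theorem eps_pos : 0 < a.eps := a.inv_E_pos

theorem eps_le : a.eps ≤ 1 / 10 ^ 36 := a.inv_E_le

theorem eps4_eq : a.eps4 = a.eps ^ 3 := by unfold eps4 eps; rw [div_pow, one_pow]

theorem eps3_eq : a.eps3 = a.eps ^ 4 := by unfold eps3 eps; rw [div_pow, one_pow]

theorem beta_eq : a.beta = 12 * a.eps ^ 3 := by unfold beta eps; rw [div_pow, one_pow]; ring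

theorem beta_eq' : a.beta = 12 * a.eps4 := by rw [beta_eq, eps4_eq]

theorem eps4_pos : 0 < a.eps4 := by rw [eps4_eq]; exact pow_pos a.eps_pos 3

theorem eps3_pos : 0 < a.eps3 := by rw [eps3_eq]; exact pow_pos a.eps_pos 4

theorem beta_pos : 0 < a.beta := by rw [beta_eq]; have := a.eps_pos; positivity

theorem beta_le : a.beta ≤ 1 / 10 ^ 100 := by
  rw [beta_eq]
  have h1 : a.eps ^ 3 ≤ (1 / 10 ^ 36) ^ 3 := pow_le_pow_left₀ a.eps_pos.le a.eps_le 3
  calc 12 * a.eps ^ 3 ≤ 12 * (1 / 10 ^ 36) ^ 3 := by linarith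
    _ ≤ 1 / 10 ^ 100 := by norm_num

/-- `beta` is much smaller than `eps` -/
theorem beta_le_eps : a.beta ≤ 1 / 10 ^ 70 * a.eps := by
  rw [beta_eq]
  have h1 : a.eps ^ 2 ≤ (1 / 10 ^ 36) ^ 2 := pow_le_pow_left₀ a.eps_pos.le a.eps_le 2
  have h0 := a.eps_pos
  calc 12 * a.eps ^ 3 = 12 * a.eps ^ 2 * a.eps := by ring
    _ ≤ 12 * (1 / 10 ^ 36) ^ 2 * a.eps := by
      apply mul_le_mul_of_nonneg_right _ h0.le
      linarith
    _ ≤ 1 / 10 ^ 70 * a.eps := by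
      apply mul_le_mul_of_nonneg_right _ h0.le
      norm_num

theorem inv_n_pos : (0 : ℝ) < 1 / n := by have := a.n_pos; positivity

theorem inv_n_le_eps : 1 / (n : ℝ) ≤ a.eps ^ 10 := by
  have h := one_div_le_one_div_of_le (pow_pos a.E_pos 10) a.n_ge
  unfold eps
  rw [div_pow, one_pow]
  exact h

/-- `1/n` is much smaller than `eps^4` -/
theorem inv_n_le_eps4' : 1 / (n : ℝ) ≤ 1 / 10 ^ 200 * a.eps ^ 4 := by
  have h1 : a.eps ^ 6 ≤ (1 / 10 ^ 36) ^ 6 := pow_le_pow_left₀ a.eps_pos.le a.eps_le 6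
  have h0 := a.eps_pos
  calc 1 / (n : ℝ) ≤ a.eps ^ 10 := a.inv_n_le_eps
    _ = a.eps ^ 6 * a.eps ^ 4 := by ring
    _ ≤ (1 / 10 ^ 36) ^ 6 * a.eps ^ 4 := by
      apply mul_le_mul_of_nonneg_right h1 (by positivity)
    _ ≤ 1 / 10 ^ 200 * a.eps ^ 4 := by
      apply mul_le_mul_of_nonneg_right _ (by positivity)
      norm_num

/-- `1/n` is much smaller than `beta` -/
theorem inv_n_le_beta : 1 / (n : ℝ) ≤ 1 / 10 ^ 200 * a.beta := by
  refine a.inv_n_le_eps4'.trans ?_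
  apply mul_le_mul_of_nonneg_left _ (by positivity)
  rw [beta_eq]
  have h0 := a.eps_pos
  have h1 : a.eps ≤ 12 := a.eps_le.trans (by norm_num)
  calc a.eps ^ 4 = a.eps * a.eps ^ 3 := by ring
    _ ≤ 12 * a.eps ^ 3 := mul_le_mul_of_nonneg_right h1 (by positivity)

theorem inv_n_le : 1 / (n : ℝ) ≤ 1 / 10 ^ 200 := by
  refine a.inv_n_le_beta.trans ?_
  have h := a.beta_le
  have h1 : a.beta ≤ 1 := h.trans (by norm_num)
  calc 1 / 10 ^ 200 * a.beta ≤ 1 / 10 ^ 200 * 1 := by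
        apply mul_le_mul_of_nonneg_left h1 (by positivity)
    _ = 1 / 10 ^ 200 := by rw [mul_one]

theorem dp_pos : 0 < dp n := by unfold dp; have := a.n_pos; positivity

/-- `(n+1) dp ≤ 1/n` -/
theorem dp_le : ((n : ℝ) + 1) * dp n ≤ 1 / n := by
  have h0 := a.n_pos
  have h1 : (1 : ℝ) ≤ n := by
    have h2 := a.n_big
    have : 1 ≤ n := by omega
    exact_mod_cast this
  unfold dp
  rw [mul_one_div, div_le_div_iff₀ (by positivity) h0]
  have h2 : (2 : ℝ) ≤ (n : ℝ) ^ 3 := by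
    have h3 : (10 : ℝ) ^ 6 ≤ n := by exact_mod_cast a.n_big
    have h4 : (n : ℝ) ^ 1 ≤ (n : ℝ) ^ 3 := pow_le_pow_right₀ h1 (by norm_num)
    rw [pow_one] at h4
    have h5 : (2 : ℝ) ≤ 10 ^ 6 := by norm_num
    linarith
  have h3 : ((n : ℝ) + 1) * n ≤ 2 * n * n := by nlinarith
  calc ((n : ℝ) + 1) * n ≤ 2 * (n * n) := by linarith
    _ ≤ (n : ℝ) ^ 3 * (n * n) := mul_le_mul_of_nonneg_right h2 (by positivity)
    _ = 1 * (n : ℝ) ^ 5 := by ring

theorem dp_le' : dp n ≤ 1 / n := by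
  have h := a.dp_le
  have h0 := a.n_pos
  have h1 := a.dp_pos
  nlinarith

theorem dd_pos : 0 < dd n := by unfold dd; have := a.dp_pos; linarith

theorem dd_le : dd n ≤ 1 / n := by unfold dd; have := a.dp_le'; have := a.dp_pos; linarith

omit a in
theorem lam_eq : lam n = 80 * (1 / n) := by unfold lam; ring

theorem qp_le : qp n ≤ 1 := by
  unfold qp qq
  have := a.dp_le
  linarith

theorem qq_lt : qq n < 1 := by unfold qq; have := a.inv_n_pos; linarith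

theorem qp_le' : qp n ≤ qq n + 1 / n := by
  unfold qp
  have := a.dp_le
  linarith

end AP

end

end RLB
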