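import Pool.Agent.RLB.Embed

/-! G3: the algorithm -/

namespace RLB

noncomputable section

open Finset Classical

variable {n : ℕ} [NeZero n]

/-- the scales -/
def thz (n : ℕ) (z : ℤ) : ℝ := (1 - dd n / 2) ^ (-z)

omit [NeZero n] in
theorem dd_bounds (hn : 0 < n) : 0 < dd n ∧ dd n ≤ 1 / 2 := by
  have h1 : (1 : ℝ) ≤ n := by exact_mod_cast hn
  have h5 : (1 : ℝ) ≤ (n : ℝ) ^ 5 := one_le_pow₀ h1
  unfold dd dp
  refine ⟨by positivity, ?_⟩
  have : (1 : ℝ) / (n : ℝ) ^ 5 ≤ 1 := by
    rw [div_le_one (by positivity)]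
    exact h5
  linarith

/-- number of scales in a period -/
theorem exists_Kn (n : ℕ) [NeZero n] : ∃ K : ℕ, 0 < K ∧ (2 ≤ n → (1 - dd n / 2) ^ K ≤ 4 / n) := by
  by_cases h : 2 ≤ n
  · obtain ⟨h1, h2⟩ := dd_bounds (n := n) (by omega)
    have hnR : (0 : ℝ) < n := by
      have : 0 < n := by omega
      exact_mod_cast this
    obtain ⟨K, hK⟩ := exists_pow_lt_of_lt_one (show (0 : ℝ) < 4 / n by positivity)
      (show 1 - dd n / 2 < 1 by linarith)
    refine ⟨K + 1, Nat.succ_pos K, fun _ => le_of_lt (lt_of_le_of_lt ?_ hK)⟩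
    exact pow_le_pow_of_le_one (by linarith) (by linarith) (Nat.le_succ K)
  · exact ⟨1, one_pos, fun h' => absurd h' h⟩

def Kn (n : ℕ) [NeZero n] : ℕ := Classical.choose (exists_Kn n)

theorem Kn_pos (n : ℕ) [NeZero n] : 0 < Kn n := (Classical.choose_spec (exists_Kn n)).1

/-- the target scale `z` (if any) for the current optimum `y`, for the guess `rho` -/
def InEpoch (n : ℕ) [NeZero n] (rho : ℕ) (y : ℝ) (z : ℤ) : Prop :=
  (Kn n : ℤ) ∣ (z - rho) ∧ 4 / n * thz n z < y ∧ y ≤ thz n z

omit [NeZero n] in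
theorem thz_pos (hn : 0 < n) (z : ℤ) : 0 < thz n z := by
  obtain ⟨h1, h2⟩ := dd_bounds hn
  exact zpow_pos (by linarith) _

omit [NeZero n] in
theorem thz_add (hn : 0 < n) (z : ℤ) (k : ℕ) : thz n (z + k) * (1 - dd n / 2) ^ k = thz n z := by
  obtain ⟨h1, h2⟩ := dd_bounds hn
  have h3 : (1 - dd n / 2) ≠ 0 := by
    have : 0 < 1 - dd n / 2 := by linarith
    exact this.ne'
  unfold thz
  rw [← zpow_natCast, ← zpow_add₀ h3]
  congr 1
  ring

theorem InEpoch.lt_false (hn : 10 ^ 6 ≤ n) {rho : ℕ} {y : ℝ} {z z' : ℤ} (h : InEpoch n rho y z)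
    (h' : InEpoch n rho y z') (hlt : z < z') : False := by
  obtain ⟨h1, h2, h3⟩ := h
  obtain ⟨h1', h2', h3'⟩ := h'
  obtain ⟨d1, d2⟩ := dd_bounds (n := n) (by omega)
  have hd : (Kn n : ℤ) ∣ (z' - z) := by
    have := dvd_sub h1' h1
    have e : z' - rho - (z - rho) = z' - z := by ring
    rwa [e] at this
  obtain ⟨k, hk⟩ : ∃ k : ℕ, z' = z + k := ⟨(z' - z).toNat, by omega⟩
  have hKk : Kn n ≤ k := by
    have hpos : 0 < z' - z := by omega
    have := Int.le_of_dvd hpos hd
    omega
  have e1 := thz_add (n := n) (by omega) z k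
  rw [← hk] at e1
  have e2 : (1 - dd n / 2) ^ k ≤ (1 - dd n / 2) ^ Kn n :=
    pow_le_pow_of_le_one (by linarith) (by linarith) hKk
  have e3 : (1 - dd n / 2) ^ Kn n ≤ 4 / n := (Classical.choose_spec (exists_Kn n)).2 (by omega)
  have e4 := thz_pos (n := n) (by omega) z'
  have e5 : thz n z ≤ thz n z' * (4 / n) := by
    rw [← e1]
    exact mul_le_mul_of_nonneg_left (e2.trans e3) e4.le
  linarith

theorem InEpoch.unique (hn : 10 ^ 6 ≤ n) {rho : ℕ} {y : ℝ} {z z' : ℤ} (h : InEpoch n rho y z)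
    (h' : InEpoch n rho y z') : z = z' := by
  rcases lt_trichotomy z z' with h1 | h1 | h1
  · exact (InEpoch.lt_false hn h h' h1).elim
  · exact h1
  · exact (InEpoch.lt_false hn h' h h1).elim

/-- first arrival of the epoch of scale `z` -/
def kst (n : ℕ) [NeZero n] (σ : List Ev) (z : ℤ) : ℕ := sInf {k | 4 / n * thz n z < OPT n (preA σ k)}

structure St (n : ℕ) where
  rho : ℕ
  past : List Ev
  pl : List (Fin n)
  g : ℕ

/-- placements given by a list -/
def asg (h : List (Fin n)) : ℕ → Fin n := fun k => h.getD k 0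

/-- the allowed machines in an epoch -/
def alw (s : St n) (w : ℝ) (z : ℤ) (g : ℕ) : Finset (Fin n) :=
  let σ' := s.past ++ [Ev.arr w]
  let k := kst n σ' z
  (instOf σ' k (thz n z) (asg s.pl)).allowed g (fun j => asg s.pl (k + j)) (s.pl.length - k)

theorem alw_nonempty (s : St n) (w : ℝ) (z : ℤ) (g : ℕ) : (alw s w z g).Nonempty :=
  Inst.allowed_nonempty _ _ _ _

def next (s : St n) (w : ℝ) (g : ℕ) (i : Fin n) : Fin n × St n :=
  (i, { rho := s.rho, past := s.past ++ [Ev.arr w], pl := s.pl ++ [i], g := g })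

/-- place the task `w` in an epoch with scale `z` and mode `g` -/
def place (s : St n) (w : ℝ) (z : ℤ) (g : ℕ) : PMF (Fin n × St n) :=
  (PMF.uniformOfFinset (alw s w z g) (alw_nonempty s w z g)).map (next s w g)

theorem range19 : (range 19).Nonempty := ⟨0, by simp⟩

/-- the algorithm -/
def alg (n : ℕ) [NeZero n] : RandAlg n where
  State := St n
  init := (PMF.uniformOfFinset (range (Kn n)) ⟨0, by simpa using Kn_pos n⟩).map
    (fun r => { rho := r, past := [], pl := [], g := 0 })
  arrive s w :=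
    if h : ∃ z, InEpoch n s.rho (OPT n (s.past ++ [Ev.arr w])) z then
      let z := Classical.choose h
      if s.pl.length = kst n (s.past ++ [Ev.arr w]) z then
        (PMF.uniformOfFinset (range 19) range19).bind (fun j => place s w z (n / 4 ^ (j + 1)))
      else place s w z s.g
    else PMF.pure (next s w s.g (argminF (load s.past (asg s.pl))))
  depart s k := PMF.pure { rho := s.rho, past := s.past ++ [Ev.dep k], pl := s.pl, g := s.g }

theorem load_congr {τ : List Ev} (f f' : ℕ → Fin n) (h : ∀ k < narr τ, f k = f' k) (i : Fin n) :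
    load τ f i = load τ f' i := by
  unfold load
  have : (active τ).filter (fun k => f k = i) = (active τ).filter (fun k => f' k = i) := by
    apply filter_congr
    intro k hk
    unfold active at hk
    rw [mem_sdiff, mem_range] at hk
    rw [h k hk.1]
  rw [this]

theorem asg_append (pl l : List (Fin n)) (k : ℕ) (hk : k < pl.length) :
    asg (pl ++ l) k = asg pl k := by
  unfold asg
  rw [List.getD_append _ _ _ _ hk]

theorem asg_length (pl : List (Fin n)) (i : Fin n) : asg (pl ++ [i]) pl.length = i := by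
  simp [asg]

theorem wts_append' (a b : List Ev) : wts (a ++ b) = wts a ++ wts b := by
  induction a with
  | nil => rfl
  | cons e l ih => cases e <;> simp [wts, ih]

theorem narr_arr (τ : List Ev) (w : ℝ) : narr (τ ++ [Ev.arr w]) = narr τ + 1 := by
  unfold narr
  rw [wts_append']
  simp [wts]

theorem narr_dep (τ : List Ev) (k : ℕ) : narr (τ ++ [Ev.dep k]) = narr τ := by
  unfold narr
  rw [wts_append']
  simp [wts]

/-- the invariant of the run -/
structure Inv (τ : List Ev) (s : St n) : Prop where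
  past : s.past = τ
  len : s.pl.length = narr τ
  safe : ∀ m < narr τ, load (pre τ m) (asg s.pl) (asg s.pl m) + wt τ m ≤ rr n * OPT n (preA τ m)

theorem Inv.arr {τ : List Ev} {w : ℝ} {s : St n} (h : Inv τ s) (g : ℕ) (i : Fin n)
    (hi : load τ (asg s.pl) i + w ≤ rr n * OPT n (τ ++ [Ev.arr w])) :
    Inv (τ ++ [Ev.arr w]) (next s w g i).2 := by
  have hp : τ <+: τ ++ [Ev.arr w] := List.prefix_append _ _
  refine ⟨by simp [next, h.past], by simp [next, h.len, narr_arr], ?_⟩
  intro m hm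
  rw [narr_arr] at hm
  simp only [next]
  rcases Nat.lt_succ_iff_lt_or_eq.mp hm with h1 | h1
  · have e1 := pre_of_prefix hp m h1
    have e2 := preA_of_prefix hp m h1
    have e3 := wt_prefix hp m h1
    have hm' : m < s.pl.length := by rw [h.len]; exact h1
    rw [← e1, ← e2, ← e3, asg_append _ _ _ hm']
    have := h.safe m h1
    rwa [load_congr (asg (s.pl ++ [i])) (asg s.pl)]
    intro k hk
    rw [narr_pre τ m h1.le] at hk
    exact asg_append _ _ _ (by omega)
  · subst h1
    obtain ⟨e1, e2, e3, -⟩ := preA_eq (σ := τ ++ [Ev.arr w]) (τ := τ) (w := w) (List.prefix_refl _)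
    rw [e1, e2, e3]
    have e4 : asg (s.pl ++ [i]) (narr τ) = i := by rw [← h.len]; exact asg_length _ _
    rw [e4]
    rwa [load_congr (asg (s.pl ++ [i])) (asg s.pl)]
    intro k hk
    exact asg_append _ _ _ (by rw [h.len]; exact hk)

theorem Inv.dep {τ : List Ev} {k : ℕ} {s : St n} (h : Inv τ s) :
    Inv (τ ++ [Ev.dep k]) { rho := s.rho, past := s.past ++ [Ev.dep k], pl := s.pl, g := s.g } := by
  have hp : τ <+: τ ++ [Ev.dep k] := List.prefix_append _ _
  refine ⟨by simp [h.past], by simp [h.len, narr_dep], ?_⟩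
  intro m hm
  rw [narr_dep] at hm
  have e1 := pre_of_prefix hp m hm
  have e2 := preA_of_prefix hp m hm
  have e3 := wt_prefix hp m hm
  simp only
  rw [← e1, ← e2, ← e3]
  exact h.safe m hm

/-- facts about the start of the epoch of scale `z` -/
theorem kst_facts {σ : List Ev} {τ : List Ev} {w : ℝ} (hp : (τ ++ [Ev.arr w]) <+: σ) {z : ℤ}
    (h0 : 4 / n * thz n z < OPT n (τ ++ [Ev.arr w])) :
    kst n σ z ≤ narr τ ∧ kst n (τ ++ [Ev.arr w]) z = kst n σ z ∧
      4 / n * thz n z < OPT n (preA σ (kst n σ z)) ∧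
      ∀ m < kst n σ z, OPT n (preA σ m) ≤ 4 / n * thz n z := by
  obtain ⟨e1, e2, e3, e4⟩ := preA_eq hp
  have hmem : narr τ ∈ {k | 4 / n * thz n z < OPT n (preA σ k)} := by
    rw [Set.mem_setOf_eq, e1]
    exact h0
  have hle : kst n σ z ≤ narr τ := Nat.sInf_le hmem
  have hin : 4 / n * thz n z < OPT n (preA σ (kst n σ z)) := Nat.sInf_mem ⟨_, hmem⟩
  have hnot : ∀ m < kst n σ z, OPT n (preA σ m) ≤ 4 / n * thz n z := by
    intro m hm
    have := Nat.notMem_of_lt_sInf hm
    rw [Set.mem_setOf_eq] at this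
    push Not at this
    exact this
  refine ⟨hle, ?_, hin, hnot⟩
  have hp' := fun k (hk : k < narr (τ ++ [Ev.arr w])) => preA_of_prefix hp k hk
  have hk1 : kst n σ z < narr (τ ++ [Ev.arr w]) := by rw [narr_arr]; omega
  have h1 : kst n (τ ++ [Ev.arr w]) z ≤ kst n σ z := by
    apply Nat.sInf_le
    rw [Set.mem_setOf_eq, hp' _ hk1]
    exact hin
  have h2 : 4 / n * thz n z < OPT n (preA (τ ++ [Ev.arr w]) (kst n (τ ++ [Ev.arr w]) z)) := by
    apply Nat.sInf_mem (s := {k | 4 / n * thz n z < OPT n (preA (τ ++ [Ev.arr w]) k)})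
    refine ⟨kst n σ z, ?_⟩
    rw [Set.mem_setOf_eq, hp' _ hk1]
    exact hin
  rw [hp' _ (lt_of_le_of_lt h1 hk1)] at h2
  exact le_antisymm h1 (Nat.sInf_le h2)

/-- loads at the start of the epoch are small -/
theorem start_load {τ σ : List Ev} (hv : Valid σ) (hp : τ <+: σ) {s : St n} (h : Inv τ s)
    {z : ℤ} (k : ℕ) (hk : k ≤ narr τ) (hn : 0 < n)
    (hlow : ∀ m < k, OPT n (preA σ m) ≤ 4 / n * thz n z) :
    (∀ m < k, load (pre σ m) (asg s.pl) (asg s.pl m) + wt σ m ≤ rr n * (4 / n) * thz n z) ∧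
    ∀ i, load (pre σ k) (asg s.pl) i ≤ rr n * (4 / n) * thz n z := by
  have hnR : (1 : ℝ) ≤ n := by exact_mod_cast hn
  have hr1 : 0 ≤ rr n := by
    unfold rr
    have : (1 : ℝ) / n ≤ 1 := by
      rw [div_le_one (by linarith)]; exact hnR
    linarith
  have hnarr : k ≤ narr σ := by
    obtain ⟨t, rfl⟩ := hp
    unfold narr at *
    rw [wts_append', List.length_append]
    omega
  have h1 : ∀ m < k, load (pre σ m) (asg s.pl) (asg s.pl m) + wt σ m ≤ rr n * (4 / n) * thz n z := by
    intro m hm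
    have hm' : m < narr τ := by omega
    have e := h.safe m hm'
    rw [pre_of_prefix hp m hm', preA_of_prefix hp m hm', wt_prefix hp m hm'] at e
    calc _ ≤ _ := e
      _ ≤ rr n * (4 / n * thz n z) := mul_le_mul_of_nonneg_left (hlow m hm) hr1
      _ = _ := by ring
  refine ⟨h1, fun i => ?_⟩
  have hpk : pre σ k <+: σ := pre_prefix σ k
  have hvk : Valid (pre σ k) := hv.of_prefix hpk
  have hc : cost (pre σ k) (asg s.pl) ≤ rr n * (4 / n) * thz n z := by
    apply cost_le_of_arrivals hvk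
    · exact mul_nonneg (mul_nonneg hr1 (by positivity)) (thz_pos hn z).le
    · intro m hm
      have hmk : m < k := by rwa [narr_pre σ k hnarr] at hm
      have e1 := pre_of_prefix hpk m hm
      have e2 := wt_prefix hpk m hm
      rw [e1, e2]
      exact h1 m hmk
  exact (load_le_cost (List.prefix_refl _) _ i).trans hc

/-- every machine allowed in an epoch is safe -/
theorem alw_safe (hn : 10 ^ 6 ≤ n) {τ : List Ev} {w : ℝ} (hv : Valid (τ ++ [Ev.arr w])) {s : St n}
    (h : Inv τ s) {z : ℤ} (h0 : 4 / n * thz n z < OPT n (τ ++ [Ev.arr w]))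
    (h1 : OPT n (τ ++ [Ev.arr w]) ≤ thz n z) (g : ℕ) (i : Fin n) (hi : i ∈ alw s w z g) :
    load τ (asg s.pl) i + w ≤ rr n * OPT n (τ ++ [Ev.arr w]) := by
  have hn0 : 0 < n := by omega
  have hθ := thz_pos hn0 z
  obtain ⟨f1, f2, f3, f4⟩ := kst_facts (List.prefix_refl (τ ++ [Ev.arr w])) h0
  obtain ⟨e1, e2, e3, e4⟩ := preA_eq (σ := τ ++ [Ev.arr w]) (τ := τ) (w := w) (List.prefix_refl _)
  obtain ⟨-, hb⟩ := start_load hv (List.prefix_append τ [Ev.arr w]) h (kst n (τ ++ [Ev.arr w]) z) f1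
    hn0 f4
  have hkn : kst n (τ ++ [Ev.arr w]) z < narr (τ ++ [Ev.arr w]) := by rw [narr_arr]; omega
  have hOK := instOf_OK hv (kst n (τ ++ [Ev.arr w]) z) hθ (asg s.pl) f3 h1 hkn hb
  unfold alw at hi
  simp only [h.past] at hi
  set k := kst n (τ ++ [Ev.arr w]) z with hk
  have hm : s.pl.length - k < narr (τ ++ [Ev.arr w]) - k := by
    rw [h.len, narr_arr]; omega
  have key := Inst.allowed_safe _ hn g hOK (fun j => asg s.pl (k + j)) (s.pl.length - k) hm i hi
  have hkm : k + (s.pl.length - k) = narr τ := by rw [h.len]; omega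
  rw [instOf_ld k hθ (asg s.pl) (s.pl.length - k) (by rw [hkm, narr_arr]; omega) i] at key
  simp only [instOf, hkm, e1, e2, e3] at key
  rw [← add_div, ← mul_div_assoc, div_le_div_iff_of_pos_right hθ] at key
  exact key

theorem place_support {s : St n} {w : ℝ} {z : ℤ} {g : ℕ} {c : Fin n × St n}
    (hc : c ∈ (place s w z g).support) : ∃ i ∈ alw s w z g, c = next s w g i := by
  unfold place at hc
  rw [PMF.support_map, Set.mem_image] at hc
  obtain ⟨i, hi, rfl⟩ := hc
  rw [PMF.support_uniformOfFinset] at hi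
  exact ⟨i, hi, rfl⟩

theorem gone_append' (a b : List Ev) : gone (a ++ b) = gone a ∪ gone b := by
  induction a with
  | nil => simp [gone]
  | cons e l ih => cases e <;> simp [gone, ih]

theorem active_arr {τ : List Ev} {w : ℝ} (hv : Valid (τ ++ [Ev.arr w])) :
    active (τ ++ [Ev.arr w]) = insert (narr τ) (active τ) ∧ narr τ ∉ active τ := by
  have h1 : narr τ ∉ gone τ := fun h => absurd (gone_lt (hv.of_prefix (List.prefix_append _ _)) h)
    (lt_irrefl _)
  constructor
  · unfold active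
    rw [narr_arr, gone_append', range_add_one]
    simp only [gone, union_empty]
    rw [insert_sdiff_of_notMem _ h1]
  · unfold active
    simp

theorem sum_load (τ : List Ev) (f : ℕ → Fin n) : ∑ i, load τ f i = ∑ k ∈ active τ, wt τ k := by
  unfold load
  have : ∀ i : Fin n, ∑ k ∈ (active τ).filter (fun k => f k = i), wt τ k =
      ∑ k ∈ active τ, (if f k = i then wt τ k else 0) := by
    intro i
    rw [← sum_filter]
  simp_rw [this]
  rw [sum_comm]
  apply sum_congr rfl
  intro k _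
  simp

theorem arr_facts {τ : List Ev} {w : ℝ} (hv : Valid (τ ++ [Ev.arr w])) :
    ∑ k ∈ active τ, wt τ k + w ≤ n * OPT n (τ ++ [Ev.arr w]) ∧ w ≤ OPT n (τ ++ [Ev.arr w]) ∧
      0 < w := by
  obtain ⟨e1, e2, e3, e4⟩ := preA_eq (σ := τ ++ [Ev.arr w]) (τ := τ) (w := w) (List.prefix_refl _)
  obtain ⟨a1, a2⟩ := active_arr hv
  have hsum : ∑ k ∈ active (τ ++ [Ev.arr w]), wt (τ ++ [Ev.arr w]) k = ∑ k ∈ active τ, wt τ k + w := by
    rw [a1, sum_insert a2, e3, add_comm]
    congr 1
    apply sum_congr rfl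
    intro k hk
    unfold active at hk
    rw [mem_sdiff, mem_range] at hk
    exact (wt_prefix (List.prefix_append _ _) k hk.1).symm
  refine ⟨?_, ?_, hv.1 τ w (List.prefix_refl _)⟩
  · rw [← hsum]
    exact vol_le_OPT _ (List.prefix_refl _)
  · obtain ⟨f, hf⟩ := exists_OPT (n := n) (τ ++ [Ev.arr w])
    have h1 := load_le_cost (List.prefix_refl (τ ++ [Ev.arr w])) f (f (narr τ))
    rw [hf] at h1
    refine le_trans ?_ h1
    unfold load
    have hmem : narr τ ∈ (active (τ ++ [Ev.arr w])).filter (fun k => f k = f (narr τ)) := by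
      rw [mem_filter, a1]
      exact ⟨mem_insert_self _ _, rfl⟩
    calc w = wt (τ ++ [Ev.arr w]) (narr τ) := e3.symm
      _ ≤ _ := single_le_sum (f := fun k => wt (τ ++ [Ev.arr w]) k)
        (fun k _ => wt_nonneg hv k) hmem

/-- the least loaded machine is safe -/
theorem argmin_load_safe {τ : List Ev} {w : ℝ} (hv : Valid (τ ++ [Ev.arr w])) (f : ℕ → Fin n) :
    load τ f (argminF (load τ f)) + w ≤ rr n * OPT n (τ ++ [Ev.arr w]) := by
  have hnN : 0 < n := Nat.pos_of_ne_zero (NeZero.ne n)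
  have hnR : (0 : ℝ) < n := by exact_mod_cast hnN
  obtain ⟨hvol, hw, hw0⟩ := arr_facts (n := n) hv
  rw [← sum_load τ f] at hvol
  have h1 : (n : ℝ) * load τ f (argminF (load τ f)) ≤ ∑ i, load τ f i := by
    have := card_nsmul_le_sum univ (load τ f) (load τ f (argminF (load τ f)))
      (fun i _ => argminF_spec _ i)
    rw [card_univ, Fintype.card_fin, nsmul_eq_mul] at this
    exact this
  have h2 : (n : ℝ) * (load τ f (argminF (load τ f)) + w) ≤ n * (rr n * OPT n (τ ++ [Ev.arr w])) := by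
    have e : (n : ℝ) * (rr n * OPT n (τ ++ [Ev.arr w])) = 2 * n * OPT n (τ ++ [Ev.arr w]) -
        OPT n (τ ++ [Ev.arr w]) := by
      unfold rr
      field_simp
    rw [e]
    have hn1 : (1 : ℝ) ≤ n := by exact_mod_cast hnN
    nlinarith
  exact le_of_mul_le_mul_left h2 hnR

theorem arrive_support (hn : 10 ^ 6 ≤ n) {τ : List Ev} {w : ℝ} (hv : Valid (τ ++ [Ev.arr w]))
    {s : St n} (h : Inv τ s) {c : Fin n × St n} (hc : c ∈ ((alg n).arrive s w).support) :
    ∃ g i, c = next s w g i ∧ load τ (asg s.pl) i + w ≤ rr n * OPT n (τ ++ [Ev.arr w]) := by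
  obtain rfl : s.past = τ := h.past
  unfold alg at hc
  simp only at hc
  split_ifs at hc with h1 h2
  · rw [PMF.support_bind] at hc
    simp only [Set.mem_iUnion] at hc
    obtain ⟨j, -, hc⟩ := hc
    obtain ⟨i, hi, rfl⟩ := place_support hc
    have hz := Classical.choose_spec h1
    exact ⟨_, i, rfl, alw_safe hn hv h hz.2.1 hz.2.2 _ i hi⟩
  · obtain ⟨i, hi, rfl⟩ := place_support hc
    have hz := Classical.choose_spec h1
    exact ⟨_, i, rfl, alw_safe hn hv h hz.2.1 hz.2.2 _ i hi⟩
  · rw [PMF.support_pure, Set.mem_singleton_iff] at hc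
    exact ⟨_, _, hc, argmin_load_safe hv _⟩

theorem run_inv (hn : 10 ^ 6 ≤ n) (l : List Ev) : ∀ (τ : List Ev) (s : St n), Inv τ s →
    Valid (τ ++ l) → ∀ pl ∈ ((alg n).run s l s.pl).support, ∃ s', Inv (τ ++ l) s' ∧ s'.pl = pl := by
  induction l with
  | nil =>
    intro τ s h hv pl hpl
    unfold RandAlg.run at hpl
    rw [PMF.support_pure, Set.mem_singleton_iff] at hpl
    exact ⟨s, by simpa using h, hpl.symm⟩
  | cons e l ih =>
    intro τ s h hv pl hpl
    cases e with
    | arr w =>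
      unfold RandAlg.run at hpl
      rw [PMF.support_bind] at hpl
      simp only [Set.mem_iUnion] at hpl
      obtain ⟨c, hc, hpl⟩ := hpl
      have hv' : Valid (τ ++ [Ev.arr w] ++ l) := by simpa using hv
      obtain ⟨g, i, rfl, hi⟩ := arrive_support hn (hv'.of_prefix (List.prefix_append _ _)) h hc
      have := ih (τ ++ [Ev.arr w]) (next s w g i).2 (h.arr g i hi) hv' pl hpl
      simpa using this
    | dep k =>
      unfold RandAlg.run at hpl
      rw [PMF.support_bind] at hpl
      simp only [Set.mem_iUnion] at hpl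
      obtain ⟨c, hc, hpl⟩ := hpl
      have hv' : Valid (τ ++ [Ev.dep k] ++ l) := by simpa using hv
      have hc' : c = { rho := s.rho, past := s.past ++ [Ev.dep k], pl := s.pl, g := s.g } := by
        unfold alg at hc
        simp only at hc
        rw [PMF.support_pure, Set.mem_singleton_iff] at hc
        exact hc
      subst hc'
      have := ih (τ ++ [Ev.dep k]) _ h.dep hv' pl hpl
      simpa using this

/-- every placement of the algorithm is safe, so its cost is at most `(2-1/n) OPT` -/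
theorem alg_safe (hn : 10 ^ 6 ≤ n) {σ : List Ev} (hv : Valid σ) (pl : List (Fin n))
    (h : pl ∈ ((alg n).outcome σ).support) :
    cost σ (asg pl) ≤ rr n * OPT n σ ∧ pl.length = narr σ := by
  unfold RandAlg.outcome at h
  rw [PMF.support_bind] at h
  simp only [Set.mem_iUnion] at h
  obtain ⟨s, hs, h⟩ := h
  have hs' : ∃ r, s = { rho := r, past := [], pl := [], g := 0 } := by
    unfold alg at hs
    simp only at hs
    rw [PMF.support_map, Set.mem_image] at hs
    obtain ⟨r, -, rfl⟩ := hs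
    exact ⟨r, rfl⟩
  obtain ⟨r, rfl⟩ := hs'
  have h0 : Inv (n := n) [] { rho := r, past := [], pl := [], g := 0 } :=
    ⟨rfl, rfl, fun m hm => absurd hm (Nat.not_lt_zero m)⟩
  obtain ⟨s', h1, rfl⟩ := run_inv hn σ [] _ h0 (by simpa using hv) pl h
  simp only [List.nil_append] at h1
  refine ⟨?_, h1.len⟩
  have hn0 : 0 < n := by omega
  have hnR : (1 : ℝ) ≤ n := by exact_mod_cast hn0
  have hr1 : 0 ≤ rr n := by
    unfold rr
    have : (1 : ℝ) / n ≤ 1 := by
      rw [div_le_one (by linarith)]; exact hnR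
    linarith
  apply cost_le_of_arrivals hv _ _ (mul_nonneg hr1 (OPT_nonneg σ))
  intro m hm
  exact (h1.safe m hm).trans (mul_le_mul_of_nonneg_left (OPT_mono (preA_prefix σ m hm)) hr1)

end

end RLB
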