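import Pool.Agent.RLB.Inst

/-! D1: basic facts about loads, room, forced placements, number of targets -/

namespace RLB

noncomputable section

open Finset Classical

namespace Inst

variable {n : ℕ} [NeZero n] (I : Inst n)

theorem sum_ld (c : ℕ → Fin n) (m : ℕ) : ∑ i, I.ld c m i = I.vol m := by
  unfold ld vol
  rw [sum_add_distrib]
  congr 1
  have : ∀ i : Fin n, ∑ k ∈ (range m).filter (fun k => I.act m k ∧ c k = i), I.w k =
      ∑ k ∈ (range m).filter (fun k => I.act m k), (if c k = i then I.w k else 0) := by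
    intro i
    rw [← sum_filter, filter_filter]
  simp_rw [this]
  rw [sum_comm]
  apply sum_congr rfl
  intro k _
  simp

theorem ld_nonneg {N : ℕ} (hI : I.OK N) (c : ℕ → Fin n) (m : ℕ) (hm : m ≤ N) (i : Fin n) :
    0 ≤ I.ld c m i := by
  unfold ld
  apply add_nonneg (hI.pnn _ _)
  apply sum_nonneg
  intro k hk
  rw [mem_filter, mem_range] at hk
  exact (hI.wpos k (by omega)).le

theorem ld_succ_le {N : ℕ} (hI : I.OK N) (c : ℕ → Fin n) (m : ℕ) (hm : m < N) (i : Fin n) :
    I.ld c (m + 1) i ≤ I.ld c m i + (if c m = i then I.w m else 0) := by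
  unfold ld
  have h1 := hI.panti m (m + 1) i (Nat.le_succ _)
  have h2 : ∑ k ∈ (range (m + 1)).filter (fun k => I.act (m + 1) k ∧ c k = i), I.w k ≤
      ∑ k ∈ (range m).filter (fun k => I.act m k ∧ c k = i), I.w k +
        (if c m = i then I.w m else 0) := by
    rw [range_add_one, filter_insert]
    have h3 : ∑ k ∈ (range m).filter (fun k => I.act (m + 1) k ∧ c k = i), I.w k ≤
        ∑ k ∈ (range m).filter (fun k => I.act m k ∧ c k = i), I.w k := by
      apply sum_le_sum_of_subset_of_nonneg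
      · intro k hk
        rw [mem_filter, mem_range] at hk ⊢
        exact ⟨hk.1, hI.act_anti m (m + 1) k hk.1 (Nat.le_succ _) hk.2.1, hk.2.2⟩
      · intro k hk _
        rw [mem_filter, mem_range] at hk
        exact (hI.wpos k (by omega)).le
    have hw := (hI.wpos m hm).le
    split_ifs with h h' h'
    · rw [sum_insert (by simp)]; linarith
    · exact absurd h.2 h'
    · linarith
    · linarith
  linarith

/-- the least loaded machine is safe -/
theorem argmin_safe {N : ℕ} (hI : I.OK N) (c : ℕ → Fin n) (m : ℕ) (hm : m < N) :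
    I.ld c m (argminF (I.ld c m)) + I.w m ≤ rr n * I.x m := by
  have hnN : 0 < n := Nat.pos_of_ne_zero (NeZero.ne n)
  have hnR : (0 : ℝ) < n := by exact_mod_cast hnN
  have hvol := hI.volle m hm
  rw [← I.sum_ld c m] at hvol
  have h1 : (n : ℝ) * I.ld c m (argminF (I.ld c m)) ≤ ∑ i, I.ld c m i := by
    have := card_nsmul_le_sum univ (I.ld c m) (I.ld c m (argminF (I.ld c m)))
      (fun i _ => argminF_spec _ i)
    rw [card_univ, Fintype.card_fin, nsmul_eq_mul] at this
    exact this
  have hw := hI.wle m hm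
  have hw0 := hI.wpos m hm
  have h2 : (n : ℝ) * (I.ld c m (argminF (I.ld c m)) + I.w m) ≤ n * (rr n * I.x m) := by
    have e : (n : ℝ) * (rr n * I.x m) = 2 * n * I.x m - I.x m := by
      unfold rr
      field_simp
    rw [e]
    have hn1 : (1 : ℝ) ≤ n := by exact_mod_cast hnN
    nlinarith
  exact le_of_mul_le_mul_left h2 hnR

/-- `thr ≤ rr * x` -/
theorem thr_le (hn : 10 ^ 6 ≤ n) (x : ℝ) (hx : x ≤ 1) : thr n x ≤ rr n * x := by
  have hnR : (1 : ℝ) ≤ n := by
    have : 1 ≤ n := by omega
    exact_mod_cast this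
  unfold thr
  split_ifs with h
  · exact le_rfl
  · push Not at h
    unfold dd at h
    have hd : 0 ≤ dp n := by unfold dp; positivity
    have hr : rr n ≤ 2 := by
      unfold rr
      have : (0 : ℝ) ≤ 1 / n := by positivity
      linarith
    have hr1 : 0 ≤ rr n := by
      unfold rr
      have : (1 : ℝ) / n ≤ 1 := by
        rw [div_le_one (by linarith)]; exact hnR
      linarith
    nlinarith

/-- every allowed placement is safe -/
theorem allowed_safe (hn : 10 ^ 6 ≤ n) {N : ℕ} (g : ℕ) (hI : I.OK N) (c : ℕ → Fin n)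
    (m : ℕ) (hm : m < N) (i : Fin n) (hi : i ∈ I.allowed g c m) :
    I.ld c m i + I.w m ≤ rr n * I.x m := by
  have hx := hI.xhi m hm
  have hthr := thr_le hn (I.x m) hx
  have hfit : ∀ j, I.fits c m j → I.ld c m j + I.w m ≤ rr n * I.x m := by
    intro j hj
    unfold fits at hj
    linarith
  have hmin := I.argmin_safe hI c m hm
  unfold allowed at hi
  split_ifs at hi with h1 h2 h3 h4 h5 h6
  · unfold Ud at hi
    rw [mem_filter] at hi
    exact hfit i hi.2.2.2
  · rw [mem_singleton] at hi; rw [hi]; exact hmin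
  · unfold Us at hi
    rw [mem_filter] at hi
    exact hfit i hi.2.2
  · rw [mem_singleton] at hi; rw [hi]; exact hmin
  · unfold U at hi
    rw [mem_filter] at hi
    exact hfit i hi.2.2
  · rw [mem_singleton] at hi
    have := argmaxOn_mem (I.Cfit c m) (I.ld c m) h6
    rw [← hi] at this
    unfold Cfit at this
    rw [mem_filter] at this
    exact hfit i this.2
  · rw [mem_singleton] at hi; rw [hi]; exact hmin

theorem legal_safe (hn : 10 ^ 6 ≤ n) {N g : ℕ} (hI : I.OK N) (c : ℕ → Fin n) (h : I.Legal g c N)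
    (m : ℕ) (hm : m < N) : I.ld c m (c m) + I.w m ≤ rr n * I.x m :=
  I.allowed_safe hn g hI c m hm _ (h m hm)

/-- all loads are at most `r x` -/
theorem ld_le (hn : 10 ^ 6 ≤ n) {N g : ℕ} (hI : I.OK N) (c : ℕ → Fin n) (h : I.Legal g c N)
    (m : ℕ) (hm : m < N) (i : Fin n) : I.ld c m i ≤ rr n * I.x m := by
  induction m with
  | zero =>
    have h1 := hI.p0 i
    have h2 := hI.xlo 0 hm
    have hr1 : 0 ≤ rr n := by
      have hnR : (1 : ℝ) ≤ n := by
        have : 1 ≤ n := by omega
        exact_mod_cast this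
      unfold rr
      have : (1 : ℝ) / n ≤ 1 := by
        rw [div_le_one (by linarith)]; exact hnR
      linarith
    unfold ld
    simp only [range_zero, filter_empty, sum_empty, add_zero]
    exact h1.trans (mul_le_mul_of_nonneg_left h2.le hr1)
  | succ m ih =>
    have h1 := ih (by omega)
    have h2 := I.ld_succ_le hI c m (by omega) i
    have h3 := I.legal_safe hn hI c h m (by omega)
    have h4 := hI.xmono m (m + 1) (Nat.le_succ _) hm
    have hr1 : 0 ≤ rr n := by
      have hnR : (1 : ℝ) ≤ n := by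
        have : 1 ≤ n := by omega
        exact_mod_cast this
      unfold rr
      have : (1 : ℝ) / n ≤ 1 := by
        rw [div_le_one (by linarith)]; exact hnR
      linarith
    have h5 : rr n * I.x m ≤ rr n * I.x (m + 1) := mul_le_mul_of_nonneg_left h4 hr1
    split_ifs at h2 with hc
    · rw [hc] at h3
      linarith
    · linarith

theorem CC_card (n : ℕ) : (CC n).card ≤ 10 := by
  unfold CC
  have h : ((univ.filter (fun i : Fin n => i.val < 10)).image (fun i : Fin n => i.val)) ⊆ range 10 := by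
    intro x hx
    rw [mem_image] at hx
    obtain ⟨i, hi, rfl⟩ := hx
    rw [mem_filter] at hi
    exact mem_range.mpr hi.2
  have h2 := card_le_card h
  rw [card_image_of_injective _ Fin.val_injective, card_range] at h2
  exact h2

theorem TT_pot {N : ℕ} (hI : I.OK N) (m : ℕ) :
    (I.lastT m = none ∧ ((range m).filter (fun T => I.isT T)).card = 0) ∨
    ∃ t, I.lastT m = some t ∧ t < m ∧ I.isT t ∧
      1 ≤ ((range m).filter (fun T => I.isT T)).card ∧
      ∑ i ∈ CC n, I.p t i ≤ ∑ i ∈ CC n, I.p 0 i -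
        ((((range m).filter (fun T => I.isT T)).card : ℝ) - 1) * (9 / (2 * n)) := by
  have hnN : 0 < n := Nat.pos_of_ne_zero (NeZero.ne n)
  have hnR : (0 : ℝ) < n := by exact_mod_cast hnN
  induction m with
  | zero => left; exact ⟨rfl, by simp⟩
  | succ m ih =>
    by_cases hT : I.isT m
    · right
      have hl : I.lastT (m + 1) = some m := by
        exact if_pos hT
      have hf : (range (m + 1)).filter (fun T => I.isT T) =
          insert m ((range m).filter (fun T => I.isT T)) := by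
        rw [range_add_one, filter_insert, if_pos hT]
      have hc : ((range (m + 1)).filter (fun T => I.isT T)).card =
          ((range m).filter (fun T => I.isT T)).card + 1 := by
        rw [hf, card_insert_of_notMem (by simp)]
      refine ⟨m, hl, Nat.lt_succ_self m, hT, by rw [hc]; omega, ?_⟩
      rw [hc]
      push_cast
      rcases ih with ⟨h1, h2⟩ | ⟨t, h1, h2, h3, h4, h5⟩
      · rw [h2]
        have : ∑ i ∈ CC n, I.p m i ≤ ∑ i ∈ CC n, I.p 0 i :=
          sum_le_sum (fun i _ => hI.panti 0 m i (Nat.zero_le _))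
        push_cast
        linarith
      · have hd : I.dropc t m := hT.2 t h1
        unfold dropc at hd
        have h6 : ∑ i ∈ CC n, I.p m i + 9 / (2 * n) ≤ ∑ i ∈ CC n, I.p t i := by
          have h7 : ∑ i ∈ CC n, (I.p t i - I.p m i) ≥ 9 / (2 * n) := by
            have h8 : ∑ i ∈ (CC n).filter (fun i => 1 / (2 * (n : ℝ)) ≤ I.p t i - I.p m i),
                (I.p t i - I.p m i) ≤ ∑ i ∈ CC n, (I.p t i - I.p m i) := by
              apply sum_le_sum_of_subset_of_nonneg (filter_subset _ _)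
              intro i _ _
              have := hI.panti t m i h2.le
              linarith
            have h9 := card_nsmul_le_sum
              ((CC n).filter (fun i => 1 / (2 * (n : ℝ)) ≤ I.p t i - I.p m i))
              (fun i => I.p t i - I.p m i) (1 / (2 * n)) (fun i hi => (mem_filter.mp hi).2)
            rw [nsmul_eq_mul] at h9
            have h10 : (9 : ℝ) ≤ (((CC n).filter
                (fun i => 1 / (2 * (n : ℝ)) ≤ I.p t i - I.p m i)).card : ℝ) := by
              exact_mod_cast hd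
            have h11 : 9 * (1 / (2 * (n : ℝ))) ≤ (((CC n).filter
                (fun i => 1 / (2 * (n : ℝ)) ≤ I.p t i - I.p m i)).card : ℝ) * (1 / (2 * n)) :=
              mul_le_mul_of_nonneg_right h10 (by positivity)
            have e : (9 : ℝ) / (2 * n) = 9 * (1 / (2 * (n : ℝ))) := by ring
            rw [e]
            linarith
          rw [sum_sub_distrib] at h7
          linarith
        have e : ((((range m).filter (fun T => I.isT T)).card : ℝ) + 1 - 1) * (9 / (2 * n)) =
            ((((range m).filter (fun T => I.isT T)).card : ℝ) - 1) * (9 / (2 * n)) + 9 / (2 * n) := by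
          ring
        rw [e]
        linarith
    · have hl : I.lastT (m + 1) = I.lastT m := by
        exact if_neg hT
      have hf : (range (m + 1)).filter (fun T => I.isT T) =
          ((range m).filter (fun T => I.isT T)) := by
        rw [range_add_one, filter_insert, if_neg hT]
      rw [hl, hf]
      rcases ih with h | ⟨t, h1, h2, h3, h4, h5⟩
      · exact Or.inl h
      · exact Or.inr ⟨t, h1, by omega, h3, h4, h5⟩

theorem TT_card (hn : 10 ^ 6 ≤ n) {N : ℕ} (hI : I.OK N) : (I.TT N).card ≤ 18 := by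
  have hnN : 0 < n := by omega
  have hnR : (0 : ℝ) < n := by exact_mod_cast hnN
  have key := I.TT_pot hI N
  have hTT : I.TT N = (range N).filter (fun T => I.isT T) := rfl
  rw [hTT]
  rcases key with ⟨_, h0⟩ | ⟨t, _, _, _, h1, h2⟩
  · rw [h0]; omega
  · have h3 : 0 ≤ ∑ i ∈ CC n, I.p t i := sum_nonneg (fun i _ => hI.pnn _ _)
    have h4 : ∑ i ∈ CC n, I.p 0 i ≤ 80 / n := by
      have h5 : ∑ i ∈ CC n, I.p 0 i ≤ (CC n).card • (rr n * (4 / n)) :=
        sum_le_card_nsmul _ _ _ (fun i _ => hI.p0 i)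
      have h6 : (CC n).card ≤ 10 := CC_card n
      have h7 : ((CC n).card : ℝ) ≤ 10 := by exact_mod_cast h6
      rw [nsmul_eq_mul] at h5
      have h8 : rr n * (4 / n) ≤ 8 / n := by
        unfold rr
        have e : (8 : ℝ) / n = 2 * (4 / n) := by ring
        rw [e]
        apply mul_le_mul_of_nonneg_right _ (by positivity)
        have : (0 : ℝ) ≤ 1 / n := by positivity
        linarith
      have h9 : ((CC n).card : ℝ) * (rr n * (4 / n)) ≤ 10 * (8 / n) := by
        calc ((CC n).card : ℝ) * (rr n * (4 / n)) ≤ ((CC n).card : ℝ) * (8 / n) :=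
              mul_le_mul_of_nonneg_left h8 (Nat.cast_nonneg _)
          _ ≤ 10 * (8 / n) := mul_le_mul_of_nonneg_right h7 (by positivity)
      have e : (80 : ℝ) / n = 10 * (8 / n) := by ring
      rw [e]; linarith
    have h10 : ((((range N).filter (fun T => I.isT T)).card : ℝ) - 1) * (9 / (2 * n)) ≤ 80 / n := by
      linarith
    by_contra hcon
    push Not at hcon
    have h11 : (19 : ℝ) ≤ (((range N).filter (fun T => I.isT T)).card : ℝ) := by
      exact_mod_cast hcon
    have h12 : (18 : ℝ) * (9 / (2 * n)) ≤ 80 / n := by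
      refine le_trans ?_ h10
      apply mul_le_mul_of_nonneg_right _ (by positivity)
      linarith
    have e : (18 : ℝ) * (9 / (2 * n)) = 81 / n := by
      field_simp; norm_num
    rw [e] at h12
    have := (div_le_div_iff_of_pos_right hnR).mp h12
    linarith

theorem Cs_card (hn : 10 ^ 6 ≤ n) {N : ℕ} (hI : I.OK N) (c : ℕ → Fin n) (m : ℕ) (hm : m < N) :
    (I.Cs c m).card ≤ 28 := by
  unfold Cs
  split_ifs with h
  · simp
  · refine le_trans (card_union_le _ _) ?_
    have h1 := CC_card n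
    have h2 : (((range (m + 1)).filter (fun T => I.isT T)).image
        (fun T => argminF (I.ld c T))).card ≤ 18 := by
      refine le_trans card_image_le (le_trans (card_le_card ?_) (I.TT_card hn hI))
      intro t ht
      unfold TT
      rw [mem_filter, mem_range] at ht ⊢
      exact ⟨by omega, ht.2⟩
    omega

/-- if no machine outside a small set fits, the task is nearly as large as the optimum -/
theorem forced (hn : 10 ^ 6 ≤ n) {N : ℕ} (hI : I.OK N) (c : ℕ → Fin n) (m : ℕ) (hm : m < N)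
    (S : Finset (Fin n)) (hS : S.card ≤ 60) (h : ∀ i, i ∉ S → ¬ I.fits c m i) :
    (1 - lam n + 1 / n) * I.x m ≤ I.w m := by
  have hnR : (10 : ℝ) ^ 6 ≤ n := by exact_mod_cast hn
  have hn0 : (0 : ℝ) < n := by linarith [pow_pos (by norm_num : (0:ℝ) < 10) 6]
  have hvol := hI.volle m hm
  rw [← I.sum_ld c m] at hvol
  have hx1 := hI.xhi m hm
  have hx0 : 0 < I.x m := lt_of_lt_of_le (hI.wpos m hm) (hI.wle m hm)
  have hw0 := hI.wpos m hm
  have h1 : ((Sᶜ).card : ℝ) * (thr n (I.x m) - I.w m) ≤ ∑ i ∈ Sᶜ, I.ld c m i := by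
    rw [← nsmul_eq_mul]
    apply card_nsmul_le_sum
    intro i hi
    rw [mem_compl] at hi
    have := h i hi
    unfold fits at this
    push Not at this
    linarith
  have h2 : ∑ i ∈ Sᶜ, I.ld c m i ≤ ∑ i, I.ld c m i :=
    sum_le_sum_of_subset_of_nonneg (subset_univ _) (fun i _ _ => I.ld_nonneg hI c m hm.le i)
  have hcard : ((Sᶜ).card : ℝ) = n - S.card := by
    rw [card_compl, Fintype.card_fin]
    have : S.card ≤ n := by omega
    push_cast [Nat.cast_sub this]
    ring
  rw [hcard] at h1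
  have hs60 : (S.card : ℝ) ≤ 60 := by exact_mod_cast hS
  have hs0 : (0 : ℝ) ≤ S.card := Nat.cast_nonneg _
  generalize (S.card : ℝ) = s at *
  have h3 : (n - s) * (thr n (I.x m) - I.w m) ≤ n * I.x m - I.w m := by linarith
  have hinv : 1 / (n : ℝ) ≤ 1 / 10 ^ 6 := one_div_le_one_div_of_le (by positivity) hnR
  have hinv0 : 0 < 1 / (n : ℝ) := by positivity
  have hnn : (n : ℝ) * (1 / n) = 1 := by field_simp
  have hlam : 1 - lam n + 1 / n = 1 - 79 * (1 / (n : ℝ)) := by unfold lam; ring
  rw [hlam]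
  by_contra hcon
  push Not at hcon
  unfold thr at h3
  have hns : 0 < (n : ℝ) - s - 1 := by
    have : (10 : ℝ) ^ 6 = 1000000 := by norm_num
    linarith
  split_ifs at h3 with hph
  · -- phase 1
    unfold rr at h3
    have h4 : I.x m * ((n - s) * (2 - 1 / n) - n) ≤ I.w m * (n - s - 1) := by nlinarith
    have h5 : I.w m * (n - s - 1) < (1 - 79 * (1 / (n : ℝ))) * I.x m * (n - s - 1) :=
      mul_lt_mul_of_pos_right hcon hns
    have h6 : I.x m * ((n - s) * (2 - 1 / n) - n) < I.x m * ((1 - 79 * (1 / (n : ℝ))) * (n - s - 1)) := by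
      calc _ ≤ _ := h4
        _ < _ := h5
        _ = _ := by ring
    have h7 := lt_of_mul_lt_mul_left h6 hx0.le
    have h8 : (n - s) * (2 - 1 / (n : ℝ)) - n = n - 2 * s - 1 + s * (1 / n) := by
      have : (n - s) * (2 - 1 / (n : ℝ)) - n = n - 2 * s - (n * (1 / n)) + s * (1 / n) := by ring
      rw [this, hnn]
    have h9 : (1 - 79 * (1 / (n : ℝ))) * (n - s - 1) = n - s - 1 - 79 * (n * (1 / n)) +
        79 * (s + 1) * (1 / n) := by ring
    rw [h8, h9, hnn] at h7
    have h10 : 79 * (s + 1) * (1 / (n : ℝ)) ≤ 79 * 61 * (1 / 10 ^ 6) := by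
      apply mul_le_mul _ hinv hinv0.le (by norm_num)
      nlinarith
    have h11 : 0 ≤ s * (1 / (n : ℝ)) := by positivity
    generalize (1 / (n : ℝ)) = u at *
    have h12 : (79 * 61 * (1 / 10 ^ 6) : ℝ) < 1 := by norm_num
    linarith
  · -- phase 2
    unfold rr at h3
    have hx' : (n : ℝ) * I.x m ≤ n := by nlinarith
    have hc0 : 0 ≤ 1 - 79 * (1 / (n : ℝ)) := by
      have h12 : (79 * (1 / 10 ^ 6) : ℝ) < 1 := by norm_num
      linarith
    have hcon' : I.w m < 1 - 79 * (1 / (n : ℝ)) := by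
      have : (1 - 79 * (1 / (n : ℝ))) * I.x m ≤ (1 - 79 * (1 / (n : ℝ))) * 1 :=
        mul_le_mul_of_nonneg_left hx1 hc0
      linarith
    have hd0 : 0 ≤ dp n := by unfold dp; positivity
    have hd1 : (n : ℝ) * dp n ≤ 1 / 10 ^ 6 := by
      unfold dp
      have e : (n : ℝ) * (1 / (n : ℝ) ^ 5) = (1 / n) ^ 4 := by field_simp
      rw [e]
      calc (1 / (n : ℝ)) ^ 4 ≤ (1 / n) ^ 1 := by
            apply pow_le_pow_of_le_one hinv0.le _ (by norm_num)
            have : (1 / 10 ^ 6 : ℝ) < 1 := by norm_num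
            linarith
        _ ≤ 1 / 10 ^ 6 := by simpa using hinv
    have h4 : (n - s) * (2 - 1 / (n : ℝ)) - (n - s) * dp n - n ≤ I.w m * (n - s - 1) := by nlinarith
    have h5 : I.w m * (n - s - 1) < (1 - 79 * (1 / (n : ℝ))) * (n - s - 1) :=
      mul_lt_mul_of_pos_right hcon' hns
    have h8 : (n - s) * (2 - 1 / (n : ℝ)) = 2 * n - 2 * s - (n * (1 / n)) + s * (1 / n) := by ring
    have h9 : (1 - 79 * (1 / (n : ℝ))) * (n - s - 1) = n - s - 1 - 79 * (n * (1 / n)) +
        79 * (s + 1) * (1 / n) := by ring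
    rw [h9, hnn] at h5
    rw [h8, hnn] at h4
    have h10 : 79 * (s + 1) * (1 / (n : ℝ)) ≤ 79 * 61 * (1 / 10 ^ 6) := by
      apply mul_le_mul _ hinv hinv0.le (by norm_num)
      nlinarith
    have h11 : 0 ≤ s * (1 / (n : ℝ)) := by positivity
    have h12 : (n - s) * dp n ≤ 1 / 10 ^ 6 := by nlinarith
    generalize (1 / (n : ℝ)) = u at *
    have h13 : (79 * 61 * (1 / 10 ^ 6) + 1 / 10 ^ 6 : ℝ) < 1 := by norm_num
    linarith

/-- small tasks always have room in phase 1 (and phase 2) outside a small set -/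
theorem small_room (hn : 10 ^ 6 ≤ n) {N : ℕ} (hI : I.OK N) (c : ℕ → Fin n) (m : ℕ) (hm : m < N)
    (hw : I.w m ≤ 3 / n) (S : Finset (Fin n)) (hS : S.card ≤ 60) : ∃ i, i ∉ S ∧ I.fits c m i := by
  by_contra hcon
  push Not at hcon
  have h1 := I.forced hn hI c m hm S hS (fun i hi => hcon i hi)
  have hnR : (10 : ℝ) ^ 6 ≤ n := by exact_mod_cast hn
  have hn0 : (0 : ℝ) < n := by linarith [pow_pos (by norm_num : (0:ℝ) < 10) 6]
  have hxlo := hI.xlo m hm
  have hlam : 1 - lam n + 1 / n = 1 - 79 * (1 / (n : ℝ)) := by unfold lam; ring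
  rw [hlam] at h1
  have hinv : 1 / (n : ℝ) ≤ 1 / 10 ^ 6 := one_div_le_one_div_of_le (by positivity) hnR
  have h2 : (1 - 79 * (1 / (n : ℝ))) ≥ 9 / 10 := by
    norm_num at hinv ⊢
    linarith
  have h3 : (9 / 10 : ℝ) * (4 / n) ≤ (1 - 79 * (1 / (n : ℝ))) * I.x m :=
    mul_le_mul h2 hxlo.le (by positivity) (by linarith)
  have h4 : (3 : ℝ) / n < (9 / 10 : ℝ) * (4 / n) := by
    have : (9 / 10 : ℝ) * (4 / n) = 3.6 / n := by ring
    rw [this]
    exact div_lt_div_of_pos_right (by norm_num) hn0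
  linarith

theorem kap_small (hn : 10 ^ 6 ≤ n) : kap n ≤ 1 / 10 ^ 6 * (1 / n) := by
  have hnR : (10 : ℝ) ^ 6 ≤ n := by exact_mod_cast hn
  have hn0 : (0 : ℝ) < n := lt_of_lt_of_le (by positivity) hnR
  have hinv : 1 / (n : ℝ) ≤ 1 / 10 ^ 6 := one_div_le_one_div_of_le (by positivity) hnR
  have hinv0 : 0 < 1 / (n : ℝ) := by positivity
  have h1 : (1 / (n : ℝ)) ≤ 1 := hinv.trans (by norm_num)
  unfold kap
  rw [show 1 / (n : ℝ) ^ 30 = (1 / n) ^ 29 * (1 / n) by rw [div_pow, one_pow]; field_simp]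
  apply mul_le_mul_of_nonneg_right _ hinv0.le
  calc (1 / (n : ℝ)) ^ 29 ≤ (1 / n) ^ 1 := pow_le_pow_of_le_one hinv0.le h1 (by norm_num)
    _ ≤ 1 / 10 ^ 6 := by simpa using hinv

theorem dp_small (hn : 10 ^ 6 ≤ n) : dp n ≤ 1 / 10 ^ 6 * (1 / n) := by
  have hnR : (10 : ℝ) ^ 6 ≤ n := by exact_mod_cast hn
  have hn0 : (0 : ℝ) < n := lt_of_lt_of_le (by positivity) hnR
  have hinv : 1 / (n : ℝ) ≤ 1 / 10 ^ 6 := one_div_le_one_div_of_le (by positivity) hnR
  have hinv0 : 0 < 1 / (n : ℝ) := by positivity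
  have h1 : (1 / (n : ℝ)) ≤ 1 := hinv.trans (by norm_num)
  unfold dp
  rw [show 1 / (n : ℝ) ^ 5 = (1 / n) ^ 4 * (1 / n) by rw [div_pow, one_pow]; field_simp]
  apply mul_le_mul_of_nonneg_right _ hinv0.le
  calc (1 / (n : ℝ)) ^ 4 ≤ (1 / n) ^ 1 := pow_le_pow_of_le_one hinv0.le h1 (by norm_num)
    _ ≤ 1 / 10 ^ 6 := by simpa using hinv

theorem GG_card_le (g : ℕ) : (GG n g).card ≤ g := by
  have h : (GG n g).card ≤ (range g).card := by
    apply card_le_card_of_injOn (fun i => i.val)
    · intro i hi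
      unfold GG at hi
      simp only [coe_filter, mem_univ, true_and, Set.mem_setOf_eq] at hi
      simpa using hi
    · intro i _ j _ hij
      exact Fin.ext hij
  simpa using h

/-- dust always has at least `n/5` machines -/
theorem dust_room (hn : 10 ^ 6 ≤ n) {N g : ℕ} (hg : 4 * g ≤ n) (hI : I.OK N) (c : ℕ → Fin n)
    (m : ℕ) (hm : m < N) (hw : I.w m < kap n) :
    I.allowed g c m = I.Ud g c m ∧ (n : ℝ) / 5 ≤ ((I.Ud g c m).card : ℝ) := by
  have hnR : (10 : ℝ) ^ 6 ≤ n := by exact_mod_cast hn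
  have hn0 : (0 : ℝ) < n := lt_of_lt_of_le (by positivity) hnR
  have hx1 := hI.xhi m hm
  have hxlo := hI.xlo m hm
  have hx0 : 0 < I.x m := lt_of_lt_of_le (hI.wpos m hm) (hI.wle m hm)
  have hw0 := hI.wpos m hm
  set B : Finset (Fin n) := univ.filter (fun i => ¬ I.fits c m i) with hB
  have hcov : (univ : Finset (Fin n)) ⊆ I.Ud g c m ∪ (GG n g ∪ (I.Cs c m ∪ B)) := by
    intro i _
    by_cases h1 : i ∈ GG n g
    · simp [h1]
    by_cases h2 : i ∈ I.Cs c m
    · simp [h2]
    by_cases h3 : I.fits c m i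
    · unfold Ud
      simp [h1, h2, h3]
    · simp [hB, h3]
  have hcard : n ≤ (I.Ud g c m).card + (g + (28 + B.card)) := by
    have h1 := card_le_card hcov
    rw [card_univ, Fintype.card_fin] at h1
    refine h1.trans ((card_union_le _ _).trans ?_)
    refine Nat.add_le_add_left ((card_union_le _ _).trans ?_) _
    refine Nat.add_le_add (GG_card_le g) ((card_union_le _ _).trans ?_)
    exact Nat.add_le_add_right (I.Cs_card hn hI c m hm) _
  -- bound of B
  have hthr : 19 / 10 * I.x m ≤ thr n (I.x m) - I.w m := by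
    have hk := kap_small hn
    have hd := dp_small hn
    have hinv : 1 / (n : ℝ) ≤ 1 / 10 ^ 6 := one_div_le_one_div_of_le (by positivity) hnR
    have hinv0 : 0 < 1 / (n : ℝ) := by positivity
    have hx4 : 4 * (1 / (n : ℝ)) < I.x m := by
      have : 4 * (1 / (n : ℝ)) = 4 / n := by ring
      linarith
    unfold thr rr
    generalize (1 / (n : ℝ)) = u at *
    have h6 : (1 / 10 ^ 6 : ℝ) = 1 / 1000000 := by norm_num
    rw [h6] at *
    split_ifs with hph
    · nlinarith
    · nlinarith
  have hBc : (B.card : ℝ) * (19 / 10) ≤ n := by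
    have h1 : (B.card : ℝ) * (19 / 10 * I.x m) ≤ ∑ i ∈ B, I.ld c m i := by
      rw [← nsmul_eq_mul]
      apply card_nsmul_le_sum
      intro i hi
      rw [hB, mem_filter] at hi
      have := hi.2
      unfold fits at this
      push Not at this
      linarith
    have h2 : ∑ i ∈ B, I.ld c m i ≤ ∑ i, I.ld c m i :=
      sum_le_sum_of_subset_of_nonneg (subset_univ _) (fun i _ _ => I.ld_nonneg hI c m hm.le i)
    have hvol := hI.volle m hm
    rw [← I.sum_ld c m] at hvol
    have h3 : I.x m * ((B.card : ℝ) * (19 / 10)) ≤ I.x m * n := by nlinarith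
    exact le_of_mul_le_mul_left h3 hx0
  have hU : (n : ℝ) / 5 ≤ ((I.Ud g c m).card : ℝ) := by
    have h1 : (n : ℝ) ≤ (I.Ud g c m).card + (g + (28 + B.card)) := by exact_mod_cast hcard
    have h2 : (4 : ℝ) * g ≤ n := by exact_mod_cast hg
    have h3 : (10 : ℝ) ^ 6 = 1000000 := by norm_num
    linarith
  refine ⟨?_, hU⟩
  unfold allowed
  rw [if_pos hw, if_pos]
  rw [← card_pos]
  have : (0 : ℝ) < ((I.Ud g c m).card : ℝ) := by linarith [div_pos hn0 (by norm_num : (0:ℝ) < 5)]
  exact_mod_cast this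

/-- in phase 1 some machine fits -/
theorem phase1_room (hn : 10 ^ 6 ≤ n) {N : ℕ} (hI : I.OK N) (c : ℕ → Fin n) (m : ℕ) (hm : m < N)
    (hx : I.x m ≤ 1 - dd n) : (I.U c m).Nonempty := by
  refine ⟨argminF (I.ld c m), ?_⟩
  unfold U
  rw [mem_filter]
  refine ⟨mem_univ _, ?_, ?_⟩
  · unfold Cs; rw [if_pos hx]; simp
  · unfold fits thr
    rw [if_pos hx]
    exact I.argmin_safe hI c m hm

theorem allowed_nonempty (g : ℕ) (c : ℕ → Fin n) (m : ℕ) : (I.allowed g c m).Nonempty := by
  unfold allowed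
  split_ifs with h1 h2 h3 h4 h5 h6
  · exact h2
  · exact singleton_nonempty _
  · exact h4
  · exact singleton_nonempty _
  · exact h5
  · exact singleton_nonempty _
  · exact singleton_nonempty _

/-- coarse placements: either the uniform rule, or forced in phase 2 -/
theorem coarse_cases (hn : 10 ^ 6 ≤ n) {N g : ℕ} (hI : I.OK N) (c : ℕ → Fin n)
    (h : I.Legal g c N) (m : ℕ) (hm : m < N) (hw : kap n ≤ I.w m) :
    (I.fits c m (c m) ∧ c m ∉ I.Cs c m ∧ (I.U c m).Nonempty ∧
      (I.w m ≤ 3 / n → I.x m ≤ 1 - dd n → c m ∉ CC n)) ∨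
    ((1 - lam n + 1 / n) * I.x m ≤ I.w m ∧ 1 - dd n < I.x m ∧ I.U c m = ∅) := by
  have hcm := h m hm
  unfold allowed at hcm
  rw [if_neg (not_lt.mpr hw)] at hcm
  split_ifs at hcm with h1 h2 h3 h4
  · left
    have hCs : I.Cs c m = ∅ := by unfold Cs; rw [if_pos h1.2]
    unfold Us at hcm
    rw [mem_filter] at hcm
    exact ⟨hcm.2.2, by rw [hCs]; simp, I.phase1_room hn hI c m hm h1.2, fun _ _ => hcm.2.1⟩
  · exfalso
    obtain ⟨i, hi1, hi2⟩ := I.small_room hn hI c m hm h1.1 (CC n) (le_trans (CC_card n) (by norm_num))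
    apply h2
    refine ⟨i, ?_⟩
    unfold Us
    rw [mem_filter]
    exact ⟨mem_univ _, hi1, hi2⟩
  · left
    have hU := h3
    unfold U at hcm
    rw [mem_filter] at hcm
    exact ⟨hcm.2.2, hcm.2.1, hU, fun a b => absurd ⟨a, b⟩ h1⟩
  all_goals
    right
    have hU : I.U c m = ∅ := not_nonempty_iff_eq_empty.mp h3
    have hx : 1 - dd n < I.x m := by
      by_contra hcon
      push Not at hcon
      exact h3 (I.phase1_room hn hI c m hm hcon)
    refine ⟨?_, hx, hU⟩
    apply I.forced hn hI c m hm (I.Cs c m) (le_trans (I.Cs_card hn hI c m hm) (by norm_num))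
    intro i hi hfit
    have : i ∈ I.U c m := by
      unfold U
      rw [mem_filter]
      exact ⟨mem_univ _, hi, hfit⟩
    rw [hU] at this
    simp at this

end Inst

end

end RLB
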