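import Mathlib

/-! D7: abstract chain lemma for completion processes, and D4: the volume bound -/

namespace RLB

open Finset

theorem exists_event {ι : Type} [DecidableEq ι] (c : ℕ → ι) (cm : ℕ → Finset ι) (t0 T : ℕ)
    (hstep : ∀ t, t0 ≤ t → t < T → ∀ i, i ∉ cm t → i ∈ cm (t + 1) → i = c t)
    (t1 : ℕ) (h0 : t0 ≤ t1) (h1 : t1 ≤ T) (i : ι) (hi : i ∉ cm t1) (hT : i ∈ cm T) :
    ∃ t, t1 ≤ t ∧ t < T ∧ c t = i ∧ i ∉ cm t ∧ i ∈ cm (t + 1) := by
  by_contra hcon
  push Not at hcon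
  have key : ∀ d, t1 + d ≤ T → i ∉ cm (t1 + d) := by
    intro d
    induction d with
    | zero => intro _; simpa using hi
    | succ d ih =>
      intro hd hmem
      have h2 := ih (by omega)
      have h3 := hstep (t1 + d) (by omega) (by omega) i h2 hmem
      exact hcon (t1 + d) (by omega) (by omega) h3.symm h2 hmem
  have := key (T - t1) (by omega)
  rw [Nat.add_sub_cancel' h1] at this
  exact this hT

theorem chain {ι : Type} [DecidableEq ι] (c : ℕ → ι) (cm : ℕ → Finset ι) (w : ℕ → ℝ)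
    (S : Finset ι) (t0 T : ℕ) (nn : ℝ) (hS : (S.card : ℝ) ≤ nn)
    (hmono : ∀ t t', t0 ≤ t → t ≤ t' → t' ≤ T → cm t ⊆ cm t')
    (hstep : ∀ t, t0 ≤ t → t < T → ∀ i, i ∉ cm t → i ∈ cm (t + 1) → i = c t)
    (hend : S ⊆ cm T) (K0 : ℕ) (ρ A b : ℝ) (hρ : 1 < ρ) (hb : 0 ≤ b)
    (H : ∀ t, t0 ≤ t → t < T → c t ∈ S → c t ∉ cm t → c t ∈ cm (t + 1) →
      K0 ≤ (cm t ∩ S).card → A ≤ w t ∨
      ∃ B ⊆ S, B.Nonempty ∧ Disjoint B (cm (t + 1)) ∧
        ρ * ((cm t ∩ S).card : ℝ) ≤ ((cm t ∩ S).card : ℝ) + B.card ∧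
        ∀ t', t < t' → t' < T → c t' ∈ B → c t' ∉ cm t' → c t' ∈ cm (t' + 1) → w t' ≤ w t + b)
    (s : ℕ) (t : ℕ) (h0 : t0 ≤ t) (hT : t < T) (hc : c t ∈ S) (hc1 : c t ∉ cm t)
    (hc2 : c t ∈ cm (t + 1)) (hK : K0 ≤ (cm t ∩ S).card)
    (hs : nn ≤ ((cm t ∩ S).card : ℝ) * ρ ^ s) : A - b * s ≤ w t := by
  induction s generalizing t with
  | zero =>
    exfalso
    have h1 : (cm t ∩ S).card < S.card := by
      apply card_lt_card
      refine ⟨inter_subset_right, fun h => hc1 ?_⟩
      exact (mem_inter.mp (h hc)).1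
    have h2 : ((cm t ∩ S).card : ℝ) < S.card := by exact_mod_cast h1
    simp at hs
    linarith
  | succ s ih =>
    rcases H t h0 hT hc hc1 hc2 hK with h | ⟨B, hBS, hBne, hdis, hgrow, hlater⟩
    · have : 0 ≤ b * ((s + 1 : ℕ) : ℝ) := by positivity
      linarith
    · -- the last event among the machines of `B`
      have hev : ∀ i ∈ B, ∃ t', t < t' ∧ t' < T ∧ c t' = i ∧ i ∉ cm t' ∧ i ∈ cm (t' + 1) := by
        intro i hi
        have hni : i ∉ cm (t + 1) := disjoint_left.mp hdis hi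
        obtain ⟨t', a1, a2, a3, a4, a5⟩ :=
          exists_event c cm t0 T hstep (t + 1) (by omega) (by omega) i hni (hend (hBS hi))
        exact ⟨t', by omega, a2, a3, a4, a5⟩
      let E : Finset ℕ := (range T).filter (fun t' => t < t' ∧ c t' ∈ B ∧ c t' ∉ cm t' ∧
        c t' ∈ cm (t' + 1))
      have hEne : E.Nonempty := by
        obtain ⟨i, hi⟩ := hBne
        obtain ⟨t', a1, a2, a3, a4, a5⟩ := hev i hi
        refine ⟨t', mem_filter.mpr ⟨mem_range.mpr a2, a1, ?_, ?_, ?_⟩⟩ <;> rw [a3] <;> assumption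
      obtain ⟨m, hm, hmax⟩ := E.exists_max_image id hEne
      have hm' := (mem_filter.mp hm).2
      have hmT : m < T := mem_range.mp (mem_filter.mp hm).1
      -- all machines of `B` other than `c m` are complete at time `m`
      have hBm : ∀ i ∈ B, i ≠ c m → i ∈ cm m := by
        intro i hi hne
        obtain ⟨t', a1, a2, a3, a4, a5⟩ := hev i hi
        have : t' ∈ E := mem_filter.mpr ⟨mem_range.mpr a2, a1, by rw [a3]; exact hi,
          by rw [a3]; exact a4, by rw [a3]; exact a5⟩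
        have hle := hmax t' this
        simp only [id] at hle
        have hlt : t' < m := by
          rcases lt_or_eq_of_le hle with h | h
          · exact h
          · exfalso; apply hne; rw [← a3, h]
        exact hmono (t' + 1) m (by omega) (by omega) (by omega) a5
      have hsub : insert (c t) ((cm t ∩ S) ∪ (B.erase (c m))) ⊆ cm m ∩ S := by
        intro i hi
        rw [mem_insert, mem_union] at hi
        rcases hi with h | h | h
        · subst h
          exact mem_inter.mpr ⟨hmono (t + 1) m (by omega) (by omega) (by omega) hc2, hc⟩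
        · obtain ⟨h1, h2⟩ := mem_inter.mp h
          exact mem_inter.mpr ⟨hmono t m (by omega) (by omega) (by omega) h1, h2⟩
        · obtain ⟨h1, h2⟩ := mem_erase.mp h
          exact mem_inter.mpr ⟨hBm i h2 h1, hBS h2⟩
      have hcard : (cm t ∩ S).card + B.card ≤ (cm m ∩ S).card := by
        have e1 : Disjoint (cm t ∩ S) (B.erase (c m)) := by
          rw [disjoint_left]
          intro i hi hi'
          have h1 : i ∈ cm (t + 1) := hmono t (t + 1) h0 (by omega) (by omega) (mem_inter.mp hi).1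
          exact disjoint_left.mp hdis (mem_of_mem_erase hi') h1
        have e2 : c t ∉ (cm t ∩ S) ∪ (B.erase (c m)) := by
          rw [mem_union]
          rintro (h | h)
          · exact hc1 (mem_inter.mp h).1
          · exact disjoint_left.mp hdis (mem_of_mem_erase h) hc2
        have e3 := card_le_card hsub
        rw [card_insert_of_notMem e2, card_union_of_disjoint e1, card_erase_of_mem hm'.2.1] at e3
        have : 0 < B.card := hBne.card_pos
        omega
      have hcard' : ((cm t ∩ S).card : ℝ) + B.card ≤ (cm m ∩ S).card := by exact_mod_cast hcard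
      have hρ0 : (0 : ℝ) < ρ ^ s := by positivity
      have hs' : nn ≤ ((cm m ∩ S).card : ℝ) * ρ ^ s := by
        calc nn ≤ ((cm t ∩ S).card : ℝ) * ρ ^ (s + 1) := hs
          _ = (ρ * ((cm t ∩ S).card : ℝ)) * ρ ^ s := by ring
          _ ≤ ((cm m ∩ S).card : ℝ) * ρ ^ s := by
            apply mul_le_mul_of_nonneg_right _ hρ0.le
            linarith
      have hKm : K0 ≤ (cm m ∩ S).card := by omega
      have hr := ih m (by omega) hmT (hBS hm'.2.1) hm'.2.2.1 hm'.2.2.2 hKm hs'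
      have hw := hlater m hm'.1 hmT hm'.2.1 hm'.2.2.1 hm'.2.2.2
      push_cast
      linarith

/-- at most `K0` machines are completed by a task of weight `< A'` -/
theorem few_small {ι : Type} [DecidableEq ι] (c : ℕ → ι) (cm : ℕ → Finset ι) (w : ℕ → ℝ)
    (S : Finset ι) (t0 T : ℕ)
    (hmono : ∀ t t', t0 ≤ t → t ≤ t' → t' ≤ T → cm t ⊆ cm t')
    (hstep : ∀ t, t0 ≤ t → t < T → ∀ i, i ∉ cm t → i ∈ cm (t + 1) → i = c t)
    (K0 : ℕ) (A' : ℝ)
    (H : ∀ t, t0 ≤ t → t < T → c t ∈ S → c t ∉ cm t → c t ∈ cm (t + 1) →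
      K0 ≤ (cm t ∩ S).card → A' ≤ w t)
    (X : Finset ι) (hX : X ⊆ S)
    (hX' : ∀ i ∈ X, ∃ t, t0 ≤ t ∧ t < T ∧ c t = i ∧ i ∉ cm t ∧ i ∈ cm (t + 1) ∧ w t < A') :
    X.card ≤ K0 := by
  choose! τ h0 hT hc h1 h2 h3 using hX'
  have hinj : Set.InjOn (fun i => (cm (τ i) ∩ S).card) X := by
    intro i hi j hj hij
    by_contra hne
    have hττ : τ i ≠ τ j := by
      intro h
      apply hne
      rw [← hc i hi, ← hc j hj, h]
    have main : ∀ i ∈ X, ∀ j ∈ X, τ i < τ j → (cm (τ i) ∩ S).card < (cm (τ j) ∩ S).card := by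
      intro i hi j hj hlt
      apply card_lt_card
      refine ⟨inter_subset_inter_right (hmono _ _ (h0 i hi) hlt.le (hT j hj).le), fun h => ?_⟩
      have : i ∈ cm (τ j) ∩ S := by
        refine mem_inter.mpr ⟨hmono (τ i + 1) (τ j) (by have := h0 i hi; omega) (by omega)
          (hT j hj).le (h2 i hi), hX hi⟩
      exact h1 i hi (mem_inter.mp (h this)).1
    rcases lt_or_gt_of_ne hττ with h | h
    · have := main i hi j hj h
      simp only at hij
      omega
    · have := main j hj i hi h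
      simp only at hij
      omega
  have hmaps : ∀ i ∈ X, (fun i => (cm (τ i) ∩ S).card) i ∈ range K0 := by
    intro i hi
    rw [mem_range]
    by_contra hcon
    push Not at hcon
    have := H (τ i) (h0 i hi) (hT i hi) (by rw [hc i hi]; exact hX hi)
      (by rw [hc i hi]; exact h1 i hi) (by rw [hc i hi]; exact h2 i hi) hcon
    have := h3 i hi
    linarith
  have := card_le_card_of_injOn _ hmaps hinj
  simpa using this

/-- the volume bound -/
theorem volume_bound {n : ℕ} (hn : 0 < n) (l : Fin n → ℝ) (x v b : ℝ) (hl : ∀ i, 0 ≤ l i)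
    (hv0 : 0 ≤ v) (hvx : v ≤ x) (hV : ∑ i, l i + v ≤ n * x) (K A E Z : Finset (Fin n))
    (hKA : Disjoint K A) (hKE : Disjoint K E) (hKZ : Disjoint K Z) (hAE : Disjoint A E)
    (hAZ : Disjoint A Z) (hEZ : Disjoint E Z)
    (hK : ∀ i ∈ K, b ≤ l i) (hA : ∀ i ∈ A, b - v ≤ l i) (hE : ∀ i ∈ E, b - x ≤ l i)
    (hO : ∀ i, i ∉ K → i ∉ A → i ∉ E → i ∉ Z → (2 - 1 / (n : ℝ)) * x - v ≤ l i) :
    ((K.card : ℝ) + A.card + E.card) * b ≤ x * (K.card + 2 * A.card + 2 * E.card + Z.card) := by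
  classical
  set O : Finset (Fin n) := univ \ (K ∪ A ∪ E ∪ Z) with hOdef
  have hx0 : 0 ≤ x := le_trans hv0 hvx
  have d1 : Disjoint (K ∪ A) E := by
    rw [disjoint_union_left]; exact ⟨hKE, hAE⟩
  have d2 : Disjoint (K ∪ A ∪ E) Z := by
    rw [disjoint_union_left, disjoint_union_left]; exact ⟨⟨hKZ, hAZ⟩, hEZ⟩
  have hunion : (K ∪ A ∪ E ∪ Z).card = K.card + A.card + E.card + Z.card := by
    rw [card_union_of_disjoint d2, card_union_of_disjoint d1, card_union_of_disjoint hKA]
  have hcardO : O.card + (K.card + A.card + E.card + Z.card) = n := by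
    rw [← hunion, hOdef]
    have := card_sdiff_add_card_eq_card (subset_univ (K ∪ A ∪ E ∪ Z))
    rw [card_univ, Fintype.card_fin] at this
    exact this
  have hsum : ∑ i, l i = ∑ i ∈ K, l i + ∑ i ∈ A, l i + ∑ i ∈ E, l i + ∑ i ∈ Z, l i + ∑ i ∈ O, l i := by
    rw [← sum_union hKA, ← sum_union d1, ← sum_union d2]
    rw [add_comm, hOdef]
    exact (sum_sdiff (subset_univ _)).symm
  have sK : (K.card : ℝ) * b ≤ ∑ i ∈ K, l i := by
    rw [← nsmul_eq_mul]; exact card_nsmul_le_sum _ _ _ hK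
  have sA : (A.card : ℝ) * (b - v) ≤ ∑ i ∈ A, l i := by
    rw [← nsmul_eq_mul]; exact card_nsmul_le_sum _ _ _ hA
  have sE : (E.card : ℝ) * (b - x) ≤ ∑ i ∈ E, l i := by
    rw [← nsmul_eq_mul]; exact card_nsmul_le_sum _ _ _ hE
  have sZ : 0 ≤ ∑ i ∈ Z, l i := sum_nonneg (fun i _ => hl i)
  have sO : (O.card : ℝ) * ((2 - 1 / (n : ℝ)) * x - v) ≤ ∑ i ∈ O, l i := by
    rw [← nsmul_eq_mul]
    apply card_nsmul_le_sum
    intro i hi
    rw [hOdef, mem_sdiff, mem_union, mem_union, mem_union] at hi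
    push Not at hi
    exact hO i hi.2.1.1.1 hi.2.1.1.2 hi.2.1.2 hi.2.2
  have sO' : 0 ≤ ∑ i ∈ O, l i := sum_nonneg (fun i _ => hl i)
  have hnR : (0 : ℝ) < n := by exact_mod_cast hn
  have hcO : (O.card : ℝ) + (K.card + A.card + E.card + Z.card) = n := by exact_mod_cast hcardO
  have hk0 : (0 : ℝ) ≤ K.card := Nat.cast_nonneg _
  have hα0 : (0 : ℝ) ≤ A.card := Nat.cast_nonneg _
  have he0 : (0 : ℝ) ≤ E.card := Nat.cast_nonneg _
  have hz0 : (0 : ℝ) ≤ Z.card := Nat.cast_nonneg _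
  have ho0 : (0 : ℝ) ≤ O.card := Nat.cast_nonneg _
  have hdich : ((O.card : ℝ) = 0 ∧ (A.card : ℝ) = 0) ∨ (1 : ℝ) ≤ A.card + O.card := by
    by_cases hcase : O.card = 0 ∧ A.card = 0
    · left; rw [hcase.1, hcase.2]; simp
    · right
      have : 1 ≤ A.card + O.card := by
        by_contra h
        apply hcase
        omega
      exact_mod_cast this
  generalize (K.card : ℝ) = k at *
  generalize (A.card : ℝ) = α at *
  generalize (E.card : ℝ) = e at *
  generalize (Z.card : ℝ) = z at *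
  generalize (O.card : ℝ) = o at *
  rcases hdich with ⟨ho, hα⟩ | hge
  · have h1 : k * b + e * (b - x) ≤ n * x := by
      have : 0 ≤ ∑ i ∈ A, l i := sum_nonneg (fun i _ => hl i)
      linarith
    rw [ho, hα] at hcO
    rw [hα]
    nlinarith
  · 
    -- main inequality
    have h1 : k * b + α * (b - v) + e * (b - x) + o * ((2 - 1 / (n : ℝ)) * x - v) ≤ n * x - v := by
      linarith
    have h2 : (k + α + e) * b ≤ n * x + (α + o - 1) * v + e * x - o * (2 - 1 / (n : ℝ)) * x := by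
      nlinarith
    have h3 : (α + o - 1) * v ≤ (α + o - 1) * x := mul_le_mul_of_nonneg_left hvx (by linarith)
    have h4 : (k + α + e) * b ≤ x * (n + (α + o - 1) + e - o * (2 - 1 / (n : ℝ))) := by
      nlinarith
    have hon : o / n ≤ 1 := by
      rw [div_le_one hnR]; linarith
    have h5 : (n : ℝ) + (α + o - 1) + e - o * (2 - 1 / (n : ℝ)) = k + 2 * α + 2 * e + z + (o / n - 1) := by
      rw [← hcO]
      field_simp
      ring
    rw [h5] at h4
    have h6 : x * (k + 2 * α + 2 * e + z + (o / n - 1)) ≤ x * (k + 2 * α + 2 * e + z) := by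
      apply mul_le_mul_of_nonneg_left _ hx0
      linarith
    linarith

end RLB
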