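import Pool.Agent.RLB.Basic

/-! P2: everything at time `t` only depends on the placements before `t` -/

namespace RLB

noncomputable section

open Finset Classical

namespace Inst

variable {n : ℕ} [NeZero n] (I : Inst n) (a : AP n) (ty : ℕ → Bool) (g : ℕ)

theorem ld_congr {c c' : ℕ → Fin n} {m : ℕ} (h : ∀ k < m, c k = c' k) : I.ld c m = I.ld c' m := by
  funext i
  unfold ld
  congr 1
  apply sum_congr _ (fun _ _ => rfl)
  apply filter_congr
  intro k hk
  rw [h k (mem_range.mp hk)]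

theorem uu_congr {c c' : ℕ → Fin n} {m : ℕ} (h : ∀ k < m, c k = c' k) (T : ℕ) :
    I.uu c T m = I.uu c' T m := by
  funext i
  unfold uu
  congr 1
  apply sum_congr _ (fun _ _ => rfl)
  apply filter_congr
  intro k hk
  rw [h k (mem_range.mp hk)]

theorem Cs_congr {c c' : ℕ → Fin n} {m : ℕ} (h : ∀ k < m, c k = c' k) : I.Cs c m = I.Cs c' m := by
  unfold Cs
  split_ifs
  · rfl
  · congr 1
    apply image_congr
    intro T hT
    have hT' : T < m + 1 := mem_range.mp (mem_filter.mp (mem_coe.mp hT)).1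
    show argminF (I.ld c T) = argminF (I.ld c' T)
    rw [I.ld_congr (fun k hk => h k (by omega))]

theorem U_congr {c c' : ℕ → Fin n} {m : ℕ} (h : ∀ k < m, c k = c' k) : I.U c m = I.U c' m := by
  unfold U fits
  rw [I.Cs_congr h, I.ld_congr h]

theorem allowed_congr {c c' : ℕ → Fin n} {m : ℕ} (h : ∀ k < m, c k = c' k) :
    I.allowed g c m = I.allowed g c' m := by
  unfold allowed
  rw [I.U_congr h]
  unfold Ud Us Cfit fits
  rw [I.Cs_congr h, I.ld_congr h]

theorem Ctl_congr {N : ℕ} {c c' : ℕ → Fin n} {m : ℕ} (h : ∀ k < m, c k = c' k) :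
    I.Ctl N c m ↔ I.Ctl N c' m := by
  unfold Ctl
  rw [I.U_congr h]

theorem Congr_pick {c c' : ℕ → Fin n} {m : ℕ} (h : ∀ k < m, c k = c' k) (T : ℕ) :
    I.pick a ty g c T m = I.pick a ty g c' T m := by
  unfold pick win
  rw [I.uu_congr h]

theorem lk_congr {c c' : ℕ → Fin n} {m : ℕ} (h : ∀ k < m, c k = c' k) (T : ℕ) :
    I.lk a ty g c T m = I.lk a ty g c' T m := by
  induction m with
  | zero => exact I.Congr_pick a ty g h T
  | succ t ih =>
    have h1 := ih (fun k hk => h k (by omega))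
    have h2 := I.Congr_pick a ty g h T
    unfold lk
    rw [h1, h2]

theorem Congr_hm {c c' : ℕ → Fin n} {m : ℕ} (h : ∀ k < m, c k = c' k) (T : ℕ) :
    I.hm a c T m = I.hm a c' T m := by
  funext i
  unfold hm
  rw [I.uu_congr h]

theorem Congr_BB {N : ℕ} {c c' : ℕ → Fin n} {m : ℕ} (h : ∀ k < m, c k = c' k) :
    I.BB a ty g N c m = I.BB a ty g N c' m := by
  unfold BB Ex
  rw [I.allowed_congr g h]
  congr 1
  apply filter_congr
  intro X _
  constructor
  · rintro ⟨T, hT, hX⟩
    exact ⟨T, hT, by rw [← I.lk_congr a ty g h T]; exact hX⟩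
  · rintro ⟨T, hT, hX⟩
    exact ⟨T, hT, by rw [I.lk_congr a ty g h T]; exact hX⟩

theorem ChiOK_congr {N : ℕ} {c c' : ℕ → Fin n} {m : ℕ} (h : ∀ k < m, c k = c' k) (i : Fin n) :
    I.ChiOK a ty g N c m i ↔ I.ChiOK a ty g N c' m i := by
  have e1 := I.allowed_congr g h
  have e2 := I.Congr_BB a ty g (N := N) h
  have e3 := fun T => I.Congr_hm a h T
  have e4 := fun T => I.uu_congr h T
  unfold ChiOK RegP SacP
  simp only [e1, e2, e3, e4]

end Inst

end

end RLB
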