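import Pool.Agent.RLB.Basic

/-! D3: facts about `uu` -/

namespace RLB

noncomputable section

open Finset Classical

namespace Inst

variable {n : ℕ} [NeZero n] (I : Inst n)

omit [NeZero n] in
theorem uu_succ (c : ℕ → Fin n) (T t : ℕ) (i : Fin n) :
    I.uu c T (t + 1) i = I.uu c T t i + (if I.act T t ∧ c t = i then I.w t else 0) := by
  unfold uu
  rw [range_add_one, filter_insert]
  split_ifs with h
  · rw [sum_insert (by simp)]
    ring
  · ring

theorem uu_mono {N : ℕ} (hI : I.OK N) (c : ℕ → Fin n) (T t t' : ℕ) (h : t ≤ t') (h' : t' ≤ N)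
    (i : Fin n) : I.uu c T t i ≤ I.uu c T t' i := by
  unfold uu
  apply add_le_add_right
  apply sum_le_sum_of_subset_of_nonneg
  · intro k hk
    rw [mem_filter, mem_range] at hk ⊢
    exact ⟨by omega, hk.2⟩
  · intro k hk _
    rw [mem_filter, mem_range] at hk
    exact (hI.wpos k (by omega)).le

/-- the senses are nested -/
theorem uu_nested {N : ℕ} (hI : I.OK N) (c : ℕ → Fin n) (T T' t : ℕ) (h : T ≤ T') (ht : t ≤ T)
    (hT : T ≤ N) (i : Fin n) : I.uu c T' t i ≤ I.uu c T t i := by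
  unfold uu
  apply add_le_add (hI.panti _ _ _ h)
  apply sum_le_sum_of_subset_of_nonneg
  · intro k hk
    rw [mem_filter, mem_range] at hk ⊢
    exact ⟨hk.1, hI.act_anti T T' k (by omega) h hk.2.1, hk.2.2⟩
  · intro k hk _
    rw [mem_filter, mem_range] at hk
    exact (hI.wpos k (by omega)).le

theorem uu_le_ld {N : ℕ} (hI : I.OK N) (c : ℕ → Fin n) (T t : ℕ) (ht : t ≤ T)
    (hT : T ≤ N) (i : Fin n) : I.uu c T t i ≤ I.ld c t i := by
  unfold uu ld
  apply add_le_add (hI.panti _ _ _ ht)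
  apply sum_le_sum_of_subset_of_nonneg
  · intro k hk
    rw [mem_filter, mem_range] at hk ⊢
    exact ⟨hk.1, hI.act_anti t T k hk.1 ht hk.2.1, hk.2.2⟩
  · intro k hk _
    rw [mem_filter, mem_range] at hk
    exact (hI.wpos k (by omega)).le

omit [NeZero n] in
theorem uu_self (c : ℕ → Fin n) (T : ℕ) (i : Fin n) : I.uu c T T i = I.ld c T i := rfl

theorem uu_zero_le (hn : 10 ^ 6 ≤ n) {N : ℕ} (hI : I.OK N) (c : ℕ → Fin n) (T : ℕ) (i : Fin n) :
    I.uu c T 0 i ≤ 8 / n := by
  unfold uu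
  simp only [range_zero, filter_empty, sum_empty, add_zero]
  have h1 := hI.panti 0 T i (Nat.zero_le _)
  have h2 := hI.p0 i
  have hnR : (0 : ℝ) < n := by
    have : 0 < n := by omega
    exact_mod_cast this
  have h3 : rr n * (4 / n) ≤ 8 / n := by
    unfold rr
    have e : (8 : ℝ) / n = 2 * (4 / n) := by ring
    rw [e]
    apply mul_le_mul_of_nonneg_right _ (by positivity)
    have : (0 : ℝ) ≤ 1 / n := by positivity
    linarith
  linarith

/-- critical loads are bounded above -/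
theorem crit_upper (hn : 10 ^ 6 ≤ n) {N : ℕ} (hI : I.OK N) (c : ℕ → Fin n) (T : ℕ) (hT : T ∈ I.TT N)
    (h : I.crit c T) (i : Fin n) : I.ld c T i ≤ qp n := by
  unfold TT at hT
  rw [mem_filter, mem_range] at hT
  obtain ⟨hTN, hisT⟩ := hT
  have hd := hisT.1
  obtain ⟨_, hw, _⟩ := hd
  have hvol := hI.volle T hTN
  have hx := hI.xhi T hTN
  have hnR : (0 : ℝ) < n := by
    have : 0 < n := by omega
    exact_mod_cast this
  rw [← I.sum_ld c T] at hvol
  have h1 : (∑ j ∈ univ.erase i, I.ld c T j) + I.ld c T i = ∑ j, I.ld c T j :=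
    sum_erase_add _ _ (mem_univ i)
  have h2 : ((univ.erase i : Finset (Fin n)).card : ℝ) * (qq n - dp n) ≤
      ∑ j ∈ univ.erase i, I.ld c T j := by
    rw [← nsmul_eq_mul]
    exact card_nsmul_le_sum _ _ _ (fun j _ => (h j).le)
  have h3 : ((univ.erase i : Finset (Fin n)).card : ℝ) = n - 1 := by
    rw [card_erase_of_mem (mem_univ i), card_univ, Fintype.card_fin]
    have : 1 ≤ n := by omega
    push_cast [Nat.cast_sub this]
    ring
  rw [h3] at h2
  have h4 : (n : ℝ) * I.x T ≤ n := by nlinarith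
  have h5 : ((n : ℝ) - 1) * (qq n - dp n) = n - 1 - (1 - 1 / n) - (n - 1) * dp n := by
    unfold qq
    field_simp
  unfold qp qq
  rw [h5] at h2
  have e : (1 : ℝ) - 1 / n + (n + 1) * dp n = (n : ℝ) - (1 - 2 * dp n) - (n - 1 - (1 - 1 / n) - (n - 1) * dp n) := by
    ring
  rw [e]
  linarith

theorem uu_le_qp (hn : 10 ^ 6 ≤ n) {N : ℕ} (hI : I.OK N) (c : ℕ → Fin n) (T : ℕ) (hT : T ∈ I.TT N)
    (h : I.crit c T) (t : ℕ) (ht : t ≤ T) (i : Fin n) : I.uu c T t i ≤ qp n := by
  have hTN : T < N := by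
    unfold TT at hT
    rw [mem_filter, mem_range] at hT
    exact hT.1
  calc I.uu c T t i ≤ I.uu c T T i := I.uu_mono hI c T t T ht hTN.le i
    _ = I.ld c T i := I.uu_self c T i
    _ ≤ qp n := I.crit_upper hn hI c T hT h i

end Inst

end

end RLB
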