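import Pool.Agent.RLB.Basic
import Pool.Agent.RLB.UFacts

/-! D12: existence of the controller's choice -/

namespace RLB

noncomputable section

open Finset Classical

/-- the largest element of a finite set of naturals (0 if empty) -/
def ctrl_top (S : Finset ℕ) : ℕ := S.sup id

theorem ctrl_le_top (S : Finset ℕ) (T : ℕ) (h : T ∈ S) : T ≤ ctrl_top S :=
  Finset.le_sup (f := id) h

theorem ctrl_top_mem (S : Finset ℕ) (h : 1 ≤ ctrl_top S) : ctrl_top S ∈ S := by
  have hne : S.Nonempty := by
    rw [nonempty_iff_ne_empty]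
    intro h0
    rw [h0] at h
    simp [ctrl_top] at h
  obtain ⟨b, hb, hb'⟩ := exists_mem_eq_sup S hne id
  unfold ctrl_top
  rw [hb']
  exact hb

namespace Inst

variable {n : ℕ} [NeZero n] (I : Inst n) (a : AP n) (ty : ℕ → Bool) (g : ℕ)

/-- active senses of type R1/R3 -/
def ctrl_act (N t : ℕ) : Finset ℕ := (I.JJ N t).filter (fun T => ty T = true ∧ I.ta a T ≤ t)

def ctrl_act2 (N t : ℕ) : Finset ℕ := (I.JJ N t).filter (fun T => ty T = false)

theorem controller_exists {N : ℕ} (hn : 10 ^ 6 ≤ n) (hI : I.OK N) (c : ℕ → Fin n) (t : ℕ) (ht : t < N) :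
    ∃ i, I.ChiOK a ty g N c t i := by
  by_cases hB : (I.BB a ty g N c t).Nonempty
  swap
  · obtain ⟨i, hi⟩ := I.allowed_nonempty g c t
    exact ⟨i, hi, fun h => absurd h hB⟩
  -- members of `JJ`
  have hJ : ∀ T ∈ I.JJ N t, t < T ∧ T < N := by
    intro T hT
    unfold JJ TT at hT
    rw [mem_filter, mem_filter, mem_range] at hT
    exact ⟨hT.2.1, hT.1.1⟩
  have hnest : ∀ T ∈ I.JJ N t, ∀ T' ∈ I.JJ N t, T ≤ T' → ∀ i, I.uu c T' t i ≤ I.uu c T t i := by
    intro T hT T' _ h i
    exact I.uu_nested hI c T T' t h (hJ T hT).1.le (hJ T hT).2.le i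
  have hnesth : ∀ T ∈ I.JJ N t, ∀ T' ∈ I.JJ N t, T ≤ T' → ∀ i, I.hm a c T' t i → I.hm a c T t i := by
    intro T hT T' hT' h i hh
    unfold hm at hh ⊢
    have := hnest T hT T' hT' h i
    linarith
  -- the functions top and rho
  set A13 := I.ctrl_act a ty N t with hA13
  set A2 := I.ctrl_act2 ty N t with hA2
  have hA13J : ∀ T ∈ A13, T ∈ I.JJ N t := fun T hT => (mem_filter.mp hT).1
  have hA2J : ∀ T ∈ A2, T ∈ I.JJ N t := fun T hT => (mem_filter.mp hT).1
  set tp : Fin n → ℕ := fun i => ctrl_top (A13.filter (fun T => I.hm a c T t i)) with htp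
  set rh : Fin n → ℕ := fun i => if i ∈ GG n g then ctrl_top (A2.filter (fun T => I.hm a c T t i)) else 0
    with hrh
  have htp_le : ∀ T ∈ A13, ∀ i, I.hm a c T t i → T ≤ tp i := by
    intro T hT i hh
    exact ctrl_le_top _ T (mem_filter.mpr ⟨hT, hh⟩)
  have htp_mem : ∀ i, 1 ≤ tp i → tp i ∈ A13 ∧ I.hm a c (tp i) t i := by
    intro i h
    have := ctrl_top_mem _ h
    exact mem_filter.mp this
  have htp_hm : ∀ T ∈ I.JJ N t, ∀ i, T ≤ tp i → I.hm a c T t i := by
    intro T hT i h
    have h1 : 1 ≤ tp i := by have := (hJ T hT).1; omega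
    obtain ⟨h2, h3⟩ := htp_mem i h1
    exact hnesth T hT (tp i) (hA13J _ h2) h i h3
  obtain ⟨im, him, himin⟩ := exists_min_image (I.BB a ty g N c t) tp hB
  set r := tp im with hr
  set As := (I.BB a ty g N c t).filter (fun i => tp i = r) with hAs
  have hAsne : As.Nonempty := ⟨im, mem_filter.mpr ⟨him, rfl⟩⟩
  obtain ⟨i0, hi0, hi0min⟩ := exists_min_image As rh hAsne
  have hi0B : i0 ∈ I.BB a ty g N c t := (mem_filter.mp hi0).1
  have hi0r : tp i0 = r := (mem_filter.mp hi0).2
  have hBall : ∀ i ∈ I.BB a ty g N c t, i ∈ I.allowed g c t := by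
    intro i hi
    unfold BB at hi
    exact (mem_sdiff.mp hi).1
  by_cases hsac : rh i0 ≠ 0 ∧ I.w t < 1 - a.eps / 2 ∧
      ∃ h, r < h ∧ a.Q ≤ ((I.BB a ty g N c t \ GG n g).filter (fun i => tp i = h)).card
  · -- sacrifice
    obtain ⟨_, hw, h, hrh', hQ⟩ := hsac
    set S := (I.BB a ty g N c t \ GG n g).filter (fun i => tp i = h) with hS
    have hQ1 : 1 ≤ a.Q := by unfold AP.Q; omega
    have hSne : S.Nonempty := by
      rw [← card_pos]
      omega
    set cp : Fin n → ℕ := fun i =>
      ctrl_top (A13.filter (fun T => T ≤ h ∧ qq n - a.beta ≤ I.uu c T t i)) with hcp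
    obtain ⟨i1, hi1, hi1max⟩ := exists_max_image S cp hSne
    have hi1' := mem_filter.mp hi1
    have hi1B := mem_sdiff.mp hi1'.1
    refine ⟨i1, hBall i1 hi1B.1, fun _ => ⟨hi1B.1, Or.inr ⟨hi1B.2, hw, ?_⟩⟩⟩
    intro T hT hty hta hh
    by_cases hc : qq n - a.beta ≤ I.uu c T t i1
    · exact Or.inl hc
    · right
      have hTA : T ∈ A13 := mem_filter.mpr ⟨hT, hty, hta⟩
      have hTh : T ≤ h := by
        have := htp_le T hTA i1 hh
        rw [hi1'.2] at this
        exact this
      refine le_trans hQ (card_le_card ?_)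
      intro i hi
      have hi' := mem_filter.mp hi
      have hiB := mem_sdiff.mp hi'.1
      rw [mem_filter]
      refine ⟨hiB.1, htp_hm T hT i (by rw [hi'.2]; exact hTh), ?_⟩
      by_contra hcon
      push Not at hcon
      have h1 : T ≤ cp i := ctrl_le_top _ T (mem_filter.mpr ⟨hTA, hTh, hcon⟩)
      have h2 : T ≤ cp i1 := le_trans h1 (hi1max i hi)
      have h3 : 1 ≤ cp i1 := by have := (hJ T hT).1; omega
      have h4 := mem_filter.mp (ctrl_top_mem _ h3)
      have h5 := hnest T hT _ (hA13J _ h4.1) h2 i1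
      exact hc (le_trans h4.2.2 h5)
  · -- regular
    refine ⟨i0, hBall i0 hi0B, fun _ => ⟨hi0B, Or.inl ⟨?_, ?_⟩⟩⟩
    · intro T hT hty hta hh i' hi'
      have hTA : T ∈ A13 := mem_filter.mpr ⟨hT, hty, hta⟩
      have h1 := htp_le T hTA i0 hh
      rw [hi0r] at h1
      exact htp_hm T hT i' (le_trans h1 (himin i' hi'))
    · intro T hT hty hiG hh
      have hTA : T ∈ A2 := mem_filter.mpr ⟨hT, hty⟩
      have hrh0 : rh i0 = ctrl_top (A2.filter (fun T => I.hm a c T t i0)) := by
        rw [hrh]; exact if_pos hiG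
      have hTr : T ≤ rh i0 := by
        rw [hrh0]
        exact ctrl_le_top _ T (mem_filter.mpr ⟨hTA, hh⟩)
      have hT1 : 1 ≤ T := by have := (hJ T hT).1; omega
      constructor
      · intro i' hi'
        rw [mem_inter] at hi'
        by_cases hA : tp i' = r
        · have h1 : rh i0 ≤ rh i' := hi0min i' (mem_filter.mpr ⟨hi'.1, hA⟩)
          have hrh1 : rh i' = ctrl_top (A2.filter (fun T => I.hm a c T t i')) := by
            rw [hrh]; exact if_pos hi'.2
          have h2 : 1 ≤ ctrl_top (A2.filter (fun T => I.hm a c T t i')) := by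
            rw [← hrh1]; omega
          have h3 := mem_filter.mp (ctrl_top_mem _ h2)
          refine hnesth T hT _ (hA2J _ h3.1) ?_ i' h3.2
          rw [← hrh1]; omega
        · have h1 : r < tp i' := lt_of_le_of_ne (himin i' hi'.1) (Ne.symm hA)
          by_cases hTh : T ≤ tp i'
          · exact htp_hm T hT i' hTh
          · exfalso
            push Not at hTh
            have h2 := htp_mem i' (by omega)
            have h3 : I.hm a c (tp i') t i0 := hnesth _ (hA13J _ h2.1) T hT hTh.le i0 hh
            have h4 := htp_le _ h2.1 i0 h3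
            omega
      · intro hw
        have hno : ∀ h, r < h →
            ((I.BB a ty g N c t \ GG n g).filter (fun i => tp i = h)).card < a.Q := by
          intro h hh'
          by_contra hcon
          push Not at hcon
          exact hsac ⟨by omega, hw, h, hh', hcon⟩
        have hsub : I.BB a ty g N c t \ GG n g ⊆
            (I.JJ N t).biUnion (fun h => if r < h then
              (I.BB a ty g N c t \ GG n g).filter (fun i => tp i = h) else ∅) := by
          intro i hi
          have hi' := mem_sdiff.mp hi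
          have hne : tp i ≠ r := by
            intro hA
            have h1 := hi0min i (mem_filter.mpr ⟨hi'.1, hA⟩)
            have h2 : rh i = 0 := by rw [hrh]; exact if_neg hi'.2
            omega
          have h1 : r < tp i := lt_of_le_of_ne (himin i hi'.1) (Ne.symm hne)
          have h2 := htp_mem i (by omega)
          rw [mem_biUnion]
          refine ⟨tp i, hA13J _ h2.1, ?_⟩
          rw [if_pos h1]
          exact mem_filter.mpr ⟨hi, rfl⟩
        refine le_trans (card_le_card hsub) ?_
        refine le_trans card_biUnion_le ?_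
        have hle : ∀ h ∈ I.JJ N t, (if r < h then
              (I.BB a ty g N c t \ GG n g).filter (fun i => tp i = h) else ∅).card ≤ a.Q := by
          intro h _
          split_ifs with hh'
          · exact (hno h hh').le
          · simp
        refine le_trans (sum_le_card_nsmul _ _ _ hle) ?_
        rw [smul_eq_mul]
        refine Nat.mul_le_mul_right _ ?_
        refine le_trans (card_le_card ?_) (I.TT_card hn hI)
        exact filter_subset _ _

end Inst

end

end RLB
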