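import Pool.Agent.RLB.Basic

/-! P3a: number of coarse tasks that are active at some target -/

namespace RLB

noncomputable section

open Finset Classical

namespace Inst

/-- at most `n^31` coarse tasks are active at a time -/
theorem coarse_card {n : ℕ} [NeZero n] (I : Inst n) {N : ℕ} (hI : I.OK N) (T : ℕ) (hT : T < N) :
    ((range T).filter (fun t => I.act T t ∧ kap n ≤ I.w t)).card ≤ n ^ 31 := by
  have hn0 : 0 < n := Nat.pos_of_ne_zero (NeZero.ne n)
  have hnR : (0 : ℝ) < n := by exact_mod_cast hn0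
  have hvol := hI.volle T hT
  have hx := hI.xhi T hT
  have hw := hI.wpos T hT
  have h1 : (((range T).filter (fun t => I.act T t ∧ kap n ≤ I.w t)).card : ℝ) * kap n ≤
      ∑ t ∈ (range T).filter (fun t => I.act T t ∧ kap n ≤ I.w t), I.w t := by
    rw [← nsmul_eq_mul]
    exact card_nsmul_le_sum _ _ _ (fun t ht => (mem_filter.mp ht).2.2)
  have h2 : ∑ t ∈ (range T).filter (fun t => I.act T t ∧ kap n ≤ I.w t), I.w t ≤
      ∑ t ∈ (range T).filter (fun t => I.act T t), I.w t := by
    apply sum_le_sum_of_subset_of_nonneg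
    · intro t ht
      rw [mem_filter] at ht ⊢
      exact ⟨ht.1, ht.2.1⟩
    · intro t ht _
      rw [mem_filter, mem_range] at ht
      exact (hI.wpos t (by omega)).le
  have h3 : ∑ t ∈ (range T).filter (fun t => I.act T t), I.w t ≤ I.vol T := by
    unfold vol
    have : 0 ≤ ∑ i, I.p T i := sum_nonneg (fun i _ => hI.pnn _ _)
    linarith
  have h4 : (n : ℝ) * I.x T ≤ n := by nlinarith
  have h5 : (((range T).filter (fun t => I.act T t ∧ kap n ≤ I.w t)).card : ℝ) * kap n ≤ n := by
    linarith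
  have h6 : (((range T).filter (fun t => I.act T t ∧ kap n ≤ I.w t)).card : ℝ) ≤ (n : ℝ) ^ 31 := by
    unfold kap at h5
    rw [mul_one_div, div_le_iff₀ (by positivity)] at h5
    calc _ ≤ _ := h5
      _ = (n : ℝ) ^ 31 := by ring
  exact_mod_cast h6

/-- at most `18 n^31` coarse tasks are active at some target -/
theorem ctl_card {n : ℕ} [NeZero n] (hn : 10 ^ 6 ≤ n) (I : Inst n) {N : ℕ} (hI : I.OK N) :
    ((range N).filter (fun t => kap n ≤ I.w t ∧ (I.JJ N t).Nonempty)).card ≤ 18 * n ^ 31 := by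
  have hsub : (range N).filter (fun t => kap n ≤ I.w t ∧ (I.JJ N t).Nonempty) ⊆
      (I.TT N).biUnion (fun T => (range T).filter (fun t => I.act T t ∧ kap n ≤ I.w t)) := by
    intro t ht
    rw [mem_filter] at ht
    obtain ⟨-, hk, T, hT⟩ := ht
    unfold JJ at hT
    rw [mem_filter] at hT
    rw [mem_biUnion]
    exact ⟨T, hT.1, mem_filter.mpr ⟨mem_range.mpr hT.2.1, hT.2.2, hk⟩⟩
  refine (card_le_card hsub).trans (card_biUnion_le.trans ?_)
  have h1 : ∀ T ∈ I.TT N, ((range T).filter (fun t => I.act T t ∧ kap n ≤ I.w t)).card ≤ n ^ 31 := by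
    intro T hT
    unfold TT at hT
    rw [mem_filter, mem_range] at hT
    exact I.coarse_card hI T hT.1
  refine (sum_le_card_nsmul _ _ _ h1).trans ?_
  rw [smul_eq_mul]
  exact Nat.mul_le_mul_right _ (I.TT_card hn hI)

end Inst

end

end RLB
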