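import Pool.Agent.RLB.Basic

/-! D2: kills only happen at critical targets -/

namespace RLB

noncomputable section

open Finset Classical

theorem lemmaB_sum_lower {n : ℕ} (S : Finset (Fin n)) (f : Fin n → ℝ) (a : ℝ) (h : ∀ i, i ∉ S → a ≤ f i) :
    ((n : ℝ) - S.card) * a + ∑ i ∈ S, f i ≤ ∑ i, f i := by
  have h1 : ((Sᶜ).card : ℝ) * a ≤ ∑ i ∈ Sᶜ, f i := by
    rw [← nsmul_eq_mul]
    apply card_nsmul_le_sum
    intro i hi
    rw [mem_compl] at hi
    exact h i hi
  have hcard : ((Sᶜ).card : ℝ) = n - S.card := by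
    rw [card_compl, Fintype.card_fin]
    have : S.card ≤ n := by
      have := card_le_univ S
      rwa [Fintype.card_fin] at this
    push_cast [Nat.cast_sub this]
    ring
  rw [hcard] at h1
  have h2 := sum_compl_add_sum S f
  linarith

theorem lemmaB_nums {n : ℕ} (hn : 10 ^ 6 ≤ n) :
    0 < 1 / (n : ℝ) ∧ 1 / (n : ℝ) ≤ 1 / 10 ^ 6 ∧ (n : ℝ) * (1 / n) = 1 ∧ 0 < dp n ∧
      (n : ℝ) * (n * dp n) ≤ 1 / 10 ^ 6 * (1 / n) ∧ (10 : ℝ) ^ 6 ≤ n ∧
      (n : ℝ) * dp n ≤ 1 / 10 ^ 6 * (1 / n) ∧ dp n ≤ 1 / 10 ^ 6 * (1 / n) := by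
  have hnR : (10 : ℝ) ^ 6 ≤ n := by exact_mod_cast hn
  have hn0 : (0 : ℝ) < n := lt_of_lt_of_le (by positivity) hnR
  have hinv : 1 / (n : ℝ) ≤ 1 / 10 ^ 6 := one_div_le_one_div_of_le (by positivity) hnR
  have hinv0 : 0 < 1 / (n : ℝ) := by positivity
  have h1 : (1 / (n : ℝ)) ≤ 1 := hinv.trans (by norm_num)
  have hd : 0 < dp n := by unfold dp; positivity
  have e : (n : ℝ) * (n * dp n) = (1 / n) ^ 2 * (1 / n) := by
    unfold dp; field_simp
  have h2 : (n : ℝ) * (n * dp n) ≤ 1 / 10 ^ 6 * (1 / n) := by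
    rw [e]
    apply mul_le_mul_of_nonneg_right _ hinv0.le
    calc (1 / (n : ℝ)) ^ 2 ≤ (1 / n) ^ 1 := pow_le_pow_of_le_one hinv0.le h1 (by norm_num)
      _ ≤ 1 / 10 ^ 6 := by simpa using hinv
  have hn1 : (1 : ℝ) ≤ n := le_trans (by norm_num) hnR
  have h3 : (n : ℝ) * dp n ≤ n * (n * dp n) := by
    apply mul_le_mul_of_nonneg_left _ hn0.le
    nlinarith
  exact ⟨hinv0, hinv, by field_simp, hd, h2, hnR, by linarith, lemmaB_dp_small hn⟩
where
  lemmaB_dp_small {n : ℕ} (hn : 10 ^ 6 ≤ n) : dp n ≤ 1 / 10 ^ 6 * (1 / n) := by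
    have : NeZero n := ⟨by omega⟩
    exact Inst.dp_small hn

namespace Inst

variable {n : ℕ} [NeZero n] (I : Inst n)

theorem lastT_some (m t : ℕ) (h : I.lastT m = some t) :
    t < m ∧ I.isT t ∧ ∀ s, t < s → s < m → ¬ I.isT s := by
  induction m with
  | zero => simp [lastT] at h
  | succ m ih =>
    by_cases hT : I.isT m
    · have hl : I.lastT (m + 1) = some m := if_pos hT
      rw [hl] at h
      obtain rfl := Option.some.inj h
      exact ⟨Nat.lt_succ_self _, hT, fun s h1 h2 => by omega⟩
    · have hl : I.lastT (m + 1) = I.lastT m := if_neg hT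
      rw [hl] at h
      obtain ⟨h1, h2, h3⟩ := ih h
      refine ⟨by omega, h2, fun s h4 h5 => ?_⟩
      by_cases h6 : s = m
      · rw [h6]; exact hT
      · exact h3 s h4 (by omega)

/-- tasks on the machines of `CC` are large -/
theorem CC_large (hn : 10 ^ 6 ≤ n) {N g : ℕ} (hI : I.OK N) (hg : 10 ≤ g) (hg4 : 4 * g ≤ n)
    (c : ℕ → Fin n) (h : I.Legal g c N) (k : ℕ) (hk : k < N) (hc : c k ∈ CC n) :
    3 / (n : ℝ) < I.w k := by
  have hCG : c k ∈ GG n g := by
    unfold CC at hc
    unfold GG
    rw [mem_filter] at hc ⊢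
    exact ⟨mem_univ _, by omega⟩
  by_cases hd : I.w k < kap n
  · exfalso
    have h1 := (I.dust_room hn hg4 hI c k hk hd).1
    have h2 := h k hk
    rw [h1] at h2
    unfold Ud at h2
    rw [mem_filter] at h2
    exact h2.2.1 hCG
  · push Not at hd
    by_contra hcon
    push Not at hcon
    rcases I.coarse_cases hn hI c h k hk hd with ⟨_, h2, _, h4⟩ | ⟨h1, h2, _⟩
    · by_cases hx : I.x k ≤ 1 - dd n
      · exact h4 hcon hx hc
      · apply h2
        unfold Cs
        rw [if_neg hx, mem_union]
        exact Or.inl hc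
    · obtain ⟨u0, u1, u2, d0, d1, n1, d2, d3⟩ := lemmaB_nums hn
      have hlam : 1 - lam n + 1 / n = 1 - 79 * (1 / (n : ℝ)) := by unfold lam; ring
      rw [hlam] at h1
      have e : 3 / (n : ℝ) = 3 * (1 / n) := by ring
      rw [e] at hcon
      unfold dd at h2
      generalize (1 / (n : ℝ)) = u at *
      generalize dp n = D at *
      have h6 : (1 / 10 ^ 6 : ℝ) = 1 / 1000000 := by norm_num
      rw [h6] at *
      nlinarith

theorem lemmaB (hn : 10 ^ 6 ≤ n) {N g : ℕ} (hI : I.OK N) (hg : 10 ≤ g) (hg4 : 4 * g ≤ n) (c : ℕ → Fin n)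
    (h : I.Legal g c N) (hlow : ∀ T ∈ I.TT N, ¬ I.crit c T) (m : ℕ) (hm : m < N) :
    I.ld c m (c m) + I.w m ≤ thr n (I.x m) := by
  induction m using Nat.strong_induction_on with
  | _ m ih =>
  obtain ⟨u0, u1, u2, d0, d1, n1, d2, d3⟩ := lemmaB_nums hn
  by_contra hcon
  have hnofit : ¬ I.fits c m (c m) := hcon
  -- the task is coarse
  have hco : kap n ≤ I.w m := by
    by_contra hd
    push Not at hd
    have h1 := (I.dust_room hn hg4 hI c m hm hd).1
    have h2 := h m hm
    rw [h1] at h2
    unfold Ud at h2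
    rw [mem_filter] at h2
    exact hnofit h2.2.2.2
  obtain ⟨hxm, hUm⟩ : 1 - dd n < I.x m ∧ I.U c m = ∅ := by
    rcases I.coarse_cases hn hI c h m hm hco with ⟨h1, _⟩ | ⟨_, h2, h3⟩
    · exact absurd h1 hnofit
    · exact ⟨h2, h3⟩
  have hnone : ∀ i, ¬ I.fits c m i := by
    intro i hi
    by_cases hiC : i ∈ I.Cs c m
    · have h1 := h m hm
      unfold allowed at h1
      rw [if_neg (not_lt.mpr hco), if_neg (fun hh => absurd hh.2 (not_le.mpr hxm)),
        if_neg (by rw [hUm]; simp), if_pos ⟨i, by unfold Cfit; rw [mem_filter]; exact ⟨hiC, hi⟩⟩,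
        mem_singleton] at h1
      have h2 := argmaxOn_mem (I.Cfit c m) (I.ld c m)
        ⟨i, by unfold Cfit; rw [mem_filter]; exact ⟨hiC, hi⟩⟩
      rw [← h1] at h2
      unfold Cfit at h2
      rw [mem_filter] at h2
      exact hnofit h2.2
    · have : i ∈ I.U c m := by
        unfold U
        rw [mem_filter]
        exact ⟨mem_univ _, hiC, hi⟩
      rw [hUm] at this
      simp at this
  have hthrm : ∀ k, 1 - dd n < I.x k → thr n (I.x k) = rr n - dp n := by
    intro k hk
    unfold thr
    rw [if_neg (not_le.mpr hk)]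
  have hldm : ∀ i, rr n - dp n - I.w m < I.ld c m i := by
    intro i
    have h1 := hnone i
    unfold fits at h1
    rw [hthrm m hxm] at h1
    push Not at h1
    linarith
  have hvolm := hI.volle m hm
  have hxm1 := hI.xhi m hm
  have hwm1 := hI.wle m hm
  have hwm0 := hI.wpos m hm
  have hnx : (n : ℝ) * I.x m ≤ n := by nlinarith
  have hsum := I.sum_ld c m
  have hw : 1 - 2 * dp n ≤ I.w m := by
    have h1 := lemmaB_sum_lower (∅ : Finset (Fin n)) (I.ld c m) (rr n - dp n - I.w m)
      (fun i _ => (hldm i).le)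
    simp only [card_empty, Nat.cast_zero, sub_zero, sum_empty, add_zero] at h1
    rw [hsum] at h1
    unfold rr at h1
    by_contra hcc
    push Not at hcc
    have e : (n : ℝ) * (2 - 1 / n - dp n - I.w m) = 2 * n - n * (1 / n) - n * dp n - n * I.w m := by
      ring
    rw [e, u2] at h1
    nlinarith
  have hldm2 : ∀ i, qq n - dp n < I.ld c m i := by
    intro i
    have h1 := hldm i
    unfold rr at h1
    unfold qq
    linarith
  have hvol2 : (n : ℝ) - 1 - n * dp n ≤ I.vol m := by
    have h1 := lemmaB_sum_lower (∅ : Finset (Fin n)) (I.ld c m) (qq n - dp n)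
      (fun i _ => (hldm2 i).le)
    simp only [card_empty, Nat.cast_zero, sub_zero, sum_empty, add_zero] at h1
    rw [hsum] at h1
    unfold qq at h1
    have e : (n : ℝ) * (1 - 1 / n - dp n) = n - n * (1 / n) - n * dp n := by ring
    rw [e, u2] at h1
    exact h1
  have hdan : I.danger m := ⟨hxm, hw, hvol2⟩
  -- `m` is not a target
  have hnT : ¬ I.isT m := by
    intro hT
    apply hlow m _ hldm2
    unfold TT
    rw [mem_filter, mem_range]
    exact ⟨hm, hT⟩
  obtain ⟨t, htl, hnd⟩ : ∃ t, I.lastT m = some t ∧ ¬ I.dropc t m := by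
    by_contra hcc
    push Not at hcc
    exact hnT ⟨hdan, fun t ht => hcc t ht⟩
  obtain ⟨htm, hTt, hnoT⟩ := I.lastT_some m t htl
  have hxt : 1 - dd n < I.x t := hTt.1.1
  have hxph : ∀ s, t ≤ s → s < N → 1 - dd n < I.x s := fun s h1 h2 =>
    lt_of_lt_of_le hxt (hI.xmono t s h1 h2)
  have hCs : ∀ s, t ≤ s → s < m → I.Cs c s = I.Cs c t := by
    intro s h1 h2
    unfold Cs
    rw [if_neg (not_le.mpr (hxph s h1 (by omega))), if_neg (not_le.mpr hxt)]
    congr 2
    ext k
    simp only [mem_filter, mem_range]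
    constructor
    · rintro ⟨h3, h4⟩
      refine ⟨?_, h4⟩
      by_contra h5
      exact hnoT k (by omega) (by omega) h4
    · rintro ⟨h3, h4⟩
      exact ⟨by omega, h4⟩
  -- the low machine of `t`
  have htN : t < N := by omega
  set low := argminF (I.ld c t) with hlowdef
  have hlowS : low ∈ I.Cs c t := by
    unfold Cs
    rw [if_neg (not_le.mpr hxt), mem_union]
    right
    rw [mem_image]
    exact ⟨t, by rw [mem_filter, mem_range]; exact ⟨Nat.lt_succ_self _, hTt⟩, rfl⟩
  have hlowle : I.ld c t low ≤ qq n - dp n := by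
    have h1 : ¬ I.crit c t := hlow t (by unfold TT; rw [mem_filter, mem_range]; exact ⟨htN, hTt⟩)
    unfold crit at h1
    push Not at h1
    obtain ⟨i, hi⟩ := h1
    exact (argminF_spec (I.ld c t) i).trans hi
  -- the last arrival
  set P : Finset ℕ := (range m).filter (fun k => I.act m k ∧ c k ∈ I.Cs c t) with hP
  have hex : ∃ k ∈ P, t ≤ k := by
    by_contra hcc
    push Not at hcc
    have h1 : I.ld c m low ≤ I.ld c t low := by
      unfold ld
      have h2 := hI.panti t m low htm.le
      have h3 : ∑ k ∈ (range m).filter (fun k => I.act m k ∧ c k = low), I.w k ≤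
          ∑ k ∈ (range t).filter (fun k => I.act t k ∧ c k = low), I.w k := by
        apply sum_le_sum_of_subset_of_nonneg
        · intro k hk
          rw [mem_filter, mem_range] at hk ⊢
          have hkt : k < t := by
            apply hcc k
            rw [hP, mem_filter, mem_range]
            exact ⟨hk.1, hk.2.1, by rw [hk.2.2]; exact hlowS⟩
          exact ⟨hkt, hI.act_anti t m k hkt htm.le hk.2.1, hk.2.2⟩
        · intro k hk _
          rw [mem_filter, mem_range] at hk
          exact (hI.wpos k (by omega)).le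
      linarith
    have h4 := hldm2 low
    linarith
  obtain ⟨k0, hk0P, hk0t⟩ := hex
  have hPne : P.Nonempty := ⟨k0, hk0P⟩
  obtain ⟨s, hsP, hsmax⟩ := P.exists_max_image id hPne
  simp only [id] at hsmax
  have hts : t ≤ s := le_trans hk0t (hsmax k0 hk0P)
  rw [hP, mem_filter, mem_range] at hsP
  obtain ⟨hsm, hact, hcs⟩ := hsP
  have hsN : s < N := by omega
  have hxs := hxph s hts hsN
  have hCss := hCs s hts hsm
  have hfs : I.fits c s (c s) := ih s hsm hsN
  have hcos : kap n ≤ I.w s := by
    by_contra hd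
    push Not at hd
    have h1 := (I.dust_room hn hg4 hI c s hsN hd).1
    have h2 := h s hsN
    rw [h1] at h2
    unfold Ud at h2
    rw [mem_filter, hCss] at h2
    exact h2.2.2.1 hcs
  obtain ⟨hforce, hUs⟩ : (1 - lam n + 1 / n) * I.x s ≤ I.w s ∧ I.U c s = ∅ := by
    rcases I.coarse_cases hn hI c h s hsN hcos with ⟨_, h1, _⟩ | ⟨h1, _, h3⟩
    · rw [hCss] at h1
      exact absurd hcs h1
    · exact ⟨h1, h3⟩
  have hbest : ∀ i ∈ I.Cs c t, I.fits c s i → I.ld c s i ≤ I.ld c s (c s) := by
    intro i hi hfi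
    have hmem : i ∈ I.Cfit c s := by
      unfold Cfit
      rw [mem_filter, hCss]
      exact ⟨hi, hfi⟩
    have h1 := h s hsN
    unfold allowed at h1
    rw [if_neg (not_lt.mpr hcos), if_neg (fun hh => absurd hh.2 (not_le.mpr hxs)),
      if_neg (by rw [hUs]; simp), if_pos ⟨i, hmem⟩, mem_singleton] at h1
    rw [h1]
    exact argmaxOn_le (I.Cfit c s) (I.ld c s) i hmem
  have hout : ∀ i, i ∉ I.Cs c t → rr n - dp n - I.w s < I.ld c s i := by
    intro i hi
    have h1 : ¬ I.fits c s i := by
      intro hfi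
      have : i ∈ I.U c s := by
        unfold U
        rw [mem_filter, hCss]
        exact ⟨mem_univ _, hi, hfi⟩
      rw [hUs] at this
      simp at this
    unfold fits at h1
    rw [hthrm s hxs] at h1
    push Not at h1
    linarith
  -- upper bound of the loads at `m`
  have hqp : ∀ i, I.ld c m i ≤ qp n := by
    intro i
    have h1 := lemmaB_sum_lower ({i} : Finset (Fin n)) (I.ld c m) (qq n - dp n)
      (fun j _ => (hldm2 j).le)
    rw [hsum, card_singleton, sum_singleton] at h1
    unfold qp
    unfold qq at h1 ⊢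
    have e : ((n : ℝ) - (1 : ℕ)) * (1 - 1 / n - dp n) =
        n - 1 - n * (1 / n) + 1 / n - n * dp n + dp n := by
      push_cast; ring
    rw [e, u2] at h1
    have e2 : ((n : ℝ) + 1) * dp n = n * dp n + dp n := by ring
    rw [e2]
    linarith
  have hzle : I.w s ≤ qp n := by
    refine le_trans ?_ (hqp (c s))
    unfold ld
    have h1 := hI.pnn m (c s)
    have h2 : I.w s ≤ ∑ k ∈ (range m).filter (fun k => I.act m k ∧ c k = c s), I.w k := by
      apply single_le_sum (f := I.w)
      · intro k hk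
        rw [mem_filter, mem_range] at hk
        exact (hI.wpos k (by omega)).le
      · rw [mem_filter, mem_range]
        exact ⟨hsm, hact, rfl⟩
    linarith
  -- contents of the other machines of `Cs`
  have hcont : ∀ i ∈ I.Cs c t, i ≠ c s → ∀ k < m, I.act m k → c k = i → k < s := by
    intro i hi hne k hk hak hck
    have h1 := hsmax k (by rw [hP, mem_filter, mem_range]; exact ⟨hk, hak, by rw [hck]; exact hi⟩)
    rcases Nat.lt_or_ge k s with h2 | h2
    · exact h2
    · have : k = s := le_antisymm h1 h2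
      rw [this] at hck
      exact absurd hck.symm hne
  have hsub : ∀ i ∈ I.Cs c t, i ≠ c s →
      (range m).filter (fun k => I.act m k ∧ c k = i) ⊆
      (range s).filter (fun k => I.act s k ∧ c k = i) := by
    intro i hi hne k hk
    rw [mem_filter, mem_range] at hk ⊢
    have hks := hcont i hi hne k hk.1 hk.2.1 hk.2.2
    exact ⟨hks, hI.act_anti s m k hks hsm.le hk.2.1, hk.2.2⟩
  have hldge : ∀ i ∈ I.Cs c t, i ≠ c s → I.ld c m i ≤ I.ld c s i := by
    intro i hi hne
    unfold ld
    have h1 := hI.panti s m i hsm.le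
    have h2 := sum_le_sum_of_subset_of_nonneg (hsub i hi hne) (f := I.w) (fun k hk _ => by
      rw [mem_filter, mem_range] at hk
      exact (hI.wpos k (by omega)).le)
    linarith
  have hvols := hI.volle s hsN
  have hxs1 := hI.xhi s hsN
  have hnxs : (n : ℝ) * I.x s ≤ n := by nlinarith
  have hsums := I.sum_ld c s
  have hws0 := hI.wpos s hsN
  -- no other machine of `Cs` fits
  have hnf : ∀ i ∈ I.Cs c t, i ≠ c s → ¬ I.fits c s i := by
    intro i hi hne hfi
    have h1 := hbest i hi hfi
    have h2 := hldge i hi hne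
    have h3 := hldm2 i
    have h4 : ∀ j ∈ I.Cs c t, qq n - dp n ≤ I.ld c s j := by
      intro j hj
      by_cases hjs : j = c s
      · rw [hjs]; linarith
      · have h5 := hldge j hj hjs
        have h6 := hldm2 j
        linarith
    have h5 := lemmaB_sum_lower (I.Cs c t) (I.ld c s) (rr n - dp n - I.w s) (fun j hj => (hout j hj).le)
    have h6 : ((I.Cs c t).card : ℝ) * (qq n - dp n) ≤ ∑ j ∈ I.Cs c t, I.ld c s j := by
      rw [← nsmul_eq_mul]
      exact card_nsmul_le_sum _ _ _ h4
    have hC28 : ((I.Cs c t).card : ℝ) ≤ 28 := by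
      exact_mod_cast I.Cs_card hn hI c t htN
    have hC0 : (0 : ℝ) ≤ ((I.Cs c t).card : ℝ) := Nat.cast_nonneg _
    rw [hsums] at h5
    generalize ((I.Cs c t).card : ℝ) = q at *
    unfold rr qq at *
    unfold qp qq at hzle
    have h7 : (n - q) * (2 - 1 / (n : ℝ) - dp n - I.w s) + q * (1 - 1 / n - dp n) + I.w s ≤ n := by
      linarith
    have hq1 : (0 : ℝ) ≤ n - q - 1 := by
      have : (10 : ℝ) ^ 6 = 1000000 := by norm_num
      linarith
    have h8 : (n - q - 1) * I.w s ≤ (n - q - 1) * (1 - 1 / (n : ℝ) + (n + 1) * dp n) :=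
      mul_le_mul_of_nonneg_left hzle hq1
    have e1 : (n - q) * (2 - 1 / (n : ℝ) - dp n - I.w s) + q * (1 - 1 / n - dp n) + I.w s =
        (n - q) * (2 - 1 / (n : ℝ) - dp n) + q * (1 - 1 / n - dp n) - (n - q - 1) * I.w s := by ring
    rw [e1] at h7
    have e2 : (n - q) * (2 - 1 / (n : ℝ) - dp n) + q * (1 - 1 / n - dp n) -
        (n - q - 1) * (1 - 1 / (n : ℝ) + (n + 1) * dp n) =
        n + 1 - 1 / n - q * (1 / n) - n * dp n - (n - q - 1) * ((n + 1) * dp n) := by
      ring
    have h9 : (n - q - 1) * ((n + 1) * dp n) ≤ n * (n * dp n) := by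
      have : (n - q - 1) * ((n + 1) * dp n) = (n - q - 1) * (n + 1) * dp n := by ring
      rw [this]
      have e3 : (n : ℝ) * (n * dp n) = n * n * dp n := by ring
      rw [e3]
      apply mul_le_mul_of_nonneg_right _ d0.le
      nlinarith
    have h10 : q * (1 / (n : ℝ)) ≤ 28 * (1 / n) := mul_le_mul_of_nonneg_right hC28 u0.le
    generalize (1 / (n : ℝ)) = u at *
    have h6' : (1 / 10 ^ 6 : ℝ) = 1 / 1000000 := by norm_num
    rw [h6'] at *
    linarith
  -- all machines except `c s` do not fit at time `s`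
  have hall : ∀ i, i ≠ c s → rr n - dp n - I.w s < I.ld c s i := by
    intro i hi
    by_cases hiC : i ∈ I.Cs c t
    · have h1 := hnf i hiC hi
      unfold fits at h1
      rw [hthrm s hxs] at h1
      push Not at h1
      linarith
    · exact hout i hiC
  have hCCsub : CC n ⊆ I.Cs c t := by
    intro i hi
    unfold Cs
    rw [if_neg (not_le.mpr hxt), mem_union]
    exact Or.inl hi
  have hlost : ∀ i ∈ CC n, i ≠ c s → 1 / (2 * (n : ℝ)) ≤ I.p t i - I.p m i := by
    intro i hi hne
    have hiC := hCCsub hi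
    have h1 := hall i hne
    have h2 := hqp i
    -- upper bound of the load at `s`
    have h3 : I.ld c s i ≤ 1 + 1 / n + n * (n * dp n) := by
      have h4 := lemmaB_sum_lower ({i, c s} : Finset (Fin n)) (I.ld c s) (rr n - dp n - I.w s)
        (fun j hj => (hall j (fun hh => hj (by rw [hh]; simp))).le)
      rw [card_pair hne, sum_pair hne, hsums] at h4
      have h5 := I.ld_nonneg hI c s hsN.le (c s)
      unfold rr at h4
      unfold qp qq at hzle
      push_cast at h4
      have h6 : ((n : ℝ) - 3) * I.w s ≤ (n - 3) * (1 - 1 / n + (n + 1) * dp n) := by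
        apply mul_le_mul_of_nonneg_left hzle
        have : (10 : ℝ) ^ 6 = 1000000 := by norm_num
        linarith
      have e1 : ((n : ℝ) - 2) * (2 - 1 / n - dp n - I.w s) =
          (2 * n - n * (1 / n) - 4 + 2 * (1 / n)) - (n - 2) * dp n - (n - 3) * I.w s - I.w s := by
        ring
      have e2 : ((n : ℝ) - 3) * (1 - 1 / n + (n + 1) * dp n) =
          n - 3 - n * (1 / n) + 3 * (1 / n) + (n * (n * dp n)) - 2 * (n * dp n) - 3 * dp n := by ring
      rw [e1, u2] at h4
      rw [e2, u2] at h6
      have e3 : ((n : ℝ) - 2) * dp n = n * dp n - 2 * dp n := by ring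
      rw [e3] at h4
      have h7 : 0 ≤ (n : ℝ) * dp n := by positivity
      linarith
    have h4 := hldm2 i
    -- the tasks lost by `i` are base tasks
    have hs := hsub i hiC hne
    have h5 : ∑ k ∈ (range s).filter (fun k => I.act s k ∧ c k = i), I.w k =
        ∑ k ∈ (range m).filter (fun k => I.act m k ∧ c k = i), I.w k := by
      by_contra hne2
      have h6 : ∃ k ∈ (range s).filter (fun k => I.act s k ∧ c k = i),
          k ∉ (range m).filter (fun k => I.act m k ∧ c k = i) := by
        by_contra hcc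
        push Not at hcc
        apply hne2
        congr 1
        exact Subset.antisymm hcc hs
      obtain ⟨k, hk1, hk2⟩ := h6
      have h7 : ∑ k ∈ (range m).filter (fun k => I.act m k ∧ c k = i), I.w k + I.w k ≤
          ∑ k ∈ (range s).filter (fun k => I.act s k ∧ c k = i), I.w k := by
        have h8 : insert k ((range m).filter (fun k => I.act m k ∧ c k = i)) ⊆
            (range s).filter (fun k => I.act s k ∧ c k = i) :=
          insert_subset hk1 hs
        have h9 := sum_le_sum_of_subset_of_nonneg h8 (f := I.w) (fun k hk _ => by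
          rw [mem_filter, mem_range] at hk
          exact (hI.wpos k (by omega)).le)
        rw [sum_insert hk2] at h9
        linarith
      rw [mem_filter, mem_range] at hk1
      have h10 := I.CC_large hn hI hg hg4 c h k (by omega) (by rw [hk1.2.2]; exact hi)
      have h11 := hI.panti s m i hsm.le
      unfold ld at h3 h4
      have e : 3 / (n : ℝ) = 3 * (1 / n) := by ring
      rw [e] at h10
      unfold qq at h4
      generalize (1 / (n : ℝ)) = u at *
      have h6' : (1 / 10 ^ 6 : ℝ) = 1 / 1000000 := by norm_num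
      rw [h6'] at *
      linarith
    have h6 : I.ld c s i - I.ld c m i = I.p s i - I.p m i := by
      unfold ld
      rw [h5]
      ring
    have h7 := hI.panti t s i hts
    have e : 1 / (2 * (n : ℝ)) = 1 / 2 * (1 / n) := by field_simp
    rw [e]
    unfold rr at h1
    unfold qp qq at h2 hzle
    have e3 : ((n : ℝ) + 1) * dp n = n * dp n + dp n := by ring
    rw [e3] at h2 hzle
    generalize (1 / (n : ℝ)) = u at *
    have h6' : (1 / 10 ^ 6 : ℝ) = 1 / 1000000 := by norm_num
    rw [h6'] at *
    linarith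
  -- so `m` would be a target
  apply hnd
  unfold dropc
  have hCC10 : (CC n).card = 10 := by
    unfold CC
    have h1 : ((univ.filter (fun i : Fin n => i.val < 10)).image (fun i : Fin n => i.val)) =
        range 10 := by
      ext x
      simp only [mem_image, mem_filter, mem_univ, true_and, mem_range]
      constructor
      · rintro ⟨i, hi, rfl⟩; exact hi
      · intro hx
        exact ⟨⟨x, by omega⟩, hx, rfl⟩
    have h2 := card_image_of_injective (univ.filter (fun i : Fin n => i.val < 10))
      (Fin.val_injective (n := n))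
    rw [← h2, h1, card_range]
  have h1 : (CC n).erase (c s) ⊆
      (CC n).filter (fun i => 1 / (2 * (n : ℝ)) ≤ I.p t i - I.p m i) := by
    intro i hi
    rw [mem_erase] at hi
    rw [mem_filter]
    exact ⟨hi.2, hlost i hi.2 hi.1⟩
  have h2 := card_le_card h1
  have h3 := pred_card_le_card_erase (s := CC n) (a := c s)
  omega

end Inst

end

end RLB
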