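import Pool.Agent.RLB.Events

/-! D11: targets with few near-unit tasks are not critical -/

namespace RLB

noncomputable section

open Finset Classical

namespace AP

variable {n : ℕ} (a : AP n)

theorem r2_epsE : a.eps * a.E = 1 := by
  unfold eps
  have := a.E_pos
  field_simp

/-- the length of the chain -/
theorem r2_chain_num : 2 * a.beta * ((20 * a.E * a.N0 : ℕ) : ℝ) ≤ a.eps / 2 := by
  have h1 : (a.N0 : ℝ) ^ 2 ≤ a.E := by exact_mod_cast a.hE1
  have h2 : (4 : ℝ) ^ 30 ≤ a.N0 := by exact_mod_cast a.hN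
  have h0 : (0 : ℝ) < a.N0 := lt_of_lt_of_le (by positivity) h2
  have h4 := a.E_pos
  have h5 : (960 : ℝ) ≤ a.N0 := le_trans (by norm_num) h2
  have h6 : 960 * (a.N0 : ℝ) ≤ a.E := by nlinarith
  unfold beta eps
  push_cast
  have e : 2 * (12 / (a.E : ℝ) ^ 3) * (20 * a.E * a.N0) = (1 / a.E) * (480 * a.N0 / a.E) := by
    field_simp
    ring
  have e2 : 1 / (a.E : ℝ) / 2 = (1 / a.E) * (1 / 2) := by ring
  rw [e, e2]
  apply mul_le_mul_of_nonneg_left _ (by positivity)
  rw [div_le_div_iff₀ h4 (by norm_num)]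
  linarith

theorem r2_pow : (n : ℝ) ≤ (1 + a.eps / 20) ^ (20 * a.E * a.N0) := by
  have h0 := a.eps_pos
  have h1 : 1 + ((20 * a.E : ℕ) : ℝ) * (a.eps / 20) ≤ (1 + a.eps / 20) ^ (20 * a.E) :=
    one_add_mul_le_pow (by linarith) _
  have h2 : 1 + ((20 * a.E : ℕ) : ℝ) * (a.eps / 20) = 2 := by
    have := a.r2_epsE
    push_cast
    linarith
  rw [h2] at h1
  have h3 : (n : ℝ) = 2 ^ a.N0 := by
    have := a.hn
    exact_mod_cast this
  rw [h3, pow_mul]
  exact pow_le_pow_left₀ (by norm_num) h1 _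

end AP

namespace Inst

variable {n : ℕ} [NeZero n] {I : Inst n} {a : AP n} {ty : ℕ → Bool} {g N : ℕ} {c : ℕ → Fin n}

omit [NeZero n] in
theorem r2_lockable {T t : ℕ} (hty : ty T = false) {i : Fin n} (hg : i ∈ GG n g) :
    I.lockable a ty g T t i := by
  unfold lockable
  rw [if_neg (by rw [hty]; exact Bool.false_ne_true)]
  exact hg

/-- volume bound for events on `GG` of targets of type R2 -/
theorem r2_volume (R : I.Run a ty g N c) {T : ℕ} (hT : T ∈ I.TT N) (hty : ty T = false)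
    (hcr : I.crit c T) {t : ℕ} (hE : Event I a c T t) (hg : c t ∈ GG n g) (hx : I.x t ≤ 1 - dd n)
    (hw : I.w t < 1 - a.eps / 2) :
    (∀ i ∈ I.BB a ty g N c t ∩ GG n g, I.hm a c T t i) ∧
    (((I.compl a c T t ∩ GG n g).card : ℝ) +
        ((I.BB a ty g N c t ∩ GG n g) \ I.compl a c T t).card + 18) * (qq n - a.beta)
      ≤ I.x t * ((I.compl a c T t ∩ GG n g).card +
        2 * ((I.BB a ty g N c t ∩ GG n g) \ I.compl a c T t).card + 36 + 18 * a.Q) := by
  have hL : I.lockable a ty g T t (c t) := r2_lockable hty hg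
  obtain ⟨_, _, hJ, _, _, _⟩ := event_basic R hT hcr hE hL
  obtain ⟨_, _, hhm⟩ := event_x R hT hE
  obtain ⟨hchi, _, _⟩ := event_phase1 R hT hcr hE hL hx
  obtain ⟨hx49, _⟩ := event_x' R hT hE
  have key : (∀ i ∈ I.BB a ty g N c t ∩ GG n g, I.hm a c T t i) ∧
      (I.BB a ty g N c t \ GG n g).card ≤ 18 * a.Q := by
    by_cases hB : (I.BB a ty g N c t).Nonempty
    · obtain ⟨_, h⟩ := hchi.2 hB
      rcases h with h | h
      · obtain ⟨h1, h2⟩ := h.2 T hJ hty hg hhm
        exact ⟨h1, h2 hw⟩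
      · exact absurd hg h.1
    · rw [not_nonempty_iff_eq_empty] at hB
      rw [hB]
      refine ⟨fun i hi => ?_, ?_⟩
      · rw [empty_inter] at hi
        exact absurd hi (notMem_empty i)
      · rw [empty_sdiff, card_empty]
        exact Nat.zero_le _
  obtain ⟨hhmB, hZ⟩ := key
  refine ⟨hhmB, ?_⟩
  have h := event_volume R hT hcr hL hE hx (I.compl a c T t ∩ GG n g)
    ((I.BB a ty g N c t ∩ GG n g) \ I.compl a c T t) (I.BB a ty g N c t \ GG n g)
    (by
      rw [disjoint_left]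
      intro i hi hi'
      exact (mem_sdiff.mp hi').2 (mem_inter.mp hi).1)
    (by
      rw [disjoint_left]
      intro i hi hi'
      exact (mem_sdiff.mp hi').2 (mem_inter.mp hi).2)
    (by
      rw [disjoint_left]
      intro i hi hi'
      exact (mem_sdiff.mp hi').2 (mem_inter.mp (mem_sdiff.mp hi).1).2)
    inter_subset_left
    (fun i hi => hhmB i (mem_sdiff.mp hi).1)
    (fun i hi => by
      by_cases h1 : i ∈ GG n g
      · by_cases h2 : i ∈ I.compl a c T t
        · exact Or.inl (mem_inter.mpr ⟨h2, h1⟩)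
        · exact Or.inr (Or.inl (mem_sdiff.mpr ⟨mem_inter.mpr ⟨hi, h1⟩, h2⟩))
      · exact Or.inr (Or.inr (mem_sdiff.mpr ⟨hi, h1⟩)))
  refine h.trans ?_
  apply mul_le_mul_of_nonneg_left _ (by linarith)
  have hZ' : ((I.BB a ty g N c t \ GG n g).card : ℝ) ≤ 18 * a.Q := by exact_mod_cast hZ
  linarith

/-- number of exceptions -/
def KG (a : AP n) : ℕ := 8000 * a.Q * a.E

/-- one step of the chain argument: many machines of `GG` would be completed -/
theorem r2_step (R : I.Run a ty g N c) {T : ℕ} (hT : T ∈ I.TT N) (hty : ty T = false)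
    (hcr : I.crit c T) {t : ℕ} (hE : Event I a c T t) (hg : c t ∈ GG n g)
    (hK : KG a ≤ (I.compl a c T t ∩ GG n g).card) (hw : I.w t < 1 - a.eps / 2) :
    (∀ i ∈ I.BB a ty g N c t ∩ GG n g, I.hm a c T t i) ∧
    a.eps / 10 * ((I.compl a c T t ∩ GG n g).card : ℝ) <
      ((I.BB a ty g N c t ∩ GG n g) \ I.compl a c T t).card := by
  have hL : I.lockable a ty g T t (c t) := r2_lockable hty hg
  have he0 := a.eps_pos
  have he1 : a.eps ≤ 1 / 10 ^ 30 := a.eps_le.trans (by norm_num)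
  have hb0 := a.beta_pos
  have hb1 : a.beta ≤ 1 / 10 ^ 6 * a.eps := by
    refine a.beta_le_eps.trans ?_
    apply mul_le_mul_of_nonneg_right _ he0.le
    norm_num
  have hn0 := a.inv_n_pos
  have hn1 : 1 / (n : ℝ) ≤ 1 / 10 ^ 6 * a.beta := by
    refine a.inv_n_le_beta.trans ?_
    apply mul_le_mul_of_nonneg_right _ hb0.le
    norm_num
  have hx : I.x t ≤ 1 - dd n := by
    by_contra hcon
    push Not at hcon
    have := event_phase2 R hT hcr hE hL hcon
    linarith
  obtain ⟨h1, hV⟩ := r2_volume R hT hty hcr hE hg hx hw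
  refine ⟨h1, ?_⟩
  by_contra hcon
  push Not at hcon
  obtain ⟨_, _, _, hwt, _, _⟩ := event_basic R hT hcr hE hL
  obtain ⟨hx49, hx1⟩ := event_x' R hT hE
  have hKR : 8000 * (a.Q : ℝ) * a.E ≤ ((I.compl a c T t ∩ GG n g).card : ℝ) := by
    have : ((KG a : ℕ) : ℝ) ≤ ((I.compl a c T t ∩ GG n g).card : ℝ) := by exact_mod_cast hK
    unfold KG at this
    push_cast at this
    exact this
  have hQ : (18 : ℝ) ≤ a.Q := by
    have h3 : 18 ≤ a.Q := by
      unfold AP.Q
      have := a.E_big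
      omega
    exact_mod_cast h3
  have hEe := a.r2_epsE
  have hE0 := a.E_pos
  -- `36 + 18 Q ≤ 20 Q ≤ (eps/400) K`
  have hQK : 20 * (a.Q : ℝ) ≤ a.eps / 400 * ((I.compl a c T t ∩ GG n g).card : ℝ) := by
    have h3 : a.eps / 400 * (8000 * (a.Q : ℝ) * a.E) ≤
        a.eps / 400 * ((I.compl a c T t ∩ GG n g).card : ℝ) :=
      mul_le_mul_of_nonneg_left hKR (by linarith)
    have h4 : a.eps / 400 * (8000 * (a.Q : ℝ) * a.E) = 20 * (a.Q : ℝ) * (a.eps * a.E) := by ring
    rw [h4, hEe, mul_one] at h3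
    exact h3
  have hKpos : (0 : ℝ) < ((I.compl a c T t ∩ GG n g).card : ℝ) := by
    refine lt_of_lt_of_le ?_ hKR
    have : (0 : ℝ) < a.Q := by linarith
    positivity
  have hA0 : (0 : ℝ) ≤ (((I.BB a ty g N c t ∩ GG n g) \ I.compl a c T t).card : ℝ) := Nat.cast_nonneg _
  generalize ((I.compl a c T t ∩ GG n g).card : ℝ) = K at *
  generalize (((I.BB a ty g N c t ∩ GG n g) \ I.compl a c T t).card : ℝ) = A at *
  have hq : 0 ≤ qq n - a.beta := by unfold qq; linarith
  have hq1 : qq n - a.beta ≤ 1 := by unfold qq; linarith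
  -- `x ≥ (q - beta) (1 - eps/9)`
  have hxb : (qq n - a.beta) * (1 - a.eps / 8) ≤ I.x t := by
    by_contra hcon2
    push Not at hcon2
    have hden : 0 < K + 2 * A + 36 + 18 * (a.Q : ℝ) := by linarith
    have h2 : I.x t * (K + 2 * A + 36 + 18 * (a.Q : ℝ)) <
        (qq n - a.beta) * (1 - a.eps / 8) * (K + 2 * A + 36 + 18 * (a.Q : ℝ)) :=
      mul_lt_mul_of_pos_right hcon2 hden
    have h3 : (1 - a.eps / 8) * (K + 2 * A + 36 + 18 * (a.Q : ℝ)) ≤ K + A + 18 := by
      have h5 : 0 ≤ a.eps / 8 * (2 * A + 36 + 18 * (a.Q : ℝ)) := by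
        have : 0 ≤ 2 * A + 36 + 18 * (a.Q : ℝ) := by linarith
        positivity
      have h6 : A + 18 + 18 * (a.Q : ℝ) ≤ a.eps / 8 * K := by
        have h7 : a.eps / 10 * K + a.eps / 400 * K ≤ a.eps / 8 * K := by
          have : 0 ≤ a.eps * K := by positivity
          linarith
        linarith
      linarith
    have h4 : (qq n - a.beta) * ((1 - a.eps / 8) * (K + 2 * A + 36 + 18 * (a.Q : ℝ))) ≤
        (qq n - a.beta) * (K + A + 18) := mul_le_mul_of_nonneg_left h3 hq
    linarith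
  have hx2 : 1 - a.eps / 7 ≤ I.x t := by
    refine le_trans ?_ hxb
    unfold qq
    have h8 : (1 - 1 / (n : ℝ) - a.beta) * (1 - a.eps / 8) =
        1 - a.eps / 8 - (1 / (n : ℝ) + a.beta) * (1 - a.eps / 8) := by ring
    have h9 : (1 / (n : ℝ) + a.beta) * (1 - a.eps / 8) ≤ (1 / (n : ℝ) + a.beta) * 1 :=
      mul_le_mul_of_nonneg_left (by linarith) (by linarith)
    rw [h8]
    linarith
  unfold theta at hwt
  rw [AP.lam_eq] at hwt
  have h10 : (1 - 80 * (1 / (n : ℝ))) * (1 - a.eps / 7) ≤ (1 - 80 * (1 / (n : ℝ))) * I.x t :=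
    mul_le_mul_of_nonneg_left hx2 (by linarith)
  have h11 : (1 - 80 * (1 / (n : ℝ))) * (1 - a.eps / 7) =
      1 - a.eps / 7 - 80 * (1 / (n : ℝ)) * (1 - a.eps / 7) := by ring
  have h12 : 80 * (1 / (n : ℝ)) * (1 - a.eps / 7) ≤ 80 * (1 / (n : ℝ)) * 1 :=
    mul_le_mul_of_nonneg_left (by linarith) (by linarith)
  linarith

theorem r2_near (R : I.Run a ty g N c) {T : ℕ} (hT : T ∈ I.TT N) (hty : ty T = false)
    (hcr : I.crit c T) {t : ℕ} (hE : Event I a c T t) (hg : c t ∈ GG n g)
    (hK : KG a ≤ (I.compl a c T t ∩ GG n g).card) : 1 - a.eps ≤ I.w t := by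
  have he0 := a.eps_pos
  have hb0 := a.beta_pos
  have hEe := a.r2_epsE
  have hE0 := a.E_pos
  have hQ : (18 : ℝ) ≤ a.Q := by
    have h3 : 18 ≤ a.Q := by
      unfold AP.Q
      have := a.E_big
      omega
    exact_mod_cast h3
  have hbig : ∀ s, KG a ≤ (I.compl a c T s ∩ GG n g).card →
      1 ≤ a.eps / 20 * ((I.compl a c T s ∩ GG n g).card : ℝ) := by
    intro s hs
    have h1 : ((KG a : ℕ) : ℝ) ≤ ((I.compl a c T s ∩ GG n g).card : ℝ) := by exact_mod_cast hs
    unfold KG at h1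
    push_cast at h1
    have h2 : a.eps / 20 * (8000 * (a.Q : ℝ) * a.E) ≤
        a.eps / 20 * ((I.compl a c T s ∩ GG n g).card : ℝ) :=
      mul_le_mul_of_nonneg_left h1 (by linarith)
    have h4 : a.eps / 20 * (8000 * (a.Q : ℝ) * a.E) = 400 * (a.Q : ℝ) * (a.eps * a.E) := by ring
    rw [h4, hEe, mul_one] at h2
    linarith
  have hch := chain c (fun s => I.compl a c T s) I.w (GG n g) 0 T (n : ℝ)
    (by
      have := card_le_univ (GG n g)
      rw [Fintype.card_fin] at this
      exact_mod_cast this)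
    (fun s s' _ h1 h2 => compl_mono R hT h1 h2)
    (fun s _ _ i h1 h2 => compl_step R h1 h2)
    (by rw [compl_end R hT hcr]; exact subset_univ _) (KG a) (1 + a.eps / 20) (1 - a.eps / 2)
    (2 * a.beta) (by linarith) (by linarith)
    (by
      intro s _ hsT hcS hc1 hc2 hK1
      have hEs : Event I a c T s := ⟨hsT, hc1, hc2⟩
      by_cases hw : 1 - a.eps / 2 ≤ I.w s
      · exact Or.inl hw
      right
      push Not at hw
      obtain ⟨hR, hA⟩ := r2_step R hT hty hcr hEs hcS hK1 hw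
      have hb := hbig s hK1
      have hcard : ((I.BB a ty g N c s ∩ GG n g) \ I.compl a c T s).card ≤
          (((I.BB a ty g N c s ∩ GG n g) \ I.compl a c T s).erase (c s)).card + 1 := by
        have := pred_card_le_card_erase (s := (I.BB a ty g N c s ∩ GG n g) \ I.compl a c T s)
          (a := c s)
        omega
      have hcardR : (((I.BB a ty g N c s ∩ GG n g) \ I.compl a c T s).card : ℝ) ≤
          ((((I.BB a ty g N c s ∩ GG n g) \ I.compl a c T s).erase (c s)).card : ℝ) + 1 := by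
        exact_mod_cast hcard
      have hgrow : a.eps / 20 * ((I.compl a c T s ∩ GG n g).card : ℝ) <
          ((((I.BB a ty g N c s ∩ GG n g) \ I.compl a c T s).erase (c s)).card : ℝ) := by
        linarith
      refine ⟨((I.BB a ty g N c s ∩ GG n g) \ I.compl a c T s).erase (c s), ?_, ?_, ?_, ?_, ?_⟩
      · intro i hi
        exact (mem_inter.mp (mem_sdiff.mp (mem_of_mem_erase hi)).1).2
      · apply card_pos.mp
        have : (0 : ℝ) < ((((I.BB a ty g N c s ∩ GG n g) \ I.compl a c T s).erase (c s)).card : ℝ) := by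
          linarith
        exact_mod_cast this
      · rw [disjoint_left]
        intro i hi hi'
        obtain ⟨h1, h2⟩ := mem_erase.mp hi
        exact h1 (compl_step R (mem_sdiff.mp h2).2 hi')
      · linarith
      · intro t' h1 h2 h3 h4 h5
        have hB := (mem_sdiff.mp (mem_of_mem_erase h3)).1
        have hL' : I.lockable a ty g T t' (c t') := r2_lockable hty (mem_inter.mp hB).2
        apply later R hT hcr h1 ⟨h2, h4, h5⟩ hL'
        exact hR _ hB)
    (20 * a.E * a.N0) t (Nat.zero_le _) hE.1 hg hE.2.1 hE.2.2 hK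
    (by
      have h1 := hbig t hK
      have h2 : (1 : ℝ) ≤ ((I.compl a c T t ∩ GG n g).card : ℝ) := by
        have h3 : (0 : ℝ) < ((I.compl a c T t ∩ GG n g).card : ℝ) := by
          by_contra hcon
          push Not at hcon
          have : a.eps / 20 * ((I.compl a c T t ∩ GG n g).card : ℝ) ≤ 0 :=
            mul_nonpos_of_nonneg_of_nonpos (by linarith) hcon
          linarith
        exact_mod_cast h3
      have h4 := a.r2_pow
      have h5 : (0 : ℝ) < (1 + a.eps / 20) ^ (20 * a.E * a.N0) := by positivity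
      show (n : ℝ) ≤ ((I.compl a c T t ∩ GG n g).card : ℝ) * (1 + a.eps / 20) ^ (20 * a.E * a.N0)
      nlinarith)
  have h := a.r2_chain_num
  linarith

theorem r2_GG_card {n g : ℕ} (h : g ≤ n) : (GG n g).card = g := by
  have h1 : (GG n g).card = (range g).card := by
    unfold GG
    apply card_bij (fun (i : Fin n) _ => i.val)
    · intro i hi
      exact mem_range.mpr (mem_filter.mp hi).2
    · intro i _ j _ hij
      exact Fin.ext hij
    · intro k hk
      have hk' := mem_range.mp hk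
      exact ⟨⟨k, by omega⟩, mem_filter.mpr ⟨mem_univ _, hk'⟩, rfl⟩
  rw [h1, card_range]

theorem r2_false (R : I.Run a ty g N c) {T : ℕ} (hT : T ∈ I.TT N) (hty : ty T = false)
    (hN : (I.NN T a.eps3 : ℝ) < g - 2 * et * n) (hN' : (I.NN T a.eps : ℝ) ≤ I.NN T a.eps3 + et * n)
    (hcr : I.crit c T) : False := by
  -- the completion events
  have hev : ∀ i : Fin n, ∃ t, Event I a c T t ∧ c t = i := by
    intro i
    obtain ⟨t, _, h2, h3, h4, h5⟩ := exists_event c (fun s => I.compl a c T s) 0 T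
      (fun s _ _ i h1 h2 => compl_step R h1 h2) 0 le_rfl (Nat.zero_le _) i
      (by rw [compl_zero R T]; exact notMem_empty _) (by rw [compl_end R hT hcr]; exact mem_univ _)
    exact ⟨t, ⟨h2, by rw [h3]; exact h4, by rw [h3]; exact h5⟩, h3⟩
  choose e he hce using hev
  have hinj : Function.Injective e := by
    intro i j hij
    rw [← hce i, ← hce j, hij]
  have hact : ∀ i, I.act T (e i) := fun i => (event_x R hT (he i)).2.1
  -- few machines of `GG` are completed by a task that is not near-unit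
  set X : Finset (Fin n) := (GG n g).filter (fun i => I.w (e i) < 1 - a.eps) with hX
  have hXc : X.card ≤ KG a := by
    apply few_small c (fun s => I.compl a c T s) I.w (GG n g) 0 T
      (fun s s' _ h1 h2 => compl_mono R hT h1 h2)
      (fun s _ _ i h1 h2 => compl_step R h1 h2) (KG a) (1 - a.eps)
    · intro t _ h1 h2 h3 h4 h5
      exact r2_near R hT hty hcr ⟨h1, h3, h4⟩ h2 h5
    · exact filter_subset _ _
    · intro i hi
      rw [hX, mem_filter] at hi
      have h1 := he i
      refine ⟨e i, Nat.zero_le _, h1.1, hce i, ?_, ?_, hi.2⟩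
      · have := h1.2.1
        rw [hce i] at this
        exact this
      · have := h1.2.2
        rw [hce i] at this
        exact this
  -- the others give near-unit tasks
  have hY : ((GG n g) \ X).card ≤ I.NN T a.eps := by
    unfold NN
    apply card_le_card_of_injOn e
    · intro i hi
      have hi' := mem_sdiff.mp (mem_coe.mp hi)
      rw [mem_coe, mem_filter, mem_range]
      refine ⟨(he i).1, hact i, ?_⟩
      by_contra hcon
      push Not at hcon
      exact hi'.2 (mem_filter.mpr ⟨hi'.1, hcon⟩)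
    · intro i _ j _ hij
      exact hinj hij
  have hgn : g ≤ n := by have := R.g4; omega
  have hcard : g ≤ I.NN T a.eps + KG a := by
    have h1 := le_card_sdiff X (GG n g)
    rw [r2_GG_card hgn] at h1
    omega
  have hcardR : (g : ℝ) ≤ I.NN T a.eps + (KG a : ℕ) := by exact_mod_cast hcard
  have h1 : et * n < ((KG a : ℕ) : ℝ) := by linarith
  -- numerical contradiction
  have hE36 := a.E_ge
  have hE0 := a.E_pos
  have hEn := a.n_ge
  unfold KG AP.Q at h1
  push_cast at h1
  have h2 : 8000 * (3600 * (a.E : ℝ) + 3) * a.E ≤ 10 ^ 8 * (a.E : ℝ) ^ 2 := by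
    have : (1 : ℝ) ≤ a.E := le_trans (by norm_num) hE36
    nlinarith
  have h3 : et * (a.E : ℝ) ^ 10 ≤ et * n :=
    mul_le_mul_of_nonneg_left hEn (by unfold et; positivity)
  have h4 : (10 : ℝ) ^ 8 * (a.E : ℝ) ^ 2 ≤ et * (a.E : ℝ) ^ 10 := by
    have h5 : ((10 : ℝ) ^ 36) ^ 8 ≤ (a.E : ℝ) ^ 8 := pow_le_pow_left₀ (by positivity) hE36 8
    have h6 : (10 : ℝ) ^ 8 * 4 ^ 25 ≤ ((10 : ℝ) ^ 36) ^ 8 := by norm_num
    have h7 : (10 : ℝ) ^ 8 * 4 ^ 25 ≤ (a.E : ℝ) ^ 8 := h6.trans h5
    unfold et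
    have h8 : (10 : ℝ) ^ 8 ≤ 1 / 4 ^ 25 * (a.E : ℝ) ^ 8 := by
      rw [one_div, inv_mul_eq_div, le_div_iff₀ (by positivity)]
      exact h7
    calc (10 : ℝ) ^ 8 * (a.E : ℝ) ^ 2 ≤ (1 / 4 ^ 25 * (a.E : ℝ) ^ 8) * (a.E : ℝ) ^ 2 :=
          mul_le_mul_of_nonneg_right h8 (by positivity)
      _ = 1 / 4 ^ 25 * (a.E : ℝ) ^ 10 := by ring
  linarith

end Inst

end

end RLB
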