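import Pool.Agent.RLB.R13

/-! D10: targets with much dust and many near-unit tasks are not critical -/

namespace RLB

noncomputable section

open Finset Classical

namespace AP

variable {n : ℕ} (a : AP n)

include a

theorem r3_ratio : a.eps3 / a.eps4 = a.eps := by
  rw [a.eps3_eq, a.eps4_eq]
  have := a.eps_pos
  field_simp

theorem r3_one_le : (1 : ℝ) ≤ n := by
  have h1 := a.n_big
  have h2 : 1 ≤ n := by omega
  exact_mod_cast h2

theorem r3_inv_le_eps3 : 1 / (n : ℝ) ≤ 1 / 10 ^ 200 * a.eps3 := by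
  rw [a.eps3_eq]
  exact a.inv_n_le_eps4'

theorem r3_kap1_le : kap1 n ≤ 1 / n := by
  have h1 := a.r3_one_le
  unfold kap1
  apply one_div_le_one_div_of_le a.n_pos
  calc (n : ℝ) = (n : ℝ) ^ 1 := (pow_one _).symm
    _ ≤ (n : ℝ) ^ 10 := pow_le_pow_right₀ h1 (by norm_num)

theorem r3_kap_le : kap n ≤ 1 / n * (1 / n) := by
  have h1 := a.r3_one_le
  have h0 := a.n_pos
  unfold kap
  rw [one_div_mul_one_div]
  apply one_div_le_one_div_of_le (by positivity)
  calc (n : ℝ) * n = (n : ℝ) ^ 2 := by ring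
    _ ≤ (n : ℝ) ^ 30 := pow_le_pow_right₀ h1 (by norm_num)

theorem r3_dp_le : dp n ≤ 1 / n * (1 / n) := by
  have h1 := a.r3_one_le
  have h0 := a.n_pos
  unfold dp
  rw [one_div_mul_one_div]
  apply one_div_le_one_div_of_le (by positivity)
  calc (n : ℝ) * n = (n : ℝ) ^ 2 := by ring
    _ ≤ (n : ℝ) ^ 5 := pow_le_pow_right₀ h1 (by norm_num)

omit a in
theorem r3_kap_pos (h : (0 : ℝ) < n) : 0 < kap n := by unfold kap; positivity

theorem r3_Keps : (a.Keps : ℝ) ≤ 1 / 10 ^ 100 * n := by
  have h1 := a.n_ge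
  have h2 := a.E_ge
  have h3 := a.E_pos
  have h4 : (a.Keps : ℝ) = 3600 * a.E := by unfold Keps; push_cast; ring
  rw [h4]
  have h5 : (10 ^ 36 : ℝ) ^ 9 ≤ (a.E : ℝ) ^ 9 := pow_le_pow_left₀ (by positivity) h2 9
  have h6 : (3600 * 10 ^ 100 : ℝ) ≤ (10 ^ 36 : ℝ) ^ 9 := by norm_num
  have h7 : 3600 * 10 ^ 100 * (a.E : ℝ) ≤ (a.E : ℝ) ^ 9 * a.E :=
    mul_le_mul_of_nonneg_right (h6.trans h5) h3.le
  have h8 : (a.E : ℝ) ^ 9 * a.E = (a.E : ℝ) ^ 10 := by ring
  rw [h8] at h7
  have h9 : 3600 * (a.E : ℝ) = 1 / 10 ^ 100 * (3600 * 10 ^ 100 * (a.E : ℝ)) := by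
    norm_num
    ring
  rw [h9]
  exact mul_le_mul_of_nonneg_left (h7.trans h1) (by positivity)

end AP

namespace Inst

variable {n : ℕ} [NeZero n] {I : Inst n} {a : AP n} {ty : ℕ → Bool} {g N : ℕ} {c : ℕ → Fin n}

omit [NeZero n] in
/-- the flow of dust after `ta T` is nearly `dl` -/
theorem r3_flow {T : ℕ} (hd : a.dl < I.DD T 0) : a.dl - kap n ≤ I.DD T (I.ta a T) := by
  have hmax : max a.dl 0 = a.dl := max_eq_left a.dl_nonneg
  have hta : I.ta a T ≠ 0 := by
    intro h
    have h1 : I.DD T (I.ta a T) ≤ max a.dl 0 := Nat.find_spec (I.DD_exists T a.dl)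
    rw [h, hmax] at h1
    linarith
  obtain ⟨s, hs⟩ : ∃ s, I.ta a T = s + 1 := ⟨I.ta a T - 1, by omega⟩
  have h2 : ¬ (I.DD T s ≤ max a.dl 0) := by
    apply Nat.find_min (I.DD_exists T a.dl)
    have : I.ta a T = Nat.find (I.DD_exists T a.dl) := rfl
    omega
  rw [hmax] at h2
  push Not at h2
  rw [hs]
  have hk := AP.r3_kap_pos a.n_pos
  have h3 : I.DD T s ≤ I.DD T (s + 1) + kap n := by
    unfold DD
    by_cases hs2 : s ∈ (range T).filter (fun k => s ≤ k ∧ I.act T k ∧ I.w k < kap n)
    · have h4 : (range T).filter (fun k => s ≤ k ∧ I.act T k ∧ I.w k < kap n) =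
          insert s ((range T).filter (fun k => s + 1 ≤ k ∧ I.act T k ∧ I.w k < kap n)) := by
        ext k
        rw [mem_insert, mem_filter, mem_filter]
        constructor
        · rintro ⟨h5, h6, h7⟩
          rcases eq_or_lt_of_le h6 with h8 | h8
          · exact Or.inl h8.symm
          · exact Or.inr ⟨h5, h8, h7⟩
        · rintro (h5 | ⟨h5, h6, h7⟩)
          · rw [h5]; exact mem_filter.mp hs2
          · exact ⟨h5, by omega, h7⟩
      rw [h4, sum_insert (by simp)]
      have h5 := (mem_filter.mp hs2).2.2.2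
      linarith
    · have h4 : (range T).filter (fun k => s ≤ k ∧ I.act T k ∧ I.w k < kap n) =
          (range T).filter (fun k => s + 1 ≤ k ∧ I.act T k ∧ I.w k < kap n) := by
        ext k
        rw [mem_filter, mem_filter]
        constructor
        · rintro ⟨h5, h6, h7⟩
          rcases eq_or_lt_of_le h6 with h8 | h8
          · exfalso
            apply hs2
            rw [mem_filter]
            subst h8
            exact ⟨h5, h6, h7⟩
          · exact ⟨h5, h8, h7⟩
        · rintro ⟨h5, h6, h7⟩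
          exact ⟨h5, by omega, h7⟩
      rw [h4]
      linarith
  linarith

/-- a machine with a final near-unit task gets little dust -/
theorem r3_dust (R : I.Run a ty g N c) {T : ℕ} (hT : T ∈ I.TT N) (hcr : I.crit c T) {i : Fin n}
    (hi : ∃ k' < T, I.act T k' ∧ c k' = i ∧ 1 - a.eps3 ≤ I.w k') :
    ∑ k ∈ (range T).filter (fun k => I.ta a T ≤ k ∧ I.act T k ∧ I.w k < kap n),
      I.w k * (if i ∈ I.allowed g c k then 1 / ((I.allowed g c k).card : ℝ) else 0)
      ≤ a.eps3 + kap1 n := by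
  have hTN := TT_lt hT
  obtain ⟨k', hk'T, hact, hck, hw⟩ := hi
  have hW := (R.W T hT i).2
  have hdev := (abs_le.mp hW).1
  have e2 : ∑ k ∈ (range T).filter (fun k => I.ta a T ≤ k ∧ I.act T k ∧ I.w k < kap n),
        I.w k * (if i ∈ I.allowed g c k then 1 / ((I.allowed g c k).card : ℝ) else 0) =
      ∑ k ∈ (range T).filter (fun k => I.ta a T ≤ k ∧ I.act T k ∧ I.w k < kap n),
        (if c k = i then I.w k else 0) - I.dev g c T (I.ta a T) i := by
    unfold dev
    rw [← sum_sub_distrib]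
    apply sum_congr rfl
    intro k _
    split_ifs <;> ring
  have e3 : ∑ k ∈ (range T).filter (fun k => I.ta a T ≤ k ∧ I.act T k ∧ I.w k < kap n),
        (if c k = i then I.w k else 0) + I.w k' ≤ I.ld c T i := by
    rw [← sum_filter, filter_filter]
    have hk'not : k' ∉ (range T).filter
        (fun k => (I.ta a T ≤ k ∧ I.act T k ∧ I.w k < kap n) ∧ c k = i) := by
      intro h
      have h1 := (mem_filter.mp h).2.1.2.2
      have h2 := kap_small a.n_big
      have h3 := a.inv_n_le
      have h4 : a.eps3 ≤ 1 / 10 := by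
        rw [a.eps3_eq]
        have h5 := a.eps_le
        have h6 := a.eps_pos
        have h7 : a.eps ^ 4 ≤ (1 / 10 ^ 36) ^ 4 := pow_le_pow_left₀ h6.le h5 4
        have h8 : ((1 / 10 ^ 36) ^ 4 : ℝ) ≤ 1 / 10 := by norm_num
        linarith
      have h5 := a.inv_n_pos
      have h6 : (1 / 10 ^ 200 : ℝ) ≤ 1 / 10 := by norm_num
      have h7 : (1 / 10 ^ 6 : ℝ) * (1 / n) ≤ 1 / n := by
        have : (1 / 10 ^ 6 : ℝ) ≤ 1 := by norm_num
        nlinarith
      linarith
    have h1 : ∑ k ∈ insert k' ((range T).filter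
        (fun k => (I.ta a T ≤ k ∧ I.act T k ∧ I.w k < kap n) ∧ c k = i)), I.w k ≤
        ∑ k ∈ (range T).filter (fun k => I.act T k ∧ c k = i), I.w k := by
      apply sum_le_sum_of_subset_of_nonneg
      · intro k hk
        rw [mem_insert, mem_filter] at hk
        rw [mem_filter]
        rcases hk with h | h
        · subst h
          exact ⟨mem_range.mpr hk'T, hact, hck⟩
        · exact ⟨h.1, h.2.1.2.1, h.2.2⟩
      · intro k hk _
        have := mem_range.mp (mem_filter.mp hk).1
        exact (R.ok.wpos k (by omega)).le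
    rw [sum_insert hk'not] at h1
    unfold ld
    have h2 := R.ok.pnn T i
    linarith
  have h4 := I.crit_upper a.n_big R.ok c T hT hcr i
  have h5 := a.qp_le
  rw [e2]
  linarith

/-- there is a dust grain `k` of `T` arriving after `ta T` for which nearly no machine with a final
near-unit task is available -/
theorem r3_grain (R : I.Run a ty g N c) {T : ℕ} (hT : T ∈ I.TT N) (hty : ty T = true)
    (hd : a.dl < I.DD T 0) (hcr : I.crit c T) :
    ∃ k, I.ta a T ≤ k ∧ k < T ∧ I.act T k ∧ I.w k < kap n ∧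
      (((I.allowed g c k).filter
        (fun i => ∃ k' < T, I.act T k' ∧ c k' = i ∧ 1 - a.eps3 ≤ I.w k')).card : ℝ)
        ≤ 4 * (a.eps3 / a.eps4) * n := by
  have hTN := TT_lt hT
  have hn0 := a.n_pos
  rw [a.r3_ratio]
  by_contra hcon
  push Not at hcon
  -- flow
  have hD := r3_flow hd
  set L : Finset (Fin n) := univ.filter
    (fun i => ∃ k' < T, I.act T k' ∧ c k' = i ∧ 1 - a.eps3 ≤ I.w k') with hL
  have hlow : 4 * a.eps * I.DD T (I.ta a T) ≤
      ∑ i ∈ L, ∑ k ∈ (range T).filter (fun k => I.ta a T ≤ k ∧ I.act T k ∧ I.w k < kap n),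
        I.w k * (if i ∈ I.allowed g c k then 1 / ((I.allowed g c k).card : ℝ) else 0) := by
    rw [sum_comm]
    unfold DD
    rw [mul_sum]
    apply sum_le_sum
    intro k hk
    rw [mem_filter, mem_range] at hk
    have h1 := hcon k hk.2.1 hk.1 hk.2.2.1 hk.2.2.2
    rw [← mul_sum, ← sum_filter, sum_const, nsmul_eq_mul]
    have h2 : L.filter (fun i => i ∈ I.allowed g c k) = (I.allowed g c k).filter
        (fun i => ∃ k' < T, I.act T k' ∧ c k' = i ∧ 1 - a.eps3 ≤ I.w k') := by
      ext i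
      rw [hL, mem_filter, mem_filter, mem_filter]
      constructor
      · rintro ⟨⟨_, h3⟩, h4⟩
        exact ⟨h4, h3⟩
      · rintro ⟨h3, h4⟩
        exact ⟨⟨mem_univ _, h4⟩, h3⟩
    rw [h2]
    have hwk := R.ok.wpos k (by omega)
    have h3 : 0 < ((I.allowed g c k).card : ℝ) := by
      have := (I.allowed_nonempty g c k).card_pos
      exact_mod_cast this
    have h4 : ((I.allowed g c k).card : ℝ) ≤ n := by
      have := card_le_univ (I.allowed g c k)
      rw [Fintype.card_fin] at this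
      exact_mod_cast this
    have h5 : 4 * a.eps ≤ ((((I.allowed g c k).filter
        (fun i => ∃ k' < T, I.act T k' ∧ c k' = i ∧ 1 - a.eps3 ≤ I.w k')).card : ℝ)) *
        (1 / ((I.allowed g c k).card : ℝ)) := by
      rw [mul_one_div, le_div_iff₀ h3]
      refine le_trans ?_ h1.le
      apply mul_le_mul_of_nonneg_left h4
      have := a.eps_pos
      positivity
    calc 4 * a.eps * I.w k = I.w k * (4 * a.eps) := by ring
      _ ≤ _ := mul_le_mul_of_nonneg_left h5 hwk.le
  have hup : ∑ i ∈ L, ∑ k ∈ (range T).filter (fun k => I.ta a T ≤ k ∧ I.act T k ∧ I.w k < kap n),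
        I.w k * (if i ∈ I.allowed g c k then 1 / ((I.allowed g c k).card : ℝ) else 0) ≤
      n * (a.eps3 + kap1 n) := by
    have h1 : ∑ i ∈ L, ∑ k ∈ (range T).filter
        (fun k => I.ta a T ≤ k ∧ I.act T k ∧ I.w k < kap n),
        I.w k * (if i ∈ I.allowed g c k then 1 / ((I.allowed g c k).card : ℝ) else 0) ≤
        L.card • (a.eps3 + kap1 n) := by
      apply sum_le_card_nsmul
      intro i hi
      rw [hL, mem_filter] at hi
      exact r3_dust R hT hcr hi.2
    rw [nsmul_eq_mul] at h1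
    refine h1.trans ?_
    apply mul_le_mul_of_nonneg_right
    · have := card_le_univ L
      rw [Fintype.card_fin] at this
      exact_mod_cast this
    · have := a.eps3_pos
      unfold kap1
      positivity
  -- numbers
  have hk1 := a.r3_kap1_le
  have hk := a.r3_kap_le
  have hi := a.r3_inv_le_eps3
  have h3 := a.eps3_pos
  have h4 := a.eps_pos
  have h5 := a.eps_le
  have h6 := a.inv_n_pos
  have h7 := a.inv_n_le
  have h8 : 4 * a.eps * a.dl = 8 * a.eps3 * n := by
    unfold AP.dl
    rw [a.eps3_eq, a.eps4_eq]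
    ring
  have h9 : 4 * a.eps * (a.dl - kap n) ≤ 4 * a.eps * I.DD T (I.ta a T) :=
    mul_le_mul_of_nonneg_left hD (by positivity)
  have h10 : 4 * a.eps * kap n ≤ a.eps3 := by
    have h11 : 4 * a.eps ≤ 1 := by
      have : (1 / 10 ^ 36 : ℝ) ≤ 1 / 4 := by norm_num
      linarith
    have h12 : kap n ≤ a.eps3 := by
      have h13 : 1 / (n : ℝ) * (1 / n) ≤ 1 * (1 / n) := by
        apply mul_le_mul_of_nonneg_right _ h6.le
        exact h7.trans (by norm_num)
      have h14 : (1 / 10 ^ 200 : ℝ) * a.eps3 ≤ a.eps3 := by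
        have : (1 / 10 ^ 200 : ℝ) ≤ 1 := by norm_num
        nlinarith
      linarith
    have h15 := AP.r3_kap_pos hn0
    nlinarith
  have h16 : kap1 n ≤ a.eps3 := by
    have h14 : (1 / 10 ^ 200 : ℝ) * a.eps3 ≤ a.eps3 := by
      have : (1 / 10 ^ 200 : ℝ) ≤ 1 := by norm_num
      nlinarith
    linarith
  have h17 := a.r3_one_le
  have h18 : n * (a.eps3 + kap1 n) ≤ n * (2 * a.eps3) := by
    apply mul_le_mul_of_nonneg_left _ hn0.le
    linarith
  have h19 : 8 * a.eps3 * n - a.eps3 ≤ n * (2 * a.eps3) := by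
    calc 8 * a.eps3 * n - a.eps3 ≤ 4 * a.eps * a.dl - 4 * a.eps * kap n := by rw [h8]; linarith
      _ = 4 * a.eps * (a.dl - kap n) := by ring
      _ ≤ _ := h9.trans (hlow.trans (hup.trans h18))
  nlinarith

/-- at every time after `ta T` nearly all machines without final near-unit task are complete -/
theorem r3_complete (R : I.Run a ty g N c) {T : ℕ} (hT : T ∈ I.TT N) (hty : ty T = true)
    (hcr : I.crit c T) {t : ℕ} (ht : I.ta a T ≤ t) (htT : t ≤ T) :
    (n : ℝ) - I.NN T a.eps - a.Keps ≤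
      (((I.compl a c T t).filter
        (fun i => ∀ k' < T, I.act T k' → c k' = i → I.w k' < 1 - a.eps)).card : ℝ) := by
  set M : Finset (Fin n) := univ.filter
    (fun i => ∀ k' < T, I.act T k' → c k' = i → I.w k' < 1 - a.eps) with hM
  -- the machines with a near-unit task
  have h1 : n ≤ M.card + I.NN T a.eps := by
    have h2 : (univ : Finset (Fin n)) ⊆ M ∪
        ((range T).filter (fun k => I.act T k ∧ 1 - a.eps ≤ I.w k)).image c := by
      intro i _
      by_cases h : i ∈ M
      · exact mem_union_left _ h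
      · apply mem_union_right
        rw [hM, mem_filter] at h
        push Not at h
        obtain ⟨k', h3, h4, h5, h6⟩ := h (mem_univ _)
        rw [mem_image]
        exact ⟨k', mem_filter.mpr ⟨mem_range.mpr h3, h4, h6⟩, h5⟩
    have h3 := card_le_card h2
    rw [card_univ, Fintype.card_fin] at h3
    refine h3.trans ((card_union_le _ _).trans ?_)
    exact Nat.add_le_add_left card_image_le _
  have h2 : (M \ I.compl a c T t).card ≤ a.Keps := by
    apply few_small c (fun s => I.compl a c T s) I.w univ t T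
      (fun s s' _ h1 h2 => compl_mono R hT h1 h2)
      (fun s _ _ i h1 h2 => compl_step R h1 h2) a.Keps (1 - a.eps)
    · intro s hs hsT _ h3 h4 h5
      simp only [inter_univ] at h5
      have hE : Event I a c T s := ⟨hsT, h3, h4⟩
      have h6 := near13' R hT hty hcr (ht.trans hs) hE h5
      have h7 := a.eps_pos
      linarith
    · exact subset_univ _
    · intro i hi
      rw [mem_sdiff] at hi
      obtain ⟨s, h3, h4, h5, h6, h7⟩ := exists_event c (fun s => I.compl a c T s) t T
        (fun s _ _ i h1 h2 => compl_step R h1 h2) t le_rfl htT i hi.2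
        (by rw [compl_end R hT hcr]; exact mem_univ _)
      refine ⟨s, h3, h4, h5, h6, h7, ?_⟩
      have hE : Event I a c T s := ⟨h4, by rw [h5]; exact h6, by rw [h5]; exact h7⟩
      have hact := (event_x R hT hE).2.1
      have h8 := hi.1
      rw [hM, mem_filter] at h8
      exact h8.2 s h4 hact h5
  have h3 : M.card ≤ ((I.compl a c T t).filter
      (fun i => ∀ k' < T, I.act T k' → c k' = i → I.w k' < 1 - a.eps)).card +
      (M \ I.compl a c T t).card := by
    refine le_trans (card_le_card ?_) (card_union_le _ _)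
    intro i hi
    by_cases h : i ∈ I.compl a c T t
    · apply mem_union_left
      rw [mem_filter]
      rw [hM, mem_filter] at hi
      exact ⟨h, hi.2⟩
    · exact mem_union_right _ (mem_sdiff.mpr ⟨hi, h⟩)
  have h4 : (n : ℝ) ≤ M.card + I.NN T a.eps := by exact_mod_cast h1
  have h5 : ((M \ I.compl a c T t).card : ℝ) ≤ a.Keps := by exact_mod_cast h2
  have h6 : (M.card : ℝ) ≤ ((I.compl a c T t).filter
      (fun i => ∀ k' < T, I.act T k' → c k' = i → I.w k' < 1 - a.eps)).card +
      (M \ I.compl a c T t).card := by exact_mod_cast h3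
  linarith

/-- there are as many machines with a near-unit task as near-unit tasks -/
theorem r3_L (R : I.Run a ty g N c) {T : ℕ} (hT : T ∈ I.TT N) (hcr : I.crit c T) :
    I.NN T a.eps3 ≤ (univ.filter
      (fun i => ∃ k' < T, I.act T k' ∧ c k' = i ∧ 1 - a.eps3 ≤ I.w k') : Finset (Fin n)).card := by
  have hTN := TT_lt hT
  unfold NN
  apply card_le_card_of_injOn c
  · intro k hk
    rw [coe_filter, Set.mem_ofPred_eq, mem_range] at hk
    rw [coe_filter, Set.mem_ofPred_eq]
    exact ⟨mem_univ _, k, hk.1, hk.2.1, rfl, hk.2.2⟩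
  · intro k hk k' hk' hkk
    rw [coe_filter, Set.mem_ofPred_eq, mem_range] at hk hk'
    by_contra hne
    have h1 : ∑ j ∈ ({k, k'} : Finset ℕ), I.w j ≤
        ∑ j ∈ (range T).filter (fun j => I.act T j ∧ c j = c k), I.w j := by
      apply sum_le_sum_of_subset_of_nonneg
      · intro j hj
        rw [mem_insert, mem_singleton] at hj
        rw [mem_filter, mem_range]
        rcases hj with h | h
        · subst h; exact ⟨hk.1, hk.2.1, rfl⟩
        · subst h; exact ⟨hk'.1, hk'.2.1, hkk.symm⟩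
      · intro j hj _
        have := mem_range.mp (mem_filter.mp hj).1
        exact (R.ok.wpos j (by omega)).le
    rw [sum_pair hne] at h1
    have h2 := I.crit_upper a.n_big R.ok c T hT hcr (c k)
    have h3 := a.qp_le
    have h4 := R.ok.pnn T (c k)
    have h5 : a.eps3 ≤ 1 / 10 := by
      rw [a.eps3_eq]
      have h5 := a.eps_le
      have h6 := a.eps_pos
      have h7 : a.eps ^ 4 ≤ (1 / 10 ^ 36) ^ 4 := pow_le_pow_left₀ h6.le h5 4
      have h8 : ((1 / 10 ^ 36) ^ 4 : ℝ) ≤ 1 / 10 := by norm_num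
      linarith
    unfold ld at h2
    have h6 := hk.2.2
    have h7 := hk'.2.2
    linarith

theorem r3_false (R : I.Run a ty g N c) {T : ℕ} (hT : T ∈ I.TT N) (hty : ty T = true)
    (hd : a.dl < I.DD T 0) (hN : 2 * (g : ℝ) + 20 * et * n < I.NN T a.eps3)
    (hcr : I.crit c T) : False := by
  have hTN := TT_lt hT
  have hn0 := a.n_pos
  obtain ⟨k, hk1, hk2, hk3, hk4, hk5⟩ := r3_grain R hT hty hd hcr
  rw [a.r3_ratio] at hk5
  have hC := r3_complete R hT hty hcr hk1 hk2.le
  have hL := r3_L R hT hcr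
  have hty3 := (R.types T hT).2.2
  have hkN : k < N := by omega
  set L : Finset (Fin n) := univ.filter
    (fun i => ∃ k' < T, I.act T k' ∧ c k' = i ∧ 1 - a.eps3 ≤ I.w k') with hLdef
  set C : Finset (Fin n) := (I.compl a c T k).filter
        (fun i => ∀ k' < T, I.act T k' → c k' = i → I.w k' < 1 - a.eps) with hCdef
  set A : Finset (Fin n) := (I.allowed g c k).filter
        (fun i => ∃ k' < T, I.act T k' ∧ c k' = i ∧ 1 - a.eps3 ≤ I.w k') with hAdef
  set F : Finset (Fin n) := L.filter (fun i => ¬ I.fits c k i) with hFdef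
  obtain ⟨hal, _⟩ := I.dust_room a.n_big R.g4 R.ok c k hkN hk4
  -- number of full machines
  have hF : L.card ≤ F.card + (A.card + (g + 28)) := by
    have h1 : L ⊆ F ∪ (A ∪ (GG n g ∪ I.Cs c k)) := by
      intro i hi
      by_cases h2 : I.fits c k i
      · apply mem_union_right
        by_cases h3 : i ∈ GG n g
        · exact mem_union_right _ (mem_union_left _ h3)
        by_cases h4 : i ∈ I.Cs c k
        · exact mem_union_right _ (mem_union_right _ h4)
        apply mem_union_left
        rw [hAdef, mem_filter, hal]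
        rw [hLdef, mem_filter] at hi
        refine ⟨?_, hi.2⟩
        unfold Ud
        rw [mem_filter]
        exact ⟨mem_univ _, h3, h4, h2⟩
      · apply mem_union_left
        rw [hFdef, mem_filter]
        exact ⟨hi, h2⟩
    refine (card_le_card h1).trans ((card_union_le _ _).trans ?_)
    refine Nat.add_le_add_left ((card_union_le _ _).trans ?_) _
    refine Nat.add_le_add_left ((card_union_le _ _).trans ?_) _
    exact Nat.add_le_add (GG_card_le g) (I.Cs_card a.n_big R.ok c k hkN)
  -- disjointness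
  have hdis : Disjoint F C := by
    rw [disjoint_left]
    intro i hi hi'
    rw [hFdef, mem_filter, hLdef, mem_filter] at hi
    rw [hCdef, mem_filter] at hi'
    obtain ⟨k', h1, h2, h3, h4⟩ := hi.1.2
    have h5 := hi'.2 k' h1 h2 h3
    have h6 : a.eps3 ≤ a.eps := by
      rw [a.eps3_eq]
      have h7 := a.eps_pos
      have h8 : a.eps ≤ 1 := a.eps_le.trans (by norm_num)
      calc a.eps ^ 4 ≤ a.eps ^ 1 := pow_le_pow_of_le_one h7.le h8 (by norm_num)
        _ = a.eps := pow_one _
    linarith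
  -- volume
  have hvol := R.ok.volle k hkN
  rw [← I.sum_ld c k] at hvol
  have hx1 := R.ok.xhi k hkN
  have hx0 := R.ok.xlo k hkN
  have hwk := R.ok.wpos k hkN
  have hsum : ∑ i ∈ F, I.ld c k i + ∑ i ∈ C, I.ld c k i ≤ ∑ i, I.ld c k i := by
    rw [← sum_union hdis]
    exact sum_le_sum_of_subset_of_nonneg (subset_univ _)
      (fun i _ _ => I.ld_nonneg R.ok c k hkN.le i)
  have hi0 := a.inv_n_pos
  have hi1 := a.inv_n_le
  have hkap := a.r3_kap_le
  have hdp := a.r3_dp_le
  have hdp0 := a.dp_pos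
  have hx4 : 4 * (1 / (n : ℝ)) < I.x k := by
    have : 4 * (1 / (n : ℝ)) = 4 / n := by ring
    linarith
  have hxpos : 0 < I.x k := by linarith
  have hsF : (F.card : ℝ) * ((2 - 2 * (1 / (n : ℝ))) * I.x k) ≤ ∑ i ∈ F, I.ld c k i := by
    rw [← nsmul_eq_mul]
    apply card_nsmul_le_sum
    intro i hi
    rw [hFdef, mem_filter] at hi
    have h1 := hi.2
    unfold fits at h1
    push Not at h1
    have h2 : rr n * I.x k - dp n ≤ thr n (I.x k) := by
      unfold thr
      split_ifs
      · linarith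
      · have h3 : 0 ≤ rr n := by
          unfold rr
          have : (1 / 10 ^ 200 : ℝ) ≤ 1 := by norm_num
          linarith
        nlinarith
    have h3 : 1 / (n : ℝ) * (1 / n) ≤ 1 / n * (1 / 4 * I.x k) := by
      apply mul_le_mul_of_nonneg_left _ hi0.le
      linarith
    have h4 : 0 ≤ 1 / (n : ℝ) * I.x k := by positivity
    have h5 : (2 - 2 * (1 / (n : ℝ))) * I.x k = rr n * I.x k - 1 / (n : ℝ) * I.x k := by
      unfold rr; ring
    rw [h5]
    have h6 : 1 / (n : ℝ) * (1 / 4 * I.x k) = 1 / 4 * (1 / (n : ℝ) * I.x k) := by ring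
    rw [h6] at h3
    linarith
  have hb0 := a.beta_pos
  have hb1 := a.beta_le
  have hsC : (C.card : ℝ) * ((1 - 1 / (n : ℝ) - a.beta) * I.x k) ≤ ∑ i ∈ C, I.ld c k i := by
    rw [← nsmul_eq_mul]
    apply card_nsmul_le_sum
    intro i hi
    rw [hCdef, mem_filter, mem_compl_iff] at hi
    have h1 := I.uu_le_ld R.ok c T k hk2.le hTN.le i
    have h2 := hi.1
    have h3 : (1 - 1 / (n : ℝ) - a.beta) * I.x k ≤ (1 - 1 / (n : ℝ) - a.beta) * 1 := by
      apply mul_le_mul_of_nonneg_left hx1
      have h4 : (1 / 10 ^ 200 : ℝ) ≤ 1 / 4 := by norm_num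
      have h5 : (1 / 10 ^ 100 : ℝ) ≤ 1 / 4 := by norm_num
      linarith
    unfold qq at h2
    linarith
  have hmain : ((F.card : ℝ) * (2 - 2 * (1 / (n : ℝ))) + C.card * (1 - 1 / (n : ℝ) - a.beta)) ≤ n := by
    have h1 : I.x k * ((F.card : ℝ) * (2 - 2 * (1 / (n : ℝ))) + C.card * (1 - 1 / (n : ℝ) - a.beta)) ≤
        I.x k * n := by
      calc I.x k * ((F.card : ℝ) * (2 - 2 * (1 / (n : ℝ))) + C.card * (1 - 1 / (n : ℝ) - a.beta)) =
          (F.card : ℝ) * ((2 - 2 * (1 / (n : ℝ))) * I.x k) +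
            (C.card : ℝ) * ((1 - 1 / (n : ℝ) - a.beta) * I.x k) := by ring
        _ ≤ n * I.x k := by linarith
        _ = I.x k * n := by ring
    exact le_of_mul_le_mul_left h1 hxpos
  have hFn : (F.card : ℝ) ≤ n := by
    have := card_le_univ F
    rw [Fintype.card_fin] at this
    exact_mod_cast this
  have hCn : (C.card : ℝ) ≤ n := by
    have := card_le_univ C
    rw [Fintype.card_fin] at this
    exact_mod_cast this
  have hnn : (n : ℝ) * (1 / n) = 1 := by field_simp
  have hF' : (L.card : ℝ) ≤ F.card + (A.card + (g + 28)) := by exact_mod_cast hF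
  have hL' : (I.NN T a.eps3 : ℝ) ≤ L.card := by exact_mod_cast hL
  have hKe := a.r3_Keps
  have heps := a.eps_le
  have heps0 := a.eps_pos
  -- final computation
  have hf1 : (F.card : ℝ) * (1 / n) ≤ 1 := by
    calc (F.card : ℝ) * (1 / n) ≤ n * (1 / n) := mul_le_mul_of_nonneg_right hFn hi0.le
      _ = 1 := hnn
  have hc1 : (C.card : ℝ) * (1 / n) ≤ 1 := by
    calc (C.card : ℝ) * (1 / n) ≤ n * (1 / n) := mul_le_mul_of_nonneg_right hCn hi0.le
      _ = 1 := hnn
  have hc2 : (C.card : ℝ) * a.beta ≤ n * (1 / 10 ^ 100) :=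
    mul_le_mul hCn hb1 hb0.le hn0.le
  have he1 : 4 * a.eps * n ≤ 4 * (1 / 10 ^ 36) * n := by
    apply mul_le_mul_of_nonneg_right _ hn0.le
    linarith
  have hn35 : 35 + 28 + 28 ≤ 1 / 10 ^ 36 * (n : ℝ) := by
    have h1 : (10 : ℝ) ^ 36 * (91) ≤ n := by
      have h2 := a.n_ge
      have h3 := a.E_ge
      have h4 : ((10 : ℝ) ^ 36) ^ 10 ≤ (a.E : ℝ) ^ 10 := pow_le_pow_left₀ (by positivity) h3 10
      have h5 : (10 : ℝ) ^ 36 * 91 ≤ ((10 : ℝ) ^ 36) ^ 10 := by norm_num
      linarith
    have h2 : (1 / 10 ^ 36 : ℝ) * (10 ^ 36 * 91) ≤ 1 / 10 ^ 36 * n :=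
      mul_le_mul_of_nonneg_left h1 (by positivity)
    norm_num at h2 ⊢
    linarith
  have het : (1 / 10 ^ 20 : ℝ) ≤ et := by unfold et; norm_num
  have het' : 1 / 10 ^ 20 * (n : ℝ) ≤ et * n := mul_le_mul_of_nonneg_right het hn0.le
  have e1 : (F.card : ℝ) * (2 - 2 * (1 / (n : ℝ))) = 2 * F.card - 2 * (F.card * (1 / n)) := by ring
  have e2 : (C.card : ℝ) * (1 - 1 / (n : ℝ) - a.beta) = C.card - C.card * (1 / n) - C.card * a.beta := by
    ring
  rw [e1, e2] at hmain
  have hN' : 2 * (g : ℝ) + 20 * (et * n) < I.NN T a.eps3 := by linarith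
  norm_num at he1 hc2 hn35 hKe het'
  linarith

end Inst

end

end RLB
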