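import Pool.Agent.RLB.R1
import Pool.Agent.RLB.R2
import Pool.Agent.RLB.R3
import Pool.Agent.RLB.LemmaB
import Pool.Agent.RLB.Controller

/-! D14: the deterministic theorem -/

namespace RLB

noncomputable section

open Finset Classical

namespace Inst

variable {n : ℕ} [NeZero n] {I : Inst n} {a : AP n} {ty : ℕ → Bool} {g N : ℕ} {c : ℕ → Fin n}

theorem not_crit (R : I.Run a ty g N c) {T : ℕ} (hT : T ∈ I.TT N) : ¬ I.crit c T := by
  intro hcr
  have h := R.types T hT
  cases hty : ty T with
  | true =>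
    rcases h.1 hty with h1 | h1
    · exact r1_false R hT hty h1 hcr
    · exact r3_false R hT hty h1.1 h1.2 hcr
  | false => exact r2_false R hT hty (h.2.1 hty) h.2.2 hcr

theorem run_fits (hn : 10 ^ 6 ≤ n) (R : I.Run a ty g N c) (m : ℕ) (hm : m < N) :
    I.ld c m (c m) + I.w m ≤ thr n (I.x m) :=
  lemmaB I hn R.ok R.g10 R.g4 c R.leg (fun _ hT => not_crit R hT) m hm

end Inst

end

end RLB
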