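import Pool.Agent.RLB.OptFacts
import Pool.Agent.RLB.Congr

/-! G2: the abstract instance of an epoch of an input -/

namespace RLB

noncomputable section

open Finset Classical

variable {n : ℕ} [NeZero n]

/-- the instance of the epoch starting at arrival `k0` with scale `θ`; `b` are the placements
(only those of tasks `< k0` matter) -/
def instOf (σ : List Ev) (k0 : ℕ) (θ : ℝ) (b : ℕ → Fin n) : Inst n where
  w m := wt σ (k0 + m) / θ
  act m k := k < m ∧ k0 + k ∉ gone (pre σ (k0 + m))
  p m i := (∑ k ∈ (range k0).filter (fun k => k ∉ gone (pre σ (k0 + m)) ∧ b k = i), wt σ k) / θ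
  x m := OPT n (preA σ (k0 + m)) / θ

omit [NeZero n] in
/-- the load before an arrival as a sum of weights of the input -/
theorem embed_load_pre (σ : List Ev) (b : ℕ → Fin n) (M : ℕ) (hM : M ≤ narr σ) (i : Fin n) :
    load (pre σ M) b i = ∑ k ∈ range M, (if k ∉ gone (pre σ M) ∧ b k = i then wt σ k else 0) := by
  unfold load active
  rw [narr_pre σ M hM, ← sum_filter]
  have h1 : ((range M \ gone (pre σ M)).filter (fun k => b k = i)) =
      (range M).filter (fun k => k ∉ gone (pre σ M) ∧ b k = i) := by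
    ext k
    simp only [mem_filter, mem_sdiff, mem_range]
    tauto
  rw [h1]
  apply sum_congr rfl
  intro k hk
  rw [mem_filter, mem_range] at hk
  apply wt_prefix (pre_prefix σ M)
  rw [narr_pre σ M hM]
  exact hk.1

/-- loads of the instance are the true loads divided by the scale -/
theorem instOf_ld {σ : List Ev} (k0 : ℕ) {θ : ℝ} (hθ : 0 < θ) (b : ℕ → Fin n)
    (m : ℕ) (hm : k0 + m ≤ narr σ) (i : Fin n) :
    (instOf σ k0 θ b).ld (fun j => b (k0 + j)) m i = load (pre σ (k0 + m)) b i / θ := by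
  rw [embed_load_pre σ b (k0 + m) hm i, sum_range_add, add_div]
  unfold Inst.ld instOf
  simp only
  congr 1
  · rw [sum_filter]
  · rw [sum_div, sum_filter]
    apply sum_congr rfl
    intro k hk
    rw [mem_range] at hk
    by_cases h : k0 + k ∉ gone (pre σ (k0 + m)) ∧ b (k0 + k) = i
    · rw [if_pos ⟨⟨hk, h.1⟩, h.2⟩, if_pos h]
    · rw [if_neg (fun h' => h ⟨h'.1.2, h'.2⟩), if_neg h, zero_div]

theorem embed_gone_append (a b : List Ev) : gone (a ++ b) = gone a ∪ gone b := by
  induction a with
  | nil => simp [gone]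
  | cons e l ih => cases e <;> simp [gone, ih]

theorem embed_narr_preA (σ : List Ev) (M : ℕ) (hM : M < narr σ) : narr (preA σ M) = M + 1 := by
  have h : ∀ a b : List Ev, wts (a ++ b) = wts a ++ wts b := by
    intro a b
    induction a with
    | nil => rfl
    | cons e l ih => cases e <;> simp [wts, ih]
  have h1 := narr_pre σ M hM.le
  unfold narr at h1 ⊢
  unfold preA
  rw [h, List.length_append, h1]
  simp [wts]

omit [NeZero n] in
/-- the load after an arrival as a sum of weights of the input -/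
theorem embed_load_preA {σ : List Ev} (hv : Valid σ) (b : ℕ → Fin n) (M : ℕ) (hM : M < narr σ)
    (i : Fin n) :
    load (preA σ M) b i = load (pre σ M) b i + (if b M = i then wt σ M else 0) := by
  rw [embed_load_pre σ b M hM.le i]
  have hg : gone (preA σ M) = gone (pre σ M) := by
    unfold preA
    rw [embed_gone_append]
    simp [gone]
  have hM' : M ∉ gone (pre σ M) := by
    intro h
    have := gone_lt (hv.of_prefix (pre_prefix σ M)) h
    rw [narr_pre σ M hM.le] at this
    exact lt_irrefl _ this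
  unfold load active
  rw [embed_narr_preA σ M hM, hg]
  have h1 : ((range (M + 1) \ gone (pre σ M)).filter (fun k => b k = i)) =
      (range (M + 1)).filter (fun k => k ∉ gone (pre σ M) ∧ b k = i) := by
    ext k
    simp only [mem_filter, mem_sdiff, mem_range]
    tauto
  rw [h1]
  have h2 : ∑ k ∈ (range (M + 1)).filter (fun k => k ∉ gone (pre σ M) ∧ b k = i), wt (preA σ M) k =
      ∑ k ∈ (range (M + 1)).filter (fun k => k ∉ gone (pre σ M) ∧ b k = i), wt σ k := by
    apply sum_congr rfl
    intro k hk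
    rw [mem_filter, mem_range] at hk
    apply wt_prefix (preA_prefix σ M hM)
    rw [embed_narr_preA σ M hM]
    exact hk.1
  rw [h2, sum_filter, sum_range_succ]
  congr 1
  by_cases h : b M = i
  · rw [if_pos ⟨hM', h⟩, if_pos h]
  · rw [if_neg (fun h' => h h'.2), if_neg h]

theorem embed_preA_mono (σ : List Ev) {m m' : ℕ} (h : m ≤ m') (hm : m < narr σ) :
    preA σ m <+: preA σ m' := by
  rcases Nat.lt_or_ge m m' with h1 | h1
  · exact (preA_pre σ h1 hm).trans (List.prefix_append _ _)
  · have : m = m' := le_antisymm h h1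
    rw [this]

theorem embed_sum_load (τ : List Ev) (f : ℕ → Fin n) :
    ∑ i, load τ f i = ∑ k ∈ active τ, wt τ k := by
  unfold load
  have : ∀ i : Fin n, ∑ k ∈ (active τ).filter (fun k => f k = i), wt τ k =
      ∑ k ∈ active τ, (if f k = i then wt τ k else 0) := by
    intro i
    rw [← sum_filter]
  simp_rw [this]
  rw [sum_comm]
  apply sum_congr rfl
  intro k _
  simp

theorem instOf_OK {σ : List Ev} (hv : Valid σ) (k0 : ℕ) {θ : ℝ} (hθ : 0 < θ) (b : ℕ → Fin n)
    (h0 : 4 / n * θ < OPT n (preA σ k0)) (h1 : OPT n σ ≤ θ) (hk : k0 < narr σ)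
    (hb : ∀ i, load (pre σ k0) b i ≤ rr n * (4 / n) * θ) :
    (instOf σ k0 θ b).OK (narr σ - k0) := by
  have hlt : ∀ m < narr σ - k0, k0 + m < narr σ := fun m hm => by omega
  -- sums of loads after the arrival
  have hvolA : ∀ m < narr σ - k0,
      ∑ i, load (pre σ (k0 + m)) b i + wt σ (k0 + m) ≤ n * OPT n (preA σ (k0 + m)) := by
    intro m hm
    have h2 := vol_le_OPT (n := n) (σ := preA σ (k0 + m)) _ (List.prefix_refl _)
    rw [← embed_sum_load (preA σ (k0 + m)) b] at h2
    have h3 : ∑ i, load (preA σ (k0 + m)) b i =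
        ∑ i, load (pre σ (k0 + m)) b i + wt σ (k0 + m) := by
      simp_rw [embed_load_preA hv b (k0 + m) (hlt m hm)]
      rw [sum_add_distrib]
      simp
    rwa [h3] at h2
  constructor
  · -- xlo
    intro m hm
    show 4 / (n : ℝ) < OPT n (preA σ (k0 + m)) / θ
    rw [lt_div_iff₀ hθ]
    exact lt_of_lt_of_le h0 (OPT_mono (embed_preA_mono σ (Nat.le_add_right _ _) hk))
  · -- xhi
    intro m hm
    show OPT n (preA σ (k0 + m)) / θ ≤ 1
    rw [div_le_one hθ]
    exact (OPT_mono (preA_prefix σ _ (hlt m hm))).trans h1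
  · -- xmono
    intro m m' hmm hm'
    show OPT n (preA σ (k0 + m)) / θ ≤ OPT n (preA σ (k0 + m')) / θ
    apply div_le_div_of_nonneg_right _ hθ.le
    exact OPT_mono (embed_preA_mono σ (by omega) (hlt m (by omega)))
  · -- wpos
    intro m hm
    show 0 < wt σ (k0 + m) / θ
    exact div_pos (wt_pos hv _ (hlt m hm)) hθ
  · -- wle
    intro m hm
    show wt σ (k0 + m) / θ ≤ OPT n (preA σ (k0 + m)) / θ
    apply div_le_div_of_nonneg_right _ hθ.le
    obtain ⟨f, hf⟩ := exists_OPT (n := n) (preA σ (k0 + m))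
    have h2 := load_le_cost (List.prefix_refl (preA σ (k0 + m))) f (f (k0 + m))
    rw [hf, embed_load_preA hv f (k0 + m) (hlt m hm), if_pos rfl] at h2
    have h3 := load_nonneg (hv.of_prefix (pre_prefix σ (k0 + m))) f (f (k0 + m))
    linarith
  · -- volle
    intro m hm
    have h2 := (instOf σ k0 θ b).sum_ld (fun j => b (k0 + j)) m
    rw [← h2]
    simp_rw [instOf_ld k0 hθ b m (hlt m hm).le]
    rw [← sum_div]
    show (∑ i, load (pre σ (k0 + m)) b i) / θ + wt σ (k0 + m) / θ ≤
      n * (OPT n (preA σ (k0 + m)) / θ)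
    rw [← add_div, ← mul_div_assoc]
    exact div_le_div_of_nonneg_right (hvolA m hm) hθ.le
  · -- act_lt
    intro m k h
    exact h.1
  · -- act_anti
    intro m m' k hkm hmm h
    refine ⟨hkm, fun h' => h.2 ?_⟩
    exact gone_mono (pre_mono σ (by omega)) h'
  · -- pnn
    intro m i
    show 0 ≤ (∑ k ∈ (range k0).filter (fun k => k ∉ gone (pre σ (k0 + m)) ∧ b k = i), wt σ k) / θ
    exact div_nonneg (sum_nonneg (fun k _ => wt_nonneg hv k)) hθ.le
  · -- panti
    intro m m' i hmm
    show (∑ k ∈ (range k0).filter (fun k => k ∉ gone (pre σ (k0 + m')) ∧ b k = i), wt σ k) / θ ≤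
      (∑ k ∈ (range k0).filter (fun k => k ∉ gone (pre σ (k0 + m)) ∧ b k = i), wt σ k) / θ
    apply div_le_div_of_nonneg_right _ hθ.le
    apply sum_le_sum_of_subset_of_nonneg
    · intro k hk'
      rw [mem_filter] at hk' ⊢
      refine ⟨hk'.1, fun h => hk'.2.1 ?_, hk'.2.2⟩
      exact gone_mono (pre_mono σ (by omega)) h
    · intro k _ _
      exact wt_nonneg hv k
  · -- p0
    intro i
    have h2 := instOf_ld (σ := σ) k0 hθ b 0 (by omega) i
    have h3 : (instOf σ k0 θ b).ld (fun j => b (k0 + j)) 0 i = (instOf σ k0 θ b).p 0 i := by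
      unfold Inst.ld
      simp
    rw [← h3, h2, add_zero, div_le_iff₀ hθ]
    exact hb i
  · -- pack
    intro m hm
    obtain ⟨f, hf⟩ := exists_OPT (n := n) (preA σ (k0 + m))
    refine ⟨fun k => f (k0 + k), fun i => ?_⟩
    have h2 := load_le_cost (List.prefix_refl (preA σ (k0 + m))) f i
    rw [hf, embed_load_preA hv f (k0 + m) (hlt m hm)] at h2
    have h3 := instOf_ld k0 hθ f m (hlt m hm).le i
    have h4 : ∑ k ∈ (range m).filter (fun k => (instOf σ k0 θ b).act m k ∧ f (k0 + k) = i),
        (instOf σ k0 θ b).w k ≤ load (pre σ (k0 + m)) f i / θ := by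
      rw [← h3]
      unfold Inst.ld
      have h5 : 0 ≤ (instOf σ k0 θ f).p m i := by
        show 0 ≤ (∑ k ∈ (range k0).filter (fun k => k ∉ gone (pre σ (k0 + m)) ∧ f k = i), wt σ k) / θ
        exact div_nonneg (sum_nonneg (fun k _ => wt_nonneg hv k)) hθ.le
      exact le_add_of_nonneg_left h5
    have h6 : (if f (k0 + m) = i then (instOf σ k0 θ b).w m else 0) =
        (if f (k0 + m) = i then wt σ (k0 + m) else 0) / θ := by
      split_ifs
      · rfl
      · rw [zero_div]
    rw [h6]
    show _ ≤ OPT n (preA σ (k0 + m)) / θ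
    calc _ ≤ load (pre σ (k0 + m)) f i / θ + (if f (k0 + m) = i then wt σ (k0 + m) else 0) / θ :=
          add_le_add h4 le_rfl
      _ = (load (pre σ (k0 + m)) f i + (if f (k0 + m) = i then wt σ (k0 + m) else 0)) / θ := by
          rw [add_div]
      _ ≤ _ := div_le_div_of_nonneg_right h2 hθ.le

/-! ### two instances that agree up to time `m` -/

/-- agreement of two instances up to time `m` -/
structure EmbedAgree (I J : Inst n) (m : ℕ) : Prop where
  w : ∀ j ≤ m, I.w j = J.w j
  act : ∀ j ≤ m, ∀ k, I.act j k ↔ J.act j k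
  p : ∀ j ≤ m, ∀ i, I.p j i = J.p j i
  x : ∀ j ≤ m, I.x j = J.x j

namespace EmbedAgree

variable {I J : Inst n} {m : ℕ} (h : EmbedAgree I J m)
include h

omit [NeZero n] in
theorem ld (c : ℕ → Fin n) {j : ℕ} (hj : j ≤ m) : I.ld c j = J.ld c j := by
  funext i
  unfold Inst.ld
  rw [h.p j hj i]
  congr 1
  have : (range j).filter (fun k => I.act j k ∧ c k = i) =
      (range j).filter (fun k => J.act j k ∧ c k = i) := by
    apply filter_congr
    intro k _
    rw [h.act j hj k]
  rw [this]
  apply sum_congr rfl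
  intro k hk
  rw [mem_filter, mem_range] at hk
  exact h.w k (by omega)

omit [NeZero n] in
theorem vol {j : ℕ} (hj : j ≤ m) : I.vol j = J.vol j := by
  unfold Inst.vol
  congr 1
  · exact sum_congr rfl (fun i _ => h.p j hj i)
  · have : (range j).filter (fun k => I.act j k) = (range j).filter (fun k => J.act j k) := by
      apply filter_congr
      intro k _
      rw [h.act j hj k]
    rw [this]
    apply sum_congr rfl
    intro k hk
    rw [mem_filter, mem_range] at hk
    exact h.w k (by omega)

omit [NeZero n] in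
theorem danger {j : ℕ} (hj : j ≤ m) : I.danger j ↔ J.danger j := by
  unfold Inst.danger
  rw [h.x j hj, h.w j hj, h.vol hj]

omit [NeZero n] in
theorem dropc {t j : ℕ} (ht : t ≤ m) (hj : j ≤ m) : I.dropc t j ↔ J.dropc t j := by
  unfold Inst.dropc
  have : (CC n).filter (fun i => 1 / (2 * (n : ℝ)) ≤ I.p t i - I.p j i) =
      (CC n).filter (fun i => 1 / (2 * (n : ℝ)) ≤ J.p t i - J.p j i) := by
    apply filter_congr
    intro i _
    rw [h.p t ht i, h.p j hj i]
  rw [this]

omit [NeZero n] in
theorem lastT {j : ℕ} (hj : j ≤ m + 1) : I.lastT j = J.lastT j ∧ ∀ t ∈ J.lastT j, t < j := by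
  induction j with
  | zero =>
    refine ⟨rfl, ?_⟩
    intro t ht
    simp [Inst.lastT] at ht
  | succ j ih =>
    obtain ⟨ih1, ih2⟩ := ih (by omega)
    have e : (I.danger j ∧ ∀ t ∈ I.lastT j, I.dropc t j) ↔
        (J.danger j ∧ ∀ t ∈ J.lastT j, J.dropc t j) := by
      rw [h.danger (by omega), ih1]
      constructor
      · rintro ⟨h1, h2⟩
        refine ⟨h1, fun t ht => ?_⟩
        rw [← h.dropc (by have := ih2 t ht; omega) (by omega)]
        exact h2 t ht
      · rintro ⟨h1, h2⟩
        refine ⟨h1, fun t ht => ?_⟩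
        rw [h.dropc (by have := ih2 t ht; omega) (by omega)]
        exact h2 t ht
    constructor
    · show (if _ then some j else I.lastT j) = (if _ then some j else J.lastT j)
      rw [ih1]
      by_cases h' : (J.danger j ∧ ∀ t ∈ J.lastT j, J.dropc t j)
      · have h'' := e.mpr h'
        rw [ih1] at h''
        rw [if_pos h', if_pos h'']
      · have h'' : ¬ (I.danger j ∧ ∀ t ∈ I.lastT j, I.dropc t j) := fun hh => h' (e.mp hh)
        rw [ih1] at h''
        rw [if_neg h', if_neg h'']
    · intro t ht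
      have ht' : t ∈ (if J.danger j ∧ ∀ t ∈ J.lastT j, J.dropc t j then some j else J.lastT j) := ht
      split_ifs at ht' with h'
      · rw [Option.mem_def, Option.some.injEq] at ht'
        omega
      · have := ih2 t ht'
        omega

omit [NeZero n] in
theorem isT {j : ℕ} (hj : j ≤ m) : I.isT j ↔ J.isT j := by
  unfold Inst.isT
  obtain ⟨h1, h2⟩ := h.lastT (j := j) (by omega)
  rw [h.danger hj, h1]
  constructor
  · rintro ⟨h3, h4⟩
    refine ⟨h3, fun t ht => ?_⟩
    rw [← h.dropc (by have := h2 t ht; omega) hj]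
    exact h4 t ht
  · rintro ⟨h3, h4⟩
    refine ⟨h3, fun t ht => ?_⟩
    rw [h.dropc (by have := h2 t ht; omega) hj]
    exact h4 t ht

theorem Cs (c : ℕ → Fin n) {j : ℕ} (hj : j ≤ m) : I.Cs c j = J.Cs c j := by
  unfold Inst.Cs
  rw [h.x j hj]
  split_ifs
  · rfl
  · congr 1
    have : (range (j + 1)).filter (fun T => I.isT T) = (range (j + 1)).filter (fun T => J.isT T) := by
      apply filter_congr
      intro T hT
      rw [mem_range] at hT
      exact h.isT (by omega)
    rw [this]
    apply image_congr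
    intro T hT
    rw [Finset.mem_coe, mem_filter, mem_range] at hT
    simp only
    rw [h.ld c (by omega)]

omit [NeZero n] in
theorem fits (c : ℕ → Fin n) {j : ℕ} (hj : j ≤ m) (i : Fin n) : I.fits c j i ↔ J.fits c j i := by
  unfold Inst.fits
  rw [h.ld c hj, h.w j hj, h.x j hj]

theorem U (c : ℕ → Fin n) {j : ℕ} (hj : j ≤ m) : I.U c j = J.U c j := by
  unfold Inst.U
  apply filter_congr
  intro i _
  rw [h.Cs c hj, h.fits c hj]

theorem Ud (g : ℕ) (c : ℕ → Fin n) {j : ℕ} (hj : j ≤ m) : I.Ud g c j = J.Ud g c j := by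
  unfold Inst.Ud
  apply filter_congr
  intro i _
  rw [h.Cs c hj, h.fits c hj]

omit [NeZero n] in
theorem Us (c : ℕ → Fin n) {j : ℕ} (hj : j ≤ m) : I.Us c j = J.Us c j := by
  unfold Inst.Us
  apply filter_congr
  intro i _
  rw [h.fits c hj]

theorem Cfit (c : ℕ → Fin n) {j : ℕ} (hj : j ≤ m) : I.Cfit c j = J.Cfit c j := by
  unfold Inst.Cfit
  rw [h.Cs c hj]
  apply filter_congr
  intro i _
  rw [h.fits c hj]

theorem allowed (g : ℕ) (c : ℕ → Fin n) {j : ℕ} (hj : j ≤ m) :
    I.allowed g c j = J.allowed g c j := by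
  unfold Inst.allowed
  rw [h.w j hj, h.x j hj, h.Ud g c hj, h.Us c hj, h.U c hj, h.Cfit c hj, h.ld c hj]

end EmbedAgree

/-- online-ness: the allowed set at arrival `m` can be computed from the prefix up to this arrival -/
theorem instOf_allowed {σ τ : List Ev} (hp : τ <+: σ) (k0 : ℕ) (θ : ℝ) (b b' c c' : ℕ → Fin n)
    (g m : ℕ) (hm : k0 + m < narr τ) (hb : ∀ k < k0, b k = b' k) (hc : ∀ j < m, c j = c' j) :
    (instOf τ k0 θ b).allowed g c m = (instOf σ k0 θ b').allowed g c' m := by
  rw [← (instOf σ k0 θ b').allowed_congr g hc]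
  have h : EmbedAgree (instOf τ k0 θ b) (instOf σ k0 θ b') m := by
    constructor
    · intro j hj
      show wt τ (k0 + j) / θ = wt σ (k0 + j) / θ
      rw [wt_prefix hp _ (by omega)]
    · intro j hj k
      show (k < j ∧ k0 + k ∉ gone (pre τ (k0 + j))) ↔ (k < j ∧ k0 + k ∉ gone (pre σ (k0 + j)))
      rw [pre_of_prefix hp _ (by omega)]
    · intro j hj i
      show (∑ k ∈ (range k0).filter (fun k => k ∉ gone (pre τ (k0 + j)) ∧ b k = i), wt τ k) / θ =
        (∑ k ∈ (range k0).filter (fun k => k ∉ gone (pre σ (k0 + j)) ∧ b' k = i), wt σ k) / θ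
      congr 1
      have e : (range k0).filter (fun k => k ∉ gone (pre τ (k0 + j)) ∧ b k = i) =
          (range k0).filter (fun k => k ∉ gone (pre σ (k0 + j)) ∧ b' k = i) := by
        apply filter_congr
        intro k hk
        rw [mem_range] at hk
        rw [pre_of_prefix hp _ (by omega), hb k hk]
      rw [e]
      apply sum_congr rfl
      intro k hk
      rw [mem_filter, mem_range] at hk
      exact wt_prefix hp _ (by omega)
    · intro j hj
      show OPT n (preA τ (k0 + j)) / θ = OPT n (preA σ (k0 + j)) / θ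
      rw [preA_of_prefix hp _ (by omega)]
  exact h.allowed g c le_rfl

end

end RLB
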