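import Pool.Agent.RLB.Basic

/-! D13: existence of a good scale and a good mode (pigeonhole) -/

namespace RLB

noncomputable section

open Finset Classical

namespace Inst

section aux

variable {n : ℕ} (I : Inst n)

theorem good_NN_mono (T : ℕ) {e e' : ℝ} (h : e ≤ e') : I.NN T e ≤ I.NN T e' := by
  unfold NN
  apply card_le_card
  intro k hk
  rw [mem_filter] at hk ⊢
  exact ⟨hk.1, hk.2.1, by linarith [hk.2.2]⟩

theorem good_NN_le [NeZero n] {N : ℕ} (hI : I.OK N) {T : ℕ} (hT : T < N) {e : ℝ} (he : e < 1 / 2) :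
    I.NN T e ≤ n := by
  obtain ⟨f, hf⟩ := hI.pack T hT
  unfold NN
  have h1 : ((range T).filter (fun k => I.act T k ∧ 1 - e ≤ I.w k)).card ≤ (univ : Finset (Fin n)).card := by
    apply card_le_card_of_injOn f (fun k _ => mem_coe.mpr (mem_univ _))
    intro k hk k' hk' hkk
    by_contra hne
    have hk1 := mem_filter.mp (mem_coe.mp hk)
    have hk2 := mem_filter.mp (mem_coe.mp hk')
    have h3 := hf (f k)
    have hwT : 0 < I.w T := hI.wpos T hT
    have hx : I.x T ≤ 1 := hI.xhi T hT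
    have hsub : ({k, k'} : Finset ℕ) ⊆ (range T).filter (fun j => I.act T j ∧ f j = f k) := by
      intro j hj
      rw [mem_insert, mem_singleton] at hj
      rcases hj with rfl | rfl
      · exact mem_filter.mpr ⟨hk1.1, hk1.2.1, rfl⟩
      · exact mem_filter.mpr ⟨hk2.1, hk2.2.1, hkk.symm⟩
    have h4 : ∑ j ∈ ({k, k'} : Finset ℕ), I.w j ≤
        ∑ j ∈ (range T).filter (fun j => I.act T j ∧ f j = f k), I.w j := by
      apply sum_le_sum_of_subset_of_nonneg hsub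
      intro j hj _
      have := (mem_filter.mp hj).1
      exact (hI.wpos j (lt_trans (mem_range.mp this) hT)).le
    rw [sum_pair hne] at h4
    have h5 : (0 : ℝ) ≤ if f T = f k then I.w T else 0 := by
      split_ifs
      · exact hwT.le
      · exact le_refl _
    linarith [hk1.2.2, hk2.2.2]
  simpa using h1

end aux

/-- scale `l` -/
def scE (N0 l : ℕ) : ℕ := N0 ^ (2 * 4 ^ l)

theorem scE_succ (N0 l : ℕ) : scE N0 (l + 1) = scE N0 l ^ 4 := by
  unfold scE
  rw [← pow_mul]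
  congr 1
  ring

theorem good_large (R : ℕ) : ∃ N₁ : ℕ, ∀ N0, N₁ ≤ N0 → ∀ l ≤ R, scE N0 l ^ 10 ≤ 2 ^ N0 := by
  have h : Filter.Tendsto (fun N : ℕ => (N : ℝ) ^ (20 * 4 ^ R) / 2 ^ N) Filter.atTop (nhds 0) := by
    have := tendsto_pow_const_div_const_pow_of_one_lt (20 * 4 ^ R) (show (1 : ℝ) < 2 by norm_num)
    exact this
  have h2 := h.eventually (gt_mem_nhds (show (0 : ℝ) < 1 by norm_num))
  obtain ⟨M, hM⟩ := Filter.eventually_atTop.mp h2
  refine ⟨max M 1, fun N0 hN0 l hl => ?_⟩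
  have hM' := hM N0 (le_trans (le_max_left _ _) hN0)
  have h1 : 1 ≤ N0 := le_trans (le_max_right _ _) hN0
  have h3 : (N0 : ℝ) ^ (20 * 4 ^ R) ≤ 2 ^ N0 := by
    rw [div_lt_one (by positivity)] at hM'
    exact hM'.le
  have h4 : N0 ^ (20 * 4 ^ R) ≤ 2 ^ N0 := by exact_mod_cast h3
  refine le_trans ?_ h4
  unfold scE
  rw [← pow_mul]
  apply Nat.pow_le_pow_right h1
  have : 4 ^ l ≤ 4 ^ R := Nat.pow_le_pow_right (by norm_num) hl
  calc 2 * 4 ^ l * 10 = 20 * 4 ^ l := by ring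
    _ ≤ 20 * 4 ^ R := Nat.mul_le_mul_left _ this

/-- pigeonhole over scales -/
theorem good_scale (f : ℕ → ℝ) (hf0 : ∀ l, 0 ≤ f l) (B e : ℝ) (R : ℕ) (hR : B < (R + 1) * e)
    (hf : f 0 ≤ B) : ∃ l ≤ R, f l - f (l + 1) ≤ e := by
  by_contra hcon
  push Not at hcon
  have h1 : ∑ l ∈ range (R + 1), (f l - f (l + 1)) = f 0 - f (R + 1) := by
    exact sum_range_sub' f (R + 1)
  have h2 : ∑ l ∈ range (R + 1), e ≤ ∑ l ∈ range (R + 1), (f l - f (l + 1)) := by
    apply sum_le_sum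
    intro l hl
    exact (hcon l (by have := mem_range.mp hl; omega)).le
  rw [sum_const, card_range, nsmul_eq_mul, h1] at h2
  have h3 := hf0 (R + 1)
  push_cast at h2
  linarith

/-- pigeonhole over modes -/
theorem good_mode (S : Finset ℕ) (hS : S.card ≤ 18) (spoil : ℕ → ℕ → Prop)
    (h : ∀ T ∈ S, ∀ j < 19, ∀ j' < 19, spoil T j → spoil T j' → j = j') :
    ∃ j < 19, ∀ T ∈ S, ¬ spoil T j := by
  by_contra hcon
  push Not at hcon
  choose! F hF1 hF2 using hcon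
  have h1 : (range 19).card ≤ S.card := by
    apply card_le_card_of_injOn F
    · intro j hj
      exact mem_coe.mpr (hF1 j (mem_range.mp (mem_coe.mp hj)))
    · intro j hj j' hj' hjj
      have a1 := mem_range.mp (mem_coe.mp hj)
      have a2 := mem_range.mp (mem_coe.mp hj')
      have b1 := hF2 j a1
      have b2 := hF2 j' a2
      rw [← hjj] at b2
      exact h (F j) (hF1 j a1) j a1 j' a2 b1 b2
  rw [card_range] at h1
  omega

theorem good_exists : ∃ N₁ : ℕ, ∀ N0, N₁ ≤ N0 → ∀ (n : ℕ) [NeZero n], n = 2 ^ N0 →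
    ∀ (I : Inst n) (N : ℕ), I.OK N →
    ∃ a : AP n, ∃ j < 19, ∃ ty : ℕ → Bool,
      I.TypesOK a ty (n / 4 ^ (j + 1)) N ∧ 10 ≤ n / 4 ^ (j + 1) ∧ 4 * (n / 4 ^ (j + 1)) ≤ n ∧
      n ≤ 4 ^ 19 * (n / 4 ^ (j + 1)) := by
  obtain ⟨R, hR⟩ : ∃ R : ℕ, R = 18 * 4 ^ 25 := ⟨_, rfl⟩
  obtain ⟨N₁, hN₁⟩ := good_large (R + 1)
  refine ⟨max N₁ (4 ^ 30), fun N0 hN0 n _ hn I N hI => ?_⟩
  have hN30 : 4 ^ 30 ≤ N0 := le_trans (le_max_right _ _) hN0
  have hlarge := hN₁ N0 (le_trans (le_max_left _ _) hN0)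
  have hN01 : 1 ≤ N0 := le_trans (by norm_num) hN30
  have hn6 : 10 ^ 6 ≤ n := by
    rw [hn]
    calc 10 ^ 6 ≤ 2 ^ 40 := by norm_num
      _ ≤ 2 ^ N0 := Nat.pow_le_pow_right (by norm_num) (le_trans (by norm_num) hN30)
  have hnpos : 0 < n := by omega
  have hnR : (0 : ℝ) < n := by exact_mod_cast hnpos
  have hcard := I.TT_card hn6 hI
  have hscpos : ∀ l, (2 : ℝ) < (scE N0 l : ℝ) := by
    intro l
    have h1 : N0 ^ 1 ≤ scE N0 l := by
      unfold scE
      apply Nat.pow_le_pow_right hN01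
      have : 0 < 4 ^ l := pow_pos (by norm_num) l
      omega
    have h2 : 3 ≤ N0 := le_trans (by norm_num) hN30
    have h3 : 3 ≤ scE N0 l := by rw [pow_one] at h1; omega
    have h4 : (3 : ℝ) ≤ (scE N0 l : ℝ) := by exact_mod_cast h3
    linarith
  have hhalf : ∀ l, 1 / (scE N0 l : ℝ) < 1 / 2 := by
    intro l
    exact one_div_lt_one_div_of_lt (by norm_num) (hscpos l)
  -- the scale
  obtain ⟨l, hl, hls⟩ := good_scale
    (fun l => ∑ T ∈ I.TT N, (I.NN T (1 / (scE N0 l : ℝ)) : ℝ))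
    (fun l => sum_nonneg (fun T _ => Nat.cast_nonneg _)) (18 * n) (et * n) R
    (by
      have hRr : (R : ℝ) = 18 * 4 ^ 25 := by rw [hR]; norm_num
      have h0 : (0 : ℝ) < 1 / 4 ^ 25 * n := by positivity
      unfold et
      rw [hRr, show ((18 : ℝ) * 4 ^ 25 + 1) * (1 / 4 ^ 25 * n) = 18 * n + 1 / 4 ^ 25 * n by ring]
      linarith)
    (by
      calc ∑ T ∈ I.TT N, (I.NN T (1 / (scE N0 0 : ℝ)) : ℝ) ≤ ∑ T ∈ I.TT N, (n : ℝ) := by
            apply sum_le_sum
            intro T hT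
            have hT' : T < N := mem_range.mp (mem_filter.mp hT).1
            exact_mod_cast I.good_NN_le hI hT' (hhalf 0)
        _ = (I.TT N).card * (n : ℝ) := by rw [sum_const, nsmul_eq_mul]
        _ ≤ 18 * n := by
            have : ((I.TT N).card : ℝ) ≤ 18 := by exact_mod_cast hcard
            nlinarith)
  have hls' : ∀ T ∈ I.TT N, (I.NN T (1 / (scE N0 l : ℝ)) : ℝ) ≤
      I.NN T (1 / (scE N0 (l + 1) : ℝ)) + et * n := by
    intro T hT
    have hmono : ∀ T ∈ I.TT N, (0 : ℝ) ≤ (I.NN T (1 / (scE N0 l : ℝ)) : ℝ) -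
        I.NN T (1 / (scE N0 (l + 1) : ℝ)) := by
      intro T _
      have h1 : 1 / (scE N0 (l + 1) : ℝ) ≤ 1 / (scE N0 l : ℝ) := by
        apply one_div_le_one_div_of_le (by linarith [hscpos l])
        rw [scE_succ]
        push_cast
        have := hscpos l
        calc (scE N0 l : ℝ) = (scE N0 l : ℝ) ^ 1 := by ring
          _ ≤ (scE N0 l : ℝ) ^ 4 := pow_le_pow_right₀ (by linarith) (by norm_num)
      have h2 := I.good_NN_mono T h1
      have h3 : (I.NN T (1 / (scE N0 (l + 1) : ℝ)) : ℝ) ≤ I.NN T (1 / (scE N0 l : ℝ)) := by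
        exact_mod_cast h2
      linarith
    have h4 := single_le_sum (f := fun T => (I.NN T (1 / (scE N0 l : ℝ)) : ℝ) -
        I.NN T (1 / (scE N0 (l + 1) : ℝ))) hmono hT
    rw [sum_sub_distrib] at h4
    linarith
  have hE2 : scE N0 l ^ 10 ≤ n := by rw [hn]; exact hlarge l (by omega)
  have hE1 : N0 ^ 2 ≤ scE N0 l := by
    unfold scE
    apply Nat.pow_le_pow_right hN01
    have : 0 < 4 ^ l := pow_pos (by norm_num) l
    omega
  let a : AP n := { N0 := N0, E := scE N0 l, hn := hn, hN := hN30, hE1 := hE1, hE2 := hE2 }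
  have heps : a.eps = 1 / (scE N0 l : ℝ) := rfl
  have heps3 : a.eps3 = 1 / (scE N0 (l + 1) : ℝ) := by
    change 1 / (scE N0 l : ℝ) ^ 4 = _
    rw [scE_succ]
    push_cast
    rfl
  -- the modes
  have hdvd : ∀ j < 19, 4 ^ (j + 1) * (n / 4 ^ (j + 1)) = n := by
    intro j hj
    apply Nat.mul_div_cancel'
    rw [hn, show (4 : ℕ) = 2 ^ 2 by norm_num, ← pow_mul]
    apply pow_dvd_pow
    have : 38 ≤ N0 := le_trans (by norm_num) hN30
    omega
  have hdvdR : ∀ j < 19, ((n / 4 ^ (j + 1) : ℕ) : ℝ) = n / 4 ^ (j + 1) := by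
    intro j hj
    have h1 : ((4 ^ (j + 1) * (n / 4 ^ (j + 1)) : ℕ) : ℝ) = (n : ℝ) := by rw [hdvd j hj]
    push_cast at h1
    rw [eq_div_iff (by positivity)]
    linarith
  obtain ⟨j, hj, hjs⟩ := good_mode (I.TT N) hcard
    (fun T j => ¬ (I.NN T a.eps3 : ℝ) < ((n / 4 ^ (j + 1) : ℕ) : ℝ) - 2 * et * n ∧
      ¬ 2 * ((n / 4 ^ (j + 1) : ℕ) : ℝ) + 20 * et * n < I.NN T a.eps3)
    (by
      have key : ∀ T ∈ I.TT N, ∀ j < 19, ∀ j' < 19, j < j' →
          ¬ (I.NN T a.eps3 : ℝ) < ((n / 4 ^ (j + 1) : ℕ) : ℝ) - 2 * et * n →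
          ¬ 2 * ((n / 4 ^ (j' + 1) : ℕ) : ℝ) + 20 * et * n < I.NN T a.eps3 → False := by
        intro T _ j hj j' hj' hjj h1 h2
        rw [hdvdR j hj] at h1
        rw [hdvdR j' hj'] at h2
        push Not at h1 h2
        have h3 : (n : ℝ) / 4 ^ (j' + 1) ≤ n / 4 ^ (j + 1) / 4 := by
          rw [div_div, ← pow_succ]
          apply div_le_div_of_nonneg_left hnR.le (by positivity)
          apply pow_le_pow_right₀ (by norm_num)
          omega
        have h4 : (n : ℝ) / 4 ^ 18 ≤ n / 4 ^ (j + 1) := by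
          apply div_le_div_of_nonneg_left hnR.le (by positivity)
          apply pow_le_pow_right₀ (by norm_num)
          omega
        have h5 : 44 * (et * n) < (n : ℝ) / 4 ^ 18 := by
          unfold et
          rw [show (44 : ℝ) * (1 / 4 ^ 25 * n) = (44 / 4 ^ 25) * n by ring,
            show (n : ℝ) / 4 ^ 18 = (1 / 4 ^ 18) * n by ring]
          apply mul_lt_mul_of_pos_right _ hnR
          norm_num
        linarith
      intro T hT j hj j' hj' h1 h2
      rcases lt_trichotomy j j' with h | h | h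
      · exact (key T hT j hj j' hj' h h1.1 h2.2).elim
      · exact h
      · exact (key T hT j' hj' j hj h h2.1 h1.2).elim)
  have hg4 : n = 4 ^ (j + 1) * (n / 4 ^ (j + 1)) := (hdvd j hj).symm
  refine ⟨a, j, hj, fun T => decide (I.DD T 0 ≤ a.dl ∨
    2 * ((n / 4 ^ (j + 1) : ℕ) : ℝ) + 20 * et * n < I.NN T a.eps3), ?_, ?_, ?_, ?_⟩
  · intro T hT
    refine ⟨fun h => ?_, fun h => ?_, ?_⟩
    · have h' := of_decide_eq_true h
      by_cases hd : I.DD T 0 ≤ a.dl
      · exact Or.inl hd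
      · exact Or.inr ⟨not_le.mp hd, h'.resolve_left hd⟩
    · have h' := of_decide_eq_false h
      push Not at h'
      have h2 := hjs T hT
      by_contra hcon
      exact h2 ⟨hcon, not_lt.mpr h'.2⟩
    · rw [heps, heps3]
      exact hls' T hT
  · have h1 : 2 ^ 80 ≤ n := by
      rw [hn]
      exact Nat.pow_le_pow_right (by norm_num) (le_trans (by norm_num) hN30)
    have h2 : 4 ^ (j + 1) ≤ 4 ^ 19 := Nat.pow_le_pow_right (by norm_num) (by omega)
    apply (Nat.le_div_iff_mul_le (pow_pos (by norm_num) _)).mpr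
    calc 10 * 4 ^ (j + 1) ≤ 10 * 4 ^ 19 := Nat.mul_le_mul_left _ h2
      _ ≤ 2 ^ 80 := by norm_num
      _ ≤ n := h1
  · calc 4 * (n / 4 ^ (j + 1)) = 4 ^ 1 * (n / 4 ^ (j + 1)) := by norm_num
      _ ≤ 4 ^ (j + 1) * (n / 4 ^ (j + 1)) :=
        Nat.mul_le_mul_right _ (Nat.pow_le_pow_right (by norm_num) (by omega))
      _ = n := hg4.symm
  · calc n = 4 ^ (j + 1) * (n / 4 ^ (j + 1)) := hg4
      _ ≤ 4 ^ 19 * (n / 4 ^ (j + 1)) :=
        Nat.mul_le_mul_right _ (Nat.pow_le_pow_right (by norm_num) (by omega))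

end Inst

end

end RLB
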