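import Mathlib

/-! P1: sequential uniform random choices; control lemma and second moments -/

namespace RLB

noncomputable section

open Finset Classical

/-- probability that the list of `k` further choices (each uniform in `A (list so far)`) leads to a
list satisfying `G` -/
def kval {ι : Type} (A : List ι → Finset ι) (G : List ι → Prop) : ℕ → List ι → ℝ
  | 0, h => if G h then 1 else 0
  | k + 1, h => (∑ c ∈ A h, kval A G k (h ++ [c])) / (A h).card

/-- compensated sum along a list of choices -/
def Dev {ι : Type} [DecidableEq ι] (A : List ι → Finset ι) (a : ℕ → ℝ) (i : ι) (h : List ι) : ℝ :=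
  ∑ k ∈ range h.length, a k * ((if h[k]? = some i then (1 : ℝ) else 0) -
    (if i ∈ A (h.take k) then 1 / ((A (h.take k)).card : ℝ) else 0))

theorem kval_nonneg {ι : Type} (A : List ι → Finset ι) (G : List ι → Prop) (k : ℕ) (h : List ι) :
    0 ≤ kval A G k h := by
  induction k generalizing h with
  | zero => unfold kval; split_ifs <;> norm_num
  | succ k ih =>
    unfold kval
    exact div_nonneg (Finset.sum_nonneg fun c _ => ih _) (Nat.cast_nonneg _)

theorem kval_le_one {ι : Type} (A : List ι → Finset ι) (G : List ι → Prop) (k : ℕ) (h : List ι) :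
    kval A G k h ≤ 1 := by
  induction k generalizing h with
  | zero => unfold kval; split_ifs <;> norm_num
  | succ k ih =>
    unfold kval
    apply div_le_one_of_le₀ _ (Nat.cast_nonneg _)
    calc ∑ c ∈ A h, kval A G k (h ++ [c]) ≤ ∑ c ∈ A h, (1 : ℝ) := Finset.sum_le_sum fun c _ => ih _
      _ = (A h).card := by simp

theorem kernel_Dev_append {ι : Type} [DecidableEq ι] (A : List ι → Finset ι) (a : ℕ → ℝ) (i : ι)
    (h : List ι) (c : ι) :
    Dev A a i (h ++ [c]) = Dev A a i h + a h.length * ((if c = i then (1 : ℝ) else 0) -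
      (if i ∈ A h then 1 / ((A h).card : ℝ) else 0)) := by
  unfold Dev
  rw [List.length_append, List.length_singleton, Finset.sum_range_succ]
  congr 1
  · apply Finset.sum_congr rfl
    intro k hk
    have hk' := Finset.mem_range.mp hk
    rw [List.getElem?_append_left hk', List.take_append_of_le_length hk'.le]
  · rw [List.take_left' rfl]
    simp

theorem kernel_inv_append {ι : Type} (P : List ι → ι → Prop) (h : List ι) (c : ι)
    (hh : ∀ k c', h[k]? = some c' → P (h.take k) c') (hc : P h c) :
    ∀ k c', (h ++ [c])[k]? = some c' → P ((h ++ [c]).take k) c' := by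
  intro k c' hk
  rcases lt_trichotomy k h.length with hlt | heq | hgt
  · rw [List.getElem?_append_left hlt] at hk
    rw [List.take_append_of_le_length hlt.le]
    exact hh k c' hk
  · subst heq
    have : c' = c := by
      simpa using hk.symm
    rw [List.take_left' rfl, this]
    exact hc
  · exfalso
    rw [List.getElem?_eq_none] at hk
    · exact absurd hk (by simp)
    · simp; omega

/-- second moment of one step -/
theorem kernel_step_second {n : ℕ} (B : Finset (Fin n)) (hB : B.Nonempty) (i : Fin n) (D a : ℝ) :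
    (∑ c ∈ B, (D + a * ((if c = i then (1 : ℝ) else 0) -
      (if i ∈ B then 1 / (B.card : ℝ) else 0))) ^ 2) / B.card ≤ D ^ 2 + a ^ 2 := by
  have hc : (0 : ℝ) < B.card := by exact_mod_cast hB.card_pos
  have hc1 : (1 : ℝ) ≤ B.card := by exact_mod_cast hB.card_pos
  rw [div_le_iff₀ hc]
  by_cases hi : i ∈ B
  · simp only [if_pos hi]
    set p : ℝ := 1 / (B.card : ℝ) with hp
    have hpc : p * B.card = 1 := by rw [hp]; field_simp
    have e1 : ∑ c ∈ B, (D + a * ((if c = i then (1 : ℝ) else 0) - p)) ^ 2
        = ∑ c ∈ B, ((D - a * p) ^ 2 + (if c = i then (2 * (D - a * p) * a + a ^ 2) else 0)) := by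
      apply Finset.sum_congr rfl
      intro c _
      split_ifs <;> ring
    rw [e1, Finset.sum_add_distrib, Finset.sum_const, nsmul_eq_mul, Finset.sum_ite_eq' B i,
      if_pos hi]
    have hp0 : 0 ≤ p := by rw [hp]; positivity
    have : (B.card : ℝ) * (D - a * p) ^ 2 + (2 * (D - a * p) * a + a ^ 2)
        = D ^ 2 * B.card + a ^ 2 - a ^ 2 * p - 2 * D * a * (p * B.card - 1)
          + a ^ 2 * p * (p * B.card - 1) := by ring
    rw [this, hpc]
    have h1 : 0 ≤ a ^ 2 * p := by positivity
    have h2 : a ^ 2 ≤ a ^ 2 * B.card := by nlinarith [sq_nonneg a]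
    nlinarith
  · simp only [if_neg hi, sub_zero]
    have e1 : ∑ c ∈ B, (D + a * (if c = i then (1 : ℝ) else 0)) ^ 2 = ∑ c ∈ B, D ^ 2 := by
      apply Finset.sum_congr rfl
      intro c hcB
      have : c ≠ i := fun e => hi (e ▸ hcB)
      simp [this]
    rw [e1, Finset.sum_const, nsmul_eq_mul]
    have h1 : 0 ≤ a ^ 2 * B.card := by positivity
    nlinarith

/-- the potential -/
def kernelPhi {n : ℕ} (A : List (Fin n) → Finset (Fin n)) {κ : Type} [Fintype κ] (a : κ → ℕ → ℝ)
    (mi : κ → Fin n) (b : ℝ) (N : ℕ) (h : List (Fin n)) : ℝ :=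
  1 - ∑ j, (Dev A (a j) (mi j) h ^ 2 + ∑ k ∈ Ico h.length N, a j k ^ 2) / b ^ 2

theorem kernelPhi_ctl {n : ℕ} (A : List (Fin n) → Finset (Fin n)) {κ : Type} [Fintype κ]
    (a : κ → ℕ → ℝ) (mi : κ → Fin n) (b : ℝ) (N : ℕ) (h : List (Fin n)) (c : Fin n)
    (hlt : h.length < N) (ha : ∀ j, a j h.length = 0) :
    kernelPhi A a mi b N (h ++ [c]) = kernelPhi A a mi b N h := by
  unfold kernelPhi
  congr 1
  apply Finset.sum_congr rfl
  intro j _
  rw [kernel_Dev_append, ha j, zero_mul, add_zero, List.length_append, List.length_singleton,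
    Finset.sum_eq_sum_Ico_succ_bot hlt, ha j]
  simp

theorem kernelPhi_avg {n : ℕ} (A : List (Fin n) → Finset (Fin n)) {κ : Type} [Fintype κ]
    (a : κ → ℕ → ℝ) (mi : κ → Fin n) (b : ℝ) (N : ℕ) (h : List (Fin n))
    (hlt : h.length < N) (hA : (A h).Nonempty) :
    kernelPhi A a mi b N h ≤ (∑ c ∈ A h, kernelPhi A a mi b N (h ++ [c])) / (A h).card := by
  have hc : (0 : ℝ) < (A h).card := by exact_mod_cast hA.card_pos
  have key : ∀ j : κ, (∑ c ∈ A h, (Dev A (a j) (mi j) (h ++ [c]) ^ 2 +
      ∑ k ∈ Ico (h ++ [c]).length N, a j k ^ 2) / b ^ 2) / (A h).card ≤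
      (Dev A (a j) (mi j) h ^ 2 + ∑ k ∈ Ico h.length N, a j k ^ 2) / b ^ 2 := by
    intro j
    have h1 := kernel_step_second (A h) hA (mi j) (Dev A (a j) (mi j) h) (a j h.length)
    have e2 : ∀ c ∈ A h, (Dev A (a j) (mi j) (h ++ [c]) ^ 2 +
        ∑ k ∈ Ico (h ++ [c]).length N, a j k ^ 2) / b ^ 2
        = ((Dev A (a j) (mi j) h + a j h.length * ((if c = mi j then (1 : ℝ) else 0) -
          (if mi j ∈ A h then 1 / ((A h).card : ℝ) else 0))) ^ 2 +
          ∑ k ∈ Ico (h.length + 1) N, a j k ^ 2) / b ^ 2 := by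
      intro c _
      rw [kernel_Dev_append, List.length_append, List.length_singleton]
    rw [Finset.sum_congr rfl e2, ← Finset.sum_div, div_right_comm]
    apply div_le_div_of_nonneg_right _ (sq_nonneg b)
    rw [Finset.sum_add_distrib, Finset.sum_const, nsmul_eq_mul, add_div,
      mul_div_cancel_left₀ _ hc.ne', Finset.sum_eq_sum_Ico_succ_bot hlt]
    linarith
  have : (∑ c ∈ A h, kernelPhi A a mi b N (h ++ [c])) / (A h).card
      = 1 - ∑ j, (∑ c ∈ A h, (Dev A (a j) (mi j) (h ++ [c]) ^ 2 +
      ∑ k ∈ Ico (h ++ [c]).length N, a j k ^ 2) / b ^ 2) / (A h).card := by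
    unfold kernelPhi
    rw [Finset.sum_sub_distrib, Finset.sum_const, nsmul_eq_mul, mul_one, sub_div, div_self hc.ne',
      Finset.sum_comm, Finset.sum_div]
  rw [this]
  unfold kernelPhi
  exact sub_le_sub_left (Finset.sum_le_sum fun j _ => key j) 1

theorem kernel_main {n : ℕ} (hn : 0 < n) (N : ℕ) (A : List (Fin n) → Finset (Fin n))
    (hA : ∀ h, (A h).Nonempty) (ctl : List (Fin n) → Prop) (chi : List (Fin n) → Fin n)
    (hchi : ∀ h, ctl h → chi h ∈ A h) (S : Finset ℕ) (hctl : ∀ h, ctl h → h.length ∈ S)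
    {κ : Type} [Fintype κ] (a : κ → ℕ → ℝ) (mi : κ → Fin n) (ha : ∀ j, ∀ k ∈ S, a j k = 0)
    (b : ℝ) (hb : 0 < b) (Good : List (Fin n) → Prop)
    (hG : ∀ h : List (Fin n), h.length = N →
      (∀ k c, h[k]? = some c → c ∈ A (h.take k)) →
      (∀ k c, h[k]? = some c → ctl (h.take k) → c = chi (h.take k)) →
      (∀ j, |Dev A (a j) (mi j) h| ≤ b) → Good h) (k : ℕ) :
    ∀ h : List (Fin n), h.length + k = N →
      (∀ k c, h[k]? = some c → c ∈ A (h.take k)) →
      (∀ k c, h[k]? = some c → ctl (h.take k) → c = chi (h.take k)) →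
      (1 / (n : ℝ)) ^ (S.filter (fun m => h.length ≤ m)).card * kernelPhi A a mi b N h
        ≤ kval A Good k h := by
  have hn0 : (0 : ℝ) < n := by exact_mod_cast hn
  have hn1 : (1 : ℝ) ≤ n := by exact_mod_cast hn
  have hinv1 : 1 / (n : ℝ) ≤ 1 := by rw [div_le_one hn0]; exact hn1
  have hinv0 : 0 < 1 / (n : ℝ) := by positivity
  induction k with
  | zero =>
    intro h hlen hleg hcon
    rw [add_zero] at hlen
    by_cases hd : ∀ j, |Dev A (a j) (mi j) h| ≤ b
    · have hg := hG h hlen hleg hcon hd
      unfold kval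
      rw [if_pos hg]
      have h1 : kernelPhi A a mi b N h ≤ 1 := by
        unfold kernelPhi
        have : 0 ≤ ∑ j, (Dev A (a j) (mi j) h ^ 2 + ∑ k ∈ Ico h.length N, a j k ^ 2) / b ^ 2 := by
          positivity
        linarith
      have h2 : 0 ≤ (1 / (n : ℝ)) ^ (S.filter (fun m => h.length ≤ m)).card := by positivity
      have h3 : (1 / (n : ℝ)) ^ (S.filter (fun m => h.length ≤ m)).card ≤ 1 :=
        pow_le_one₀ hinv0.le hinv1
      calc _ ≤ (1 / (n : ℝ)) ^ (S.filter (fun m => h.length ≤ m)).card * 1 :=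
            mul_le_mul_of_nonneg_left h1 h2
        _ ≤ 1 := by rw [mul_one]; exact h3
    · push Not at hd
      obtain ⟨j, hj⟩ := hd
      refine le_trans ?_ (kval_nonneg A Good 0 h)
      apply mul_nonpos_of_nonneg_of_nonpos (by positivity)
      unfold kernelPhi
      have h1 : 1 ≤ (Dev A (a j) (mi j) h ^ 2 + ∑ k ∈ Ico h.length N, a j k ^ 2) / b ^ 2 := by
        rw [le_div_iff₀ (by positivity), one_mul]
        have : b ^ 2 ≤ Dev A (a j) (mi j) h ^ 2 := by
          rw [← sq_abs (Dev A (a j) (mi j) h)]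
          exact pow_le_pow_left₀ hb.le hj.le 2
        have h0 : 0 ≤ ∑ k ∈ Ico h.length N, a j k ^ 2 := by positivity
        linarith
      have h2 : (Dev A (a j) (mi j) h ^ 2 + ∑ k ∈ Ico h.length N, a j k ^ 2) / b ^ 2 ≤
          ∑ j, (Dev A (a j) (mi j) h ^ 2 + ∑ k ∈ Ico h.length N, a j k ^ 2) / b ^ 2 :=
        Finset.single_le_sum (f := fun j => (Dev A (a j) (mi j) h ^ 2 +
          ∑ k ∈ Ico h.length N, a j k ^ 2) / b ^ 2) (fun j _ => by positivity) (Finset.mem_univ j)
      linarith
  | succ k ih =>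
    intro h hlen hleg hcon
    have hlt : h.length < N := by omega
    have hcA : (0 : ℝ) < (A h).card := by exact_mod_cast (hA h).card_pos
    have hcn : ((A h).card : ℝ) ≤ n := by
      have := Finset.card_le_univ (A h)
      rw [Fintype.card_fin] at this
      exact_mod_cast this
    by_cases hc : ctl h
    · -- controlled step
      have hS : h.length ∈ S := hctl h hc
      have hfil : S.filter (fun m => h.length ≤ m)
          = insert h.length (S.filter (fun m => h.length + 1 ≤ m)) := by
        ext m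
        simp only [Finset.mem_filter, Finset.mem_insert]
        constructor
        · rintro ⟨h1, h2⟩
          rcases h2.eq_or_lt with h3 | h3
          · left; exact h3.symm
          · right; exact ⟨h1, h3⟩
        · rintro (h1 | ⟨h1, h2⟩)
          · subst h1; exact ⟨hS, le_rfl⟩
          · exact ⟨h1, by omega⟩
      have hnot : h.length ∉ S.filter (fun m => h.length + 1 ≤ m) := by
        simp
      rw [hfil, Finset.card_insert_of_notMem hnot, pow_succ']
      have hstep := ih (h ++ [chi h]) (by simp; omega)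
        (kernel_inv_append (fun l c => c ∈ A l) h (chi h) hleg (hchi h hc))
        (kernel_inv_append (fun l c => ctl l → c = chi l) h (chi h) hcon (fun _ => rfl))
      rw [List.length_append, List.length_singleton,
        kernelPhi_ctl A a mi b N h (chi h) hlt (fun j => ha j _ hS)] at hstep
      have h1 : kval A Good k (h ++ [chi h]) ≤ ∑ c ∈ A h, kval A Good k (h ++ [c]) :=
        Finset.single_le_sum (f := fun c => kval A Good k (h ++ [c]))
          (fun c _ => kval_nonneg A Good k _) (hchi h hc)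
      have h2 : 1 / (n : ℝ) * kval A Good k (h ++ [chi h]) ≤ kval A Good (k + 1) h := by
        show _ ≤ (∑ c ∈ A h, kval A Good k (h ++ [c])) / (A h).card
        rw [le_div_iff₀ hcA]
        calc 1 / (n : ℝ) * kval A Good k (h ++ [chi h]) * (A h).card
            ≤ 1 / (n : ℝ) * kval A Good k (h ++ [chi h]) * n :=
              mul_le_mul_of_nonneg_left hcn
                (mul_nonneg hinv0.le (kval_nonneg A Good k _))
          _ = kval A Good k (h ++ [chi h]) := by field_simp
          _ ≤ _ := h1
      refine le_trans ?_ h2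
      rw [mul_assoc]
      exact mul_le_mul_of_nonneg_left hstep hinv0.le
    · -- uniform step
      by_cases hneg : kernelPhi A a mi b N h < 0
      · refine le_trans ?_ (kval_nonneg A Good (k + 1) h)
        exact mul_nonpos_of_nonneg_of_nonpos (by positivity) hneg.le
      push Not at hneg
      have hsub : (S.filter (fun m => h.length + 1 ≤ m)).card ≤
          (S.filter (fun m => h.length ≤ m)).card := by
        apply Finset.card_le_card
        intro m hm
        rw [Finset.mem_filter] at hm ⊢
        exact ⟨hm.1, by omega⟩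
      have hpow : (1 / (n : ℝ)) ^ (S.filter (fun m => h.length ≤ m)).card ≤
          (1 / (n : ℝ)) ^ (S.filter (fun m => h.length + 1 ≤ m)).card :=
        pow_le_pow_of_le_one hinv0.le hinv1 hsub
      have hstep : ∀ c ∈ A h, (1 / (n : ℝ)) ^ (S.filter (fun m => h.length + 1 ≤ m)).card *
          kernelPhi A a mi b N (h ++ [c]) ≤ kval A Good k (h ++ [c]) := by
        intro c hcA'
        have := ih (h ++ [c]) (by simp; omega)
          (kernel_inv_append (fun l c => c ∈ A l) h c hleg hcA')
          (kernel_inv_append (fun l c => ctl l → c = chi l) h c hcon (fun h' => absurd h' hc))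
        rw [List.length_append, List.length_singleton] at this
        exact this
      calc (1 / (n : ℝ)) ^ (S.filter (fun m => h.length ≤ m)).card * kernelPhi A a mi b N h
          ≤ (1 / (n : ℝ)) ^ (S.filter (fun m => h.length + 1 ≤ m)).card *
            kernelPhi A a mi b N h := mul_le_mul_of_nonneg_right hpow hneg
        _ ≤ (1 / (n : ℝ)) ^ (S.filter (fun m => h.length + 1 ≤ m)).card *
            ((∑ c ∈ A h, kernelPhi A a mi b N (h ++ [c])) / (A h).card) :=
            mul_le_mul_of_nonneg_left (kernelPhi_avg A a mi b N h hlt (hA h)) (by positivity)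
        _ = (∑ c ∈ A h, (1 / (n : ℝ)) ^ (S.filter (fun m => h.length + 1 ≤ m)).card *
            kernelPhi A a mi b N (h ++ [c])) / (A h).card := by
            rw [← mul_div_assoc, Finset.mul_sum]
        _ ≤ kval A Good (k + 1) h := by
            show _ ≤ (∑ c ∈ A h, kval A Good k (h ++ [c])) / (A h).card
            exact div_le_div_of_nonneg_right (Finset.sum_le_sum hstep) hcA.le

theorem kernel_bound {n : ℕ} (hn : 0 < n) (N : ℕ) (A : List (Fin n) → Finset (Fin n))
    (hA : ∀ h, (A h).Nonempty) (ctl : List (Fin n) → Prop) (chi : List (Fin n) → Fin n)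
    (hchi : ∀ h, ctl h → chi h ∈ A h) (S : Finset ℕ) (hctl : ∀ h, ctl h → h.length ∈ S)
    {κ : Type} [Fintype κ] (a : κ → ℕ → ℝ) (mi : κ → Fin n) (ha : ∀ j, ∀ k ∈ S, a j k = 0)
    (V b : ℝ) (hb : 0 < b) (hV : ∀ j, ∑ k ∈ range N, a j k ^ 2 ≤ V) (Good : List (Fin n) → Prop)
    (hG : ∀ h : List (Fin n), h.length = N →
      (∀ k c, h[k]? = some c → c ∈ A (h.take k)) →
      (∀ k c, h[k]? = some c → ctl (h.take k) → c = chi (h.take k)) →
      (∀ j, |Dev A (a j) (mi j) h| ≤ b) → Good h) :
    (1 / (n : ℝ)) ^ S.card * (1 - Fintype.card κ * V / b ^ 2) ≤ kval A Good N [] := by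
  have h1 := kernel_main hn N A hA ctl chi hchi S hctl a mi ha b hb Good hG N []
    (by simp) (by simp) (by simp)
  refine le_trans ?_ h1
  have hS : S.filter (fun m => ([] : List (Fin n)).length ≤ m) = S := by
    apply Finset.filter_true_of_mem
    intro m _
    simp
  rw [hS]
  apply mul_le_mul_of_nonneg_left _ (by positivity)
  unfold kernelPhi
  have : ∑ j : κ, (Dev A (a j) (mi j) [] ^ 2 + ∑ k ∈ Ico ([] : List (Fin n)).length N,
      a j k ^ 2) / b ^ 2 ≤ ∑ j : κ, V / b ^ 2 := by
    apply Finset.sum_le_sum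
    intro j _
    apply div_le_div_of_nonneg_right _ (sq_nonneg b)
    have h2 := hV j
    rw [Finset.range_eq_Ico] at h2
    simpa [Dev] using h2
  rw [Finset.sum_const, nsmul_eq_mul, Finset.card_univ] at this
  rw [mul_div_assoc]
  linarith

end

end RLB
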