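import Pool.Agent.RLB.Congr
import Pool.Agent.RLB.Det
import Pool.Agent.RLB.Good
import Pool.Agent.RLB.Kernel
import Pool.Agent.RLB.CtlCard

/-! P3: with probability at least `p1 n` (for a suitable mode) no kill happens in the epoch -/

namespace RLB

noncomputable section

open Finset Classical

/-- placements given by a list -/
def cf {n : ℕ} [NeZero n] (h : List (Fin n)) : ℕ → Fin n := fun k => h.getD k 0

/-- the success probability of an epoch -/
def p1 (n : ℕ) : ℝ := (1 / (n : ℝ)) ^ (18 * n ^ 31) * (1 / 2)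

theorem p1_pos (n : ℕ) (hn : 0 < n) : 0 < p1 n := by
  unfold p1; positivity

theorem cf_take {n : ℕ} [NeZero n] (h : List (Fin n)) (m : ℕ) :
    ∀ k < m, cf (h.take m) k = cf h k := by
  intro k hk
  unfold cf
  rw [List.getD_eq_getElem?_getD, List.getD_eq_getElem?_getD, List.getElem?_take_of_lt hk]

theorem cf_get {n : ℕ} [NeZero n] (h : List (Fin n)) (k : ℕ) (hk : k < h.length) :
    h[k]? = some (cf h k) := by
  unfold cf
  rw [List.getD_eq_getElem?_getD, List.getElem?_eq_getElem hk]
  rfl

namespace Inst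

variable {n : ℕ} [NeZero n]

/-- the weights for the deviation sums -/
def ak (I : Inst n) (T s : ℕ) (k : ℕ) : ℝ :=
  if k < T ∧ s ≤ k ∧ I.act T k ∧ I.w k < kap n then I.w k else 0

theorem dev_eq_Dev (I : Inst n) (g : ℕ) {N : ℕ} (h : List (Fin n)) (hlen : h.length = N) (T s : ℕ)
    (hT : T ≤ N) (i : Fin n) :
    I.dev g (cf h) T s i =
      Dev (fun h => I.allowed g (cf h) h.length) (I.ak T s) i h := by
  unfold dev Dev ak
  rw [hlen]
  rw [sum_filter]
  have hsub : range T ⊆ range N := by
    intro k hk
    rw [mem_range] at hk ⊢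
    omega
  rw [← sum_subset hsub]
  · apply sum_congr rfl
    intro k hk
    rw [mem_range] at hk
    have hkl : k < h.length := by omega
    have h1 := cf_get h k hkl
    have h2 : (h.take k).length = k := by
      rw [List.length_take]
      omega
    have h3 : I.allowed g (cf (h.take k)) k = I.allowed g (cf h) k :=
      I.allowed_congr g (cf_take h k)
    rw [h1]
    simp only [h2, h3]
    have e1 : (if some (cf h k) = some i then (1 : ℝ) else 0) = if cf h k = i then 1 else 0 := by
      by_cases hi : cf h k = i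
      · rw [if_pos hi, if_pos (by rw [hi])]
      · rw [if_neg hi, if_neg (by simpa using hi)]
    rw [e1]
    by_cases hc : s ≤ k ∧ I.act T k ∧ I.w k < kap n
    · rw [if_pos hc, if_pos (show k < T ∧ s ≤ k ∧ I.act T k ∧ I.w k < kap n from ⟨hk, hc⟩)]
    · rw [if_neg hc, if_neg (fun h => hc h.2), zero_mul]
  · intro k _ hk
    rw [mem_range] at hk
    rw [if_neg (fun h => hk h.1), zero_mul]

theorem ak_sq (I : Inst n) {N : ℕ} (hI : I.OK N) (hn : 10 ^ 6 ≤ n) {T : ℕ} (hT : T < N) (s : ℕ) :
    ∑ k ∈ range N, I.ak T s k ^ 2 ≤ kap n * n := by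
  have hn0 : 0 < n := by omega
  have hnR : (0 : ℝ) < n := by exact_mod_cast hn0
  have hkap : 0 < kap n := by unfold kap; positivity
  have h1 : ∀ k ∈ range N, I.ak T s k ^ 2 ≤
      kap n * (if k < T ∧ I.act T k then I.w k else 0) := by
    intro k hk
    rw [mem_range] at hk
    have hw := hI.wpos k hk
    unfold ak
    split_ifs with h1 h2 h3
    · rw [sq]
      exact mul_le_mul_of_nonneg_right h1.2.2.2.le hw.le
    · exact absurd ⟨h1.1, h1.2.2.1⟩ h2
    · rw [sq, zero_mul]
      exact (mul_pos hkap hw).le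
    · simp
  refine (sum_le_sum h1).trans ?_
  rw [← mul_sum]
  apply mul_le_mul_of_nonneg_left _ hkap.le
  have h2 : ∑ k ∈ range N, (if k < T ∧ I.act T k then I.w k else 0) =
      ∑ k ∈ (range T).filter (fun k => I.act T k), I.w k := by
    rw [← sum_filter]
    apply sum_congr _ (fun _ _ => rfl)
    ext k
    rw [mem_filter, mem_filter, mem_range, mem_range]
    constructor
    · exact fun h => h.2
    · exact fun h => ⟨by omega, h⟩
  rw [h2]
  have hvol := hI.volle T hT
  have hx := hI.xhi T hT
  have hw := hI.wpos T hT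
  unfold vol at hvol
  have h3 : 0 ≤ ∑ i, I.p T i := sum_nonneg (fun i _ => hI.pnn T i)
  nlinarith

theorem epoch_bound : ∃ N₁ : ℕ, ∀ N0, N₁ ≤ N0 → ∀ (n : ℕ) [NeZero n], n = 2 ^ N0 →
    ∀ (I : Inst n) (N : ℕ), I.OK N → ∃ j < 19,
      p1 n ≤ kval (fun h => I.allowed (n / 4 ^ (j + 1)) (cf h) h.length)
        (fun h => ∀ m < N, I.ld (cf h) m (cf h m) + I.w m ≤ thr n (I.x m)) N [] := by
  obtain ⟨N₁, hN₁⟩ := good_exists
  refine ⟨N₁, ?_⟩
  intro N0 hN0 n _ hn I N hI
  obtain ⟨a, j, hj, ty, hty, h10, h4, hbig⟩ := hN₁ N0 hN0 n hn I N hI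
  refine ⟨j, hj, ?_⟩
  set g : ℕ := n / 4 ^ (j + 1) with hg
  have hnb := a.n_big
  have hn0 : 0 < n := by omega
  have hnR : (0 : ℝ) < n := by exact_mod_cast hn0
  -- the controller
  let ctl : List (Fin n) → Prop := fun h => h.length < N ∧ I.Ctl N (cf h) h.length
  let chi : List (Fin n) → Fin n := fun h =>
    if hh : h.length < N then
      Classical.choose (I.controller_exists a ty g hnb hI (cf h) h.length hh)
    else 0
  have hchi : ∀ h : List (Fin n), h.length < N → I.ChiOK a ty g N (cf h) h.length (chi h) := by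
    intro h hh
    simp only [chi, dif_pos hh]
    exact Classical.choose_spec (I.controller_exists a ty g hnb hI (cf h) h.length hh)
  let S : Finset ℕ := (range N).filter (fun t => kap n ≤ I.w t ∧ (I.JJ N t).Nonempty)
  have hScard : S.card ≤ 18 * n ^ 31 := I.ctl_card hnb hI
  let κ := {T // T ∈ I.TT N} × Fin n × Bool
  let aa : κ → ℕ → ℝ := fun q => I.ak q.1.1 (if q.2.2 = true then 0 else I.ta a q.1.1)
  have hTTN : ∀ T ∈ I.TT N, T < N := by
    intro T hT
    unfold TT at hT
    rw [mem_filter, mem_range] at hT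
    exact hT.1
  have hkap1 : 0 < kap1 n := by unfold kap1; positivity
  have key := kernel_bound hn0 N (fun h => I.allowed g (cf h) h.length)
    (fun h => I.allowed_nonempty g (cf h) h.length) ctl chi
    (fun h hc => (hchi h hc.1).1) S
    (by
      intro h hc
      simp only [S, mem_filter, mem_range]
      exact ⟨hc.1, hc.2.1, hc.2.2.1⟩)
    aa (fun q => q.2.1)
    (by
      intro q k hk
      simp only [S, mem_filter, mem_range] at hk
      simp only [aa, ak]
      rw [if_neg]
      rintro ⟨_, _, _, h⟩
      linarith [hk.2.1])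
    (kap n * n) (kap1 n) hkap1
    (by
      intro q
      exact I.ak_sq hI hnb (hTTN _ q.1.2) _)
    (fun h => ∀ m < N, I.ld (cf h) m (cf h m) + I.w m ≤ thr n (I.x m))
    (by
      intro h hlen hleg hct hdev
      have htl : ∀ k < N, (h.take k).length = k := by
        intro k hk
        rw [List.length_take]
        omega
      have R : I.Run a ty g N (cf h) := by
        refine ⟨hI, ?_, ?_, ?_, hty, h10, h4, hbig⟩
        · intro m hm
          have h1 := hleg m (cf h m) (cf_get h m (by omega))
          simp only [htl m hm] at h1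
          rw [I.allowed_congr g (cf_take h m)] at h1
          exact h1
        · intro t ht hc
          have hc' : ctl (h.take t) := by
            refine ⟨by rw [htl t ht]; exact ht, ?_⟩
            rw [htl t ht]
            exact (I.Ctl_congr (cf_take h t)).mpr hc
          have h1 := hct t (cf h t) (cf_get h t (by omega)) hc'
          have h2 := hchi (h.take t) (by rw [htl t ht]; exact ht)
          rw [htl t ht, ← h1] at h2
          exact (I.ChiOK_congr a ty g (cf_take h t) _).mp h2
        · intro T hT i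
          have hTN := hTTN T hT
          constructor
          · have h1 := hdev (⟨T, hT⟩, i, true)
            rw [I.dev_eq_Dev g h hlen T 0 hTN.le i]
            exact h1
          · have h1 := hdev (⟨T, hT⟩, i, false)
            rw [I.dev_eq_Dev g h hlen T (I.ta a T) hTN.le i]
            exact h1
      exact fun m hm => run_fits hnb R m hm)
  refine le_trans ?_ key
  -- numbers
  have hκ : (Fintype.card κ : ℝ) ≤ 36 * n := by
    have h1 : Fintype.card κ = (I.TT N).card * (n * 2) := by
      simp [κ, Fintype.card_prod]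
    have h2 := I.TT_card hnb hI
    rw [h1]
    have h3 : (I.TT N).card * (n * 2) ≤ 18 * (n * 2) := Nat.mul_le_mul_right _ h2
    have h4 : (((I.TT N).card * (n * 2) : ℕ) : ℝ) ≤ ((18 * (n * 2) : ℕ) : ℝ) := by exact_mod_cast h3
    refine h4.trans ?_
    push_cast
    linarith
  have hhalf : (1 / 2 : ℝ) ≤ 1 - Fintype.card κ * (kap n * n) / kap1 n ^ 2 := by
    have h1 : (Fintype.card κ : ℝ) * (kap n * n) / kap1 n ^ 2 ≤ 36 * n * (kap n * n) / kap1 n ^ 2 := by
      apply div_le_div_of_nonneg_right _ (by positivity)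
      apply mul_le_mul_of_nonneg_right hκ
      unfold kap
      positivity
    have h2 : 36 * (n : ℝ) * (kap n * n) / kap1 n ^ 2 = 36 / (n : ℝ) ^ 8 := by
      unfold kap kap1
      field_simp
    have h3 : 36 / (n : ℝ) ^ 8 ≤ 1 / 2 := by
      rw [div_le_div_iff₀ (by positivity) (by norm_num)]
      have h4 : (10 : ℝ) ^ 6 ≤ n := by exact_mod_cast hnb
      have h5 : (1 : ℝ) ≤ n := by
        have : (1 : ℝ) ≤ 10 ^ 6 := by norm_num
        linarith
      have h6 : (n : ℝ) ^ 1 ≤ (n : ℝ) ^ 8 := pow_le_pow_right₀ h5 (by norm_num)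
      rw [pow_one] at h6
      have h7 : (36 * 2 : ℝ) ≤ 10 ^ 6 := by norm_num
      linarith
    rw [h2] at h1
    linarith
  unfold p1
  apply mul_le_mul _ hhalf (by norm_num) (by positivity)
  apply pow_le_pow_of_le_one (by positivity) _ hScard
  rw [div_le_one hnR]
  have : 1 ≤ n := by omega
  exact_mod_cast this

end Inst

end

end RLB
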