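import Pool.Agent.RLB.Lock
import Pool.Agent.RLB.Chain
import Pool.Agent.RLB.APFacts

/-! D6: completion events of a critical target -/

namespace RLB

noncomputable section

open Finset Classical

namespace Inst

variable {n : ℕ} [NeZero n] {I : Inst n} {a : AP n} {ty : ℕ → Bool} {g N : ℕ} {c : ℕ → Fin n}

/-- at time `t` machine `c t` is completed for the target `T` -/
def Event (I : Inst n) (a : AP n) (c : ℕ → Fin n) (T t : ℕ) : Prop :=
  t < T ∧ c t ∉ I.compl a c T t ∧ c t ∈ I.compl a c T (t + 1)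

/-- all non-excluded available machines would be completed -/
def Reg (I : Inst n) (a : AP n) (ty : ℕ → Bool) (g N : ℕ) (c : ℕ → Fin n) (T t : ℕ) : Prop :=
  ∀ i ∈ I.BB a ty g N c t, I.hm a c T t i

omit [NeZero n] in
theorem mem_compl_iff {T t : ℕ} {i : Fin n} :
    i ∈ I.compl a c T t ↔ qq n - a.beta ≤ I.uu c T t i := by
  unfold compl
  rw [mem_filter]
  exact ⟨fun h => h.2, fun h => ⟨mem_univ _, h⟩⟩

theorem TT_lt {T : ℕ} (hT : T ∈ I.TT N) : T < N := by
  unfold TT at hT
  rw [mem_filter, mem_range] at hT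
  exact hT.1

theorem compl_mono (R : I.Run a ty g N c) {T : ℕ} (hT : T ∈ I.TT N) {t t' : ℕ} (h : t ≤ t')
    (h' : t' ≤ T) : I.compl a c T t ⊆ I.compl a c T t' := by
  intro i hi
  rw [mem_compl_iff] at hi ⊢
  exact hi.trans (I.uu_mono R.ok c T t t' h (h'.trans (TT_lt hT).le) i)

theorem compl_step (R : I.Run a ty g N c) {T : ℕ} {t : ℕ}
    {i : Fin n} (h1 : i ∉ I.compl a c T t) (h2 : i ∈ I.compl a c T (t + 1)) : i = c t := by
  rw [mem_compl_iff] at h1 h2
  rw [I.uu_succ] at h2
  by_contra hne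
  rw [if_neg (fun h => hne h.2.symm), add_zero] at h2
  exact h1 h2

/-- a critical target is complete at its time -/
theorem compl_end (R : I.Run a ty g N c) {T : ℕ} (hT : T ∈ I.TT N) (hcr : I.crit c T) :
    I.compl a c T T = univ := by
  apply eq_univ_of_forall
  intro i
  rw [mem_compl_iff, I.uu_self]
  have h1 := hcr i
  have h2 := a.dp_le'
  have h3 := a.inv_n_le_beta
  have h4 := a.beta_pos
  have h5 : 1 / 10 ^ 200 * a.beta ≤ a.beta := by
    have : (1 / 10 ^ 200 : ℝ) ≤ 1 := by norm_num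
    nlinarith
  linarith

/-- nothing is complete at the beginning -/
theorem compl_zero (R : I.Run a ty g N c) (T : ℕ) : I.compl a c T 0 = ∅ := by
  apply eq_empty_of_forall_notMem
  intro i hi
  rw [mem_compl_iff] at hi
  have h1 := I.uu_zero_le a.n_big R.ok c T i
  have h2 := a.inv_n_le
  have h3 := a.beta_le
  have h4 : (8 : ℝ) / n = 8 * (1 / n) := by ring
  unfold qq at hi
  rw [h4] at h1
  have h5 : (1 / 10 ^ 200 : ℝ) ≤ 1 / 1000 := by norm_num
  have h6 : (1 / 10 ^ 100 : ℝ) ≤ 1 / 1000 := by norm_num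
  linarith

/-- the optimum is large at an event -/
theorem event_x (R : I.Run a ty g N c) {T : ℕ} (hT : T ∈ I.TT N) {t : ℕ}
    (hE : Event I a c T t) : qq n - a.beta ≤ rr n * I.x t ∧ I.act T t ∧
      qq n - a.beta ≤ I.uu c T t (c t) + I.w t := by
  obtain ⟨htT, h1, h2⟩ := hE
  rw [mem_compl_iff] at h1 h2
  rw [I.uu_succ] at h2
  have hact : I.act T t := by
    by_contra hne
    rw [if_neg (fun h => hne h.1), add_zero] at h2
    exact h1 h2
  rw [if_pos ⟨hact, rfl⟩] at h2
  have hTN := TT_lt hT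
  have h3 := I.legal_safe a.n_big R.ok c R.leg t (by omega)
  have h4 := I.uu_le_ld R.ok c T t htT.le hTN.le (c t)
  exact ⟨by linarith, hact, h2⟩

theorem event_x' (R : I.Run a ty g N c) {T : ℕ} (hT : T ∈ I.TT N) {t : ℕ}
    (hE : Event I a c T t) : 49 / 100 ≤ I.x t ∧ I.x t ≤ 1 := by
  have h1 := (event_x R hT hE).1
  have hTN := TT_lt hT
  have h2 := I.uu_zero_le
  have hx := R.ok.xhi t (by have := hE.1; omega)
  have hx0 := R.ok.xlo t (by have := hE.1; omega)
  have h3 := a.inv_n_le
  have h4 := a.beta_le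
  have h5 : (1 / 10 ^ 200 : ℝ) ≤ 1 / 1000 := by norm_num
  have h6 : (1 / 10 ^ 100 : ℝ) ≤ 1 / 1000 := by norm_num
  have h7 := a.inv_n_pos
  have hx1 : 0 < I.x t := lt_trans (by have := a.n_pos; positivity) hx0
  unfold qq rr at h1
  refine ⟨?_, hx⟩
  nlinarith

/-- the task of an event on a lockable machine -/
theorem event_basic (R : I.Run a ty g N c) {T : ℕ} (hT : T ∈ I.TT N) (hcr : I.crit c T) {t : ℕ}
    (hE : Event I a c T t) (hL : I.lockable a ty g T t (c t)) :
    I.act T t ∧ kap n ≤ I.w t ∧ T ∈ I.JJ N t ∧ theta n (I.x t) - a.beta ≤ I.w t ∧ 2 / 5 ≤ I.w t ∧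
      I.uu c T t (c t) + I.w t ≤ qp n := by
  obtain ⟨h1, hact, h2⟩ := event_x R hT hE
  obtain ⟨hx, hx1⟩ := event_x' R hT hE
  have hTN := TT_lt hT
  have hnw := lock_lemma R hT hcr t hE.1.le (c t) hL
  have hnc : I.uu c T t (c t) < qq n - a.beta := by
    have := hE.2.1
    rw [mem_compl_iff] at this
    exact not_le.mp this
  have hu : I.uu c T t (c t) ≤ qq n - theta n (I.x t) := by
    by_contra hcon
    push Not at hcon
    exact hnw ⟨hcon, hnc⟩
  have hw : theta n (I.x t) - a.beta ≤ I.w t := by linarith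
  have hw2 : 2 / 5 ≤ I.w t := by
    have h3 := a.inv_n_le
    have h4 := a.beta_le
    have h5 : (1 / 10 ^ 200 : ℝ) ≤ 1 / 1000 := by norm_num
    have h6 : (1 / 10 ^ 100 : ℝ) ≤ 1 / 1000 := by norm_num
    have h7 := a.inv_n_pos
    unfold theta at hw
    rw [AP.lam_eq] at hw
    nlinarith
  have hqp := I.uu_le_qp a.n_big R.ok c T hT hcr (t + 1) hE.1 (c t)
  rw [I.uu_succ, if_pos ⟨hact, rfl⟩] at hqp
  refine ⟨hact, ?_, ?_, hw, hw2, hqp⟩
  · have h3 := kap_small a.n_big
    have h4 := a.inv_n_le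
    have h5 : (1 / 10 ^ 200 : ℝ) ≤ 1 / 1000 := by norm_num
    have h6 := a.inv_n_pos
    have h7 : (1 / 10 ^ 6 : ℝ) ≤ 1 := by norm_num
    nlinarith
  · unfold JJ
    rw [mem_filter]
    exact ⟨hT, hE.1, hact⟩

/-- events in phase 2 are near-unit -/
theorem event_phase2 (R : I.Run a ty g N c) {T : ℕ} (hT : T ∈ I.TT N) (hcr : I.crit c T) {t : ℕ}
    (hE : Event I a c T t) (hL : I.lockable a ty g T t (c t)) (hx : 1 - dd n < I.x t) :
    1 - 2 * a.beta ≤ I.w t := by
  obtain ⟨_, _, _, hw, _, _⟩ := event_basic R hT hcr hE hL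
  have h1 := a.dd_le
  have h3 := a.inv_n_le_beta
  have h4 := a.beta_pos
  have h6 := a.inv_n_pos
  have h2 := a.inv_n_le
  have h5 : (1 / 10 ^ 200 : ℝ) ≤ 1 / 1000 := by norm_num
  unfold theta at hw
  rw [AP.lam_eq] at hw
  have h7 : 81 * (1 / (n : ℝ)) ≤ a.beta := by
    have : (81 * (1 / 10 ^ 200) : ℝ) ≤ 1 := by norm_num
    nlinarith
  have h8 : (1 - 80 * (1 / (n : ℝ))) * (1 - 1 / n) ≤ (1 - 80 * (1 / (n : ℝ))) * I.x t := by
    apply mul_le_mul_of_nonneg_left (by linarith)
    linarith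
  nlinarith

/-- events in phase 1 come from the controller: the placement satisfies `ChiOK` -/
theorem event_phase1 (R : I.Run a ty g N c) {T : ℕ} (hT : T ∈ I.TT N) (hcr : I.crit c T) {t : ℕ}
    (hE : Event I a c T t) (hL : I.lockable a ty g T t (c t)) (hx : I.x t ≤ 1 - dd n) :
    I.ChiOK a ty g N c t (c t) ∧ 3 / (n : ℝ) < I.w t ∧
    (∀ i, i ∈ I.allowed g c t ↔ I.ld c t i + I.w t ≤ rr n * I.x t) := by
  obtain ⟨hact, hk, hJ, hw, hw2, hqp⟩ := event_basic R hT hcr hE hL
  have hTN := TT_lt hT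
  have htN : t < N := by have := hE.1; omega
  have h3 : 3 / (n : ℝ) < I.w t := by
    have h4 := a.inv_n_le
    have h5 : (1 / 10 ^ 200 : ℝ) ≤ 1 / 1000 := by norm_num
    have e : 3 / (n : ℝ) = 3 * (1 / n) := by ring
    rw [e]
    linarith
  refine ⟨R.ctl t htN ⟨hk, ⟨T, hJ⟩, Or.inl hx⟩, h3, ?_⟩
  intro i
  have hU := I.phase1_room a.n_big R.ok c t htN hx
  have hal : I.allowed g c t = I.U c t := by
    unfold allowed
    rw [if_neg (not_lt.mpr hk), if_neg (fun h => absurd h3 (not_lt.mpr h.1)), if_pos hU]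
  have hCs : I.Cs c t = ∅ := by unfold Cs; rw [if_pos hx]
  rw [hal]
  unfold U fits thr
  rw [mem_filter, hCs, if_pos hx]
  constructor
  · exact fun h => h.2.2
  · exact fun h => ⟨mem_univ _, by simp, h⟩

/-- a machine that would be completed by task `t` and is not complete, is completed later by a task
that is at most slightly larger -/
theorem later (R : I.Run a ty g N c) {T : ℕ} (hT : T ∈ I.TT N) (hcr : I.crit c T) {t t' : ℕ}
    (htt : t < t') (hE : Event I a c T t') (hL : I.lockable a ty g T t' (c t'))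
    (h : I.hm a c T t (c t')) : I.w t' ≤ I.w t + 2 * a.beta := by
  obtain ⟨_, _, _, _, _, hqp⟩ := event_basic R hT hcr hE hL
  have hTN := TT_lt hT
  have h1 := I.uu_mono R.ok c T t t' htt.le (by have := hE.1; omega) (c t')
  unfold hm at h
  have h2 := a.qp_le'
  have h3 := a.inv_n_le_beta
  have h4 := a.beta_pos
  have h5 : 1 / 10 ^ 200 * a.beta ≤ a.beta := by
    have : (1 / 10 ^ 200 : ℝ) ≤ 1 := by norm_num
    nlinarith
  linarith

theorem lk_spec {T t : ℕ} {X : Fin n} (h : I.lk a ty g c T t = some X) :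
    ∃ s ≤ t, I.lockable a ty g T s X ∧ I.win a c T s X := by
  have hpick : ∀ s, I.pick a ty g c T s = some X → I.lockable a ty g T s X ∧ I.win a c T s X := by
    intro s hs
    unfold pick at hs
    split_ifs at hs with hex
    have h1 := Classical.choose_spec hex
    rw [Option.some_inj.mp hs] at h1
    exact h1
  induction t with
  | zero => exact ⟨0, le_rfl, hpick 0 h⟩
  | succ t ih =>
    unfold lk at h
    cases hl : I.lk a ty g c T t with
    | none =>
      rw [hl] at h
      exact ⟨t + 1, le_rfl, hpick _ h⟩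
    | some Y =>
      rw [hl] at h
      have hYX : Y = X := Option.some_inj.mp h
      subst hYX
      obtain ⟨s, hs, h1⟩ := ih hl
      exact ⟨s, by omega, h1⟩

theorem Ex_card (R : I.Run a ty g N c) (t : ℕ) : (I.Ex a ty g N c t).card ≤ 18 := by
  refine le_trans ?_ (I.TT_card a.n_big R.ok)
  have hex : ∀ X ∈ I.Ex a ty g N c t, ∃ T ∈ I.JJ N t, I.lk a ty g c T t = some X := by
    intro X hX
    unfold Ex at hX
    rw [mem_filter] at hX
    exact hX.2
  choose! f hf1 hf2 using hex
  apply card_le_card_of_injOn f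
  · intro X hX
    have := hf1 X hX
    unfold JJ at this
    exact (mem_filter.mp this).1
  · intro X hX Y hY hXY
    have h1 := hf2 X hX
    have h2 := hf2 Y hY
    rw [hXY, h2] at h1
    exact (Option.some_inj.mp h1).symm

/-- the load of excluded machines -/
theorem Ex_load (R : I.Run a ty g N c) {t : ℕ} {X : Fin n}
    (hX : X ∈ I.Ex a ty g N c t) : qq n - I.x t ≤ I.ld c t X := by
  unfold Ex at hX
  rw [mem_filter] at hX
  obtain ⟨_, T, hT, hl⟩ := hX
  obtain ⟨s, hs, _, hw⟩ := lk_spec hl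
  have hJ := hT
  unfold JJ at hJ
  rw [mem_filter] at hJ
  obtain ⟨hTT, htT, _⟩ := hJ
  have hTN := TT_lt hTT
  have h1 := I.uu_mono R.ok c T s t hs (by omega) X
  have h2 := I.uu_le_ld R.ok c T t htT.le hTN.le X
  have h3 := hw.1
  have h4 := R.ok.xmono s t hs (by omega)
  have h5 : theta n (I.x s) ≤ I.x s := by
    unfold theta lam
    have h6 := R.ok.xlo s (by omega)
    have h7 := a.n_pos
    have h8 : 0 < I.x s := lt_trans (by positivity) h6
    have h9 : (0 : ℝ) < 80 / n := by positivity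
    nlinarith
  linarith

/-- volume bound for phase 1 events, general form -/
theorem event_volume (R : I.Run a ty g N c) {T : ℕ} (hT : T ∈ I.TT N)
    (hcr : I.crit c T) {t : ℕ} (hL : I.lockable a ty g T t (c t)) (hE : Event I a c T t)
    (hx : I.x t ≤ 1 - dd n) (K A Z : Finset (Fin n)) (hKA : Disjoint K A) (hKZ : Disjoint K Z)
    (hAZ : Disjoint A Z) (hK : K ⊆ I.compl a c T t)
    (hA : ∀ i ∈ A, I.hm a c T t i)
    (hO : ∀ i ∈ I.BB a ty g N c t, i ∈ K ∨ i ∈ A ∨ i ∈ Z) :
    ((K.card : ℝ) + A.card + 18) * (qq n - a.beta)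
      ≤ I.x t * (K.card + 2 * A.card + 36 + Z.card) := by
  obtain ⟨hchi, hw3, hal⟩ := event_phase1 R hT hcr hE hL hx
  obtain ⟨hx49, hx1⟩ := event_x' R hT hE
  have hTN := TT_lt hT
  have htT := hE.1
  have htN : t < N := by omega
  have hnpos : 0 < n := by have := a.n_big; omega
  have hvol := R.ok.volle t htN
  rw [← I.sum_ld c t] at hvol
  set E : Finset (Fin n) := (((I.allowed g c t ∩ I.Ex a ty g N c t) \ K) \ A) \ Z with hEdef
  have hEcard : E.card ≤ 18 := by
    refine le_trans (card_le_card ?_) (Ex_card R t)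
    intro i hi
    rw [hEdef] at hi
    exact (mem_inter.mp (mem_sdiff.mp (mem_sdiff.mp (mem_sdiff.mp hi).1).1).1).2
  have hKE : Disjoint K E := by
    rw [disjoint_left]
    intro i hi hi'
    exact (mem_sdiff.mp (mem_sdiff.mp (mem_sdiff.mp hi').1).1).2 hi
  have hAE : Disjoint A E := by
    rw [disjoint_left]
    intro i hi hi'
    exact (mem_sdiff.mp (mem_sdiff.mp hi').1).2 hi
  have hEZ : Disjoint E Z := by
    rw [disjoint_left]
    intro i hi hi'
    exact (mem_sdiff.mp hi).2 hi'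
  have hvb := volume_bound hnpos (I.ld c t) (I.x t) (I.w t) (qq n - a.beta)
    (fun i => I.ld_nonneg R.ok c t htN.le i) (R.ok.wpos t htN).le (R.ok.wle t htN) hvol K A E Z
    hKA hKE hKZ hAE hAZ hEZ
    (by
      intro i hi
      have h1 := hK hi
      rw [mem_compl_iff] at h1
      exact h1.trans (I.uu_le_ld R.ok c T t htT.le hTN.le i))
    (by
      intro i hi
      have h1 := hA i hi
      unfold hm at h1
      have h2 := I.uu_le_ld R.ok c T t htT.le hTN.le i
      linarith)
    (by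
      intro i hi
      have h1 : i ∈ I.Ex a ty g N c t :=
        (mem_inter.mp (mem_sdiff.mp (mem_sdiff.mp (mem_sdiff.mp hi).1).1).1).2
      have h2 := Ex_load R h1
      have h3 := a.beta_pos
      linarith)
    (by
      intro i h1 h2 h3 h4
      have h5 : i ∉ I.allowed g c t := by
        intro h6
        by_cases h7 : i ∈ I.Ex a ty g N c t
        · apply h3
          rw [hEdef]
          exact mem_sdiff.mpr ⟨mem_sdiff.mpr ⟨mem_sdiff.mpr ⟨mem_inter.mpr ⟨h6, h7⟩, h1⟩, h2⟩, h4⟩
        · rcases hO i (mem_sdiff.mpr ⟨h6, h7⟩) with h8 | h8 | h8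
          · exact h1 h8
          · exact h2 h8
          · exact h4 h8
      rw [hal i] at h5
      push Not at h5
      unfold rr at h5
      linarith)
  have hEr : (E.card : ℝ) ≤ 18 := by exact_mod_cast hEcard
  have hb : qq n - a.beta ≤ 2 * I.x t := by
    have h1 := (event_x R hT hE).1
    have h2 : rr n * I.x t ≤ 2 * I.x t := by
      apply mul_le_mul_of_nonneg_right _ (by linarith)
      unfold rr
      have := a.inv_n_pos
      linarith
    linarith
  nlinarith

/-- volume bound for regular events of targets of type R1/R3 -/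
theorem reg_volume (R : I.Run a ty g N c) {T : ℕ} (hT : T ∈ I.TT N) (hty : ty T = true)
    (hcr : I.crit c T) {t : ℕ} (ht : I.ta a T ≤ t) (hE : Event I a c T t) (hx : I.x t ≤ 1 - dd n)
    (hR : Reg I a ty g N c T t) :
    (((I.compl a c T t).card : ℝ) + (I.BB a ty g N c t \ I.compl a c T t).card + 18) * (qq n - a.beta)
      ≤ I.x t * ((I.compl a c T t).card + 2 * (I.BB a ty g N c t \ I.compl a c T t).card + 36) := by
  have hL : I.lockable a ty g T t (c t) := by
    unfold lockable
    rw [if_pos hty]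
    exact ht
  have h := event_volume R hT hcr hL hE hx (I.compl a c T t) (I.BB a ty g N c t \ I.compl a c T t) ∅
    disjoint_sdiff (disjoint_empty_right _) (disjoint_empty_right _) (Subset.refl _)
    (fun i hi => hR i (mem_sdiff.mp hi).1)
    (fun i hi => by
      by_cases h : i ∈ I.compl a c T t
      · exact Or.inl h
      · exact Or.inr (Or.inl (mem_sdiff.mpr ⟨hi, h⟩)))
  rw [card_empty, Nat.cast_zero, add_zero] at h
  exact h

end Inst

end

end RLB
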