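import Pool.Agent.RLB.Algo
import Pool.Agent.RLB.Epoch

/-! G4: the final assembly -/

namespace RLB

noncomputable section

open Finset Classical

variable {n : ℕ} [NeZero n]

/-- lists of placements of cost less than the deterministic guarantee -/
def GoodPl (σ : List Ev) : Set (List (Fin n)) :=
  {pl | cost σ (asg pl) ≤ (rr n - dd n / 2) * OPT n σ}

theorem arrive_in (hn : 10 ^ 6 ≤ n) (s : St n) (w : ℝ) (z : ℤ)
    (hz : InEpoch n s.rho (OPT n (s.past ++ [Ev.arr w])) z)
    (hne : s.pl.length ≠ kst n (s.past ++ [Ev.arr w]) z) :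
    (alg n).arrive s w = place s w z s.g := by
  have h : ∃ z, InEpoch n s.rho (OPT n (s.past ++ [Ev.arr w])) z := ⟨z, hz⟩
  have e : Classical.choose h = z := InEpoch.unique hn (Classical.choose_spec h) hz
  unfold alg
  simp only
  rw [dif_pos h, e, if_neg hne]

theorem arrive_start (hn : 10 ^ 6 ≤ n) (s : St n) (w : ℝ) (z : ℤ)
    (hz : InEpoch n s.rho (OPT n (s.past ++ [Ev.arr w])) z)
    (heq : s.pl.length = kst n (s.past ++ [Ev.arr w]) z) :
    (alg n).arrive s w = (PMF.uniformOfFinset (range 19) range19).bind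
      (fun j => place s w z (n / 4 ^ (j + 1))) := by
  have h : ∃ z, InEpoch n s.rho (OPT n (s.past ++ [Ev.arr w])) z := ⟨z, hz⟩
  have e : Classical.choose h = z := InEpoch.unique hn (Classical.choose_spec h) hz
  unfold alg
  simp only
  rw [dif_pos h, e, if_pos heq]

theorem kval_succ_ofReal {ι : Type} (A : List ι → Finset ι) (G : List ι → Prop) (k : ℕ) (h : List ι)
    (hA : (A h).Nonempty) : ENNReal.ofReal (kval A G (k + 1) h) =
      ∑ c ∈ A h, ((A h).card : ENNReal)⁻¹ * ENNReal.ofReal (kval A G k (h ++ [c])) := by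
  have hc : (0 : ℝ) < ((A h).card : ℝ) := by exact_mod_cast hA.card_pos
  rw [← mul_sum, ← ENNReal.ofReal_sum_of_nonneg (fun c _ => kval_nonneg A G k _)]
  show ENNReal.ofReal ((∑ c ∈ A h, kval A G k (h ++ [c])) / (A h).card) = _
  rw [ENNReal.ofReal_div_of_pos hc, ENNReal.ofReal_natCast, mul_comm, div_eq_mul_inv]

theorem uniform_bind {ι β : Type} [DecidableEq ι] (A : Finset ι) (hA : A.Nonempty)
    (F : ι → PMF β) (S : Set β) : ((PMF.uniformOfFinset A hA).bind F).toOuterMeasure S =
      ∑ c ∈ A, ((A.card : ENNReal)⁻¹) * (F c).toOuterMeasure S := by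
  rw [PMF.toOuterMeasure_bind_apply]
  rw [tsum_eq_sum (s := A)]
  · apply sum_congr rfl
    intro c hc
    rw [PMF.uniformOfFinset_apply_of_mem _ hc]
  · intro c hc
    rw [PMF.uniformOfFinset_apply_of_notMem _ hc, zero_mul]

theorem le_bind {α β : Type} (p : PMF α) (F : α → PMF β) (S : Set β) (x : ENNReal)
    (h : ∀ a ∈ p.support, x ≤ (F a).toOuterMeasure S) : x ≤ (p.bind F).toOuterMeasure S := by
  rw [PMF.toOuterMeasure_bind_apply]
  calc x = ∑' a, p a * x := by rw [ENNReal.tsum_mul_right, p.tsum_coe, one_mul]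
    _ ≤ _ := by
      apply ENNReal.tsum_le_tsum
      intro a
      by_cases ha : p a = 0
      · simp [ha]
      · exact mul_le_mul_right (h a ((PMF.mem_support_iff _ _).mpr ha)) _

theorem place_step (s : St n) (w : ℝ) (z : ℤ) (g : ℕ) (A : List (Fin n) → Finset (Fin n))
    (G : List (Fin n) → Prop) (k : ℕ) (h : List (Fin n)) (hA : alw s w z g = A h)
    (F : Fin n × St n → PMF (List (Fin n))) (S : Set (List (Fin n)))
    (hF : ∀ c ∈ A h, ENNReal.ofReal (kval A G k (h ++ [c])) ≤ (F (next s w g c)).toOuterMeasure S) :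
    ENNReal.ofReal (kval A G (k + 1) h) ≤ ((place s w z g).bind F).toOuterMeasure S := by
  have hne : (A h).Nonempty := by rw [← hA]; exact alw_nonempty s w z g
  rw [kval_succ_ofReal A G k h hne]
  unfold place
  rw [PMF.bind_map, uniform_bind, hA]
  apply sum_le_sum
  intro c hc
  exact mul_le_mul_right (hF c hc) _

theorem start_bind (s : St n) (w : ℝ) (z : ℤ) (F : Fin n × St n → PMF (List (Fin n)))
    (S : Set (List (Fin n))) (j : ℕ) (hj : j < 19) (x : ENNReal)
    (h : x ≤ ((place s w z (n / 4 ^ (j + 1))).bind F).toOuterMeasure S) :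
    (19 : ENNReal)⁻¹ * x ≤ (((PMF.uniformOfFinset (range 19) range19).bind
      (fun j => place s w z (n / 4 ^ (j + 1)))).bind F).toOuterMeasure S := by
  rw [PMF.bind_bind, uniform_bind]
  have hjm : j ∈ range 19 := mem_range.mpr hj
  refine le_trans ?_ (single_le_sum (fun _ _ => zero_le) hjm)
  rw [card_range]
  exact mul_le_mul_right h _

theorem instOf_congr (σ : List Ev) (k0 : ℕ) (θ : ℝ) (b b' : ℕ → Fin n)
    (hb : ∀ k < k0, b k = b' k) : instOf σ k0 θ b = instOf σ k0 θ b' := by
  unfold instOf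
  congr 1
  funext m i
  congr 1
  apply sum_congr _ (fun _ _ => rfl)
  apply filter_congr
  intro k hk
  rw [hb k (mem_range.mp hk)]

theorem rr_dd (hn : 0 < n) : 1 ≤ rr n ∧ rr n ≤ 2 := by
  have hnR : (1 : ℝ) ≤ n := by exact_mod_cast hn
  unfold rr
  have h1 : (1 : ℝ) / n ≤ 1 := by
    rw [div_le_one (by linarith)]; exact hnR
  have h2 : (0 : ℝ) ≤ 1 / n := by positivity
  constructor <;> linarith

theorem good_final (hn : 10 ^ 6 ≤ n) {σ : List Ev} (hv : Valid σ) (z : ℤ)
    (hσ' : (1 - dd n / 2) * thz n z < OPT n σ)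
    (pl0 h : List (Fin n)) (hk : pl0.length = kst n σ z) (hh : h.length + pl0.length = narr σ)
    (hb' : ∀ m < kst n σ z, load (pre σ m) (asg pl0) (asg pl0 m) + wt σ m ≤ rr n * (4 / n) * thz n z)
    (hG : ∀ m < narr σ - kst n σ z,
          (instOf σ (kst n σ z) (thz n z) (asg pl0)).ld (cf h) m (cf h m) +
            (instOf σ (kst n σ z) (thz n z) (asg pl0)).w m ≤
            thr n ((instOf σ (kst n σ z) (thz n z) (asg pl0)).x m)) :
    (pl0 ++ h) ∈ GoodPl σ := by
  have hn0 : 0 < n := by omega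
  have hθ := thz_pos hn0 z
  obtain ⟨d1, d2⟩ := dd_bounds hn0
  obtain ⟨r1, r2⟩ := rr_dd hn0
  have hfin : rr n * (1 - dd n) * thz n z ≤ (rr n - dd n / 2) * OPT n σ := by
    have h1 : rr n * (1 - dd n) ≤ (rr n - dd n / 2) * (1 - dd n / 2) := by nlinarith
    calc rr n * (1 - dd n) * thz n z ≤ (rr n - dd n / 2) * (1 - dd n / 2) * thz n z :=
          mul_le_mul_of_nonneg_right h1 hθ.le
      _ = (rr n - dd n / 2) * ((1 - dd n / 2) * thz n z) := by ring
      _ ≤ _ := mul_le_mul_of_nonneg_left hσ'.le (by linarith)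
  show cost σ (asg (pl0 ++ h)) ≤ _
  have hOPT : 0 ≤ OPT n σ := OPT_nonneg σ
  apply cost_le_of_arrivals hv _ _ (mul_nonneg (by linarith) hOPT)
  intro m hm
  rcases lt_or_ge m (kst n σ z) with h1 | h1
  · -- before the epoch
    have e1 : asg (pl0 ++ h) m = asg pl0 m := asg_append _ _ _ (by omega)
    have e2 : load (pre σ m) (asg (pl0 ++ h)) (asg pl0 m) = load (pre σ m) (asg pl0) (asg pl0 m) := by
      apply load_congr
      intro k hk'
      rw [narr_pre σ m hm.le] at hk'
      exact asg_append _ _ _ (by omega)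
    rw [e1, e2]
    refine (hb' m h1).trans (le_trans ?_ hfin)
    apply mul_le_mul_of_nonneg_right _ hθ.le
    apply mul_le_mul_of_nonneg_left _ (by linarith)
    have hnR : (10 : ℝ) ^ 6 ≤ n := by exact_mod_cast hn
    have : (4 : ℝ) / n ≤ 4 / 10 ^ 6 := div_le_div_of_nonneg_left (by norm_num) (by positivity) hnR
    have h4 : (4 / 10 ^ 6 : ℝ) ≤ 1 / 2 := by norm_num
    linarith
  · -- in the epoch
    obtain ⟨m', rfl⟩ := Nat.exists_eq_add_of_le h1
    have hm' : m' < narr σ - kst n σ z := by omega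
    have hg := hG m' hm'
    have e1 : instOf σ (kst n σ z) (thz n z) (asg pl0) =
        instOf σ (kst n σ z) (thz n z) (asg (pl0 ++ h)) := by
      apply instOf_congr
      intro k hk'
      exact (asg_append _ _ _ (by omega)).symm
    have e2 : ∀ j < h.length, cf h j = asg (pl0 ++ h) (kst n σ z + j) := by
      intro j hj
      unfold cf asg
      rw [← hk, List.getD_append_right _ _ _ _ (by omega)]
      congr 1
      omega
    have e3 : (instOf σ (kst n σ z) (thz n z) (asg (pl0 ++ h))).ld (cf h) m' =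
        (instOf σ (kst n σ z) (thz n z) (asg (pl0 ++ h))).ld
          (fun j => asg (pl0 ++ h) (kst n σ z + j)) m' := by
      apply Inst.ld_congr
      intro k hk'
      exact e2 k (by omega)
    rw [e1, e3, e2 m' (by omega), instOf_ld (kst n σ z) hθ _ m' (by omega)] at hg
    simp only [instOf] at hg
    rw [← add_div] at hg
    -- the threshold
    have hx : OPT n (preA σ (kst n σ z + m')) ≤ OPT n σ := OPT_mono (preA_prefix σ _ hm)
    have hthr : thr n (OPT n (preA σ (kst n σ z + m')) / thz n z) ≤ rr n * (1 - dd n) := by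
      unfold thr
      split_ifs with hph
      · exact mul_le_mul_of_nonneg_left hph (by linarith)
      · have : dp n = 2 * dd n := by unfold dd; ring
        rw [this]
        nlinarith
    have h5 := hg.trans hthr
    rw [div_le_iff₀ hθ] at h5
    exact h5.trans hfin

/-- inside an epoch (after its first arrival) the probability of a good outcome is at least `kval` -/
theorem run_epoch (hn : 10 ^ 6 ≤ n) {σ : List Ev} (hv : Valid σ) (z : ℤ) (rho g : ℕ)
    (hz : (Kn n : ℤ) ∣ (z - rho)) (hσ : OPT n σ ≤ thz n z)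
    (hσ' : (1 - dd n / 2) * thz n z < OPT n σ) (pl0 : List (Fin n)) (hk : pl0.length = kst n σ z)
    (hb' : ∀ m < kst n σ z, load (pre σ m) (asg pl0) (asg pl0 m) + wt σ m ≤ rr n * (4 / n) * thz n z)
    (h4 : 4 / n * thz n z < OPT n (preA σ (kst n σ z)))
    (l : List Ev) : ∀ (τ : List Ev) (h : List (Fin n)), τ ++ l = σ →
    h.length + pl0.length = narr τ → h ≠ [] →
    ENNReal.ofReal (kval (fun h => (instOf σ (kst n σ z) (thz n z) (asg pl0)).allowed g (cf h) h.length)
        (fun h => ∀ m < narr σ - kst n σ z,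
          (instOf σ (kst n σ z) (thz n z) (asg pl0)).ld (cf h) m (cf h m) +
            (instOf σ (kst n σ z) (thz n z) (asg pl0)).w m ≤
            thr n ((instOf σ (kst n σ z) (thz n z) (asg pl0)).x m))
        (narr σ - narr τ) h)
      ≤ ((alg n).run { rho := rho, past := τ, pl := pl0 ++ h, g := g } l (pl0 ++ h)).toOuterMeasure
          (GoodPl σ) := by
  induction l with
  | nil =>
    intro τ h hτ hh hh'
    rw [List.append_nil] at hτ
    subst hτ
    rw [Nat.sub_self]
    unfold RandAlg.run kval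
    split_ifs with hG
    · rw [PMF.toOuterMeasure_pure_apply, if_pos (good_final hn hv z hσ' pl0 h hk hh hb' hG)]
      simp
    · simp
  | cons e l ih =>
    intro τ h hτ hh hh'
    cases e with
    | dep k =>
      have hτ' : (τ ++ [Ev.dep k]) ++ l = σ := by simpa using hτ
      have := ih (τ ++ [Ev.dep k]) h hτ' (by rw [narr_dep]; exact hh) hh'
      rw [narr_dep] at this
      unfold RandAlg.run
      have e1 : (alg n).depart { rho := rho, past := τ, pl := pl0 ++ h, g := g } k =
        PMF.pure { rho := rho, past := τ ++ [Ev.dep k], pl := pl0 ++ h, g := g } := rfl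
      rw [e1, PMF.pure_bind]
      exact this
    | arr w =>
      have hτ' : (τ ++ [Ev.arr w]) ++ l = σ := by simpa using hτ
      have hp : (τ ++ [Ev.arr w]) <+: σ := ⟨l, hτ'⟩
      obtain ⟨e1, e2, e3, e4⟩ := preA_eq hp
      have hhlen : 0 < h.length := List.length_pos_iff.mpr hh'
      have hkτ : kst n σ z < narr τ := by omega
      have hOPTσ : OPT n (τ ++ [Ev.arr w]) ≤ OPT n σ := OPT_mono hp
      have hOPT4 : 4 / n * thz n z < OPT n (τ ++ [Ev.arr w]) := by
        refine lt_of_lt_of_le h4 (OPT_mono ?_)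
        have h5 := preA_pre σ hkτ (by omega)
        rw [e2] at h5
        exact h5.trans (List.prefix_append _ _)
      obtain ⟨f1, f2, f3, f4⟩ := kst_facts hp hOPT4
      have hin : InEpoch n rho (OPT n (τ ++ [Ev.arr w])) z := ⟨hz, hOPT4, hOPTσ.trans hσ⟩
      unfold RandAlg.run
      have harr := arrive_in hn { rho := rho, past := τ, pl := pl0 ++ h, g := g } w z hin
        (by simp only; rw [f2, List.length_append]; omega)
      rw [harr]
      have hN : narr σ - narr τ = (narr σ - narr (τ ++ [Ev.arr w])) + 1 := by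
        rw [narr_arr]
        omega
      rw [hN]
      apply place_step
      · -- the allowed set
        unfold alw
        simp only
        rw [f2]
        have hm : (pl0 ++ h).length - kst n σ z = h.length := by
          rw [List.length_append]; omega
        rw [hm]
        apply instOf_allowed hp
        · rw [narr_arr]; omega
        · intro k hk'
          exact asg_append _ _ _ (by omega)
        · intro j hj
          unfold cf asg
          rw [← hk, List.getD_append_right _ _ _ _ (by omega)]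
          congr 1
          omega
      · intro c _
        have := ih (τ ++ [Ev.arr w]) (h ++ [c]) hτ' (by rw [narr_arr, List.length_append]; simp; omega)
          (by simp)
        simp only [next]
        rw [← List.append_assoc] at this
        exact this

/-- success probability -/
def p2 (n : ℕ) [NeZero n] : ℝ := p1 n / (19 * Kn n)

/-- the conclusion of `epoch_bound` -/
def EpochB (n : ℕ) [NeZero n] : Prop := ∀ (I : Inst n) (N : ℕ), I.OK N → ∃ j < 19,
      p1 n ≤ kval (fun h => I.allowed (n / 4 ^ (j + 1)) (cf h) h.length)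
        (fun h => ∀ m < N, I.ld (cf h) m (cf h m) + I.w m ≤ thr n (I.x m)) N []

theorem run_before (hn : 10 ^ 6 ≤ n) (hE : EpochB n) {σ : List Ev} (hv : Valid σ) (z : ℤ) (rho : ℕ)
    (hz : (Kn n : ℤ) ∣ (z - rho)) (hσ : OPT n σ ≤ thz n z)
    (hσ' : (1 - dd n / 2) * thz n z < OPT n σ) (hpos : 0 < narr σ) (l : List Ev) :
    ∀ (τ : List Ev) (s : St n), τ ++ l = σ → Inv τ s → s.rho = rho → narr τ ≤ kst n σ z →
    ENNReal.ofReal (p1 n / 19) ≤ ((alg n).run s l s.pl).toOuterMeasure (GoodPl σ) := by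
  have hn0 : 0 < n := by omega
  have hθ := thz_pos hn0 z
  obtain ⟨d1, d2⟩ := dd_bounds hn0
  have h4σ : 4 / n * thz n z < OPT n σ := by
    refine lt_of_le_of_lt ?_ hσ'
    apply mul_le_mul_of_nonneg_right _ hθ.le
    have hnR : (10 : ℝ) ^ 6 ≤ n := by exact_mod_cast hn
    have : (4 : ℝ) / n ≤ 4 / 10 ^ 6 := div_le_div_of_nonneg_left (by norm_num) (by positivity) hnR
    have h4 : (4 / 10 ^ 6 : ℝ) ≤ 1 / 2 := by norm_num
    linarith
  have hklt : kst n σ z < narr σ := by
    have : kst n σ z ≤ narr σ - 1 := by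
      apply Nat.sInf_le
      rw [Set.mem_setOf_eq, OPT_last hv hpos]
      exact h4σ
    omega
  induction l with
  | nil =>
    intro τ s hτ hinv hrho hle
    rw [List.append_nil] at hτ
    subst hτ
    omega
  | cons e l ih =>
    intro τ s hτ hinv hrho hle
    cases e with
    | dep k =>
      have hτ' : (τ ++ [Ev.dep k]) ++ l = σ := by simpa using hτ
      unfold RandAlg.run
      have e1 : (alg n).depart s k =
        PMF.pure { rho := s.rho, past := s.past ++ [Ev.dep k], pl := s.pl, g := s.g } := rfl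
      rw [e1, PMF.pure_bind]
      exact ih (τ ++ [Ev.dep k]) _ hτ' hinv.dep hrho (by rw [narr_dep]; exact hle)
    | arr w =>
      have hτ' : (τ ++ [Ev.arr w]) ++ l = σ := by simpa using hτ
      have hp : (τ ++ [Ev.arr w]) <+: σ := ⟨l, hτ'⟩
      have hvp : Valid (τ ++ [Ev.arr w]) := hv.of_prefix hp
      obtain ⟨e1, e2, e3, e4⟩ := preA_eq hp
      unfold RandAlg.run
      rcases lt_or_eq_of_le hle with hlt | heq
      · -- not yet in the epoch
        apply le_bind
        intro c hc
        obtain ⟨g, i, rfl, hi⟩ := arrive_support hn hvp hinv hc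
        exact ih (τ ++ [Ev.arr w]) (next s w g i).2 hτ' (hinv.arr g i hi) (by simpa [next] using hrho)
          (by rw [narr_arr]; omega)
      · -- start of the epoch
        have hmem : 4 / n * thz n z < OPT n (τ ++ [Ev.arr w]) := by
          rw [← e1, heq]
          apply Nat.sInf_mem (s := {k | 4 / n * thz n z < OPT n (preA σ k)})
          refine ⟨narr σ - 1, ?_⟩
          rw [Set.mem_setOf_eq, OPT_last hv hpos]
          exact h4σ
        obtain ⟨f1, f2, f3, f4⟩ := kst_facts hp hmem
        have hpast : s.past = τ := hinv.past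
        have hin : InEpoch n s.rho (OPT n (s.past ++ [Ev.arr w])) z := by
          rw [hpast, hrho]
          exact ⟨hz, hmem, (OPT_mono hp).trans hσ⟩
        have hlen : s.pl.length = kst n σ z := by rw [hinv.len, heq]
        rw [arrive_start hn s w z hin (by rw [hpast, f2, hlen])]
        obtain ⟨hb', hb⟩ := start_load hv ((List.prefix_append τ [Ev.arr w]).trans hp) hinv
          (kst n σ z) heq.ge hn0 f4
        have hOK := instOf_OK hv (kst n σ z) hθ (asg s.pl) f3 hσ hklt hb
        obtain ⟨j, hj, hkv⟩ := hE _ _ hOK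
        have hN : narr σ - kst n σ z = (narr σ - narr (τ ++ [Ev.arr w])) + 1 := by
          rw [narr_arr]
          omega
        have key := place_step s w z (n / 4 ^ (j + 1))
          (fun h => (instOf σ (kst n σ z) (thz n z) (asg s.pl)).allowed (n / 4 ^ (j + 1)) (cf h) h.length)
          (fun h => ∀ m < narr σ - kst n σ z,
            (instOf σ (kst n σ z) (thz n z) (asg s.pl)).ld (cf h) m (cf h m) +
            (instOf σ (kst n σ z) (thz n z) (asg s.pl)).w m ≤
            thr n ((instOf σ (kst n σ z) (thz n z) (asg s.pl)).x m))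
          (narr σ - narr (τ ++ [Ev.arr w])) [] ?_
          (fun c => (alg n).run c.2 l (s.pl ++ [c.1])) (GoodPl σ) ?_
        · rw [← hN] at key
          have h5 := start_bind s w z (fun c => (alg n).run c.2 l (s.pl ++ [c.1])) (GoodPl σ) j hj _ key
          refine le_trans ?_ h5
          have e5 : ENNReal.ofReal (p1 n / 19) = (19 : ENNReal)⁻¹ * ENNReal.ofReal (p1 n) := by
            rw [ENNReal.ofReal_div_of_pos (by norm_num), mul_comm, div_eq_mul_inv]
            norm_num
          rw [e5]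
          exact mul_le_mul_right (ENNReal.ofReal_le_ofReal hkv) _
        · unfold alw
          simp only
          rw [hpast, f2, hlen, Nat.sub_self]
          apply instOf_allowed hp
          · rw [narr_arr]; omega
          · intro k _
            rfl
          · intro j hj
            exact absurd hj (Nat.not_lt_zero j)
        · intro c _
          have := run_epoch hn hv z rho (n / 4 ^ (j + 1)) hz hσ hσ' s.pl hlen hb' f3 l
            (τ ++ [Ev.arr w]) [c] hτ' (by rw [narr_arr, hlen]; simp; omega) (by simp)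
          simp only [next, hpast, hrho]
          exact this

theorem OPT_zero {σ : List Ev} (h : narr σ = 0) (f : ℕ → Fin n) : cost σ f = 0 ∧ OPT n σ = 0 := by
  have h1 : ∀ (f : ℕ → Fin n) (τ : List Ev), τ <+: σ → ∀ i, load τ f i = 0 := by
    intro f τ hτ i
    have : narr τ = 0 := by
      obtain ⟨t, rfl⟩ := hτ
      unfold narr at *
      rw [wts_append', List.length_append] at h
      omega
    unfold load active
    rw [this]
    simp
  have h2 : ∀ f : ℕ → Fin n, cost σ f = 0 := by
    intro f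
    apply le_antisymm
    · exact cost_le f 0 (fun τ hτ i => (h1 f τ hτ i).le)
    · have := load_le_cost (List.prefix_refl σ) f 0
      rw [h1 f σ (List.prefix_refl σ)] at this
      exact this
  refine ⟨h2 f, ?_⟩
  obtain ⟨f', hf'⟩ := exists_OPT (n := n) σ
  rw [← hf', h2]

theorem exists_scale (hn : 0 < n) (y : ℝ) (hy : 0 < y) :
    ∃ z : ℤ, y ≤ thz n z ∧ (1 - dd n / 2) * thz n z < y := by
  obtain ⟨d1, d2⟩ := dd_bounds hn
  have hρ : 0 < 1 - dd n / 2 := by linarith
  have hb : 1 < (1 - dd n / 2)⁻¹ := (one_lt_inv₀ hρ).mpr (by linarith)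
  obtain ⟨z, hz⟩ := exists_mem_Ioc_zpow hy hb
  refine ⟨z + 1, ?_, ?_⟩
  · unfold thz
    rw [zpow_neg, ← inv_zpow]
    exact hz.2
  · have e : (1 - dd n / 2) * thz n (z + 1) = (1 - dd n / 2)⁻¹ ^ z := by
      have := thz_add hn z 1
      rw [pow_one] at this
      push_cast at this
      rw [mul_comm, this]
      unfold thz
      rw [zpow_neg, inv_zpow]
    rw [e]
    exact hz.1

theorem p2_pos (hn : 0 < n) : 0 < p2 n := by
  have := p1_pos n hn
  have h2 : (0 : ℝ) < Kn n := by exact_mod_cast Kn_pos n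
  unfold p2
  positivity

theorem p2_le_one (hn : 0 < n) : p2 n ≤ 1 := by
  have h1 : p1 n ≤ 1 := by
    unfold p1
    have hnR : (1 : ℝ) ≤ n := by exact_mod_cast hn
    have h3 : (1 / (n : ℝ)) ≤ 1 := by
      rw [div_le_one (by linarith)]; exact hnR
    have h4 : (1 / (n : ℝ)) ^ (18 * n ^ 31) ≤ 1 := pow_le_one₀ (by positivity) h3
    linarith
  have h2 : (1 : ℝ) ≤ Kn n := by exact_mod_cast Kn_pos n
  unfold p2
  rw [div_le_one (by positivity)]
  linarith

theorem outcome_good_aux (hn : 10 ^ 6 ≤ n) (hE : EpochB n) {σ : List Ev} (hv : Valid σ) :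
    ENNReal.ofReal (p2 n) ≤ ((alg n).outcome σ).toOuterMeasure (GoodPl σ) := by
  have hn0 : 0 < n := by omega
  obtain ⟨d1, d2⟩ := dd_bounds hn0
  obtain ⟨r1, r2⟩ := rr_dd hn0
  by_cases hzero : OPT n σ = 0 ∨ narr σ = 0
  · -- trivial inputs
    have hall : ∀ pl ∈ ((alg n).outcome σ).support, pl ∈ GoodPl (n := n) σ := by
      intro pl hpl
      obtain ⟨h1, -⟩ := alg_safe hn hv pl hpl
      show cost σ (asg pl) ≤ _
      rcases hzero with h | h
      · rw [h] at h1 ⊢
        simpa using h1
      · rw [(OPT_zero h (asg pl)).1, (OPT_zero h (asg pl)).2]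
        simp
    have h1 : ((alg n).outcome σ).toOuterMeasure (GoodPl σ) = 1 := by
      rw [PMF.toOuterMeasure_apply_eq_one_iff]
      exact hall
    rw [h1]
    calc ENNReal.ofReal (p2 n) ≤ ENNReal.ofReal 1 := ENNReal.ofReal_le_ofReal (p2_le_one hn0)
      _ = 1 := ENNReal.ofReal_one
  · push Not at hzero
    have hOPT : 0 < OPT n σ := lt_of_le_of_ne (OPT_nonneg σ) (Ne.symm hzero.1)
    have hpos : 0 < narr σ := Nat.pos_of_ne_zero hzero.2
    obtain ⟨z, hz1, hz2⟩ := exists_scale hn0 (OPT n σ) hOPT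
    have hKpos : (0 : ℤ) < Kn n := by exact_mod_cast Kn_pos n
    set rho : ℕ := (z % (Kn n : ℤ)).toNat with hrho
    have hmod0 : 0 ≤ z % (Kn n : ℤ) := Int.emod_nonneg _ hKpos.ne'
    have hmod1 : z % (Kn n : ℤ) < Kn n := Int.emod_lt_of_pos _ hKpos
    have hrho' : ((rho : ℕ) : ℤ) = z % (Kn n : ℤ) := by rw [hrho, Int.toNat_of_nonneg hmod0]
    have hdvd : (Kn n : ℤ) ∣ (z - rho) := by
      rw [hrho']
      exact Int.dvd_self_sub_emod
    have hmem : rho ∈ range (Kn n) := by
      rw [mem_range]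
      omega
    have h0 : Inv (n := n) [] { rho := rho, past := [], pl := [], g := 0 } :=
      ⟨rfl, rfl, fun m hm => absurd hm (Nat.not_lt_zero m)⟩
    have key := run_before hn hE hv z rho hdvd hz1 hz2 hpos σ [] _ (by simp) h0 rfl (Nat.zero_le _)
    have e1 : (alg n).outcome σ = (PMF.uniformOfFinset (range (Kn n)) ⟨0, by simpa using Kn_pos n⟩).bind
        (fun r => (alg n).run { rho := r, past := [], pl := [], g := 0 } σ []) := by
      unfold RandAlg.outcome
      show PMF.bind (PMF.map _ _) _ = _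
      rw [PMF.bind_map]
      rfl
    rw [e1, uniform_bind]
    refine le_trans ?_ (single_le_sum (fun _ _ => zero_le) hmem)
    rw [card_range]
    have e2 : ENNReal.ofReal (p2 n) = (Kn n : ENNReal)⁻¹ * ENNReal.ofReal (p1 n / 19) := by
      have h2 : (0 : ℝ) < Kn n := by exact_mod_cast Kn_pos n
      have e3 : p2 n = (p1 n / 19) / Kn n := by
        unfold p2
        rw [div_div]
      rw [e3, ENNReal.ofReal_div_of_pos h2, ENNReal.ofReal_natCast, mul_comm, div_eq_mul_inv]
    rw [e2]
    exact mul_le_mul_right key _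

theorem outcome_good : ∃ N₁ : ℕ, ∀ N0, N₁ ≤ N0 → ∀ (n : ℕ) [NeZero n], n = 2 ^ N0 →
    10 ^ 6 ≤ n ∧
    ∀ σ : List Ev, Valid σ → ENNReal.ofReal (p2 n) ≤ ((alg n).outcome σ).toOuterMeasure (GoodPl σ) := by
  obtain ⟨N₁, hN₁⟩ := Inst.epoch_bound
  refine ⟨max N₁ 20, fun N0 hN0 n _ hn => ?_⟩
  have hn6 : 10 ^ 6 ≤ n := by
    rw [hn]
    calc 10 ^ 6 ≤ 2 ^ 20 := by norm_num
      _ ≤ 2 ^ N0 := Nat.pow_le_pow_right (by norm_num) (by omega)
  exact ⟨hn6, fun σ hv => outcome_good_aux hn6 (hN₁ N0 (by omega) n hn) hv⟩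

/-- the expected cost -/
theorem expCost_le (hn : 10 ^ 6 ≤ n) {σ : List Ev} (hv : Valid σ)
    (h : ENNReal.ofReal (p2 n) ≤ ((alg n).outcome σ).toOuterMeasure (GoodPl σ)) :
    (alg n).expCost σ ≤ ENNReal.ofReal ((2 - 1 / n - p2 n * (dd n / 2)) * OPT n σ) := by
  have hn0 : 0 < n := by omega
  obtain ⟨d1, d2⟩ := dd_bounds hn0
  obtain ⟨r1, r2⟩ := rr_dd hn0
  have hOPT := OPT_nonneg (n := n) σ
  have hp2 := p2_pos hn0
  have hp2' := p2_le_one hn0
  -- pointwise bound
  have hpt : ∀ pl : List (Fin n), (alg n).outcome σ pl * ENNReal.ofReal (cost σ (fun k => pl.getD k 0)) +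
      (GoodPl σ).indicator ((alg n).outcome σ) pl * ENNReal.ofReal (dd n / 2 * OPT n σ) ≤
      (alg n).outcome σ pl * ENNReal.ofReal (rr n * OPT n σ) := by
    intro pl
    by_cases h0 : (alg n).outcome σ pl = 0
    · simp [h0, Set.indicator]
    have hs : pl ∈ ((alg n).outcome σ).support := (PMF.mem_support_iff _ _).mpr h0
    have h1 := (alg_safe hn hv pl hs).1
    by_cases hg : pl ∈ GoodPl (n := n) σ
    · rw [Set.indicator_of_mem hg, ← mul_add]
      apply mul_le_mul_right
      have hg' : cost σ (asg pl) ≤ (rr n - dd n / 2) * OPT n σ := hg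
      have hc0 : 0 ≤ cost σ (asg pl) := le_trans hOPT (OPT_le σ _)
      have e : (fun k => pl.getD k 0) = asg pl := rfl
      rw [e, ← ENNReal.ofReal_add hc0 (by positivity)]
      apply ENNReal.ofReal_le_ofReal
      nlinarith
    · rw [Set.indicator_of_notMem hg, zero_mul, add_zero]
      apply mul_le_mul_right
      exact ENNReal.ofReal_le_ofReal h1
  have hsum := ENNReal.tsum_le_tsum hpt
  rw [ENNReal.tsum_add, ENNReal.tsum_mul_right, ENNReal.tsum_mul_right, PMF.tsum_coe, one_mul,
    ← PMF.toOuterMeasure_apply] at hsum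
  have h1 : (alg n).expCost σ + ENNReal.ofReal (p2 n) * ENNReal.ofReal (dd n / 2 * OPT n σ) ≤
      ENNReal.ofReal (rr n * OPT n σ) := by
    refine le_trans ?_ hsum
    unfold RandAlg.expCost
    gcongr
  rw [← ENNReal.ofReal_mul hp2.le] at h1
  have h2 := ENNReal.le_sub_of_add_le_right ENNReal.ofReal_ne_top h1
  rw [← ENNReal.ofReal_sub _ (by positivity)] at h2
  refine h2.trans (ENNReal.ofReal_le_ofReal ?_)
  unfold rr
  apply le_of_eq
  ring

theorem main : ∃ N₁ : ℕ, ∀ N0, N₁ ≤ N0 → ∀ (n : ℕ) [NeZero n], n = 2 ^ N0 →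
    Competitive (alg n) (2 - 1 / n - p2 n * (dd n / 2)) ∧ 0 < p2 n * (dd n / 2) := by
  obtain ⟨N₁, hN₁⟩ := outcome_good
  refine ⟨N₁, fun N0 hN0 n _ hn => ?_⟩
  obtain ⟨hn6, h⟩ := hN₁ N0 hN0 n hn
  refine ⟨fun σ hv => expCost_le hn6 hv (h σ hv), ?_⟩
  have h1 := p2_pos (n := n) (by omega)
  have h2 := (dd_bounds (n := n) (by omega)).1
  positivity

end

end RLB
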