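import Mathlib

/-!
# MP_247733_lc : abstract instances (one epoch, normalised, arrival-indexed)

`m`-th arrival of the epoch: weight `w m`; `act m k` : epoch task `k` is active just before arrival `m`;
`p m i` : load of machine `i` from tasks that arrived before the epoch (base tasks), just before arrival `m`;
`x m` : OPT of the prefix ending with arrival `m`.
-/

namespace RLB

noncomputable section

open Finset Classical

def rr (n : ℕ) : ℝ := 2 - 1 / n
def qq (n : ℕ) : ℝ := 1 - 1 / n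
def dp (n : ℕ) : ℝ := 1 / (n : ℝ) ^ 5
def dd (n : ℕ) : ℝ := dp n / 2
def kap (n : ℕ) : ℝ := 1 / (n : ℝ) ^ 30
def kap1 (n : ℕ) : ℝ := 1 / (n : ℝ) ^ 10
def lam (n : ℕ) : ℝ := 80 / n
def theta (n : ℕ) (x : ℝ) : ℝ := (1 - lam n) * x
/-- upper bound of all loads at a critical time -/
def qp (n : ℕ) : ℝ := qq n + (n + 1) * dp n
def thr (n : ℕ) (x : ℝ) : ℝ := if x ≤ 1 - dd n then rr n * x else rr n - dp n
def CC (n : ℕ) : Finset (Fin n) := univ.filter (fun i => i.val < 10)
def GG (n g : ℕ) : Finset (Fin n) := univ.filter (fun i => i.val < g)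

/-- a machine minimising `f` -/
def argminF {n : ℕ} [NeZero n] (f : Fin n → ℝ) : Fin n := Classical.choose (Finite.exists_min f)

theorem argminF_spec {n : ℕ} [NeZero n] (f : Fin n → ℝ) (i : Fin n) : f (argminF f) ≤ f i :=
  Classical.choose_spec (Finite.exists_min f) i

/-- a machine of `S` maximising `f` -/
def argmaxOn {n : ℕ} [NeZero n] (S : Finset (Fin n)) (f : Fin n → ℝ) : Fin n :=
  if h : S.Nonempty then Classical.choose (S.exists_max_image f h) else 0

theorem argmaxOn_mem {n : ℕ} [NeZero n] (S : Finset (Fin n)) (f : Fin n → ℝ) (h : S.Nonempty) :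
    argmaxOn S f ∈ S := by
  unfold argmaxOn; rw [dif_pos h]; exact (Classical.choose_spec (S.exists_max_image f h)).1

theorem argmaxOn_le {n : ℕ} [NeZero n] (S : Finset (Fin n)) (f : Fin n → ℝ) (i : Fin n) (hi : i ∈ S) :
    f i ≤ f (argmaxOn S f) := by
  have h : S.Nonempty := ⟨i, hi⟩
  unfold argmaxOn; rw [dif_pos h]; exact (Classical.choose_spec (S.exists_max_image f h)).2 i hi

structure Inst (n : ℕ) where
  w : ℕ → ℝ
  act : ℕ → ℕ → Prop
  p : ℕ → Fin n → ℝ
  x : ℕ → ℝ

namespace Inst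

variable {n : ℕ} [NeZero n] (I : Inst n)

/-- load of machine `i` just before arrival `m` -/
def ld (c : ℕ → Fin n) (m : ℕ) (i : Fin n) : ℝ :=
  I.p m i + ∑ k ∈ (range m).filter (fun k => I.act m k ∧ c k = i), I.w k

/-- active volume just before arrival `m` -/
def vol (m : ℕ) : ℝ := ∑ i, I.p m i + ∑ k ∈ (range m).filter (fun k => I.act m k), I.w k

def danger (m : ℕ) : Prop :=
  1 - dd n < I.x m ∧ 1 - 2 * dp n ≤ I.w m ∧ (n : ℝ) - 1 - n * dp n ≤ I.vol m

/-- at least 9 of the 10 machines of `CC` lost at least `1/(2n)` of base load between `t` and `m` -/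
def dropc (t m : ℕ) : Prop :=
  9 ≤ ((CC n).filter (fun i => 1 / (2 * (n : ℝ)) ≤ I.p t i - I.p m i)).card

/-- the last target before `m` -/
def lastT : ℕ → Option ℕ
  | 0 => none
  | m + 1 => if I.danger m ∧ ∀ t ∈ lastT m, I.dropc t m then some m else lastT m

/-- `m` is a target time -/
def isT (m : ℕ) : Prop := I.danger m ∧ ∀ t ∈ I.lastT m, I.dropc t m

/-- the reserved machines at arrival `m` -/
def Cs (c : ℕ → Fin n) (m : ℕ) : Finset (Fin n) :=
  if I.x m ≤ 1 - dd n then ∅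
  else CC n ∪ ((range (m + 1)).filter (fun T => I.isT T)).image (fun T => argminF (I.ld c T))

def fits (c : ℕ → Fin n) (m : ℕ) (i : Fin n) : Prop := I.ld c m i + I.w m ≤ thr n (I.x m)

/-- machines outside `Cs` that fit -/
def U (c : ℕ → Fin n) (m : ℕ) : Finset (Fin n) :=
  univ.filter (fun i => i ∉ I.Cs c m ∧ I.fits c m i)

/-- machines for dust -/
def Ud (g : ℕ) (c : ℕ → Fin n) (m : ℕ) : Finset (Fin n) :=
  univ.filter (fun i => i ∉ GG n g ∧ i ∉ I.Cs c m ∧ I.fits c m i)

/-- machines for small coarse tasks in phase 1 -/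
def Us (c : ℕ → Fin n) (m : ℕ) : Finset (Fin n) :=
  univ.filter (fun i => i ∉ CC n ∧ I.fits c m i)

def Cfit (c : ℕ → Fin n) (m : ℕ) : Finset (Fin n) :=
  (I.Cs c m).filter (fun i => I.fits c m i)

/-- allowed machines for arrival `m` in mode `g` (one of them is chosen uniformly at random) -/
def allowed (g : ℕ) (c : ℕ → Fin n) (m : ℕ) : Finset (Fin n) :=
  if I.w m < kap n then
    (if (I.Ud g c m).Nonempty then I.Ud g c m else {argminF (I.ld c m)})
  else if I.w m ≤ 3 / n ∧ I.x m ≤ 1 - dd n then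
    (if (I.Us c m).Nonempty then I.Us c m else {argminF (I.ld c m)})
  else if (I.U c m).Nonempty then I.U c m
  else if (I.Cfit c m).Nonempty then {argmaxOn (I.Cfit c m) (I.ld c m)}
  else {argminF (I.ld c m)}

/-- a legal run of the first `N` arrivals -/
def Legal (g : ℕ) (c : ℕ → Fin n) (N : ℕ) : Prop := ∀ m < N, c m ∈ I.allowed g c m

structure OK (N : ℕ) : Prop where
  xlo : ∀ m < N, 4 / (n : ℝ) < I.x m
  xhi : ∀ m < N, I.x m ≤ 1
  xmono : ∀ m m', m ≤ m' → m' < N → I.x m ≤ I.x m'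
  wpos : ∀ m < N, 0 < I.w m
  wle : ∀ m < N, I.w m ≤ I.x m
  volle : ∀ m < N, I.vol m + I.w m ≤ n * I.x m
  act_lt : ∀ m k, I.act m k → k < m
  act_anti : ∀ m m' k, k < m → m ≤ m' → I.act m' k → I.act m k
  pnn : ∀ m i, 0 ≤ I.p m i
  panti : ∀ m m' i, m ≤ m' → I.p m' i ≤ I.p m i
  p0 : ∀ i, I.p 0 i ≤ rr n * (4 / n)
  pack : ∀ m < N, ∃ f : ℕ → Fin n, ∀ i,
    ∑ k ∈ (range m).filter (fun k => I.act m k ∧ f k = i), I.w k + (if f m = i then I.w m else 0) ≤ I.x m

/-- target times (`senses`) -/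
def TT (N : ℕ) : Finset ℕ := (range N).filter (fun m => I.isT m)

/-- load of machine `i` made of base tasks and epoch tasks `< t` that are active at time `T` -/
def uu (c : ℕ → Fin n) (T t : ℕ) (i : Fin n) : ℝ :=
  I.p T i + ∑ k ∈ (range t).filter (fun k => I.act T k ∧ c k = i), I.w k

/-- targets at which the task `t` is active -/
def JJ (N t : ℕ) : Finset ℕ := (I.TT N).filter (fun T => t < T ∧ I.act T t)

/-- number of tasks of weight at least `1-e` active at `T` -/
def NN (T : ℕ) (e : ℝ) : ℕ := ((range T).filter (fun k => I.act T k ∧ 1 - e ≤ I.w k)).card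

/-- weight of the dust active at `T` that arrives at a time `≥ t` -/
def DD (T t : ℕ) : ℝ :=
  ∑ k ∈ (range T).filter (fun k => t ≤ k ∧ I.act T k ∧ I.w k < kap n), I.w k

omit [NeZero n] in
theorem DD_exists (T : ℕ) (a : ℝ) : ∃ t, I.DD T t ≤ max a 0 := by
  refine ⟨T, ?_⟩
  have : (range T).filter (fun k => T ≤ k ∧ I.act T k ∧ I.w k < kap n) = ∅ := by
    apply filter_eq_empty_iff.mpr
    intro k hk h
    exact absurd h.1 (not_le.mpr (mem_range.mp hk))
  unfold DD
  rw [this]
  simp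

/-- first time after which at most `a` dust of `T` arrives -/
def tau (T : ℕ) (a : ℝ) : ℕ := Nat.find (I.DD_exists T a)

end Inst

/-- analysis parameters: `eps = 1/E`, `eps4 = 1/E^3`, `eps3 = 1/E^4`, `beta = 12/E^3`. -/
structure AP (n : ℕ) where
  N0 : ℕ
  E : ℕ
  hn : n = 2 ^ N0
  hN : 4 ^ 30 ≤ N0
  hE1 : N0 ^ 2 ≤ E
  hE2 : E ^ 10 ≤ n

namespace AP
variable {n : ℕ} (a : AP n)
def eps : ℝ := 1 / a.E
def eps4 : ℝ := 1 / (a.E : ℝ) ^ 3
def eps3 : ℝ := 1 / (a.E : ℝ) ^ 4
def beta : ℝ := 12 / (a.E : ℝ) ^ 3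
def Keps : ℕ := 3600 * a.E
def Q : ℕ := 3600 * a.E + 3
/-- total weight threshold of dust -/
def dl : ℝ := 2 * a.eps4 * n
end AP

/-- eta' -/
def et : ℝ := 1 / 4 ^ 25

namespace Inst
variable {n : ℕ} [NeZero n] (I : Inst n) (a : AP n) (ty : ℕ → Bool) (g : ℕ)

/-- start of the protection of all machines (for targets of type R1/R3, `ty T = true`) -/
def ta (T : ℕ) : ℕ := I.tau T a.dl

/-- machine `i` is lockable for the target `T` at time `t` -/
def lockable (T t : ℕ) (i : Fin n) : Prop := if ty T = true then I.ta a T ≤ t else i ∈ GG n g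

def win (c : ℕ → Fin n) (T t : ℕ) (i : Fin n) : Prop :=
  qq n - theta n (I.x t) < I.uu c T t i ∧ I.uu c T t i < qq n - a.beta

/-- machine found in the window at time `t` -/
def pick (c : ℕ → Fin n) (T t : ℕ) : Option (Fin n) :=
  if h : ∃ i, I.lockable a ty g T t i ∧ I.win a c T t i then some (Classical.choose h) else none

/-- the locked machine of target `T` at time `t` (the first machine ever found in the window) -/
def lk (c : ℕ → Fin n) (T : ℕ) : ℕ → Option (Fin n)
  | 0 => I.pick a ty g c T 0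
  | t + 1 => match lk c T t with
    | some X => some X
    | none => I.pick a ty g c T (t + 1)

/-- machines excluded for the task `t` -/
def Ex (N : ℕ) (c : ℕ → Fin n) (t : ℕ) : Finset (Fin n) :=
  univ.filter (fun X => ∃ T ∈ I.JJ N t, I.lk a ty g c T t = some X)

/-- available machines for task `t` that are not excluded -/
def BB (N : ℕ) (c : ℕ → Fin n) (t : ℕ) : Finset (Fin n) := I.allowed g c t \ I.Ex a ty g N c t

/-- putting task `t` on `i` would (nearly) complete `i` for the target `T` -/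
def hm (c : ℕ → Fin n) (T t : ℕ) (i : Fin n) : Prop := qq n - a.beta ≤ I.uu c T t i + I.w t

def RegP (N : ℕ) (c : ℕ → Fin n) (t : ℕ) (i : Fin n) : Prop :=
  (∀ T ∈ I.JJ N t, ty T = true → I.ta a T ≤ t → I.hm a c T t i →
    ∀ i' ∈ I.BB a ty g N c t, I.hm a c T t i') ∧
  (∀ T ∈ I.JJ N t, ty T = false → i ∈ GG n g → I.hm a c T t i →
    (∀ i' ∈ I.BB a ty g N c t ∩ GG n g, I.hm a c T t i') ∧
    (I.w t < 1 - a.eps / 2 → (I.BB a ty g N c t \ GG n g).card ≤ 18 * a.Q))

def SacP (N : ℕ) (c : ℕ → Fin n) (t : ℕ) (i : Fin n) : Prop :=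
  i ∉ GG n g ∧ I.w t < 1 - a.eps / 2 ∧
  ∀ T ∈ I.JJ N t, ty T = true → I.ta a T ≤ t → I.hm a c T t i →
    (qq n - a.beta ≤ I.uu c T t i ∨
      a.Q ≤ ((I.BB a ty g N c t).filter
        (fun i' => I.hm a c T t i' ∧ I.uu c T t i' < qq n - a.beta)).card)

/-- the controller's choice `i` for the task `t` is fine -/
def ChiOK (N : ℕ) (c : ℕ → Fin n) (t : ℕ) (i : Fin n) : Prop :=
  i ∈ I.allowed g c t ∧
  ((I.BB a ty g N c t).Nonempty →
    i ∈ I.BB a ty g N c t ∧ (I.RegP a ty g N c t i ∨ I.SacP a ty g N c t i))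

/-- controlled arrivals: coarse tasks that are active at some later target and are placed by the
uniform rule -/
def Ctl (N : ℕ) (c : ℕ → Fin n) (t : ℕ) : Prop :=
  kap n ≤ I.w t ∧ (I.JJ N t).Nonempty ∧ (I.x t ≤ 1 - dd n ∨ (I.U c t).Nonempty)

/-- deviation of the dust of target `T` arriving at times `≥ s` on machine `i` from its compensator -/
def dev (c : ℕ → Fin n) (T s : ℕ) (i : Fin n) : ℝ :=
  ∑ k ∈ (range T).filter (fun k => s ≤ k ∧ I.act T k ∧ I.w k < kap n),
    I.w k * ((if c k = i then (1 : ℝ) else 0) -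
      (if i ∈ I.allowed g c k then 1 / ((I.allowed g c k).card : ℝ) else 0))

/-- the law of large numbers event -/
def WW (N : ℕ) (c : ℕ → Fin n) : Prop :=
  ∀ T ∈ I.TT N, ∀ i, |I.dev g c T 0 i| ≤ kap1 n ∧ |I.dev g c T (I.ta a T) i| ≤ kap1 n

/-- type assignment of the targets: every target is R1 (little dust), R3 (many near-unit tasks), or
R2 (few near-unit tasks) -/
def TypesOK (N : ℕ) : Prop :=
  ∀ T ∈ I.TT N,
    (ty T = true → I.DD T 0 ≤ a.dl ∨ (a.dl < I.DD T 0 ∧
      2 * (g : ℝ) + 20 * et * n < I.NN T a.eps3)) ∧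
    (ty T = false → (I.NN T a.eps3 : ℝ) < g - 2 * et * n) ∧
    ((I.NN T a.eps : ℝ) ≤ I.NN T a.eps3 + et * n)

/-- all loads are critical at the target `T` -/
def crit (c : ℕ → Fin n) (T : ℕ) : Prop := ∀ i, qq n - dp n < I.ld c T i

/-- (nearly) complete machines of the target `T` at time `t` -/
def compl (c : ℕ → Fin n) (T t : ℕ) : Finset (Fin n) :=
  univ.filter (fun i => qq n - a.beta ≤ I.uu c T t i)

/-- the data of a controlled legal run satisfying the law of large numbers -/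
structure Run (N : ℕ) (c : ℕ → Fin n) : Prop where
  ok : I.OK N
  leg : I.Legal g c N
  ctl : ∀ t < N, I.Ctl N c t → I.ChiOK a ty g N c t (c t)
  W : I.WW a g N c
  types : I.TypesOK a ty g N
  g10 : 10 ≤ g
  g4 : 4 * g ≤ n
  gbig : n ≤ 4 ^ 19 * g

/-- no machine is ever found in the window of the target `T` -/
def NoWin (c : ℕ → Fin n) (T : ℕ) : Prop :=
  ∀ t ≤ T, ∀ i, I.lockable a ty g T t i → ¬ I.win a c T t i

end Inst

end

end RLB
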