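import Pool.Agent.RLB.Basic
import Pool.Agent.RLB.UFacts

/-! D5: the lock lemma, and consequences of the law of large numbers event for dust -/

namespace RLB

noncomputable section

open Finset Classical

namespace AP

variable {n : ℕ} (a : AP n)

theorem E_big : 10 ^ 6 ≤ a.E := by
  have h1 := a.hN
  have h2 := a.hE1
  have h3 : (10 : ℕ) ^ 6 ≤ 4 ^ 30 := by norm_num
  nlinarith

theorem E_le_n : a.E ≤ n := by
  have h1 := a.E_big
  have h2 := a.hE2
  have h3 : a.E ^ 1 ≤ a.E ^ 10 := Nat.pow_le_pow_right (by omega) (by norm_num)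
  rw [pow_one] at h3
  omega

include a in
theorem lock_n_big : 10 ^ 6 ≤ n := le_trans a.E_big a.E_le_n

theorem ER_pos : (0 : ℝ) < a.E := by
  have := a.E_big
  have h : 0 < a.E := by omega
  exact_mod_cast h

theorem ER_big : (10 : ℝ) ^ 6 ≤ a.E := by exact_mod_cast a.E_big

include a in
theorem nR_pos : (0 : ℝ) < n := by
  have := a.lock_n_big
  have h : 0 < n := by omega
  exact_mod_cast h

include a in
theorem nR_big : (10 : ℝ) ^ 6 ≤ n := by exact_mod_cast a.lock_n_big

theorem E10_le : (a.E : ℝ) ^ 10 ≤ n := by exact_mod_cast a.hE2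

theorem kap1_le_eps4 : kap1 n ≤ a.eps4 := by
  unfold kap1 eps4
  have h0 := a.ER_pos
  have h1 := a.E10_le
  have h2 := a.ER_big
  have hE1 : (1 : ℝ) ≤ a.E := le_trans (by norm_num) h2
  have h3 := a.nR_big
  have hn1 : (1 : ℝ) ≤ n := le_trans (by norm_num) h3
  apply one_div_le_one_div_of_le (by positivity)
  calc (a.E : ℝ) ^ 3 ≤ (a.E : ℝ) ^ 10 := pow_le_pow_right₀ hE1 (by norm_num)
    _ ≤ n := h1
    _ = (n : ℝ) ^ 1 := (pow_one _).symm
    _ ≤ (n : ℝ) ^ 10 := pow_le_pow_right₀ hn1 (by norm_num)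

theorem dp_le_eps4 : 2 * dp n < a.eps4 := by
  unfold dp eps4
  have h0 := a.ER_pos
  have h1 := a.E10_le
  have h2 := a.ER_big
  have hE1 : (1 : ℝ) ≤ a.E := le_trans (by norm_num) h2
  have h3 := a.nR_big
  have hn0 := a.nR_pos
  have hn1 : (1 : ℝ) ≤ n := le_trans (by norm_num) h3
  have h4 : 2 * (a.E : ℝ) ^ 3 < (n : ℝ) ^ 5 := by
    have h5 : 2 * (a.E : ℝ) ^ 3 < (a.E : ℝ) * (a.E : ℝ) ^ 3 := by
      apply mul_lt_mul_of_pos_right _ (by positivity)
      linarith [show (2 : ℝ) < 10 ^ 6 by norm_num]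
    calc 2 * (a.E : ℝ) ^ 3 < (a.E : ℝ) * (a.E : ℝ) ^ 3 := h5
      _ = (a.E : ℝ) ^ 4 := by ring
      _ ≤ (a.E : ℝ) ^ 10 := pow_le_pow_right₀ hE1 (by norm_num)
      _ ≤ n := h1
      _ = (n : ℝ) ^ 1 := (pow_one _).symm
      _ ≤ (n : ℝ) ^ 5 := pow_le_pow_right₀ hn1 (by norm_num)
  rw [show 2 * (1 / (n : ℝ) ^ 5) = 2 / (n : ℝ) ^ 5 by ring, div_lt_div_iff₀ (by positivity) (by positivity)]
  linarith

theorem lock_eps4_pos : 0 < a.eps4 := by
  unfold eps4
  have h0 := a.ER_pos
  positivity

theorem lock_beta_eq : a.beta = 12 * a.eps4 := by unfold beta eps4; ring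

theorem dl_nonneg : 0 ≤ a.dl := by
  unfold dl
  have := a.lock_eps4_pos
  have := a.nR_pos
  positivity

end AP

namespace Inst

variable {n : ℕ} [NeZero n] {I : Inst n} {a : AP n} {ty : ℕ → Bool} {g N : ℕ} {c : ℕ → Fin n}

omit [NeZero n] in
theorem lock_TT_lt {T : ℕ} (hT : T ∈ I.TT N) : T < N := by
  unfold TT at hT
  rw [mem_filter, mem_range] at hT
  exact hT.1

/-- after `ta T` every machine gets little dust of `T` -/
theorem dust_after (R : I.Run a ty g N c) {T : ℕ} (hT : T ∈ I.TT N) (i : Fin n) :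
    ∑ k ∈ (range T).filter (fun k => I.ta a T ≤ k ∧ I.act T k ∧ I.w k < kap n ∧ c k = i), I.w k
      ≤ 11 * a.eps4 := by
  have hTN := lock_TT_lt hT
  have hn := a.lock_n_big
  have hn0 := a.nR_pos
  have hW := (R.W T hT i).2
  have hdev := (abs_le.mp hW).2
  -- the sum in terms of `dev`
  have e1 : ∑ k ∈ (range T).filter
        (fun k => I.ta a T ≤ k ∧ I.act T k ∧ I.w k < kap n ∧ c k = i), I.w k =
      ∑ k ∈ (range T).filter (fun k => I.ta a T ≤ k ∧ I.act T k ∧ I.w k < kap n),
        (if c k = i then I.w k else 0) := by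
    rw [← sum_filter, filter_filter]
    apply sum_congr _ (fun _ _ => rfl)
    ext k
    simp only [mem_filter]
    tauto
  have e2 : ∑ k ∈ (range T).filter (fun k => I.ta a T ≤ k ∧ I.act T k ∧ I.w k < kap n),
        (if c k = i then I.w k else 0) =
      I.dev g c T (I.ta a T) i +
        ∑ k ∈ (range T).filter (fun k => I.ta a T ≤ k ∧ I.act T k ∧ I.w k < kap n),
          I.w k * (if i ∈ I.allowed g c k then 1 / ((I.allowed g c k).card : ℝ) else 0) := by
    unfold dev
    rw [← sum_add_distrib]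
    apply sum_congr rfl
    intro k _
    split_ifs <;> ring
  have e3 : ∑ k ∈ (range T).filter (fun k => I.ta a T ≤ k ∧ I.act T k ∧ I.w k < kap n),
          I.w k * (if i ∈ I.allowed g c k then 1 / ((I.allowed g c k).card : ℝ) else 0) ≤
      (5 / n) * I.DD T (I.ta a T) := by
    unfold DD
    rw [mul_sum]
    apply sum_le_sum
    intro k hk
    rw [mem_filter, mem_range] at hk
    have hkN : k < N := by omega
    have hw := R.ok.wpos k hkN
    obtain ⟨h1, h2⟩ := I.dust_room hn R.g4 R.ok c k hkN hk.2.2.2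
    have h3 : (if i ∈ I.allowed g c k then 1 / ((I.allowed g c k).card : ℝ) else 0) ≤ 5 / n := by
      split_ifs
      · rw [h1]
        have h4 : 0 < (n : ℝ) / 5 := by positivity
        calc 1 / ((I.Ud g c k).card : ℝ) ≤ 1 / ((n : ℝ) / 5) := one_div_le_one_div_of_le h4 h2
          _ = 5 / n := by rw [one_div_div]
      · positivity
    calc I.w k * (if i ∈ I.allowed g c k then 1 / ((I.allowed g c k).card : ℝ) else 0) ≤
        I.w k * (5 / n) := mul_le_mul_of_nonneg_left h3 hw.le
      _ = 5 / n * I.w k := mul_comm _ _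
  have e4 : I.DD T (I.ta a T) ≤ a.dl := by
    have h : I.DD T (I.ta a T) ≤ max a.dl 0 := Nat.find_spec (I.DD_exists T a.dl)
    rwa [max_eq_left a.dl_nonneg] at h
  have e5 : (5 / (n : ℝ)) * I.DD T (I.ta a T) ≤ 10 * a.eps4 := by
    calc (5 / (n : ℝ)) * I.DD T (I.ta a T) ≤ (5 / (n : ℝ)) * a.dl :=
          mul_le_mul_of_nonneg_left e4 (by positivity)
      _ = 10 * a.eps4 := by unfold AP.dl; field_simp; ring
  have e6 := a.kap1_le_eps4
  rw [e1, e2]
  linarith

/-- dust is never placed on `GG` -/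
theorem dust_not_GG (R : I.Run a ty g N c) {k : ℕ} (hk : k < N) (hw : I.w k < kap n) :
    c k ∉ GG n g := by
  obtain ⟨h1, _⟩ := I.dust_room a.lock_n_big R.g4 R.ok c k hk hw
  have h := R.leg k hk
  rw [h1] at h
  unfold Ud at h
  rw [mem_filter] at h
  exact h.2.1

omit [NeZero n] in
theorem lk_persist {T t t' : ℕ} {X : Fin n} (h : I.lk a ty g c T t = some X) (htt : t ≤ t') :
    I.lk a ty g c T t' = some X := by
  induction t', htt using Nat.le_induction with
  | base => exact h
  | succ s _ ih => unfold lk; rw [ih]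

omit [NeZero n] in
theorem lk_none {T t : ℕ} (h : ∀ s ≤ t, I.pick a ty g c T s = none) :
    I.lk a ty g c T t = none := by
  induction t with
  | zero => exact h 0 le_rfl
  | succ s ih =>
    unfold lk
    rw [ih (fun s' hs' => h s' (by omega))]
    exact h (s + 1) le_rfl

omit [NeZero n] in
/-- a machine found in a window is locked for ever -/
theorem lk_first {T t : ℕ} {i : Fin n} (h1 : I.lockable a ty g T t i) (h2 : I.win a c T t i) :
    ∃ t0 ≤ t, ∃ X, I.lockable a ty g T t0 X ∧ I.win a c T t0 X ∧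
      ∀ t' ≥ t0, I.lk a ty g c T t' = some X := by
  have hex : ∃ s, ∃ i, I.lockable a ty g T s i ∧ I.win a c T s i := ⟨t, i, h1, h2⟩
  obtain ⟨t0, hs, hmin', hle⟩ : ∃ t0, (∃ i, I.lockable a ty g T t0 i ∧ I.win a c T t0 i) ∧
      (∀ s < t0, ¬ ∃ i, I.lockable a ty g T s i ∧ I.win a c T s i) ∧ t0 ≤ t :=
    ⟨Nat.find hex, Nat.find_spec hex, fun s hs => Nat.find_min hex hs, Nat.find_min' hex ⟨i, h1, h2⟩⟩
  have hmin : ∀ s < t0, I.pick a ty g c T s = none := by
    intro s hs'
    have := hmin' s hs'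
    unfold pick
    rw [dif_neg this]
  obtain ⟨X, hX1, hX2, hp⟩ : ∃ X, I.lockable a ty g T t0 X ∧ I.win a c T t0 X ∧
      I.pick a ty g c T t0 = some X := by
    refine ⟨Classical.choose hs, (Classical.choose_spec hs).1, (Classical.choose_spec hs).2, ?_⟩
    unfold pick
    rw [dif_pos hs]
  have hl : I.lk a ty g c T t0 = some X := by
    rcases Nat.eq_zero_or_pos t0 with h0 | h0
    · subst h0
      exact hp
    · obtain ⟨s, rfl⟩ : ∃ s, t0 = s + 1 := ⟨t0 - 1, by omega⟩
      have hn := lk_none (a := a) (ty := ty) (g := g) (c := c) (I := I) (T := T) (t := s)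
        (fun s' hs'' => hmin s' (by omega))
      rw [lk, hn]
      exact hp
  exact ⟨t0, hle, X, hX1, hX2, fun t' ht' => lk_persist hl ht'⟩

theorem lock_Ex_card (hn : 10 ^ 6 ≤ n) (hI : I.OK N) (t : ℕ) : (I.Ex a ty g N c t).card ≤ 18 := by
  have h1 : I.Ex a ty g N c t ⊆ (I.JJ N t).image (fun T => (I.lk a ty g c T t).getD 0) := by
    intro X hX
    unfold Ex at hX
    rw [mem_filter] at hX
    obtain ⟨_, T, hT, hl⟩ := hX
    rw [mem_image]
    exact ⟨T, hT, by rw [hl]; rfl⟩
  refine (card_le_card h1).trans (card_image_le.trans ?_)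
  refine (card_le_card ?_).trans (I.TT_card hn hI)
  unfold JJ
  exact filter_subset _ _

/-- if every allowed machine is excluded, the task is nearly as large as the optimum -/
theorem forced_of_BB_empty (R : I.Run a ty g N c) {k : ℕ} (hk : k < N) (hw : kap n ≤ I.w k)
    (hU : (I.U c k).Nonempty) (hB : I.BB a ty g N c k = ∅) :
    (1 - lam n + 1 / n) * I.x k ≤ I.w k := by
  have hn := a.lock_n_big
  have hEx := lock_Ex_card (I := I) (a := a) (ty := ty) (g := g) (c := c) hn R.ok k
  have hsub : I.allowed g c k ⊆ I.Ex a ty g N c k := by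
    unfold BB at hB
    exact sdiff_eq_empty_iff_subset.mp hB
  by_cases hs : I.w k ≤ 3 / n ∧ I.x k ≤ 1 - dd n
  · exfalso
    obtain ⟨i, hi1, hi2⟩ := I.small_room hn R.ok c k hk hs.1 (CC n ∪ I.Ex a ty g N c k)
      ((card_union_le _ _).trans (by have := CC_card n; omega))
    rw [mem_union, not_or] at hi1
    have hiUs : i ∈ I.Us c k := by
      unfold Us
      rw [mem_filter]
      exact ⟨mem_univ _, hi1.1, hi2⟩
    apply hi1.2
    apply hsub
    unfold allowed
    rw [if_neg (not_lt.mpr hw), if_pos hs, if_pos ⟨i, hiUs⟩]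
    exact hiUs
  · apply I.forced hn R.ok c k hk (I.Cs c k ∪ I.Ex a ty g N c k)
      ((card_union_le _ _).trans (by have := I.Cs_card hn R.ok c k hk; omega))
    intro i hi hfit
    rw [mem_union, not_or] at hi
    apply hi.2
    apply hsub
    unfold allowed
    rw [if_neg (not_lt.mpr hw), if_neg hs, if_pos hU]
    unfold U
    rw [mem_filter]
    exact ⟨mem_univ _, hi.1, hfit⟩

/-- a critical target never sees a window -/
theorem lock_lemma (R : I.Run a ty g N c) {T : ℕ} (hT : T ∈ I.TT N) (hcr : I.crit c T) :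
    I.NoWin a ty g c T := by
  intro t htT i hlk hwin
  have hTN := lock_TT_lt hT
  have hn := a.lock_n_big
  have hn0 := a.nR_pos
  obtain ⟨t0, ht0, X, hX1, hX2, hX3⟩ := lk_first (I := I) (a := a) (ty := ty) (g := g) (c := c)
    hlk hwin
  have ht0T : t0 ≤ T := by omega
  by_cases hA : ∃ k, t0 ≤ k ∧ k < T ∧ I.act T k ∧ kap n ≤ I.w k ∧ c k = X
  · obtain ⟨k, hk0, hkT, hact, hwk, hck⟩ := hA
    have hkN : k < N := by omega
    have hJ : T ∈ I.JJ N k := by
      unfold JJ
      rw [mem_filter]
      exact ⟨hT, hkT, hact⟩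
    have hXEx : X ∈ I.Ex a ty g N c k := by
      unfold Ex
      rw [mem_filter]
      exact ⟨mem_univ _, T, hJ, hX3 k hk0⟩
    have hforced : (1 - lam n + 1 / n) * I.x k ≤ I.w k := by
      rcases I.coarse_cases hn R.ok c R.leg k hkN hwk with h | h
      · have hctl : I.Ctl N c k := ⟨hwk, ⟨T, hJ⟩, Or.inr h.2.2.1⟩
        have hchi := R.ctl k hkN hctl
        apply forced_of_BB_empty R hkN hwk h.2.2.1
        by_contra hne
        have hne' := nonempty_iff_ne_empty.mpr hne
        have hb := (hchi.2 hne').1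
        unfold BB at hb
        rw [mem_sdiff, hck] at hb
        exact hb.2 hXEx
      · exact h.1
    have h1 : I.uu c T (k + 1) X = I.uu c T k X + I.w k := by
      rw [I.uu_succ, if_pos ⟨hact, hck⟩]
    have h2 : I.uu c T t0 X ≤ I.uu c T k X := I.uu_mono R.ok c T t0 k hk0 hkN.le X
    have h3 : I.uu c T (k + 1) X ≤ qp n := I.uu_le_qp hn R.ok c T hT hcr (k + 1) hkT X
    have h4 := hX2.1
    have h5 : I.x t0 ≤ I.x k := R.ok.xmono t0 k hk0 hkN
    have hlam : 0 ≤ 1 - lam n := by
      unfold lam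
      have := a.nR_big
      have h6 : (80 : ℝ) / n ≤ 1 := by
        rw [div_le_one hn0]
        exact le_trans (by norm_num) this
      linarith
    have h6 : theta n (I.x t0) ≤ theta n (I.x k) := by
      unfold theta
      exact mul_le_mul_of_nonneg_left h5 hlam
    have h7 := R.ok.xlo k hkN
    have h8 : (n + 1) * dp n < 1 / n * I.x k := by
      have h9 : 1 / (n : ℝ) * (4 / n) < 1 / n * I.x k :=
        mul_lt_mul_of_pos_left h7 (by positivity)
      refine lt_of_le_of_lt ?_ h9
      unfold dp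
      have hn1 : (1 : ℝ) ≤ n := le_trans (by norm_num) a.nR_big
      rw [mul_one_div, one_div_mul_eq_div, div_div, div_le_div_iff₀ (by positivity) (by positivity)]
      have : (n : ℝ) ^ 2 * (n + 1) ≤ 4 * (n : ℝ) ^ 5 := by
        have h10 : (n : ℝ) + 1 ≤ 2 * n := by linarith
        have h11 : (n : ℝ) ^ 3 ≤ (n : ℝ) ^ 5 := pow_le_pow_right₀ hn1 (by norm_num)
        have h12 : 0 < (n : ℝ) ^ 5 := by positivity
        nlinarith [sq_nonneg (n : ℝ)]
      nlinarith
    have e : (1 - lam n + 1 / n) * I.x k = theta n (I.x k) + 1 / n * I.x k := by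
      unfold theta; ring
    unfold qp at h3
    linarith
  · push Not at hA
    -- only dust is put on `X` afterwards
    have h1 : I.uu c T T X = I.uu c T t0 X +
        ∑ k ∈ (range T).filter (fun k => t0 ≤ k ∧ I.act T k ∧ I.w k < kap n ∧ c k = X), I.w k := by
      unfold uu
      rw [add_assoc]
      congr 1
      rw [← sum_union]
      · apply sum_congr _ (fun _ _ => rfl)
        ext k
        simp only [mem_union, mem_filter, mem_range]
        constructor
        · rintro ⟨h2, h3, h4⟩
          by_cases h5 : k < t0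
          · exact Or.inl ⟨h5, h3, h4⟩
          · right
            refine ⟨h2, by omega, h3, ?_, h4⟩
            by_contra h6
            push Not at h6
            exact hA k (by omega) h2 h3 h6 h4
        · rintro (⟨h2, h3, h4⟩ | ⟨h2, h3, h4, h5, h6⟩)
          · exact ⟨by omega, h3, h4⟩
          · exact ⟨h2, h4, h6⟩
      · rw [disjoint_left]
        intro k hk hk'
        rw [mem_filter, mem_range] at hk hk'
        omega
    have h2 : ∑ k ∈ (range T).filter (fun k => t0 ≤ k ∧ I.act T k ∧ I.w k < kap n ∧ c k = X),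
        I.w k ≤ 11 * a.eps4 := by
      unfold lockable at hX1
      split_ifs at hX1 with hty
      · refine le_trans ?_ (dust_after R hT X)
        apply sum_le_sum_of_subset_of_nonneg
        · intro k hk
          rw [mem_filter] at hk ⊢
          exact ⟨hk.1, hX1.trans hk.2.1, hk.2.2⟩
        · intro k hk _
          rw [mem_filter, mem_range] at hk
          exact (R.ok.wpos k (by omega)).le
      · have hempty : (range T).filter
            (fun k => t0 ≤ k ∧ I.act T k ∧ I.w k < kap n ∧ c k = X) = ∅ := by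
          rw [filter_eq_empty_iff]
          rintro k hk ⟨_, _, h3, h4⟩
          rw [mem_range] at hk
          have := dust_not_GG R (k := k) (by omega) h3
          rw [h4] at this
          exact this hX1
        rw [hempty, sum_empty]
        have := a.lock_eps4_pos
        positivity
    have h3 := hcr X
    have h4 := hX2.2
    have h5 := a.dp_le_eps4
    have h6 := a.lock_beta_eq
    have h7 : 0 < dp n := by unfold dp; positivity
    rw [I.uu_self] at h1
    linarith

end Inst

end

end RLB
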