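import Mathlib

/-!
# Randomized online load balancing of temporary tasks on identical machines: the model (MP_247733_lc)
-/

namespace RLB

noncomputable section

open Finset Classical

/-- An event of an input: the arrival of a new task of weight `w`, or the departure of task number `k`
(tasks are numbered `0, 1, 2, ...` in the order of arrival). -/
inductive Ev where
  | arr (w : ℝ) : Ev
  | dep (k : ℕ) : Ev

/-- The weights of the tasks of an input, in the order of arrival. -/
def wts : List Ev → List ℝ
  | [] => []
  | Ev.arr w :: l => w :: wts l
  | Ev.dep _ :: l => wts l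

/-- The number of tasks that arrive. -/
def narr (σ : List Ev) : ℕ := (wts σ).length

/-- The weight of task `k`. -/
def wt (σ : List Ev) (k : ℕ) : ℝ := (wts σ).getD k 0

/-- The tasks that have departed. -/
def gone : List Ev → Finset ℕ
  | [] => ∅
  | Ev.arr _ :: l => gone l
  | Ev.dep k :: l => insert k (gone l)

/-- The tasks that are active after the events `σ`. -/
def active (σ : List Ev) : Finset ℕ := range (narr σ) \ gone σ

/-- Legal inputs: weights are positive, and only active tasks depart. -/
def Valid (σ : List Ev) : Prop :=
  (∀ τ w, (τ ++ [Ev.arr w]) <+: σ → 0 < w) ∧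
  (∀ τ k, (τ ++ [Ev.dep k]) <+: σ → k ∈ active τ)

/-- Load of machine `i` after the events `σ`, if task `k` is on machine `f k`. -/
def load {n : ℕ} (σ : List Ev) (f : ℕ → Fin n) (i : Fin n) : ℝ :=
  ∑ k ∈ (active σ).filter (fun k => f k = i), wt σ k

/-- Cost of an assignment: the maximal load over all machines and all times. -/
def cost {n : ℕ} (σ : List Ev) (f : ℕ → Fin n) : ℝ :=
  sSup {y | ∃ τ, τ <+: σ ∧ ∃ i, y = load τ f i}

/-- The offline optimum (no reassignment). -/
def OPT (n : ℕ) (σ : List Ev) : ℝ := sInf {y | ∃ f : ℕ → Fin n, y = cost σ f}

/-- A randomized online algorithm on `n` machines: a probabilistic automaton with an arbitrary state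
space.  When a task arrives it sees its weight and chooses a machine (and a new state) at random; when
a task departs it sees which one and updates its state. -/
structure RandAlg (n : ℕ) where
  State : Type
  init : PMF State
  arrive : State → ℝ → PMF (Fin n × State)
  depart : State → ℕ → PMF State

/-- The random list of machines of the tasks (in the order of arrival): `pl` is the list of the tasks
placed so far. -/
def RandAlg.run {n : ℕ} (A : RandAlg n) : A.State → List Ev → List (Fin n) → PMF (List (Fin n))
  | _, [], pl => PMF.pure pl
  | s, Ev.arr w :: l, pl => (A.arrive s w).bind (fun c => A.run c.2 l (pl ++ [c.1]))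
  | s, Ev.dep k :: l, pl => (A.depart s k).bind (fun s' => A.run s' l pl)

/-- The distribution of the list of placements on the input `σ`. -/
def RandAlg.outcome {n : ℕ} (A : RandAlg n) (σ : List Ev) : PMF (List (Fin n)) :=
  A.init.bind (fun s => A.run s σ [])

/-- The expected cost of a randomized algorithm on an input. -/
def RandAlg.expCost {n : ℕ} [NeZero n] (A : RandAlg n) (σ : List Ev) : ENNReal :=
  ∑' pl : List (Fin n), A.outcome σ pl * ENNReal.ofReal (cost σ (fun k => pl.getD k 0))

/-- `A` is `c`-competitive against oblivious adversaries. -/
def Competitive {n : ℕ} [NeZero n] (A : RandAlg n) (c : ℝ) : Prop :=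
  ∀ σ : List Ev, Valid σ → A.expCost σ ≤ ENNReal.ofReal (c * OPT n σ)

end

end RLB
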