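import Pool.Agent.RLB.Model

/-! G1: facts about the offline optimum; initial segments before arrivals -/

namespace RLB

noncomputable section

open Finset Classical

variable {n : ℕ} [NeZero n]

/-! ### helper lemmas -/

theorem optfacts_wts_append (a b : List Ev) : wts (a ++ b) = wts a ++ wts b := by
  induction a with
  | nil => rfl
  | cons e l ih => cases e <;> simp [wts, ih]

theorem optfacts_narr_append (a b : List Ev) : narr (a ++ b) = narr a + narr b := by
  unfold narr
  rw [optfacts_wts_append, List.length_append]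

theorem optfacts_gone_append (a b : List Ev) : gone (a ++ b) = gone a ∪ gone b := by
  induction a with
  | nil => simp [gone]
  | cons e l ih => cases e <;> simp [gone, ih]

theorem optfacts_narr_arr (w : ℝ) : narr [Ev.arr w] = 1 := rfl

theorem optfacts_narr_dep (k : ℕ) : narr [Ev.dep k] = 0 := rfl

theorem optfacts_gone_arr (w : ℝ) : gone [Ev.arr w] = ∅ := rfl

theorem optfacts_gone_dep (k : ℕ) : gone [Ev.dep k] = {k} := rfl

theorem Valid.of_prefix {σ τ : List Ev} (h : Valid σ) (hp : τ <+: σ) : Valid τ :=
  ⟨fun ρ w hρ => h.1 ρ w (hρ.trans hp), fun ρ k hρ => h.2 ρ k (hρ.trans hp)⟩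

/-! ### prefixes before arrivals -/

/-- the events before arrival number `m` -/
def pre : List Ev → ℕ → List Ev
  | [], _ => []
  | Ev.dep k :: l, m => Ev.dep k :: pre l m
  | Ev.arr _ :: _, 0 => []
  | Ev.arr w :: l, m + 1 => Ev.arr w :: pre l m

/-- the events up to and including arrival number `m` -/
def preA (σ : List Ev) (m : ℕ) : List Ev := pre σ m ++ [Ev.arr (wt σ m)]

theorem pre_prefix (σ : List Ev) (m : ℕ) : pre σ m <+: σ := by
  induction σ generalizing m with
  | nil => exact List.prefix_refl _
  | cons e l ih =>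
    cases e with
    | arr w =>
      cases m with
      | zero => exact List.nil_prefix
      | succ m => exact (List.prefix_cons_inj _).2 (ih m)
    | dep k => exact (List.prefix_cons_inj _).2 (ih m)

theorem preA_prefix (σ : List Ev) (m : ℕ) (hm : m < narr σ) : preA σ m <+: σ := by
  induction σ generalizing m with
  | nil => exact absurd hm (Nat.not_lt_zero _)
  | cons e l ih =>
    cases e with
    | arr w =>
      cases m with
      | zero =>
        have : preA (Ev.arr w :: l) 0 = [Ev.arr w] := rfl
        rw [this]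
        exact ⟨l, rfl⟩
      | succ m =>
        have : preA (Ev.arr w :: l) (m + 1) = Ev.arr w :: preA l m := rfl
        rw [this]
        exact (List.prefix_cons_inj _).2 (ih m (Nat.lt_of_succ_lt_succ hm))
    | dep k =>
      have : preA (Ev.dep k :: l) m = Ev.dep k :: preA l m := rfl
      rw [this]
      exact (List.prefix_cons_inj _).2 (ih m hm)

theorem pre_mono (σ : List Ev) {m m' : ℕ} (h : m ≤ m') : pre σ m <+: pre σ m' := by
  induction σ generalizing m m' with
  | nil => exact List.prefix_refl _
  | cons e l ih =>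
    cases e with
    | arr w =>
      cases m with
      | zero => exact List.nil_prefix
      | succ m =>
        cases m' with
        | zero => exact absurd h (Nat.not_succ_le_zero _)
        | succ m' => exact (List.prefix_cons_inj _).2 (ih (Nat.le_of_succ_le_succ h))
    | dep k => exact (List.prefix_cons_inj _).2 (ih h)

theorem preA_pre (σ : List Ev) {m m' : ℕ} (h : m < m') (hm : m < narr σ) : preA σ m <+: pre σ m' := by
  induction σ generalizing m m' with
  | nil => exact absurd hm (Nat.not_lt_zero _)
  | cons e l ih =>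
    cases e with
    | arr w =>
      cases m' with
      | zero => exact absurd h (Nat.not_lt_zero _)
      | succ m' =>
        cases m with
        | zero =>
          have : preA (Ev.arr w :: l) 0 = [Ev.arr w] := rfl
          rw [this]
          exact ⟨pre l m', rfl⟩
        | succ m =>
          have : preA (Ev.arr w :: l) (m + 1) = Ev.arr w :: preA l m := rfl
          rw [this]
          exact (List.prefix_cons_inj _).2 (ih (Nat.lt_of_succ_lt_succ h) (Nat.lt_of_succ_lt_succ hm))
    | dep k =>
      have : preA (Ev.dep k :: l) m = Ev.dep k :: preA l m := rfl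
      rw [this]
      exact (List.prefix_cons_inj _).2 (ih h hm)

theorem narr_pre (σ : List Ev) (m : ℕ) (hm : m ≤ narr σ) : narr (pre σ m) = m := by
  induction σ generalizing m with
  | nil => exact (Nat.le_zero.1 hm).symm
  | cons e l ih =>
    cases e with
    | arr w =>
      cases m with
      | zero => rfl
      | succ m =>
        have h1 : narr (pre (Ev.arr w :: l) (m + 1)) = narr (pre l m) + 1 := rfl
        rw [h1, ih m (Nat.le_of_succ_le_succ hm)]
    | dep k => exact ih m hm

theorem wt_prefix {σ τ : List Ev} (hp : τ <+: σ) (k : ℕ) (hk : k < narr τ) : wt τ k = wt σ k := by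
  obtain ⟨t, rfl⟩ := hp
  unfold wt
  rw [optfacts_wts_append, List.getD_append _ _ _ _ hk]

theorem optfacts_pre_append (τ t : List Ev) (k : ℕ) (hk : k < narr τ) :
    pre (τ ++ t) k = pre τ k := by
  induction τ generalizing k with
  | nil => exact absurd hk (Nat.not_lt_zero _)
  | cons e l ih =>
    cases e with
    | arr w =>
      cases k with
      | zero => rfl
      | succ k =>
        have := ih k (Nat.lt_of_succ_lt_succ hk)
        simp [pre, this]
    | dep j =>
      have := ih k hk
      simp [pre, this]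

/-- prefixes before arrivals can be computed from any longer prefix -/
theorem pre_of_prefix {σ τ : List Ev} (hp : τ <+: σ) (k : ℕ) (hk : k < narr τ) : pre τ k = pre σ k := by
  obtain ⟨t, rfl⟩ := hp
  exact (optfacts_pre_append τ t k hk).symm

theorem preA_of_prefix {σ τ : List Ev} (hp : τ <+: σ) (k : ℕ) (hk : k < narr τ) :
    preA τ k = preA σ k := by
  unfold preA
  rw [pre_of_prefix hp k hk, wt_prefix hp k hk]

theorem optfacts_pre_arr (τ t : List Ev) (w : ℝ) :
    pre (τ ++ Ev.arr w :: t) (narr τ) = τ := by
  induction τ with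
  | nil => rfl
  | cons e l ih =>
    cases e with
    | arr v =>
      have : narr (Ev.arr v :: l) = narr l + 1 := rfl
      rw [this]
      simp [pre, ih]
    | dep j =>
      have : narr (Ev.dep j :: l) = narr l := rfl
      rw [this]
      simp [pre, ih]

theorem optfacts_wt_arr (τ t : List Ev) (w : ℝ) :
    wt (τ ++ Ev.arr w :: t) (narr τ) = w := by
  unfold wt narr
  rw [optfacts_wts_append, List.getD_append_right _ _ _ _ le_rfl]
  simp [wts]

/-- `τ ++ [arr w]` is `preA` of the whole input -/
theorem preA_eq {σ τ : List Ev} {w : ℝ} (hp : (τ ++ [Ev.arr w]) <+: σ) :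
    preA σ (narr τ) = τ ++ [Ev.arr w] ∧ pre σ (narr τ) = τ ∧ wt σ (narr τ) = w ∧
      narr τ < narr σ := by
  obtain ⟨t, rfl⟩ := hp
  have e : τ ++ [Ev.arr w] ++ t = τ ++ Ev.arr w :: t := by simp
  rw [e]
  have h1 := optfacts_pre_arr τ t w
  have h2 := optfacts_wt_arr τ t w
  refine ⟨?_, h1, h2, ?_⟩
  · unfold preA
    rw [h1, h2]
  · rw [optfacts_narr_append]
    have : narr (Ev.arr w :: t) = narr t + 1 := rfl
    omega

theorem gone_mono {σ τ : List Ev} (hp : τ <+: σ) : gone τ ⊆ gone σ := by
  obtain ⟨t, rfl⟩ := hp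
  rw [optfacts_gone_append]
  exact subset_union_left

/-- departed tasks have arrived -/
theorem gone_lt {σ : List Ev} (h : Valid σ) {k : ℕ} (hk : k ∈ gone σ) : k < narr σ := by
  induction σ using List.reverseRecOn with
  | nil => simp [gone] at hk
  | append_singleton τ e ih =>
    have hv := h.of_prefix (List.prefix_append τ [e])
    rw [optfacts_gone_append, mem_union] at hk
    rw [optfacts_narr_append]
    rcases hk with hk | hk
    · have := ih hv hk
      omega
    · cases e with
      | arr w => simp [gone] at hk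
      | dep j =>
        rw [optfacts_gone_dep, mem_singleton] at hk
        subst hk
        have h1 := h.2 τ k (List.prefix_refl _)
        unfold active at h1
        have h2 := mem_range.1 (mem_sdiff.1 h1).1
        omega

/-! ### weights, loads, costs -/

theorem wt_pos {σ : List Ev} (h : Valid σ) (k : ℕ) (hk : k < narr σ) : 0 < wt σ k :=
  h.1 (pre σ k) (wt σ k) (preA_prefix σ k hk)

theorem wt_nonneg {σ : List Ev} (h : Valid σ) (k : ℕ) : 0 ≤ wt σ k := by
  by_cases hk : k < narr σ
  · exact (wt_pos h k hk).le
  · unfold wt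
    rw [List.getD_eq_default _ _ (not_lt.1 hk)]

theorem load_nonneg {σ : List Ev} (h : Valid σ) (f : ℕ → Fin n) (i : Fin n) : 0 ≤ load σ f i :=
  sum_nonneg fun k _ => wt_nonneg h k

theorem optfacts_finite (σ : List Ev) (f : ℕ → Fin n) :
    {y | ∃ τ, τ <+: σ ∧ ∃ i, y = load τ f i}.Finite := by
  have h1 : ({τ : List Ev | τ ∈ σ.inits} ×ˢ (Set.univ : Set (Fin n))).Finite :=
    (List.finite_toSet _).prod Set.finite_univ
  refine (h1.image fun p : List Ev × Fin n => load p.1 f p.2).subset ?_
  rintro y ⟨τ, hτ, i, rfl⟩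
  exact ⟨(τ, i), ⟨(List.mem_inits _ _).2 hτ, Set.mem_univ _⟩, rfl⟩

theorem load_le_cost {σ τ : List Ev} (hp : τ <+: σ) (f : ℕ → Fin n) (i : Fin n) :
    load τ f i ≤ cost σ f :=
  le_csSup (optfacts_finite σ f).bddAbove ⟨τ, hp, i, rfl⟩

theorem cost_le {σ : List Ev} (f : ℕ → Fin n) (b : ℝ)
    (h : ∀ τ, τ <+: σ → ∀ i, load τ f i ≤ b) : cost σ f ≤ b := by
  refine csSup_le ⟨load [] f 0, [], List.nil_prefix, 0, rfl⟩ ?_
  rintro y ⟨τ, hτ, i, rfl⟩
  exact h τ hτ i

theorem optfacts_load_congr {τ : List Ev} (f f' : ℕ → Fin n) (h : ∀ k < narr τ, f k = f' k)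
    (i : Fin n) : load τ f i = load τ f' i := by
  unfold load
  have : (active τ).filter (fun k => f k = i) = (active τ).filter (fun k => f' k = i) := by
    apply filter_congr
    intro k hk
    unfold active at hk
    rw [h k (mem_range.1 (mem_sdiff.1 hk).1)]
  rw [this]

theorem optfacts_narr_le {σ τ : List Ev} (hp : τ <+: σ) : narr τ ≤ narr σ := by
  obtain ⟨t, rfl⟩ := hp
  rw [optfacts_narr_append]
  exact Nat.le_add_right _ _

/-- the cost only depends on the placements of the tasks that arrive -/
theorem cost_congr {σ : List Ev} (f f' : ℕ → Fin n) (h : ∀ k < narr σ, f k = f' k) :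
    cost σ f = cost σ f' := by
  have h1 : ∀ f f' : ℕ → Fin n, (∀ k < narr σ, f k = f' k) → cost σ f ≤ cost σ f' := by
    intro f f' h
    refine cost_le f _ fun τ hτ i => ?_
    rw [optfacts_load_congr f f' (fun k hk => h k (hk.trans_le (optfacts_narr_le hτ))) i]
    exact load_le_cost hτ f' i
  exact le_antisymm (h1 f f' h) (h1 f' f fun k hk => (h k hk).symm)

theorem optfacts_load_nil (f : ℕ → Fin n) (i : Fin n) : load [] f i = 0 := by
  simp [load, active, narr, wts]

theorem optfacts_cost_nonneg (σ : List Ev) (f : ℕ → Fin n) : 0 ≤ cost σ f := by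
  rw [← optfacts_load_nil f 0]
  exact load_le_cost List.nil_prefix f 0

theorem OPT_le (σ : List Ev) (f : ℕ → Fin n) : OPT n σ ≤ cost σ f := by
  refine csInf_le ⟨0, ?_⟩ ⟨f, rfl⟩
  rintro y ⟨f, rfl⟩
  exact optfacts_cost_nonneg σ f

theorem exists_OPT (σ : List Ev) : ∃ f : ℕ → Fin n, cost σ f = OPT n σ := by
  have hfin : {y | ∃ f : ℕ → Fin n, y = cost σ f}.Finite := by
    have h1 : (Set.univ : Set (Fin (narr σ) → Fin n)).Finite := Set.finite_univ
    refine (h1.image fun g => cost σ
      (fun k => if h : k < narr σ then g ⟨k, h⟩ else (0 : Fin n))).subset ?_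
    rintro y ⟨f, rfl⟩
    refine ⟨fun k => f k, Set.mem_univ _, ?_⟩
    refine cost_congr _ _ fun k hk => ?_
    simp [hk]
  have hne : {y | ∃ f : ℕ → Fin n, y = cost σ f}.Nonempty := ⟨_, fun _ => 0, rfl⟩
  obtain ⟨f, hf⟩ := hne.csInf_mem hfin
  exact ⟨f, hf.symm⟩

theorem OPT_nonneg (σ : List Ev) : 0 ≤ OPT n σ := by
  obtain ⟨f, hf⟩ := exists_OPT (n := n) σ
  rw [← hf]
  exact optfacts_cost_nonneg σ f

theorem OPT_mono {σ τ : List Ev} (hp : τ <+: σ) : OPT n τ ≤ OPT n σ := by
  obtain ⟨f, hf⟩ := exists_OPT (n := n) σ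
  rw [← hf]
  refine (OPT_le τ f).trans (cost_le f _ fun ρ hρ i => load_le_cost (hρ.trans hp) f i)

theorem optfacts_sum_load (τ : List Ev) (f : ℕ → Fin n) :
    ∑ i, load τ f i = ∑ k ∈ active τ, wt τ k := by
  unfold load
  exact sum_fiberwise (active τ) f (fun k => wt τ k)

/-- total active weight is at most `n * OPT` -/
theorem vol_le_OPT {σ : List Ev} (τ : List Ev) (hp : τ <+: σ) :
    ∑ k ∈ active τ, wt τ k ≤ n * OPT n σ := by
  obtain ⟨f, hf⟩ := exists_OPT (n := n) σ
  rw [← optfacts_sum_load τ f, ← hf]
  calc ∑ i, load τ f i ≤ ∑ _i : Fin n, cost σ f := sum_le_sum fun i _ => load_le_cost hp f i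
    _ = n * cost σ f := by simp

theorem optfacts_load_dep {σ : List Ev} {k : ℕ} (h : Valid (σ ++ [Ev.dep k])) (f : ℕ → Fin n)
    (i : Fin n) : load (σ ++ [Ev.dep k]) f i ≤ load σ f i := by
  have hv := h.of_prefix (List.prefix_append σ [Ev.dep k])
  unfold load
  have h1 : narr (σ ++ [Ev.dep k]) = narr σ := by
    rw [optfacts_narr_append, optfacts_narr_dep, add_zero]
  have h2 : active (σ ++ [Ev.dep k]) ⊆ active σ := by
    unfold active
    rw [h1, optfacts_gone_append]
    exact sdiff_subset_sdiff (subset_refl _) subset_union_left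
  have h3 : ∀ j ∈ (active (σ ++ [Ev.dep k])).filter (fun j => f j = i),
      wt (σ ++ [Ev.dep k]) j = wt σ j := by
    intro j hj
    have := h2 (mem_filter.1 hj).1
    unfold active at this
    exact (wt_prefix (List.prefix_append σ [Ev.dep k]) j
      (mem_range.1 (mem_sdiff.1 this).1)).symm
  rw [sum_congr rfl h3]
  exact sum_le_sum_of_subset_of_nonneg (filter_subset_filter _ h2) fun j _ _ => wt_nonneg hv j

/-- a departure does not change OPT -/
theorem OPT_dep {σ : List Ev} {k : ℕ} (h : Valid (σ ++ [Ev.dep k])) :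
    OPT n (σ ++ [Ev.dep k]) = OPT n σ := by
  apply le_antisymm
  · obtain ⟨f, hf⟩ := exists_OPT (n := n) σ
    rw [← hf]
    refine (OPT_le _ f).trans (cost_le f _ fun τ hτ i => ?_)
    rcases List.prefix_concat_iff.1 hτ with rfl | hτ
    · exact (optfacts_load_dep h f i).trans (load_le_cost (List.prefix_refl _) f i)
    · exact load_le_cost hτ f i
  · exact OPT_mono (List.prefix_append _ _)

theorem optfacts_load_arr {τ : List Ev} {w : ℝ} (h : Valid (τ ++ [Ev.arr w])) (f : ℕ → Fin n)
    (i : Fin n) : load (τ ++ [Ev.arr w]) f i =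
      load τ f i + if f (narr τ) = i then w else 0 := by
  have hv := h.of_prefix (List.prefix_append τ [Ev.arr w])
  have h1 : narr (τ ++ [Ev.arr w]) = narr τ + 1 := by
    rw [optfacts_narr_append, optfacts_narr_arr]
  have h2 : narr τ ∉ gone τ := fun h => absurd (gone_lt hv h) (lt_irrefl _)
  have h3 : active (τ ++ [Ev.arr w]) = insert (narr τ) (active τ) := by
    unfold active
    rw [h1, optfacts_gone_append, optfacts_gone_arr, union_empty, range_add_one,
      insert_sdiff_of_notMem _ h2]
  have h4 : narr τ ∉ active τ := by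
    unfold active
    simp
  have h5 : wt (τ ++ [Ev.arr w]) (narr τ) = w := optfacts_wt_arr τ [] w
  have h6 : ∑ k ∈ (active τ).filter (fun k => f k = i), wt (τ ++ [Ev.arr w]) k =
      ∑ k ∈ (active τ).filter (fun k => f k = i), wt τ k := by
    refine sum_congr rfl fun k hk => ?_
    have := (mem_filter.1 hk).1
    unfold active at this
    exact (wt_prefix (List.prefix_append τ [Ev.arr w]) k
      (mem_range.1 (mem_sdiff.1 this).1)).symm
  unfold load
  rw [h3, filter_insert]
  split_ifs with hi
  · rw [sum_insert (fun hh => h4 (mem_filter.1 hh).1), h5, h6, add_comm]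
  · rw [h6, add_zero]

/-- maximal loads are reached right after arrivals, on the machine of the new task -/
theorem cost_le_of_arrivals {σ : List Ev} (hv : Valid σ) (f : ℕ → Fin n) (b : ℝ) (hb : 0 ≤ b)
    (h : ∀ m < narr σ, load (pre σ m) f (f m) + wt σ m ≤ b) : cost σ f ≤ b := by
  refine cost_le f b fun τ hτ => ?_
  induction τ using List.reverseRecOn with
  | nil =>
    intro i
    rw [optfacts_load_nil]
    exact hb
  | append_singleton τ e ih =>
    intro i
    have hτ' := (List.prefix_append τ [e]).trans hτ
    have hv' := hv.of_prefix hτ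
    cases e with
    | arr w =>
      rw [optfacts_load_arr hv']
      split_ifs with hi
      · obtain ⟨-, h2, h3, h4⟩ := preA_eq hτ
        have := h (narr τ) h4
        rw [h2, h3, hi] at this
        exact this
      · rw [add_zero]
        exact ih hτ' i
    | dep k => exact (optfacts_load_dep hv' f i).trans (ih hτ' i)

/-- the optimum is reached at the last arrival -/
theorem OPT_last {σ : List Ev} (hv : Valid σ) (h : 0 < narr σ) :
    OPT n (preA σ (narr σ - 1)) = OPT n σ := by
  induction σ using List.reverseRecOn with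
  | nil => exact absurd h (Nat.not_lt_zero _)
  | append_singleton τ e ih =>
    have hv' := hv.of_prefix (List.prefix_append τ [e])
    cases e with
    | arr w =>
      obtain ⟨h1, -, -, -⟩ := preA_eq (List.prefix_refl (τ ++ [Ev.arr w]))
      have h2 : narr (τ ++ [Ev.arr w]) - 1 = narr τ := by
        rw [optfacts_narr_append, optfacts_narr_arr, Nat.add_sub_cancel]
      rw [h2, h1]
    | dep k =>
      have h1 : narr (τ ++ [Ev.dep k]) = narr τ := by
        rw [optfacts_narr_append, optfacts_narr_dep, add_zero]
      rw [h1] at h ⊢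
      rw [OPT_dep hv, ← ih hv' h, preA_of_prefix (List.prefix_append τ [Ev.dep k]) _ (by omega)]

end

end RLB
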