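import Pool.Agent.RLB.R13

/-! D9: targets with little dust are not critical -/

namespace RLB

noncomputable section

open Finset Classical

namespace AP

variable {n : ℕ} (a : AP n)

include a

/-- numerical facts used for the targets with little dust -/
theorem r1_nums : 0 < a.beta ∧ a.beta ≤ 1 / 10 ^ 9 ∧ 0 < 1 / (n : ℝ) ∧ 1 / (n : ℝ) ≤ 1 / 10 ^ 9 ∧
    81 * (1 / (n : ℝ)) ≤ a.beta ∧ dp n ≤ 1 / 10 ^ 9 := by
  have h1 := a.beta_pos
  have h2 := a.beta_le
  have h3 := a.inv_n_pos
  have h4 := a.inv_n_le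
  have h5 := a.inv_n_le_beta
  have h6 : (1 / 10 ^ 100 : ℝ) ≤ 1 / 10 ^ 9 := by norm_num
  have h7 : (1 / 10 ^ 200 : ℝ) ≤ 1 / 10 ^ 9 := by norm_num
  have h8 : (81 * (1 / 10 ^ 200) : ℝ) ≤ 1 := by norm_num
  have h9 := a.dp_le'
  refine ⟨h1, h2.trans h6, h3, h4.trans h7, ?_, h9.trans (h4.trans h7)⟩
  nlinarith

theorem r1_chain_num : 2 * a.beta * (a.N0 : ℝ) ≤ 1 / 10 ^ 6 := by
  have h1 : (a.N0 : ℝ) ^ 2 ≤ a.E := by exact_mod_cast a.hE1
  have h2 : (1 : ℝ) ≤ a.N0 := by
    have := a.hN
    have h3 : 1 ≤ a.N0 := le_trans (by norm_num) this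
    exact_mod_cast h3
  have h3 : (a.N0 : ℝ) ≤ a.E := by nlinarith
  have h4 := a.E_pos
  have h5 := a.E_ge
  unfold beta
  have e : 2 * (12 / (a.E : ℝ) ^ 3) * (a.N0 : ℝ) = 24 * a.N0 / (a.E : ℝ) ^ 3 := by ring
  rw [e, div_le_div_iff₀ (by positivity) (by positivity)]
  have h6 : (10 : ℝ) ^ 9 ≤ a.E := le_trans (by norm_num) h5
  have h7 : 24 * (a.N0 : ℝ) * 10 ^ 6 ≤ 24 * a.E * 10 ^ 6 := by linarith
  have h8 : (24 : ℝ) * 10 ^ 6 ≤ (a.E : ℝ) ^ 2 := by nlinarith
  calc 24 * (a.N0 : ℝ) * 10 ^ 6 ≤ 24 * a.E * 10 ^ 6 := h7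
    _ = (24 * 10 ^ 6) * a.E := by ring
    _ ≤ (a.E : ℝ) ^ 2 * a.E := mul_le_mul_of_nonneg_right h8 h4.le
    _ = 1 * (a.E : ℝ) ^ 3 := by ring

end AP

namespace Inst

variable {n : ℕ} [NeZero n] {I : Inst n} {a : AP n} {ty : ℕ → Bool} {g N : ℕ} {c : ℕ → Fin n}

omit [NeZero n] in
theorem r1_ta {T : ℕ} (hd : I.DD T 0 ≤ a.dl) : I.ta a T = 0 := by
  unfold ta tau
  rw [Nat.find_eq_zero]
  exact hd.trans (le_max_left _ _)

omit [NeZero n] in
theorem r1_lockable {T : ℕ} (hty : ty T = true)
    (hd : I.DD T 0 ≤ a.dl) (t : ℕ) (i : Fin n) : I.lockable a ty g T t i := by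
  unfold lockable
  rw [if_pos hty, r1_ta hd]
  exact Nat.zero_le _

/-- every event has weight at least `1/2 - 2 beta` -/
theorem r1_first (R : I.Run a ty g N c) {T : ℕ} (hT : T ∈ I.TT N) (hty : ty T = true)
    (hd : I.DD T 0 ≤ a.dl) (hcr : I.crit c T) {t : ℕ} (hE : Event I a c T t) :
    1 / 2 - 2 * a.beta ≤ I.w t := by
  have hL : I.lockable a ty g T t (c t) := r1_lockable hty hd t (c t)
  have ht : I.ta a T ≤ t := by rw [r1_ta hd]; exact Nat.zero_le _
  obtain ⟨hb0, hb1, hn0, hn1, hnb, hdp⟩ := a.r1_nums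
  by_cases hx : I.x t ≤ 1 - dd n
  · have hR := all_reg R hT hty hcr ht hE hx
    have hV := reg_volume R hT hty hcr ht hE hx hR
    obtain ⟨_, _, _, hw, _, _⟩ := event_basic R hT hcr hE hL
    obtain ⟨hx49, hx1⟩ := event_x' R hT hE
    set K : ℝ := ((I.compl a c T t).card : ℝ) with hK
    set A : ℝ := ((I.BB a ty g N c t \ I.compl a c T t).card : ℝ) with hA
    have hK0 : 0 ≤ K := Nat.cast_nonneg _
    have hA0 : 0 ≤ A := Nat.cast_nonneg _
    have hxb : (qq n - a.beta) / 2 ≤ I.x t := by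
      by_contra hcon
      push Not at hcon
      have h1 : I.x t * (K + 2 * A + 36) ≤ (qq n - a.beta) / 2 * (K + 2 * A + 36) :=
        mul_le_mul_of_nonneg_right hcon.le (by positivity)
      have h2 : I.x t * (K + 2 * A + 36) < (qq n - a.beta) / 2 * (K + 2 * A + 36) :=
        mul_lt_mul_of_pos_right hcon (by positivity)
      have h3 : (qq n - a.beta) / 2 * (K + 2 * A + 36) ≤ (K + A + 18) * (qq n - a.beta) := by
        have h4 : 0 ≤ qq n - a.beta := by unfold qq; linarith
        nlinarith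
      linarith
    unfold theta at hw
    rw [AP.lam_eq] at hw
    unfold qq at hxb
    nlinarith
  · push Not at hx
    have := event_phase2 R hT hcr hE hL hx
    linarith

/-- one step of the chain argument -/
theorem r1_step (R : I.Run a ty g N c) {T : ℕ} (hT : T ∈ I.TT N) (hty : ty T = true)
    (hd : I.DD T 0 ≤ a.dl) (hcr : I.crit c T) {t : ℕ} (hE : Event I a c T t)
    (hK : 1 ≤ (I.compl a c T t).card) : 1 / 2 + 1 / 1000 ≤ I.w t ∨
    (I.x t ≤ 1 - dd n ∧ 9 * (I.compl a c T t).card < (I.BB a ty g N c t \ I.compl a c T t).card) := by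
  have hL : I.lockable a ty g T t (c t) := r1_lockable hty hd t (c t)
  have ht : I.ta a T ≤ t := by rw [r1_ta hd]; exact Nat.zero_le _
  obtain ⟨hb0, hb1, hn0, hn1, hnb, hdp⟩ := a.r1_nums
  by_cases hx : I.x t ≤ 1 - dd n
  · by_cases hA9 : 9 * (I.compl a c T t).card < (I.BB a ty g N c t \ I.compl a c T t).card
    · exact Or.inr ⟨hx, hA9⟩
    left
    push Not at hA9
    have hR := all_reg R hT hty hcr ht hE hx
    have hV := reg_volume R hT hty hcr ht hE hx hR
    obtain ⟨_, _, _, hw, _, _⟩ := event_basic R hT hcr hE hL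
    obtain ⟨hx49, hx1⟩ := event_x' R hT hE
    have hA9' : ((I.BB a ty g N c t \ I.compl a c T t).card : ℝ) ≤ 9 * ((I.compl a c T t).card : ℝ) := by
      exact_mod_cast hA9
    have hK' : (1 : ℝ) ≤ ((I.compl a c T t).card : ℝ) := by exact_mod_cast hK
    have hA0 : (0 : ℝ) ≤ ((I.BB a ty g N c t \ I.compl a c T t).card : ℝ) := Nat.cast_nonneg _
    generalize ((I.compl a c T t).card : ℝ) = K at *
    generalize ((I.BB a ty g N c t \ I.compl a c T t).card : ℝ) = A at *
    -- `x ≥ (q - beta) (1/2 + 1/110)`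
    have hq : 0 ≤ qq n - a.beta := by unfold qq; linarith
    have hxb : (qq n - a.beta) * (1 / 2 + 1 / 110) ≤ I.x t := by
      by_contra hcon
      push Not at hcon
      have h2 : I.x t * (K + 2 * A + 36) < (qq n - a.beta) * (1 / 2 + 1 / 110) * (K + 2 * A + 36) :=
        mul_lt_mul_of_pos_right hcon (by positivity)
      have h3 : (1 / 2 + 1 / 110) * (K + 2 * A + 36) ≤ K + A + 18 := by linarith
      have h4 : (qq n - a.beta) * ((1 / 2 + 1 / 110) * (K + 2 * A + 36)) ≤
          (qq n - a.beta) * (K + A + 18) := mul_le_mul_of_nonneg_left h3 hq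
      linarith
    unfold theta at hw
    rw [AP.lam_eq] at hw
    unfold qq at hxb
    nlinarith
  · push Not at hx
    left
    have := event_phase2 R hT hcr hE hL hx
    linarith

/-- every event but the first one has weight more than `1/2 + 1/1300` -/
theorem r1_later (R : I.Run a ty g N c) {T : ℕ} (hT : T ∈ I.TT N) (hty : ty T = true)
    (hd : I.DD T 0 ≤ a.dl) (hcr : I.crit c T) {t : ℕ} (hE : Event I a c T t)
    (hK : 1 ≤ (I.compl a c T t).card) : 1 / 2 + 1 / 1300 ≤ I.w t := by
  obtain ⟨hb0, hb1, hn0, hn1, hnb, hdp⟩ := a.r1_nums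
  have hch := chain c (fun s => I.compl a c T s) I.w univ 0 T (n : ℝ)
    (by rw [card_univ, Fintype.card_fin])
    (fun s s' _ h1 h2 => compl_mono R hT h1 h2)
    (fun s _ _ i h1 h2 => compl_step R h1 h2)
    (by rw [compl_end R hT hcr]) 1 8 (1 / 2 + 1 / 1000) (2 * a.beta) (by norm_num) (by linarith)
    (by
      intro s _ hsT _ hc1 hc2 hK1
      simp only [inter_univ] at hK1 ⊢
      have hEs : Event I a c T s := ⟨hsT, hc1, hc2⟩
      rcases r1_step R hT hty hd hcr hEs hK1 with h | ⟨hx, h9⟩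
      · exact Or.inl h
      right
      have hs0 : I.ta a T ≤ s := by rw [r1_ta hd]; exact Nat.zero_le _
      have hR := all_reg R hT hty hcr hs0 hEs hx
      have hcard : (I.BB a ty g N c s \ I.compl a c T s).card ≤
          ((I.BB a ty g N c s \ I.compl a c T s).erase (c s)).card + 1 := by
        have := pred_card_le_card_erase (s := I.BB a ty g N c s \ I.compl a c T s) (a := c s)
        omega
      refine ⟨(I.BB a ty g N c s \ I.compl a c T s).erase (c s), subset_univ _, ?_, ?_, ?_, ?_⟩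
      · apply card_pos.mp
        omega
      · rw [disjoint_left]
        intro i hi hi'
        obtain ⟨h1, h2⟩ := mem_erase.mp hi
        exact h1 (compl_step R (mem_sdiff.mp h2).2 hi')
      · have h10 : 7 * (I.compl a c T s).card ≤
            ((I.BB a ty g N c s \ I.compl a c T s).erase (c s)).card := by omega
        have h11 : (7 : ℝ) * ((I.compl a c T s).card : ℝ) ≤
            (((I.BB a ty g N c s \ I.compl a c T s).erase (c s)).card : ℝ) := by exact_mod_cast h10
        linarith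
      · intro t' h1 h2 h3 h4 h5
        have hL' : I.lockable a ty g T t' (c t') := r1_lockable hty hd t' (c t')
        apply later R hT hcr h1 ⟨h2, h4, h5⟩ hL'
        exact hR _ (mem_sdiff.mp (mem_of_mem_erase h3)).1)
    a.N0 t (Nat.zero_le _) hE.1 (mem_univ _) hE.2.1 hE.2.2 (by simpa only [inter_univ] using hK)
    (by
      simp only [inter_univ]
      have h1 : (n : ℝ) = 2 ^ a.N0 := by
        have := a.hn
        exact_mod_cast this
      have h2 : (1 : ℝ) ≤ ((I.compl a c T t).card : ℝ) := by exact_mod_cast hK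
      have h3 : (2 : ℝ) ^ a.N0 ≤ 8 ^ a.N0 := pow_le_pow_left₀ (by norm_num) (by norm_num) _
      have h4 : (0 : ℝ) < 8 ^ a.N0 := by positivity
      rw [h1]
      nlinarith)
  have h := a.r1_chain_num
  have h6 : (1 / 10 ^ 6 : ℝ) = 1 / 1000000 := by norm_num
  linarith

theorem r1_false (R : I.Run a ty g N c) {T : ℕ} (hT : T ∈ I.TT N) (hty : ty T = true)
    (hd : I.DD T 0 ≤ a.dl) (hcr : I.crit c T) : False := by
  obtain ⟨hb0, hb1, hn0, hn1, hnb, hdp⟩ := a.r1_nums
  have hTN := TT_lt hT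
  have hdan : I.danger T := by
    unfold TT at hT
    rw [mem_filter] at hT
    exact hT.2.1
  have hwT : 1 - 2 * dp n ≤ I.w T := hdan.2.1
  -- the completion events
  have hev : ∀ i : Fin n, ∃ t, Event I a c T t ∧ c t = i := by
    intro i
    obtain ⟨t, _, h2, h3, h4, h5⟩ := exists_event c (fun s => I.compl a c T s) 0 T
      (fun s _ _ i h1 h2 => compl_step R h1 h2) 0 le_rfl (Nat.zero_le _) i
      (by rw [compl_zero R T]; exact notMem_empty _) (by rw [compl_end R hT hcr]; exact mem_univ _)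
    exact ⟨t, ⟨h2, by rw [h3]; exact h4, by rw [h3]; exact h5⟩, h3⟩
  choose e he hce using hev
  have hinj : Function.Injective e := by
    intro i j hij
    rw [← hce i, ← hce j, hij]
  have hact : ∀ i, I.act T (e i) := fun i => (event_x R hT (he i)).2.1
  have hwe : ∀ i, 1 / 2 - 2 * a.beta ≤ I.w (e i) := fun i => r1_first R hT hty hd hcr (he i)
  -- two distinct events have total weight more than `1`
  have hlt : ∀ i j, e i < e j → 1 < I.w (e i) + I.w (e j) := by
    intro i j hlt
    have h1 : c (e i) ∈ I.compl a c T (e j) :=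
      compl_mono R hT (t := e i + 1) (t' := e j) (by omega) (he j).1.le (he i).2.2
    have h2 : 1 ≤ (I.compl a c T (e j)).card := card_pos.mpr ⟨_, h1⟩
    have h3 := r1_later R hT hty hd hcr (he j) h2
    have h4 := hwe i
    linarith
  have htwo : ∀ i j, i ≠ j → 1 < I.w (e i) + I.w (e j) := by
    intro i j hij
    rcases lt_or_gt_of_ne (fun h => hij (hinj h)) with h | h
    · exact hlt i j h
    · have := hlt j i h
      linarith
  obtain ⟨f, hf⟩ := R.ok.pack T hTN
  have hx1 := R.ok.xhi T hTN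
  have hsum_nn : ∀ (S : Finset ℕ), S ⊆ range T → 0 ≤ ∑ k ∈ S, I.w k := by
    intro S hS
    apply sum_nonneg
    intro k hk
    have := mem_range.mp (hS hk)
    exact (R.ok.wpos k (by omega)).le
  -- no event task is in the group of `T`
  have hgrp : ∀ i, f (e i) ≠ f T := by
    intro i hi
    have h1 := hf (f T)
    rw [if_pos rfl] at h1
    have h2 : I.w (e i) ≤ ∑ k ∈ (range T).filter (fun k => I.act T k ∧ f k = f T), I.w k := by
      apply single_le_sum (f := I.w) (fun k hk => ?_)
      · rw [mem_filter, mem_range]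
        exact ⟨(he i).1, hact i, hi⟩
      · have := mem_range.mp (mem_filter.mp hk).1
        exact (R.ok.wpos k (by omega)).le
    have h3 := hwe i
    linarith
  -- pigeonhole
  have hnotinj : ∃ i j, i ≠ j ∧ f (e i) = f (e j) := by
    by_contra hcon
    push Not at hcon
    have hi : Function.Injective (fun i => f (e i)) := by
      intro i j hij
      by_contra hne
      exact hcon i j hne hij
    obtain ⟨i, hi'⟩ := (Finite.injective_iff_surjective.mp hi) (f T)
    exact hgrp i hi'
  obtain ⟨i, j, hij, hfij⟩ := hnotinj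
  have h1 := hf (f (e i))
  have h2 : I.w (e i) + I.w (e j) ≤
      ∑ k ∈ (range T).filter (fun k => I.act T k ∧ f k = f (e i)), I.w k := by
    have hne : e i ≠ e j := fun h => hij (hinj h)
    rw [← sum_pair hne]
    apply sum_le_sum_of_subset_of_nonneg
    · intro k hk
      rw [mem_insert, mem_singleton] at hk
      rw [mem_filter, mem_range]
      rcases hk with h | h
      · subst h; exact ⟨(he i).1, hact i, rfl⟩
      · subst h; exact ⟨(he j).1, hact j, hfij.symm⟩
    · intro k hk _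
      have := mem_range.mp (mem_filter.mp hk).1
      exact (R.ok.wpos k (by omega)).le
  have h3 : 0 ≤ (if f T = f (e i) then I.w T else 0) := by
    split_ifs
    · exact (R.ok.wpos T hTN).le
    · exact le_rfl
  have h4 := htwo i j hij
  linarith

end Inst

end

end RLB
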