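import Pool.Agent.RLB.Events

/-! D8: targets of type R1/R3: all events after `ta T` are regular, and near-unit when many machines are
complete -/

namespace RLB

noncomputable section

open Finset Classical

namespace AP

variable {n : ℕ} (a : AP n)

theorem r13_epsE : a.eps * a.E = 1 := by
  unfold eps
  have := a.E_pos
  field_simp

/-- the length of the chain -/
theorem r13_chain_num : 2 * a.beta * ((20 * a.E * a.N0 : ℕ) : ℝ) ≤ a.eps / 100 := by
  have h1 : (a.N0 : ℝ) ^ 2 ≤ a.E := by exact_mod_cast a.hE1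
  have h2 : (4 : ℝ) ^ 30 ≤ a.N0 := by exact_mod_cast a.hN
  have h0 : (0 : ℝ) < a.N0 := lt_of_lt_of_le (by positivity) h2
  have h4 := a.E_pos
  have h5 : (48000 : ℝ) ≤ a.N0 := le_trans (by norm_num) h2
  have h6 : 48000 * (a.N0 : ℝ) ≤ a.E := by nlinarith
  unfold beta eps
  push_cast
  have e : 2 * (12 / (a.E : ℝ) ^ 3) * (20 * a.E * a.N0) = (1 / a.E) * (480 * a.N0 / a.E) := by
    field_simp
    ring
  have e2 : 1 / (a.E : ℝ) / 100 = (1 / a.E) * (1 / 100) := by ring
  rw [e, e2]
  apply mul_le_mul_of_nonneg_left _ (by positivity)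
  rw [div_le_div_iff₀ h4 (by norm_num)]
  linarith

theorem r13_pow : (n : ℝ) ≤ (1 + a.eps / 20) ^ (20 * a.E * a.N0) := by
  have h0 := a.eps_pos
  have h1 : 1 + ((20 * a.E : ℕ) : ℝ) * (a.eps / 20) ≤ (1 + a.eps / 20) ^ (20 * a.E) :=
    one_add_mul_le_pow (by linarith) _
  have h2 : 1 + ((20 * a.E : ℕ) : ℝ) * (a.eps / 20) = 2 := by
    have := a.r13_epsE
    push_cast
    linarith
  rw [h2] at h1
  have h3 : (n : ℝ) ≤ 2 ^ a.N0 := by
    have := a.hn
    exact_mod_cast this.le
  rw [pow_mul]
  exact h3.trans (pow_le_pow_left₀ (by norm_num) h1 _)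

end AP

namespace Inst

variable {n : ℕ} [NeZero n] {I : Inst n} {a : AP n} {ty : ℕ → Bool} {g N : ℕ} {c : ℕ → Fin n}

omit [NeZero n] in
theorem r13_lockable {T t : ℕ} (hty : ty T = true) (ht : I.ta a T ≤ t) (i : Fin n) :
    I.lockable a ty g T t i := by
  unfold lockable
  rw [if_pos hty]
  exact ht

/-- one step of the chain argument: many machines would be completed -/
theorem r13_step (R : I.Run a ty g N c) {T : ℕ} (hT : T ∈ I.TT N) (hty : ty T = true)
    (hcr : I.crit c T) {t : ℕ} (ht : I.ta a T ≤ t) (hE : Event I a c T t)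
    (hreg : I.x t ≤ 1 - dd n → Reg I a ty g N c T t)
    (hK : a.Keps ≤ (I.compl a c T t).card) (hw : I.w t < 1 - a.eps / 6) :
    Reg I a ty g N c T t ∧
    a.eps / 10 * ((I.compl a c T t).card : ℝ) < (I.BB a ty g N c t \ I.compl a c T t).card := by
  have hL : I.lockable a ty g T t (c t) := r13_lockable hty ht _
  have he0 := a.eps_pos
  have he1 : a.eps ≤ 1 / 10 ^ 30 := a.eps_le.trans (by norm_num)
  have hb0 := a.beta_pos
  have hb1 : a.beta ≤ 1 / 10 ^ 6 * a.eps := by
    refine a.beta_le_eps.trans ?_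
    apply mul_le_mul_of_nonneg_right _ he0.le
    norm_num
  have hn0 := a.inv_n_pos
  have hn1 : 1 / (n : ℝ) ≤ 1 / 10 ^ 6 * a.beta := by
    refine a.inv_n_le_beta.trans ?_
    apply mul_le_mul_of_nonneg_right _ hb0.le
    norm_num
  have hx : I.x t ≤ 1 - dd n := by
    by_contra hcon
    push Not at hcon
    have := event_phase2 R hT hcr hE hL hcon
    linarith
  have hR := hreg hx
  have hV := reg_volume R hT hty hcr ht hE hx hR
  refine ⟨hR, ?_⟩
  by_contra hcon
  push Not at hcon
  obtain ⟨_, _, _, hwt, _, _⟩ := event_basic R hT hcr hE hL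
  obtain ⟨hx49, hx1⟩ := event_x' R hT hE
  have hKR : 3600 * (a.E : ℝ) ≤ ((I.compl a c T t).card : ℝ) := by
    have : ((a.Keps : ℕ) : ℝ) ≤ ((I.compl a c T t).card : ℝ) := by exact_mod_cast hK
    unfold AP.Keps at this
    push_cast at this
    exact this
  have hEe := a.r13_epsE
  have hE0 := a.E_pos
  have hKe : 36 ≤ a.eps / 100 * ((I.compl a c T t).card : ℝ) := by
    have h3 : a.eps / 100 * (3600 * (a.E : ℝ)) ≤
        a.eps / 100 * ((I.compl a c T t).card : ℝ) :=
      mul_le_mul_of_nonneg_left hKR (by linarith)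
    have h4 : a.eps / 100 * (3600 * (a.E : ℝ)) = 36 * (a.eps * a.E) := by ring
    rw [h4, hEe, mul_one] at h3
    exact h3
  have hKpos : (0 : ℝ) < ((I.compl a c T t).card : ℝ) := lt_of_lt_of_le (by positivity) hKR
  have hA0 : (0 : ℝ) ≤ ((I.BB a ty g N c t \ I.compl a c T t).card : ℝ) := Nat.cast_nonneg _
  generalize ((I.compl a c T t).card : ℝ) = K at *
  generalize ((I.BB a ty g N c t \ I.compl a c T t).card : ℝ) = A at *
  have hq : 0 ≤ qq n - a.beta := by unfold qq; linarith
  have hq1 : qq n - a.beta ≤ 1 := by unfold qq; linarith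
  -- `x ≥ (q - beta) (1 - eps/8)`
  have hxb : (qq n - a.beta) * (1 - a.eps / 8) ≤ I.x t := by
    by_contra hcon2
    push Not at hcon2
    have hden : 0 < K + 2 * A + 36 := by linarith
    have h2 : I.x t * (K + 2 * A + 36) <
        (qq n - a.beta) * (1 - a.eps / 8) * (K + 2 * A + 36) :=
      mul_lt_mul_of_pos_right hcon2 hden
    have h3 : (1 - a.eps / 8) * (K + 2 * A + 36) ≤ K + A + 18 := by
      have h5 : 0 ≤ a.eps / 8 * (2 * A + 36) := by
        have : 0 ≤ 2 * A + 36 := by linarith
        positivity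
      have h6 : A + 18 ≤ a.eps / 8 * K := by
        have h7 : a.eps / 10 * K + a.eps / 100 * K ≤ a.eps / 8 * K := by
          have : 0 ≤ a.eps * K := by positivity
          linarith
        linarith
      linarith
    have h4 : (qq n - a.beta) * ((1 - a.eps / 8) * (K + 2 * A + 36)) ≤
        (qq n - a.beta) * (K + A + 18) := mul_le_mul_of_nonneg_left h3 hq
    linarith
  have hx2 : 1 - a.eps / 7 ≤ I.x t := by
    refine le_trans ?_ hxb
    unfold qq
    have h8 : (1 - 1 / (n : ℝ) - a.beta) * (1 - a.eps / 8) =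
        1 - a.eps / 8 - (1 / (n : ℝ) + a.beta) * (1 - a.eps / 8) := by ring
    have h9 : (1 / (n : ℝ) + a.beta) * (1 - a.eps / 8) ≤ (1 / (n : ℝ) + a.beta) * 1 :=
      mul_le_mul_of_nonneg_left (by linarith) (by linarith)
    rw [h8]
    linarith
  unfold theta at hwt
  rw [AP.lam_eq] at hwt
  have h10 : (1 - 80 * (1 / (n : ℝ))) * (1 - a.eps / 7) ≤ (1 - 80 * (1 / (n : ℝ))) * I.x t :=
    mul_le_mul_of_nonneg_left hx2 (by linarith)
  have h11 : (1 - 80 * (1 / (n : ℝ))) * (1 - a.eps / 7) =
      1 - a.eps / 7 - 80 * (1 / (n : ℝ)) * (1 - a.eps / 7) := by ring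
  have h12 : 80 * (1 / (n : ℝ)) * (1 - a.eps / 7) ≤ 80 * (1 / (n : ℝ)) * 1 :=
    mul_le_mul_of_nonneg_left (by linarith) (by linarith)
  linarith

/-- if all events from `t0` on are regular or in phase 2, then events with at least `Keps` complete
machines are near-unit -/
theorem near13 (R : I.Run a ty g N c) {T : ℕ} (hT : T ∈ I.TT N) (hty : ty T = true)
    (hcr : I.crit c T) (t0 : ℕ) (h0 : I.ta a T ≤ t0)
    (hreg : ∀ t, t0 ≤ t → Event I a c T t → I.x t ≤ 1 - dd n → Reg I a ty g N c T t)
    {t : ℕ} (ht : t0 ≤ t) (hE : Event I a c T t) (hK : a.Keps ≤ (I.compl a c T t).card) :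
    1 - a.eps / 5 ≤ I.w t := by
  have he0 := a.eps_pos
  have hb0 := a.beta_pos
  have hEe := a.r13_epsE
  have hE0 := a.E_pos
  have hbig : ∀ s, a.Keps ≤ (I.compl a c T s).card →
      1 ≤ a.eps / 20 * ((I.compl a c T s).card : ℝ) := by
    intro s hs
    have h1 : ((a.Keps : ℕ) : ℝ) ≤ ((I.compl a c T s).card : ℝ) := by exact_mod_cast hs
    unfold AP.Keps at h1
    push_cast at h1
    have h2 : a.eps / 20 * (3600 * (a.E : ℝ)) ≤
        a.eps / 20 * ((I.compl a c T s).card : ℝ) :=
      mul_le_mul_of_nonneg_left h1 (by linarith)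
    have h4 : a.eps / 20 * (3600 * (a.E : ℝ)) = 180 * (a.eps * a.E) := by ring
    rw [h4, hEe, mul_one] at h2
    linarith
  have hch := chain c (fun s => I.compl a c T s) I.w univ t0 T (n : ℝ)
    (by rw [card_univ, Fintype.card_fin])
    (fun s s' _ h1 h2 => compl_mono R hT h1 h2)
    (fun s _ _ i h1 h2 => compl_step R h1 h2)
    (by rw [compl_end R hT hcr]) a.Keps (1 + a.eps / 20) (1 - a.eps / 6)
    (2 * a.beta) (by linarith) (by linarith)
    (by
      intro s hs0 hsT _ hc1 hc2 hK1
      simp only [inter_univ] at hK1 ⊢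
      have hEs : Event I a c T s := ⟨hsT, hc1, hc2⟩
      by_cases hw : 1 - a.eps / 6 ≤ I.w s
      · exact Or.inl hw
      right
      push Not at hw
      obtain ⟨hR, hA⟩ := r13_step R hT hty hcr (h0.trans hs0) hEs (hreg s hs0 hEs) hK1 hw
      have hb := hbig s hK1
      have hcard : (I.BB a ty g N c s \ I.compl a c T s).card ≤
          ((I.BB a ty g N c s \ I.compl a c T s).erase (c s)).card + 1 := by
        have := pred_card_le_card_erase (s := I.BB a ty g N c s \ I.compl a c T s) (a := c s)
        omega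
      have hcardR : ((I.BB a ty g N c s \ I.compl a c T s).card : ℝ) ≤
          (((I.BB a ty g N c s \ I.compl a c T s).erase (c s)).card : ℝ) + 1 := by
        exact_mod_cast hcard
      have hgrow : a.eps / 20 * ((I.compl a c T s).card : ℝ) <
          (((I.BB a ty g N c s \ I.compl a c T s).erase (c s)).card : ℝ) := by
        linarith
      refine ⟨(I.BB a ty g N c s \ I.compl a c T s).erase (c s), subset_univ _, ?_, ?_, ?_, ?_⟩
      · apply card_pos.mp
        have : (0 : ℝ) < (((I.BB a ty g N c s \ I.compl a c T s).erase (c s)).card : ℝ) := by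
          linarith
        exact_mod_cast this
      · rw [disjoint_left]
        intro i hi hi'
        obtain ⟨h1, h2⟩ := mem_erase.mp hi
        exact h1 (compl_step R (mem_sdiff.mp h2).2 hi')
      · linarith
      · intro t' h1 h2 h3 h4 h5
        have hB := (mem_sdiff.mp (mem_of_mem_erase h3)).1
        have hL' : I.lockable a ty g T t' (c t') := r13_lockable hty (by omega) _
        apply later R hT hcr h1 ⟨h2, h4, h5⟩ hL'
        exact hR _ hB)
    (20 * a.E * a.N0) t ht hE.1 (mem_univ _) hE.2.1 hE.2.2 (by simpa only [inter_univ] using hK)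
    (by
      simp only [inter_univ]
      have h1 := hbig t hK
      have h2 : (1 : ℝ) ≤ ((I.compl a c T t).card : ℝ) := by
        have h3 : (0 : ℝ) < ((I.compl a c T t).card : ℝ) := by
          by_contra hcon
          push Not at hcon
          have : a.eps / 20 * ((I.compl a c T t).card : ℝ) ≤ 0 :=
            mul_nonpos_of_nonneg_of_nonpos (by linarith) hcon
          linarith
        exact_mod_cast h3
      have h4 := a.r13_pow
      have h5 : (0 : ℝ) < (1 + a.eps / 20) ^ (20 * a.E * a.N0) := by positivity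
      nlinarith)
  have h := a.r13_chain_num
  linarith

/-- there are no sacrifices for a critical target -/
theorem all_reg (R : I.Run a ty g N c) {T : ℕ} (hT : T ∈ I.TT N) (hty : ty T = true)
    (hcr : I.crit c T) {t : ℕ} (ht : I.ta a T ≤ t) (hE : Event I a c T t) (hx : I.x t ≤ 1 - dd n) :
    Reg I a ty g N c T t := by
  by_contra hnot
  -- the last irregular event
  let F : Finset ℕ := (range T).filter (fun s => I.ta a T ≤ s ∧ Event I a c T s ∧
    I.x s ≤ 1 - dd n ∧ ¬ Reg I a ty g N c T s)
  have hF : F.Nonempty := ⟨t, mem_filter.mpr ⟨mem_range.mpr hE.1, ht, hE, hx, hnot⟩⟩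
  obtain ⟨m, hm, hmax⟩ := F.exists_max_image id hF
  obtain ⟨hmT, hm1, hm2, hm3, hm4⟩ := mem_filter.mp hm
  have hregl : ∀ s, m + 1 ≤ s → Event I a c T s → I.x s ≤ 1 - dd n → Reg I a ty g N c T s := by
    intro s hs hEs hxs
    by_contra hn
    have : s ∈ F := mem_filter.mpr ⟨mem_range.mpr hEs.1, by omega, hEs, hxs, hn⟩
    have := hmax s this
    simp only [id] at this
    omega
  have hL : I.lockable a ty g T m (c m) := r13_lockable hty hm1 _
  obtain ⟨_, _, hJ, _, _, _⟩ := event_basic R hT hcr hm2 hL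
  obtain ⟨_, _, hhm⟩ := event_x R hT hm2
  obtain ⟨hchi, _, _⟩ := event_phase1 R hT hcr hm2 hL hm3
  have hB : (I.BB a ty g N c m).Nonempty := by
    by_contra hcon
    rw [not_nonempty_iff_eq_empty] at hcon
    apply hm4
    intro i hi
    rw [hcon] at hi
    exact absurd hi (notMem_empty i)
  obtain ⟨_, h⟩ := hchi.2 hB
  rcases h with h | h
  · exact hm4 (h.1 T hJ hty hm1 hhm)
  · obtain ⟨hcG, hwm, hsac⟩ := h
    have he0 := a.eps_pos
    have hb1 : a.beta ≤ 1 / 10 ^ 6 * a.eps := by
      refine a.beta_le_eps.trans ?_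
      apply mul_le_mul_of_nonneg_right _ he0.le
      norm_num
    rcases hsac T hJ hty hm1 hhm with h1 | h1
    · exact hm2.2.1 (mem_compl_iff.mpr h1)
    · set S := (I.BB a ty g N c m).filter
        (fun i' => I.hm a c T m i' ∧ I.uu c T m i' < qq n - a.beta) with hS
      have hfs := few_small c (fun s => I.compl a c T s) I.w univ (m + 1) T
        (fun s s' _ h1 h2 => compl_mono R hT h1 h2)
        (fun s _ _ i h1 h2 => compl_step R h1 h2) a.Keps (1 - a.eps / 5)
        (by
          intro s hs0 hsT _ hc1 hc2 hK1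
          simp only [inter_univ] at hK1
          exact near13 R hT hty hcr (m + 1) (by omega) hregl hs0 ⟨hsT, hc1, hc2⟩ hK1)
        (S.erase (c m)) (subset_univ _)
        (by
          intro i hi
          obtain ⟨hne, hiS⟩ := mem_erase.mp hi
          obtain ⟨hiB, hihm, hinc⟩ := mem_filter.mp hiS
          have hi1 : i ∉ I.compl a c T (m + 1) := by
            intro h2
            apply hne
            apply compl_step R _ h2
            rw [mem_compl_iff]
            exact not_le.mpr hinc
          obtain ⟨t', a1, a2, a3, a4, a5⟩ := exists_event c (fun s => I.compl a c T s) (m + 1) T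
            (fun s _ _ i h1 h2 => compl_step R h1 h2) (m + 1) le_rfl hm2.1 i hi1
            (by rw [compl_end R hT hcr]; exact mem_univ _)
          refine ⟨t', a1, a2, a3, a4, a5, ?_⟩
          have hEv : Event I a c T t' := ⟨a2, by rw [a3]; exact a4, by rw [a3]; exact a5⟩
          have h2 := later R hT hcr (t := m) (t' := t') (by omega) hEv
            (r13_lockable hty (by omega) _) (by rw [a3]; exact hihm)
          linarith)
      have hcard : S.card ≤ (S.erase (c m)).card + 1 := by
        have := pred_card_le_card_erase (s := S) (a := c m)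
        omega
      unfold AP.Keps at hfs
      unfold AP.Q at h1
      omega

theorem near13' (R : I.Run a ty g N c) {T : ℕ} (hT : T ∈ I.TT N) (hty : ty T = true)
    (hcr : I.crit c T) {t : ℕ} (ht : I.ta a T ≤ t) (hE : Event I a c T t)
    (hK : a.Keps ≤ (I.compl a c T t).card) : 1 - a.eps / 5 ≤ I.w t :=
  near13 R hT hty hcr (I.ta a T) le_rfl (fun _ h h1 h2 => all_reg R hT hty hcr h h1 h2) ht hE hK

end Inst

end

end RLB
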